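import Pool.Agent.Lib.Pc0b458E.Alg
import Pool.Agent.Lib.Pc0b458G.Co

/-!
# The weights of the classes of algebraic cycles on `Y`
-/

universe u

open Finset

namespace Pc0b458E

open Pc0b458V Pc0b458L

variable {Y : Pc0b458Z.NumAb.{u}} {A : Pc0b458Z.CMAb} {S : Pc0b458G.Specialisation Y A}

/-- the weight of a class of an algebraic cycle on `Y` is zero on the diagonal elements of the
motivic Lie algebra -/
theorem GM_weight {n : ℕ} {x : Y.Z} {z : Coh A.g 1} (hz : S.sp n x z)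
    {c : (Fin A.g → ℤ) × Finset (Fin A.g) → ℂ} (hc : z = ∑ p ∈ idx A.g (2 * n), c p • mo p.1 p.2)
    {η : Fin A.g → ℤ} {T : Finset (Fin A.g)} (hp : (η, T) ∈ idx A.g (2 * n)) (h : c (η, T) ≠ 0)
    {p : Ix A.g → ℂ} (hd : Matrix.diagonal p ∈ GM S) : ∑ i ∈ letters η, p i = 0 := by
  let d : Fin A.g → Bool → ℂ := fun s b => p (s, b, 0)
  obtain ⟨D, hD, hD0⟩ : ∃ D, IsDerV (diagV d) D ∧ D z = 0 := (diag_mem.1 hd) n x z hz
  obtain ⟨hη, hT, -⟩ := mem_idx.1 hp
  have e1 : (0 : Coh A.g 1) =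
      ∑ q ∈ idx A.g (2 * n), (c q * ∑ s, ev d q.1 q.2 s) • mo q.1 q.2 := by
    rw [← hD0, hc, map_sum]
    apply Finset.sum_congr rfl
    intro q _
    rw [map_smul, der_diag hD, smul_smul]
  have h2 := (Pc0b458V.CMAb.co_eq_zero (A := A.toV) e1 hp).1
    ((congrArg A.toV.int (zero_mul _)).trans (map_zero _))
  have h3 : ∑ s, ev d η T s = 0 := (mul_eq_zero.1 h2).resolve_left h
  rw [sum_letters_aux hη]
  refine Eq.trans ?_ h3
  apply Finset.sum_congr rfl
  intro s _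
  unfold ev
  by_cases hs : s ∈ T
  · have h4 := hT s hs
    have h5 : d s true + d s false = 0 := GM_pair hd s
    rw [if_pos hs, h4, h5]
    simp
  · rw [if_neg hs]

end Pc0b458E
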