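import Pool.Agent.Lib.Pc0b458V.Api

/-!
# Derivations and antilinear automorphisms of the cohomology ring

`IsDerV T D`: `D` is the derivation of the cohomology ring which extends the linear map `T` of the
first cohomology. It exists (`exists_der`: lift to matrices `((x, D x), (0, x))`) and is unique.
`der_diag`: for a diagonal map the monomials are eigenvectors.
`lam K`: the antilinear ring homomorphism of the cohomology ring which extends an antilinear map `K`
of the first cohomology. `der_conj`: it carries derivations to derivations. `kap v`: the case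
`K e_s = v_s f_s`, `K f_s = -(v_s)⁻¹ e_s`, where `e_s = gen s true 0` and `f_s = gen s false 0`;
`kap_mo`: `kap v` maps the monomial for `η` to `sg η * v ^ η` times the monomial for `-η`.
-/

open Finset ComplexConjugate Pc0b458V

namespace Pc0b458E

/-- the first cohomology -/
abbrev V1 (g : ℕ) : Type := Fin g × Bool × Fin 1 → ℂ

variable {g : ℕ}

/-- `D` is the derivation of the cohomology ring which extends `T` -/
def IsDerV (T : Module.End ℂ (V1 g)) (D : Module.End ℂ (Coh g 1)) : Prop :=
  (∀ v, D (iota g 1 v) = iota g 1 (T v)) ∧ ∀ x y, D (x * y) = D x * y + x * D y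

namespace IsDerV

variable {T T' : Module.End ℂ (V1 g)} {D D' : Module.End ℂ (Coh g 1)}

theorem one (h : IsDerV T D) : D 1 = 0 := by
  have h1 := h.2 1 1
  simp only [mul_one, one_mul] at h1
  have h2 : D 1 + 0 = D 1 + D 1 := by rw [add_zero]; exact h1
  exact (add_left_cancel h2).symm

theorem algebraMap (h : IsDerV T D) (r : ℂ) : D (algebraMap ℂ (Coh g 1) r) = 0 := by
  rw [Algebra.algebraMap_eq_smul_one, map_smul, h.one, smul_zero]

theorem unique (h : IsDerV T D) (h' : IsDerV T D') : D = D' := by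
  apply LinearMap.ext
  intro x
  refine coh_induction (P := fun x => D x = D' x) ?_ ?_ ?_ ?_ x
  · intro r; rw [h.algebraMap, h'.algebraMap]
  · intro v; rw [h.1, h'.1]
  · intro a b ha hb; rw [h.2, h'.2, ha, hb]
  · intro a b ha hb; rw [map_add, map_add, ha, hb]

theorem zero : IsDerV (0 : Module.End ℂ (V1 g)) (0 : Module.End ℂ (Coh g 1)) := by
  refine ⟨fun v => ?_, fun x y => ?_⟩
  · simp
  · simp

theorem add (h : IsDerV T D) (h' : IsDerV T' D') : IsDerV (T + T') (D + D') := by
  refine ⟨fun v => ?_, fun x y => ?_⟩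
  · simp only [LinearMap.add_apply, h.1, h'.1, map_add]
  · simp only [LinearMap.add_apply, h.2, h'.2, add_mul, mul_add]
    abel

theorem smul (h : IsDerV T D) (c : ℂ) : IsDerV (c • T) (c • D) := by
  refine ⟨fun v => ?_, fun x y => ?_⟩
  · simp only [LinearMap.smul_apply, h.1, map_smul]
  · simp only [LinearMap.smul_apply, h.2, smul_add, smul_mul_assoc, mul_smul_comm]

theorem bracket (h : IsDerV T D) (h' : IsDerV T' D') :
    IsDerV (T * T' - T' * T) (D * D' - D' * D) := by
  refine ⟨fun v => ?_, fun x y => ?_⟩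
  · simp only [LinearMap.sub_apply, Module.End.mul_apply, h.1, h'.1, map_sub]
  · simp only [LinearMap.sub_apply, Module.End.mul_apply, h.2, h'.2, map_add, sub_mul, mul_sub]
    abel

end IsDerV

/-! ### existence -/

/-- the map `v ↦ ((v, T v), (0, v))` -/
noncomputable def derOne (T : Module.End ℂ (V1 g)) :
    V1 g →ₗ[ℂ] Matrix (Fin 2) (Fin 2) (Coh g 1) where
  toFun v := Matrix.of ![![iota g 1 v, iota g 1 (T v)], ![0, iota g 1 v]]
  map_add' v w := by
    ext i j
    fin_cases i <;> fin_cases j <;> simp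
  map_smul' c v := by
    ext i j
    fin_cases i <;> fin_cases j <;> simp

theorem derOne_sq (T : Module.End ℂ (V1 g)) (v : V1 g) : derOne T v * derOne T v = 0 := by
  ext i j
  fin_cases i <;> fin_cases j
  · simp [derOne, Matrix.mul_apply, Fin.sum_univ_two, iota_sq]
  · simp only [derOne, LinearMap.coe_mk, AddHom.coe_mk, Matrix.mul_apply, Fin.sum_univ_two,
      Matrix.of_apply]
    simp [iota_anti v (T v)]
  · simp [derOne, Matrix.mul_apply, Fin.sum_univ_two]
  · simp [derOne, Matrix.mul_apply, Fin.sum_univ_two, iota_sq]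

/-- the homomorphism `x ↦ ((x, D x), (0, x))` -/
noncomputable def derHom (T : Module.End ℂ (V1 g)) :
    Coh g 1 →ₐ[ℂ] Matrix (Fin 2) (Fin 2) (Coh g 1) :=
  (ExteriorAlgebra.lift ℂ ⟨derOne T, derOne_sq T⟩ :
    ExteriorAlgebra ℂ (V1 g) →ₐ[ℂ] Matrix (Fin 2) (Fin 2) (Coh g 1))

theorem derHom_iota (T : Module.End ℂ (V1 g)) (v : V1 g) :
    derHom T (iota g 1 v) = derOne T v :=
  ExteriorAlgebra.lift_ι_apply ℂ (derOne T) (derOne_sq T) v

theorem derHom_entries (T : Module.End ℂ (V1 g)) (x : Coh g 1) :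
    derHom T x 0 0 = x ∧ derHom T x 1 1 = x ∧ derHom T x 1 0 = 0 := by
  refine coh_induction (P := fun x => derHom T x 0 0 = x ∧ derHom T x 1 1 = x ∧
    derHom T x 1 0 = 0) ?_ ?_ ?_ ?_ x
  · intro r
    rw [AlgHom.commutes]
    refine ⟨?_, ?_, ?_⟩
    · simp [Matrix.algebraMap_matrix_apply]
    · simp [Matrix.algebraMap_matrix_apply]
    · simp [Matrix.algebraMap_matrix_apply]
  · intro v
    rw [derHom_iota]
    simp [derOne]
  · intro a b ⟨ha, ha', ha''⟩ ⟨hb, hb', hb''⟩
    rw [map_mul]
    simp only [Matrix.mul_apply, Fin.sum_univ_two, ha, ha', ha'', hb, hb', hb'']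
    simp
  · intro a b ⟨ha, ha', ha''⟩ ⟨hb, hb', hb''⟩
    rw [map_add]
    simp only [Matrix.add_apply, ha, ha', ha'', hb, hb', hb'']
    simp

theorem exists_der (T : Module.End ℂ (V1 g)) : ∃ D, IsDerV T D := by
  refine ⟨LinearMap.mk (AddHom.mk (fun x => derHom T x 0 1) (fun x y => ?_)) (fun c x => ?_),
    fun v => ?_, fun x y => ?_⟩
  · rw [map_add, Matrix.add_apply]
  · show derHom T (c • x) 0 1 = c • derHom T x 0 1
    rw [map_smul, Matrix.smul_apply]
  · show derHom T (iota g 1 v) 0 1 = _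
    rw [derHom_iota]
    simp [derOne]
  · show derHom T (x * y) 0 1 = derHom T x 0 1 * y + x * derHom T y 0 1
    rw [map_mul, Matrix.mul_apply, Fin.sum_univ_two, (derHom_entries T x).1,
      (derHom_entries T y).2.1, add_comm]

/-! ### diagonal maps -/

/-- the linear map with eigenvectors `gen s b 0` and eigenvalues `d s b` -/
noncomputable def diagV (d : Fin g → Bool → ℂ) : Module.End ℂ (V1 g) :=
  LinearMap.pi fun i => d i.1 i.2.1 • LinearMap.proj i

theorem diagV_single (d : Fin g → Bool → ℂ) (s : Fin g) (b : Bool) :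
    diagV d (Pi.single (s, b, 0) 1) = d s b • (Pi.single (s, b, 0) 1 : V1 g) := by
  funext i
  obtain ⟨t, c, l⟩ := i
  simp only [diagV, LinearMap.pi_apply, LinearMap.smul_apply, LinearMap.proj_apply, Pi.smul_apply,
    Pi.single_apply, smul_eq_mul]
  by_cases h : (t, c, l) = (s, b, (0 : Fin 1))
  · rw [if_pos h, mul_one]
    obtain ⟨rfl, h2⟩ := Prod.mk.inj h
    obtain ⟨rfl, -⟩ := Prod.mk.inj h2
    rw [mul_one]
  · rw [if_neg h, mul_zero, mul_zero]

/-- the eigenvalue of the letter at `s` -/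
noncomputable def ev (d : Fin g → Bool → ℂ) (η : Fin g → ℤ) (T : Finset (Fin g)) (s : Fin g) : ℂ :=
  if s ∈ T then d s true + d s false else if η s = 1 then d s true else if η s = -1 then d s false
    else 0

theorem der_gen {d : Fin g → Bool → ℂ} {D : Module.End ℂ (Coh g 1)} (h : IsDerV (diagV d) D)
    (s : Fin g) (b : Bool) : D (gen s b 0) = d s b • gen s b 0 := by
  rw [gen, h.1, diagV_single, map_smul]

theorem der_lt {d : Fin g → Bool → ℂ} {D : Module.End ℂ (Coh g 1)} (h : IsDerV (diagV d) D)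
    (η : Fin g → ℤ) (T : Finset (Fin g)) (s : Fin g) : D (lt η T s) = ev d η T s • lt η T s := by
  unfold lt ev
  split_ifs
  · rw [dd, h.2, der_gen h, der_gen h, smul_mul_assoc, mul_smul_comm, ← add_smul]
  · exact der_gen h s true
  · exact der_gen h s false
  · rw [h.one, zero_smul]

theorem der_lprod {T : Module.End ℂ (V1 g)} {D : Module.End ℂ (Coh g 1)} (h : IsDerV T D) {n : ℕ}
    {a : Fin n → Coh g 1} {c : Fin n → ℂ} (ha : ∀ i, D (a i) = c i • a i) :
    D (lprod a) = (∑ i, c i) • lprod a := by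
  induction n with
  | zero => rw [lprod_zero, h.one]; simp
  | succ n ih =>
    rw [lprod_succ, h.2, ha 0, ih (fun i => ha i.succ), Fin.sum_univ_succ, smul_mul_assoc,
      mul_smul_comm, ← add_smul]

/-- the monomials are eigenvectors of diagonal derivations -/
theorem der_diag {d : Fin g → Bool → ℂ} {D : Module.End ℂ (Coh g 1)} (h : IsDerV (diagV d) D)
    (η : Fin g → ℤ) (T : Finset (Fin g)) : D (mo η T) = (∑ s, ev d η T s) • mo η T :=
  der_lprod h fun s => der_lt h η T s

/-! ### antilinear ring homomorphisms -/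

/-- the cohomology ring with the conjugate structure of a complex algebra -/
def CB (g : ℕ) : Type := Coh g 1

noncomputable instance instRingCB : Ring (CB g) := inferInstanceAs (Ring (Coh g 1))

noncomputable instance instAlgebraCB : Algebra ℂ (CB g) :=
  RingHom.toAlgebra' ((algebraMap ℂ (Coh g 1)).comp (starRingEnd ℂ))
    (fun c x => Algebra.commutes (A := Coh g 1) (conj c) x)

theorem CB_smul (c : ℂ) (x : CB g) : c • x = (conj c • (show Coh g 1 from x) : Coh g 1) := by
  rw [Algebra.smul_def, Algebra.smul_def]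
  rfl

/-- the antilinear map into the cohomology ring as a linear map -/
noncomputable def lamOne (K : V1 g →ₛₗ[starRingEnd ℂ] V1 g) : V1 g →ₗ[ℂ] CB g where
  toFun v := (iota g 1 (K v) : Coh g 1)
  map_add' v w := by
    rw [map_add, map_add]
    rfl
  map_smul' c v := by
    rw [map_smulₛₗ, map_smul, RingHom.id_apply, CB_smul]

theorem lamOne_sq (K : V1 g →ₛₗ[starRingEnd ℂ] V1 g) (v : V1 g) :
    lamOne K v * lamOne K v = 0 := iota_sq (K v)

noncomputable def lamHom (K : V1 g →ₛₗ[starRingEnd ℂ] V1 g) : Coh g 1 →ₐ[ℂ] CB g :=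
  (ExteriorAlgebra.lift ℂ ⟨lamOne K, lamOne_sq K⟩ : ExteriorAlgebra ℂ (V1 g) →ₐ[ℂ] CB g)

/-- the antilinear ring homomorphism which extends `K` -/
noncomputable def lam (K : V1 g →ₛₗ[starRingEnd ℂ] V1 g) (x : Coh g 1) : Coh g 1 := lamHom K x

variable (K : V1 g →ₛₗ[starRingEnd ℂ] V1 g)

theorem lam_iota (v : V1 g) : lam K (iota g 1 v) = iota g 1 (K v) :=
  ExteriorAlgebra.lift_ι_apply ℂ (lamOne K) (lamOne_sq K) v

theorem lam_mul (x y : Coh g 1) : lam K (x * y) = lam K x * lam K y := map_mul (lamHom K) x y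

theorem lam_one : lam K 1 = 1 := map_one (lamHom K)

theorem lam_zero : lam K 0 = 0 := map_zero (lamHom K)

theorem lam_add (x y : Coh g 1) : lam K (x + y) = lam K x + lam K y := map_add (lamHom K) x y

theorem lam_smul (c : ℂ) (x : Coh g 1) : lam K (c • x) = conj c • lam K x := by
  have h : lamHom K (c • x) = c • lamHom K x := map_smul (lamHom K) c x
  rw [CB_smul] at h
  exact h

theorem lam_algebraMap (r : ℂ) :
    lam K (algebraMap ℂ (Coh g 1) r) = algebraMap ℂ (Coh g 1) (conj r) := by
  rw [Algebra.algebraMap_eq_smul_one, lam_smul, lam_one, ← Algebra.algebraMap_eq_smul_one]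

theorem lam_sum {α : Type*} (s : Finset α) (f : α → Coh g 1) :
    lam K (∑ i ∈ s, f i) = ∑ i ∈ s, lam K (f i) := map_sum (lamHom K) f s

theorem lam_lprod {n : ℕ} (a : Fin n → Coh g 1) : lam K (lprod a) = lprod fun i => lam K (a i) := by
  induction n with
  | zero => rw [lprod_zero, lprod_zero, lam_one]
  | succ n ih => rw [lprod_succ, lprod_succ, lam_mul, ih]

theorem lam_lam {K L : V1 g →ₛₗ[starRingEnd ℂ] V1 g} (h : ∀ v, K (L v) = v) (x : Coh g 1) :
    lam K (lam L x) = x := by
  refine coh_induction (P := fun x => lam K (lam L x) = x) ?_ ?_ ?_ ?_ x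
  · intro r; rw [lam_algebraMap, lam_algebraMap, Complex.conj_conj]
  · intro v; rw [lam_iota, lam_iota, h]
  · intro a b ha hb; rw [lam_mul, lam_mul, ha, hb]
  · intro a b ha hb; rw [lam_add, lam_add, ha, hb]

/-- the conjugate of a linear map -/
noncomputable def cj (K L : V1 g →ₛₗ[starRingEnd ℂ] V1 g) (T : Module.End ℂ (V1 g)) :
    Module.End ℂ (V1 g) where
  toFun v := K (T (L v))
  map_add' v w := by rw [map_add, map_add, map_add]
  map_smul' c v := by
    rw [map_smulₛₗ, map_smul, map_smulₛₗ, Complex.conj_conj, RingHom.id_apply]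

/-- antilinear ring automorphisms carry derivations to derivations -/
theorem der_conj {K L : V1 g →ₛₗ[starRingEnd ℂ] V1 g} (hKL : ∀ v, K (L v) = v)
    {T : Module.End ℂ (V1 g)} {D : Module.End ℂ (Coh g 1)}
    (h : IsDerV T D) : ∃ D', IsDerV (cj K L T) D' ∧ ∀ x, D' x = lam K (D (lam L x)) := by
  refine ⟨LinearMap.mk (AddHom.mk (fun x => lam K (D (lam L x))) (fun x y => ?_)) (fun c x => ?_),
    ⟨fun v => ?_, fun x y => ?_⟩, fun x => rfl⟩
  · rw [lam_add, map_add, lam_add]
  · show lam K (D (lam L (c • x))) = c • lam K (D (lam L x))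
    rw [lam_smul, map_smul, lam_smul, Complex.conj_conj]
  · show lam K (D (lam L (iota g 1 v))) = iota g 1 (K (T (L v)))
    rw [lam_iota, h.1, lam_iota]
  · show lam K (D (lam L (x * y))) = lam K (D (lam L x)) * y + x * lam K (D (lam L y))
    rw [lam_mul, h.2, lam_add, lam_mul, lam_mul, lam_lam hKL, lam_lam hKL]

/-- a derivation which kills a class fixed by the antilinear automorphism: its conjugate kills it -/
theorem der_conj_kill {K L : V1 g →ₛₗ[starRingEnd ℂ] V1 g} (hKL : ∀ v, K (L v) = v)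
    (hLK : ∀ v, L (K v) = v) {T : Module.End ℂ (V1 g)} {x : Coh g 1} (hx : lam K x = x)
    (h : ∃ D, IsDerV T D ∧ D x = 0) : ∃ D, IsDerV (cj K L T) D ∧ D x = 0 := by
  obtain ⟨D, hD, h0⟩ := h
  obtain ⟨D', hD', h1⟩ := der_conj hKL hD
  refine ⟨D', hD', ?_⟩
  have h2 : lam L x = x := by
    nth_rewrite 1 [← hx]
    exact lam_lam hLK x
  rw [h1, h2, h0, lam_zero]

/-! ### the twisted conjugation -/

/-- `e_s ↦ v_s f_s`, `f_s ↦ -(v_s)⁻¹ e_s` -/
noncomputable def kapOne (v : Fin g → ℂ) : V1 g →ₛₗ[starRingEnd ℂ] V1 g where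
  toFun f i := (if i.2.1 then -(v i.1)⁻¹ else v i.1) * conj (f (i.1, !i.2.1, i.2.2))
  map_add' f h := by
    funext i
    simp only [Pi.add_apply, map_add, mul_add]
  map_smul' c f := by
    funext i
    simp only [Pi.smul_apply, smul_eq_mul, map_mul]
    ring

/-- the inverse of `kapOne v` -/
noncomputable def kapInv (v : Fin g → ℂ) : V1 g →ₛₗ[starRingEnd ℂ] V1 g where
  toFun f i := (if i.2.1 then (conj (v i.1))⁻¹ else -conj (v i.1)) * conj (f (i.1, !i.2.1, i.2.2))
  map_add' f h := by
    funext i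
    simp only [Pi.add_apply, map_add, mul_add]
  map_smul' c f := by
    funext i
    simp only [Pi.smul_apply, smul_eq_mul, map_mul]
    ring

theorem kapOne_kapInv {v : Fin g → ℂ} (hv : ∀ s, v s ≠ 0) (f : V1 g) :
    kapOne v (kapInv v f) = f := by
  funext i
  obtain ⟨s, b, l⟩ := i
  have h := hv s
  cases b
  · simp only [kapOne, kapInv, LinearMap.coe_mk, AddHom.coe_mk, Bool.false_eq_true, if_false,
      Bool.not_false, if_true, Bool.not_true, map_mul, map_inv₀, Complex.conj_conj]
    field_simp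
  · simp only [kapOne, kapInv, LinearMap.coe_mk, AddHom.coe_mk, Bool.false_eq_true, if_false,
      Bool.not_false, if_true, Bool.not_true, map_mul, map_neg, Complex.conj_conj]
    field_simp

theorem kapInv_kapOne {v : Fin g → ℂ} (hv : ∀ s, v s ≠ 0) (f : V1 g) :
    kapInv v (kapOne v f) = f := by
  funext i
  obtain ⟨s, b, l⟩ := i
  have h : conj (v s) ≠ 0 := (map_ne_zero _).2 (hv s)
  cases b
  · simp only [kapOne, kapInv, LinearMap.coe_mk, AddHom.coe_mk, Bool.false_eq_true, if_false,
      Bool.not_false, if_true, Bool.not_true, map_mul, map_neg, map_inv₀, Complex.conj_conj]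
    field_simp
  · simp only [kapOne, kapInv, LinearMap.coe_mk, AddHom.coe_mk, Bool.false_eq_true, if_false,
      Bool.not_false, if_true, Bool.not_true, map_mul, Complex.conj_conj]
    field_simp

/-- the antilinear automorphism of the cohomology ring -/
noncomputable def kap (v : Fin g → ℂ) : Coh g 1 → Coh g 1 := lam (kapOne v)

theorem kapOne_single_true (v : Fin g → ℂ) (s : Fin g) :
    kapOne v (Pi.single (s, true, 0) 1) = v s • (Pi.single (s, false, 0) 1 : V1 g) := by
  funext i
  obtain ⟨t, c, l⟩ := i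
  have hl : l = 0 := Subsingleton.elim _ _
  subst hl
  simp only [kapOne, LinearMap.coe_mk, AddHom.coe_mk, Pi.smul_apply, Pi.single_apply, smul_eq_mul,
    Prod.mk.injEq, and_true]
  cases c
  · by_cases h : t = s
    · subst h; simp
    · simp [h]
  · simp

theorem kapOne_single_false (v : Fin g → ℂ) (s : Fin g) :
    kapOne v (Pi.single (s, false, 0) 1) = (-(v s)⁻¹) • (Pi.single (s, true, 0) 1 : V1 g) := by
  funext i
  obtain ⟨t, c, l⟩ := i
  have hl : l = 0 := Subsingleton.elim _ _
  subst hl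
  simp only [kapOne, LinearMap.coe_mk, AddHom.coe_mk, Pi.smul_apply, Pi.single_apply, smul_eq_mul,
    Prod.mk.injEq, and_true]
  cases c
  · simp
  · by_cases h : t = s
    · subst h; simp
    · simp [h]

theorem kap_gen_true (v : Fin g → ℂ) (s : Fin g) :
    kap v (gen s true 0) = v s • gen s false 0 := by
  rw [kap, gen, lam_iota, kapOne_single_true, map_smul, gen]

theorem kap_gen_false (v : Fin g → ℂ) (s : Fin g) :
    kap v (gen s false 0) = (-(v s)⁻¹) • gen s true 0 := by
  rw [kap, gen, lam_iota, kapOne_single_false, map_smul, gen]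

theorem kap_dd {v : Fin g → ℂ} (hv : ∀ s, v s ≠ 0) (s : Fin g) : kap v (dd s) = dd s := by
  have h := hv s
  have e : kap v (dd s) = kap v (gen s true 0) * kap v (gen s false 0) := lam_mul _ _ _
  rw [e, kap_gen_true, kap_gen_false, smul_mul_smul_comm, dd, gen_anti s s false true, smul_neg,
    ← neg_smul]
  have h1 : -(v s * -(v s)⁻¹) = 1 := by field_simp
  rw [h1, one_smul]

/-- the factor of the letter at `s` -/
noncomputable def kfac (v : Fin g → ℂ) (η : Fin g → ℤ) (T : Finset (Fin g)) (s : Fin g) : ℂ :=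
  if s ∈ T then 1 else if η s = 1 then v s else if η s = -1 then -(v s)⁻¹ else 1

theorem kap_lt {v : Fin g → ℂ} (hv : ∀ s, v s ≠ 0) (η : Fin g → ℤ) (T : Finset (Fin g))
    (s : Fin g) : kap v (lt η T s) = kfac v η T s • lt (-η) T s := by
  unfold lt kfac
  by_cases hT : s ∈ T
  · rw [if_pos hT, if_pos hT, if_pos hT, kap_dd hv, one_smul]
  rw [if_neg hT, if_neg hT, if_neg hT]
  by_cases h1 : η s = 1
  · have h2 : ¬ ((-η) s = 1) := by rw [Pi.neg_apply, h1]; decide
    have h3 : (-η) s = -1 := by rw [Pi.neg_apply, h1]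
    rw [if_pos h1, if_pos h1, if_neg h2, if_pos h3, kap_gen_true]
  by_cases h2 : η s = -1
  · have h3 : (-η) s = 1 := by rw [Pi.neg_apply, h2]; decide
    rw [if_neg h1, if_neg h1, if_pos h2, if_pos h2, if_pos h3, kap_gen_false]
  · have h3 : ¬ ((-η) s = 1) := by
      rw [Pi.neg_apply]
      intro h
      exact h2 (by linarith)
    have h4 : ¬ ((-η) s = -1) := by
      rw [Pi.neg_apply]
      intro h
      exact h1 (by linarith)
    rw [if_neg h1, if_neg h1, if_neg h2, if_neg h2, if_neg h3, if_neg h4, one_smul]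
    exact lam_one _

theorem kap_mo_aux {v : Fin g → ℂ} (hv : ∀ s, v s ≠ 0) (η : Fin g → ℤ) (T : Finset (Fin g)) :
    kap v (mo η T) = (∏ s, kfac v η T s) • mo (-η) T := by
  have h : kap v (mo η T) = lprod fun s => kap v (lt η T s) := lam_lprod _ _
  rw [h, mo, ← lprod_smul]
  congr 1
  funext s
  exact kap_lt hv η T s

theorem prod_kfac {v : Fin g → ℂ} {η : Fin g → ℤ} (hη : ∀ s, η s = -1 ∨ η s = 0 ∨ η s = 1)
    {T : Finset (Fin g)} (hT : ∀ s ∈ T, η s = 0) :
    ∏ s, kfac v η T s = (sg η : ℂ) * ∏ s, v s ^ η s := by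
  have h1 : (sg η : ℂ) = ∏ s, (if η s = 0 then (1 : ℂ) else (η s : ℂ)) := by
    unfold sg supp
    rw [Int.cast_prod, Finset.prod_filter]
    apply Finset.prod_congr rfl
    intro s _
    by_cases h : η s = 0 <;> simp [h]
  rw [h1, ← Finset.prod_mul_distrib]
  apply Finset.prod_congr rfl
  intro s _
  unfold kfac
  rcases hη s with h | h | h
  · have hs : s ∉ T := fun hs => by rw [hT s hs] at h; exact absurd h (by decide)
    rw [if_neg hs, h]
    simp
  · by_cases hs : s ∈ T
    · rw [if_pos hs, h]; simp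
    · rw [if_neg hs, h]; simp
  · have hs : s ∉ T := fun hs => by rw [hT s hs] at h; exact absurd h (by decide)
    rw [if_neg hs, h]
    simp

/-- the twisted conjugation on monomials -/
theorem kap_mo {v : Fin g → ℂ} (hv : ∀ s, v s ≠ 0) {η : Fin g → ℤ}
    (hη : ∀ s, η s = -1 ∨ η s = 0 ∨ η s = 1) {T : Finset (Fin g)} (hT : ∀ s ∈ T, η s = 0) :
    kap v (mo η T) = ((sg η : ℂ) * ∏ s, v s ^ η s) • mo (-η) T := by
  rw [kap_mo_aux hv, prod_kfac hη hT]

theorem kap_add (v : Fin g → ℂ) (x y : Coh g 1) : kap v (x + y) = kap v x + kap v y :=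
  lam_add _ x y

theorem kap_smul (v : Fin g → ℂ) (c : ℂ) (x : Coh g 1) : kap v (c • x) = conj c • kap v x :=
  lam_smul _ c x

theorem kap_sum (v : Fin g → ℂ) {α : Type*} (s : Finset α) (f : α → Coh g 1) :
    kap v (∑ i ∈ s, f i) = ∑ i ∈ s, kap v (f i) := lam_sum _ s f

end Pc0b458E
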