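import Pool.Agent.Lib.Pc0b458V.Contr
import Pool.Agent.Lib.Pc0b458V.Pairing

/-!
# Linear independence of the monomials
-/

open Finset

namespace Pc0b458E

open Pc0b458V

/-- the monomials of even degree are linearly independent -/
theorem coef_zero (A : Pc0b458V.CMAb) {n : ℕ} {c : (Fin A.g → ℤ) × Finset (Fin A.g) → ℂ}
    (hc : ∑ p ∈ idx A.g (2 * n), c p • mo p.1 p.2 = 0) {η : Fin A.g → ℤ} {T : Finset (Fin A.g)}
    (hp : (η, T) ∈ idx A.g (2 * n)) : c (η, T) = 0 := by
  obtain ⟨h1, h2, h3⟩ := mem_idx.1 hp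
  obtain ⟨k, hk⟩ : ∃ k, size η = 2 * k := ⟨n - T.card, by omega⟩
  have hdisj : ∀ V : Finset (Fin A.g), (∀ s ∈ V, η s = 0) → (supp η ∪ T)ᶜ = (supp η ∪ V)ᶜ → V = T := by
    intro V hV h
    have h' : supp η ∪ T = supp η ∪ V := compl_injective h
    ext s
    constructor
    · intro hs
      have hs' : s ∈ supp η ∪ T := by rw [h']; exact mem_union_right _ hs
      rcases mem_union.1 hs' with h0 | h0
      · exact absurd (hV s hs) (by simpa [supp] using h0)
      · exact h0
    · intro hs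
      have hs' : s ∈ supp η ∪ V := by rw [← h']; exact mem_union_right _ hs
      rcases mem_union.1 hs' with h0 | h0
      · exact absurd (h2 s hs) (by simpa [supp] using h0)
      · exact h0
  have key : ∀ p ∈ idx A.g (2 * n), A.int (mo p.1 p.2 * mo (-η) ∅ * dT (supp η ∪ T)ᶜ) =
      if p = (η, T) then (-1 : ℂ) ^ k * (sg η : ℂ) * A.top else 0 := by
    rintro ⟨θ, V⟩ hV
    obtain ⟨g1, g2, g3⟩ := mem_idx.1 hV
    by_cases hθ : θ = η
    · subst hθ
      rw [CMAb.int_mul_neg A h1 hk g2 (by simp)]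
      by_cases hVT : V = T
      · subst hVT
        rw [if_pos rfl, if_pos]
        exact ⟨disjoint_empty_right _, by rw [union_empty]⟩
      · rw [if_neg (fun h => hVT (Prod.mk.inj h).2), if_neg]
        rintro ⟨-, h⟩
        rw [union_empty] at h
        exact hVT (hdisj V g2 h)
    · rw [if_neg (fun h => hθ (Prod.mk.inj h).1)]
      refine CMAb.int_mul_ne A g1 (neg_wt h1) g2 (by simp) ?_
      intro h
      exact hθ (neg_injective h).symm
  have h0 := congrArg (fun z => A.int (z * mo (-η) ∅ * dT (supp η ∪ T)ᶜ)) hc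
  simp only [zero_mul, map_zero, Finset.sum_mul, map_sum, smul_mul_assoc, map_smul, smul_eq_mul]
    at h0
  rw [Finset.sum_congr rfl fun p hp => by rw [key p hp]] at h0
  simp only [mul_ite, mul_zero, Finset.sum_ite_eq', if_pos hp] at h0
  have hne : (-1 : ℂ) ^ k * (sg η : ℂ) * A.top ≠ 0 := by
    obtain ⟨t, ht, htop⟩ := CMAb.top_pos (A := A)
    have h5 : (sg η : ℂ) ≠ 0 := by
      rcases sg_cases h1 with h | h <;> rw [h] <;> norm_num
    have h6 : A.top ≠ 0 := by
      rw [htop]
      exact_mod_cast ht.ne'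
    exact mul_ne_zero (mul_ne_zero (pow_ne_zero _ (by norm_num)) h5) h6
  exact (mul_eq_zero.1 h0).resolve_right hne

end Pc0b458E
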