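import Pool.Agent.Lib.Pc0b458E.Stmt
import Pool.Agent.Lib.Pc0b458E.Der
import Pool.Agent.Lib.Pc0b458E.Indep
import Pool.Agent.Lib.Pc0b458V.Conv
import Pool.Agent.Lib.Pc0b458L.Tw

/-!
# The matrices of the motivic Lie algebra
-/

universe u

open Finset

namespace Pc0b458E

open Pc0b458V Pc0b458L

variable {Y : Pc0b458Z.NumAb.{u}} {A : Pc0b458Z.CMAb} (S : Pc0b458G.Specialisation Y A)

/-- the index set of the basis of the first cohomology -/
abbrev Ix (g : ℕ) : Type := Fin g × Bool × Fin 1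

theorem mem_Lie {T : Module.End ℂ (V1 A.g)} : T ∈ Lie S ↔ ∀ n x y, S.sp n x y →
    ∃ D : Module.End ℂ (Coh A.g 1), IsDerV T D ∧ D y = 0 := Iff.rfl

theorem Lie_add {T T' : Module.End ℂ (V1 A.g)} (h : T ∈ Lie S) (h' : T' ∈ Lie S) :
    T + T' ∈ Lie S := by
  rw [mem_Lie] at h h' ⊢
  intro n x y hxy
  obtain ⟨D, hD, h0⟩ := h n x y hxy
  obtain ⟨D', hD', h0'⟩ := h' n x y hxy
  exact ⟨D + D', hD.add hD', by rw [LinearMap.add_apply, h0, h0', add_zero]⟩

theorem Lie_smul {T : Module.End ℂ (V1 A.g)} (c : ℂ) (h : T ∈ Lie S) : c • T ∈ Lie S := by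
  rw [mem_Lie] at h ⊢
  intro n x y hxy
  obtain ⟨D, hD, h0⟩ := h n x y hxy
  exact ⟨c • D, hD.smul c, by rw [LinearMap.smul_apply, h0, smul_zero]⟩

theorem Lie_zero : (0 : Module.End ℂ (V1 A.g)) ∈ Lie S := by
  rw [mem_Lie]
  intro n x y _
  exact ⟨0, IsDerV.zero, rfl⟩

theorem Lie_bracket {T T' : Module.End ℂ (V1 A.g)} (h : T ∈ Lie S) (h' : T' ∈ Lie S) :
    T * T' - T' * T ∈ Lie S := by
  rw [mem_Lie] at h h' ⊢
  intro n x y hxy
  obtain ⟨D, hD, h0⟩ := h n x y hxy
  obtain ⟨D', hD', h0'⟩ := h' n x y hxy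
  refine ⟨D * D' - D' * D, hD.bracket hD', ?_⟩
  rw [LinearMap.sub_apply, Module.End.mul_apply, Module.End.mul_apply, h0, h0', map_zero, map_zero,
    sub_zero]

/-- the matrices of the elements of the motivic Lie algebra -/
noncomputable def GM : Submodule ℂ (Matrix (Ix A.g) (Ix A.g) ℂ) where
  carrier := {M | Matrix.toLin' M ∈ Lie S}
  add_mem' := by
    intro M N hM hN
    show Matrix.toLin' (M + N) ∈ Lie S
    rw [map_add]
    exact Lie_add S hM hN
  zero_mem' := by
    show Matrix.toLin' 0 ∈ Lie S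
    rw [map_zero]
    exact Lie_zero S
  smul_mem' := by
    intro c M hM
    show Matrix.toLin' (c • M) ∈ Lie S
    rw [map_smul]
    exact Lie_smul S c hM

variable {S}

theorem mem_GM {M : Matrix (Ix A.g) (Ix A.g) ℂ} : M ∈ GM S ↔ Matrix.toLin' M ∈ Lie S := Iff.rfl

theorem GM_lie (X : Matrix (Ix A.g) (Ix A.g) ℂ) (hX : X ∈ GM S) (Z : Matrix (Ix A.g) (Ix A.g) ℂ)
    (hZ : Z ∈ GM S) : X * Z - Z * X ∈ GM S := by
  rw [mem_GM] at hX hZ ⊢
  rw [map_sub, Matrix.toLin'_mul, Matrix.toLin'_mul]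
  exact Lie_bracket S hX hZ

theorem toLin_diagonal {g : ℕ} (p : Ix g → ℂ) :
    Matrix.toLin' (Matrix.diagonal p) = diag (fun s b => p (s, b, 0)) := by
  apply LinearMap.ext
  intro f
  funext i
  obtain ⟨s, b, l⟩ := i
  have hl : l = 0 := Subsingleton.elim _ _
  subst hl
  rw [Matrix.toLin'_apply, Matrix.mulVec_diagonal]
  rfl

theorem diag_mem {p : Ix A.g → ℂ} :
    Matrix.diagonal p ∈ GM S ↔ diag (fun s b => p (s, b, 0)) ∈ Lie S := by
  rw [mem_GM, toLin_diagonal]

theorem diag_eq {g : ℕ} (d : Fin g → Bool → ℂ) : diag d = diagV d := rfl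

/-- a diagonal element kills the classes of algebraic cycles -/
theorem diag_kill {p : Ix A.g → ℂ} (hp : Matrix.diagonal p ∈ GM S) {n : ℕ} {x : Y.Z}
    {y : Coh A.g 1} (hy : S.sp n x y) : ∃ D : Module.End ℂ (Coh A.g 1),
      IsDerV (diagV fun s b => p (s, b, 0)) D ∧ D y = 0 :=
  (mem_Lie S).1 (diag_mem.1 hp) n x y hy

theorem dd_eq_mo {g : ℕ} (s : Fin g) : dd s = mo 0 {s} := by
  have e : lt (0 : Fin g → ℤ) {s} = fun i => if i = s then dd s else 1 := by
    funext i
    by_cases h : i = s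
    · subst h
      simp [lt]
    · simp [lt, h]
  rw [mo, e, lprod_ite]

theorem GM_pair {p : Ix A.g → ℂ} (hp : Matrix.diagonal p ∈ GM S) (s : Fin A.g) :
    p (s, true, 0) + p (s, false, 0) = 0 := by
  obtain ⟨D, hD, h0⟩ := diag_kill hp S.pol
  have h1 : D (pol A.g) = ∑ t, (p (t, true, 0) + p (t, false, 0)) • dd t := by
    rw [pol_eq, map_sum]
    refine Finset.sum_congr rfl fun t _ => ?_
    rw [dd, hD.2, der_gen hD, der_gen hD, smul_mul_assoc, mul_smul_comm, ← add_smul]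
  have h2 : ∑ t, (p (t, true, 0) + p (t, false, 0)) • dd t = (0 : Coh A.g 1) := by
    rw [← h1]
    exact h0
  let c : (Fin A.g → ℤ) × Finset (Fin A.g) → ℂ := fun q =>
    if q.1 = 0 then ∑ t, (if q.2 = {t} then p (t, true, 0) + p (t, false, 0) else 0) else 0
  have hidx : ∀ t : Fin A.g, ((0 : Fin A.g → ℤ), ({t} : Finset (Fin A.g))) ∈ idx A.g (2 * 1) := by
    intro t
    rw [mem_idx]
    refine ⟨fun _ => Or.inr (Or.inl rfl), fun _ _ => rfl, ?_⟩
    simp [size]
  have h3 : ∑ q ∈ idx A.g (2 * 1), c q • mo q.1 q.2 = (0 : Coh A.g 1) := by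
    have e1 : ∀ q ∈ idx A.g (2 * 1), c q • mo q.1 q.2 =
        ∑ t, (if q = ((0 : Fin A.g → ℤ), ({t} : Finset (Fin A.g))) then
          (p (t, true, 0) + p (t, false, 0)) • dd t else (0 : Coh A.g 1)) := by
      rintro ⟨θ, V⟩ _
      show (if θ = 0 then ∑ t, (if V = {t} then p (t, true, 0) + p (t, false, 0) else 0) else 0) •
        mo θ V = _
      by_cases hθ : θ = 0
      · subst hθ
        rw [if_pos rfl, Finset.sum_smul]
        refine Finset.sum_congr rfl fun t _ => ?_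
        by_cases hV : V = {t}
        · subst hV
          rw [if_pos rfl, if_pos rfl, dd_eq_mo]
        · rw [if_neg hV, if_neg (fun h => hV (Prod.mk.inj h).2), zero_smul]
      · rw [if_neg hθ, zero_smul]
        symm
        apply Finset.sum_eq_zero
        intro t _
        rw [if_neg (fun h => hθ (Prod.mk.inj h).1)]
    rw [Finset.sum_congr rfl e1, Finset.sum_comm]
    refine Eq.trans ?_ h2
    refine Finset.sum_congr rfl fun t _ => ?_
    rw [Finset.sum_ite_eq', if_pos (hidx t)]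
  have h4 := coef_zero A.toV h3 (hidx s)
  have h5 : c ((0 : Fin A.g → ℤ), ({s} : Finset (Fin A.g))) =
      p (s, true, 0) + p (s, false, 0) := by
    show (if (0 : Fin A.g → ℤ) = 0 then ∑ t, (if ({s} : Finset (Fin A.g)) = {t} then
      p (t, true, 0) + p (t, false, 0) else 0) else 0) = _
    rw [if_pos rfl, Finset.sum_eq_single s]
    · rw [if_pos rfl]
    · intro t _ ht
      rw [if_neg]
      intro h
      exact ht (Finset.singleton_injective h).symm
    · intro h
      exact absurd (Finset.mem_univ s) h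
  rw [← h5]
  exact h4

/-- the letters of a weight -/
noncomputable def letters {g : ℕ} (η : Fin g → ℤ) : Finset (Ix g) :=
  univ.filter fun i => (η i.1 = 1 ∧ i.2.1 = true) ∨ (η i.1 = -1 ∧ i.2.1 = false)

theorem prod_letters {g : ℕ} {η : Fin g → ℤ} (_hη : ∀ s, η s = -1 ∨ η s = 0 ∨ η s = 1)
    {M : Type*} [CommMonoid M] (F : Ix g → M) : ∏ i ∈ letters η, F i =
      ∏ s, (if η s = 1 then F (s, true, 0) else if η s = -1 then F (s, false, 0) else 1) := by
  unfold letters
  rw [Finset.prod_filter, Fintype.prod_prod_type]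
  refine Finset.prod_congr rfl fun s _ => ?_
  rw [Fintype.prod_prod_type, Fintype.prod_bool]
  simp only [Fintype.prod_unique, Fin.default_eq_zero, and_true, and_false, or_false, false_or,
    Bool.false_eq_true, Bool.true_eq_false]
  by_cases h1 : η s = 1
  · have h2 : ¬ (η s = -1) := by rw [h1]; decide
    simp [h1]
  · by_cases h2 : η s = -1
    · simp [h2]
    · simp [h1, h2]

theorem sum_letters_aux {g : ℕ} {η : Fin g → ℤ} (hη : ∀ s, η s = -1 ∨ η s = 0 ∨ η s = 1)
    {M : Type*} [AddCommMonoid M] (F : Ix g → M) : ∑ i ∈ letters η, F i =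
      ∑ s, (if η s = 1 then F (s, true, 0) else if η s = -1 then F (s, false, 0) else 0) :=
  prod_letters (M := Multiplicative M) hη F

theorem card_letters {g : ℕ} {η : Fin g → ℤ} (hη : ∀ s, η s = -1 ∨ η s = 0 ∨ η s = 1) :
    (letters η).card = size η := by
  rw [Finset.card_eq_sum_ones, sum_letters_aux hη, size]
  refine Finset.sum_congr rfl fun s _ => ?_
  rcases hη s with h | h | h <;> simp [h]

end Pc0b458E
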