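import Pool.Agent.Lib.Pc0b458E.StmtG
import Pool.Agent.Lib.Pc0b458E.Alg

/-!
# Automorphisms of the cohomology ring given by diagonal maps

`ext_mo`: the monomials are eigenvectors of the ring endomorphism which extends a diagonal map.
`ext_fix`: the classes which it fixes. `central_diag`: diagonal maps which are central.
`fixed_of_scalarCentre`: if only the scalars are central then all classes of cycles are fixed.
-/

universe u

open Finset

namespace Pc0b458E

open Pc0b458V Pc0b458L

section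

variable {g : ℕ}

/-- the ring endomorphism which extends a linear map of the first cohomology -/
noncomputable def extV (Z : Module.End ℂ (V1 g)) : Coh g 1 →ₐ[ℂ] Coh g 1 :=
  ExteriorAlgebra.map Z

theorem ext_eq (Z : Module.End ℂ (V1 g)) (x : Coh g 1) : ext Z x = extV Z x := rfl

theorem extV_iota (Z : Module.End ℂ (V1 g)) (v : V1 g) :
    extV Z (iota g 1 v) = iota g 1 (Z v) := ExteriorAlgebra.map_apply_ι Z v

theorem extV_gen (z : Ix g → ℂ) (s : Fin g) (b : Bool) :
    extV (Matrix.toLin' (Matrix.diagonal z)) (gen s b 0) = z (s, b, 0) • gen s b 0 := by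
  rw [toLin_diagonal, diag_eq, gen, extV_iota, diagV_single, map_smul]

/-- the factor of the letter at `s` -/
noncomputable def efac (z : Ix g → ℂ) (η : Fin g → ℤ) (T : Finset (Fin g)) (s : Fin g) : ℂ :=
  if s ∈ T then z (s, true, 0) * z (s, false, 0) else if η s = 1 then z (s, true, 0)
    else if η s = -1 then z (s, false, 0) else 1

theorem extV_lt (z : Ix g → ℂ) (η : Fin g → ℤ) (T : Finset (Fin g)) (s : Fin g) :
    extV (Matrix.toLin' (Matrix.diagonal z)) (lt η T s) = efac z η T s • lt η T s := by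
  unfold lt efac
  split_ifs
  · rw [dd, map_mul, extV_gen, extV_gen, smul_mul_smul_comm]
  · exact extV_gen z s true
  · exact extV_gen z s false
  · rw [map_one, one_smul]

theorem extV_mo (z : Ix g → ℂ) (η : Fin g → ℤ) (T : Finset (Fin g)) :
    extV (Matrix.toLin' (Matrix.diagonal z)) (mo η T) = (∏ s, efac z η T s) • mo η T := by
  rw [mo, map_lprod, ← lprod_smul]
  congr 1
  funext s
  exact extV_lt z η T s

theorem prod_efac (z : Ix g → ℂ) {η : Fin g → ℤ} (hη : ∀ s, η s = -1 ∨ η s = 0 ∨ η s = 1)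
    {T : Finset (Fin g)} (hT : ∀ s ∈ T, η s = 0) :
    ∏ s, efac z η T s = (∏ i ∈ letters η, z i) * ∏ s ∈ T, z (s, true, 0) * z (s, false, 0) := by
  have h1 : (∏ s ∈ T, z (s, true, 0) * z (s, false, 0)) =
      ∏ s, (if s ∈ T then z (s, true, 0) * z (s, false, 0) else 1) := by
    rw [Finset.prod_ite_mem, Finset.univ_inter]
  rw [prod_letters hη, h1, ← Finset.prod_mul_distrib]
  apply Finset.prod_congr rfl
  intro s _
  unfold efac
  by_cases hs : s ∈ T
  · rw [if_pos hs, if_pos hs, hT s hs]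
    simp
  · rw [if_neg hs, if_neg hs, mul_one]

/-- the monomials are eigenvectors -/
theorem ext_mo (z : Ix g → ℂ) {η : Fin g → ℤ} (hη : ∀ s, η s = -1 ∨ η s = 0 ∨ η s = 1)
    {T : Finset (Fin g)} (hT : ∀ s ∈ T, η s = 0) :
    ext (Matrix.toLin' (Matrix.diagonal z)) (mo η T) =
      ((∏ i ∈ letters η, z i) * ∏ s ∈ T, z (s, true, 0) * z (s, false, 0)) • mo η T := by
  rw [ext_eq, extV_mo, prod_efac z hη hT]

end

/-- the classes which are fixed -/
theorem ext_fix (A : Pc0b458V.CMAb) {n : ℕ} {y : Coh A.g 1}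
    {c : (Fin A.g → ℤ) × Finset (Fin A.g) → ℂ}
    (hc : y = ∑ p ∈ idx A.g (2 * n), c p • mo p.1 p.2) {z : Ix A.g → ℂ} :
    ext (Matrix.toLin' (Matrix.diagonal z)) y = y ↔ ∀ η T, (η, T) ∈ idx A.g (2 * n) →
      c (η, T) ≠ 0 → (∏ i ∈ letters η, z i) * ∏ s ∈ T, z (s, true, 0) * z (s, false, 0) = 1 := by
  have h1 : extV (Matrix.toLin' (Matrix.diagonal z)) y - y = ∑ p ∈ idx A.g (2 * n),
      (c p * (((∏ i ∈ letters p.1, z i) * ∏ s ∈ p.2, z (s, true, 0) * z (s, false, 0)) - 1)) •
        mo p.1 p.2 := by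
    conv_lhs => rw [hc]
    rw [map_sum, ← Finset.sum_sub_distrib]
    apply Finset.sum_congr rfl
    rintro ⟨η, T⟩ hp
    obtain ⟨hη, hT, -⟩ := mem_idx.1 hp
    rw [map_smul, extV_mo, prod_efac z hη hT, smul_smul, ← sub_smul, mul_sub, mul_one]
  have h3 : (ext (Matrix.toLin' (Matrix.diagonal z)) y = y) ↔
      extV (Matrix.toLin' (Matrix.diagonal z)) y - y = 0 := sub_eq_zero.symm
  rw [h3, h1]
  constructor
  · intro h2 η T hp h0
    have h3 := coef_zero A h2 hp
    rcases mul_eq_zero.1 h3 with h4 | h4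
    · exact absurd h4 h0
    · exact sub_eq_zero.1 h4
  · intro h
    apply Finset.sum_eq_zero
    rintro ⟨η, T⟩ hp
    by_cases h0 : c (η, T) = 0
    · simp only [h0, zero_mul, zero_smul]
    · simp only [h η T hp h0, sub_self, mul_zero, zero_smul]

section

variable {Y : Pc0b458Z.NumAb.{u}} {A : Pc0b458Z.CMAb} {S : Pc0b458G.Specialisation Y A}

theorem mem_idx_single {g : ℕ} (t : Fin g) :
    ((0 : Fin g → ℤ), ({t} : Finset (Fin g))) ∈ idx g (2 * 1) := by
  rw [mem_idx]
  refine ⟨fun _ => Or.inr (Or.inl rfl), fun _ _ => rfl, ?_⟩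
  simp [size]

/-- the coefficients of the class of the polarisation -/
theorem pol_rep (g : ℕ) : ∃ c : (Fin g → ℤ) × Finset (Fin g) → ℂ,
    (pol g = ∑ q ∈ idx g (2 * 1), c q • mo q.1 q.2) ∧ ∀ s, c (0, {s}) = 1 := by
  classical
  refine ⟨fun q => ∑ t : Fin g, (if q = ((0 : Fin g → ℤ), ({t} : Finset (Fin g))) then (1 : ℂ)
    else 0), ?_, fun s => ?_⟩
  · have e1 : ∀ q ∈ idx g (2 * 1), (∑ t : Fin g, (if q = ((0 : Fin g → ℤ),
        ({t} : Finset (Fin g))) then (1 : ℂ) else 0)) • mo q.1 q.2 =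
        ∑ t : Fin g, (if q = ((0 : Fin g → ℤ), ({t} : Finset (Fin g))) then dd t
          else (0 : Coh g 1)) := by
      intro q _
      rw [Finset.sum_smul]
      refine Finset.sum_congr rfl fun t _ => ?_
      by_cases h : q = ((0 : Fin g → ℤ), ({t} : Finset (Fin g)))
      · subst h
        rw [if_pos rfl, if_pos rfl, one_smul, dd_eq_mo]
      · rw [if_neg h, if_neg h, zero_smul]
    rw [Finset.sum_congr rfl e1, Finset.sum_comm, pol_eq]
    refine Finset.sum_congr rfl fun t _ => ?_
    rw [Finset.sum_ite_eq', if_pos (mem_idx_single t)]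
  · show (∑ t : Fin g, (if ((0 : Fin g → ℤ), ({s} : Finset (Fin g))) =
      ((0 : Fin g → ℤ), ({t} : Finset (Fin g))) then (1 : ℂ) else 0)) = 1
    rw [Finset.sum_eq_single s]
    · rw [if_pos rfl]
    · intro t _ ht
      rw [if_neg]
      intro h
      exact ht (Finset.singleton_injective (Prod.mk.inj h).2).symm
    · intro h
      exact absurd (Finset.mem_univ s) h

/-- products of diagonal maps -/
theorem toLin_diagonal_mul {g : ℕ} (z t : Ix g → ℂ) :
    Matrix.toLin' (Matrix.diagonal z) * Matrix.toLin' (Matrix.diagonal t) =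
      Matrix.toLin' (Matrix.diagonal fun i => z i * t i) := by
  rw [← Matrix.diagonal_mul_diagonal, Matrix.toLin'_mul]
  rfl

/-- diagonal maps which are central -/
theorem central_diag (S : Pc0b458G.Specialisation Y A) {z : Ix A.g → ℂ}
    (h1 : ∀ i j, (∃ X ∈ GM S, X i j ≠ 0) → z i = z j)
    (h2 : ∀ i j, (∀ f ∈ Car (GM S), f i = f j) → z i = z j) :
    Central S (Matrix.toLin' (Matrix.diagonal z)) := by
  have key : ∀ T : Module.End ℂ (H1 A.g), (∀ i j, LinearMap.toMatrix' T i j ≠ 0 → z i = z j) →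
      Matrix.toLin' (Matrix.diagonal z) * T = T * Matrix.toLin' (Matrix.diagonal z) := by
    intro T hT
    have h : Matrix.diagonal z * LinearMap.toMatrix' T =
        LinearMap.toMatrix' T * Matrix.diagonal z := by
      ext i j
      rw [Matrix.diagonal_mul, Matrix.mul_diagonal]
      by_cases h : LinearMap.toMatrix' T i j = 0
      · rw [h, mul_zero, zero_mul]
      · rw [hT i j h, mul_comm]
    have := congrArg Matrix.toLin' h
    rwa [Matrix.toLin'_mul, Matrix.toLin'_mul, Matrix.toLin'_toMatrix'] at this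
  refine ⟨fun T hT => key T fun i j h => h1 i j ⟨_, ?_, h⟩, fun Z' hZ' => key Z' ?_⟩
  · rw [mem_GM, Matrix.toLin'_toMatrix']
    exact hT
  · intro i j hij
    apply h2
    intro f hf
    have h3 : Matrix.toLin' (Matrix.diagonal fun i => (f i : ℂ)) ∈ Lie S := hf
    have h4 := congrArg LinearMap.toMatrix' (hZ' _ h3)
    rw [LinearMap.toMatrix'_mul, LinearMap.toMatrix'_mul, LinearMap.toMatrix'_toLin'] at h4
    have h5 := congrFun (congrFun h4 i) j
    rw [Matrix.mul_diagonal, Matrix.diagonal_mul, mul_comm] at h5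
    exact_mod_cast (mul_right_cancel₀ hij h5).symm

/-- if only the scalars are central then the classes of all algebraic cycles on `Y` are fixed -/
theorem fixed_of_scalarCentre (hC : ScalarCentre S) {n : ℕ} {x : Y.Z} {y : Coh A.g 1}
    (hy : S.sp n x y) : Fixed S y := by
  intro Z hZ h2
  obtain ⟨k, hk⟩ := hC Z hZ.1 hZ.2
  have hZ' : Z = Matrix.toLin' (Matrix.diagonal fun _ : Ix A.g => k) := by
    rw [hk]
    apply LinearMap.ext
    intro f
    funext i
    rw [Matrix.toLin'_apply, Matrix.mulVec_diagonal]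
    rfl
  -- the square of the scalar is one, or the first cohomology is zero
  have hsq : ∀ s : Fin A.g, k * k = 1 := by
    intro s
    have h3 := h2 1 (by norm_num) _ _ S.pol
    obtain ⟨c, hc, hc1⟩ := pol_rep A.g
    rw [hZ'] at h3
    have h5 : c ((0 : Fin A.g → ℤ), ({s} : Finset (Fin A.g))) ≠ 0 := by
      rw [hc1 s]
      exact one_ne_zero
    have h4 : (∏ _i ∈ letters (0 : Fin A.g → ℤ), k) * ∏ _t ∈ ({s} : Finset (Fin A.g)), k * k = 1 :=
      (ext_fix A.toV hc).1 h3 (0 : Fin A.g → ℤ) ({s} : Finset (Fin A.g)) (mem_idx_single s) h5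
    have hl : (letters (0 : Fin A.g → ℤ)).card = 0 := by
      rw [card_letters (η := (0 : Fin A.g → ℤ)) (fun _ => Or.inr (Or.inl rfl))]
      simp [size]
    rw [Finset.prod_const, Finset.prod_singleton, hl, pow_zero, one_mul] at h4
    exact h4
  have hgr : y ∈ gr A.g 1 (2 * n) := by
    obtain ⟨a, ha, b, hb, hab⟩ := S.alg n x y hy
    rw [hab]
    exact Submodule.sub_mem _ (A.eff_deg n a ha) (A.eff_deg n b hb)
  obtain ⟨c, hc⟩ := rep hgr
  rw [hZ']
  refine (ext_fix A.toV hc).2 ?_
  intro η T hp _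
  obtain ⟨hη, hT, hd⟩ := mem_idx.1 hp
  rw [Finset.prod_const, Finset.prod_const, card_letters hη]
  by_cases hg : Nonempty (Fin A.g)
  · obtain ⟨s⟩ := hg
    have h5 : k ^ size η * (k * k) ^ T.card = k ^ (2 * n) := by
      rw [← hd, pow_add, pow_mul, sq]
    rw [h5, pow_mul, sq, hsq s, one_pow]
  · have h6 : T = ∅ := by
      rw [Finset.eq_empty_iff_forall_notMem]
      intro s _
      exact hg ⟨s⟩
    have h7 : size η = 0 := by
      rw [size]
      exact Finset.sum_eq_zero fun s _ => absurd ⟨s⟩ hg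
    rw [h6, h7]
    simp

end

end Pc0b458E
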