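import Pool.Agent.Lib.Pc0b458E.StmtR
import Pool.Agent.Lib.Pc0b458E.Aut
import Pool.Agent.Lib.Pc0b458L.Share

/-!
# Abelian varieties whose endomorphism algebra has a totally real centre of degree at most three:
# the components of the index set
-/

universe u

open Finset

namespace Pc0b458E

open Pc0b458V Pc0b458L

variable {Y : Pc0b458Z.NumAb.{u}} {A : Pc0b458Z.CMAb} {S : Pc0b458G.Specialisation Y A}

theorem diag_single {g : ℕ} (z : Ix g → ℂ) (i : Ix g) :
    Matrix.toLin' (Matrix.diagonal z) (Pi.single i 1) = z i • (Pi.single i 1 : Ix g → ℂ) := by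
  funext j
  rw [Matrix.toLin'_apply, Matrix.mulVec_diagonal, Pi.smul_apply, smul_eq_mul]
  by_cases h : j = i
  · subst h
    rfl
  · rw [Pi.single_eq_of_ne h, mul_zero, mul_zero]

theorem form_smul_left {g : ℕ} (c : ℂ) (x y : H1 g) : form (c • x) y = c * form x y := by
  unfold form
  rw [Finset.mul_sum]
  refine Finset.sum_congr rfl fun s _ => ?_
  simp only [Pi.smul_apply, smul_eq_mul]
  ring

theorem form_smul_right {g : ℕ} (c : ℂ) (x y : H1 g) : form x (c • y) = c * form x y := by
  unfold form
  rw [Finset.mul_sum]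
  refine Finset.sum_congr rfl fun s _ => ?_
  simp only [Pi.smul_apply, smul_eq_mul]
  ring

theorem form_gen {g : ℕ} (s : Fin g) :
    form (Pi.single (s, true, 0) 1 : H1 g) (Pi.single (s, false, 0) 1) = 1 := by
  unfold form
  rw [Finset.sum_eq_single s]
  · simp
  · intro t _ ht
    simp [ht]
  · intro h
    exact absurd (Finset.mem_univ s) h

/-- the values of a self-adjoint diagonal map -/
theorem adj_pair {g : ℕ} {z : Ix g → ℂ} (h : ∀ x y : H1 g,
    form (Matrix.toLin' (Matrix.diagonal z) x) y = form x (Matrix.toLin' (Matrix.diagonal z) y))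
    (s : Fin g) : z (s, true, 0) = z (s, false, 0) := by
  have h1 := h (Pi.single (s, true, 0) 1) (Pi.single (s, false, 0) 1)
  rw [diag_single, diag_single, form_smul_left, form_smul_right, form_gen, mul_one, mul_one] at h1
  exact h1

open Classical in
/-- the indicator function of a component -/
noncomputable def ind (S : Pc0b458G.Specialisation Y A) (i : Ix A.g) : Ix A.g → ℂ :=
  fun j => if Conn (GM S) i j then 1 else 0

theorem ind_eq {i j k : Ix A.g} (h : Conn (GM S) j k) : ind S i j = ind S i k := by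
  unfold ind
  by_cases h1 : Conn (GM S) i j
  · have h2 : Conn (GM S) i k := Relation.EqvGen.trans _ _ _ h1 h
    rw [if_pos h1, if_pos h2]
  · have h2 : ¬ Conn (GM S) i k := fun h2 =>
      h1 (Relation.EqvGen.trans _ _ _ h2 (Relation.EqvGen.symm _ _ h))
    rw [if_neg h1, if_neg h2]

theorem ind_central (i : Ix A.g) : Central S (Matrix.toLin' (Matrix.diagonal (ind S i))) :=
  central_diag S (fun _ _ h => ind_eq (Relation.EqvGen.rel _ _ (Or.inl h)))
    (fun _ _ h => ind_eq (Relation.EqvGen.rel _ _ (Or.inr h)))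

/-- opposite indices are connected -/
theorem conn_bar (hR : RealCentre S) (s : Fin A.g) (b : Bool) :
    Conn (GM S) (s, b, 0) (s, !b, 0) := by
  have h1 := adj_pair (hR.2 _ (ind_central (S := S) (s, b, 0))) s
  have h2 : ind S (s, b, 0) (s, !b, 0) = ind S (s, b, 0) (s, b, 0) := by
    cases b
    · exact h1
    · exact h1.symm
  have h3 : ind S (s, b, 0) (s, b, 0) = 1 := if_pos (Relation.EqvGen.refl _)
  by_contra h4
  have h5 : ind S (s, b, 0) (s, !b, 0) = 0 := if_neg h4
  rw [h5, h3] at h2
  exact zero_ne_one h2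

/-- there are at most three components -/
theorem conn_three (hR : RealCentre S) (a : Fin 4 → Ix A.g) :
    ∃ p q, p ≠ q ∧ Conn (GM S) (a p) (a q) := by
  by_contra hcon
  push Not at hcon
  obtain ⟨B, hB⟩ := hR.1
  let Z : Fin 4 → Module.End ℂ (H1 A.g) := fun p =>
    Matrix.toLin' (Matrix.diagonal (ind S (a p)))
  have hZ : ∀ p q, Z p (Pi.single (a q) 1) =
      (if p = q then (1 : ℂ) else 0) • (Pi.single (a q) 1 : H1 A.g) := by
    intro p q
    have h1 : Z p (Pi.single (a q) 1) = ind S (a p) (a q) • (Pi.single (a q) 1 : H1 A.g) :=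
      diag_single _ _
    rw [h1]
    congr 1
    unfold ind
    by_cases hpq : p = q
    · subst hpq
      have h2 : Conn (GM S) (a p) (a p) := Relation.EqvGen.refl _
      rw [if_pos rfl, if_pos h2]
    · rw [if_neg hpq, if_neg (hcon p q hpq)]
  have hlin : LinearIndependent ℂ Z := by
    rw [Fintype.linearIndependent_iff]
    intro c hc q
    have h1 := congrArg (fun T : Module.End ℂ (H1 A.g) => T (Pi.single (a q) 1) (a q)) hc
    simp only [LinearMap.sum_apply, LinearMap.smul_apply, LinearMap.zero_apply, hZ,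
      Finset.sum_apply, Pi.smul_apply, Pi.single_eq_same, smul_eq_mul, mul_one, Pi.zero_apply]
      at h1
    simpa using h1
  have hmem : ∀ p, Z p ∈ Submodule.span ℂ (Set.range B) := fun p => hB _ (ind_central _)
  let Z' : Fin 4 → Submodule.span ℂ (Set.range B) := fun p => ⟨Z p, hmem p⟩
  have hlin' : LinearIndependent ℂ Z' := by
    apply LinearIndependent.of_comp (Submodule.subtype _)
    exact hlin
  have h1 := hlin'.fintype_card_le_finrank
  have h2 : Module.finrank ℂ (Submodule.span ℂ (Set.range B)) ≤ Fintype.card (Fin 3) :=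
    finrank_range_le_card B
  rw [Fintype.card_fin] at h1 h2
  omega

/-- a scalar centre is a special case -/
theorem realCentre_of_scalarCentre (hC : ScalarCentre S) : RealCentre S := by
  have h : ∀ Z : Module.End ℂ (H1 A.g), Central S Z → ∃ c : ℂ, Z = c • 1 :=
    fun Z hZ => hC Z hZ.1 hZ.2
  refine ⟨⟨fun _ => 1, fun Z hZ => ?_⟩, fun Z hZ x y => ?_⟩
  · obtain ⟨c, rfl⟩ := h Z hZ
    exact Submodule.smul_mem _ _ (Submodule.subset_span ⟨0, rfl⟩)
  · obtain ⟨c, rfl⟩ := h Z hZ
    rw [LinearMap.smul_apply, LinearMap.smul_apply, Module.End.one_apply, Module.End.one_apply,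
      form_smul_left, form_smul_right]

end Pc0b458E
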