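import Pool.Agent.Lib.Pc0b458E.StmtM
import Pool.Agent.Lib.Pc0b458E.RealC
import Pool.Agent.Lib.Pc0b458E.Alg2
import Pool.Agent.Lib.Pc0b458L.MixedQ

/-!
# Adjoints of central linear maps

The motivic Lie algebra is contained in the symplectic Lie algebra, since it kills the class of the
polarisation. Hence the adjoint of a diagonal central map is central. `EqS S i j`: all diagonal central
maps have the same value at `i` and at `j`.
-/

universe u

open Finset

namespace Pc0b458E

open Pc0b458V Pc0b458L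

section

variable {g : ℕ}

/-- the opposite letter -/
def oppI (i : Ix g) : Ix g := (i.1, !i.2.1, i.2.2)

/-- the sign of a letter -/
def sgI (i : Ix g) : ℂ := if i.2.1 then 1 else -1

theorem oppI_oppI (i : Ix g) : oppI (oppI i) = i := by
  obtain ⟨s, b, l⟩ := i
  show (s, !!b, l) = (s, b, l)
  rw [Bool.not_not]

theorem sgI_opp (i : Ix g) : sgI (oppI i) = -sgI i := by
  obtain ⟨s, b, l⟩ := i
  cases b <;> simp [sgI, oppI]

theorem sgI_mul (i : Ix g) : sgI i * sgI i = 1 := by
  obtain ⟨s, b, l⟩ := i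
  cases b <;> simp [sgI]

theorem sgI_ne (i : Ix g) : sgI i ≠ 0 := by
  obtain ⟨s, b, l⟩ := i
  cases b <;> simp [sgI]

/-- the bijection given by the opposite letters -/
def oppE : Ix g ≃ Ix g := ⟨oppI, oppI, oppI_oppI, oppI_oppI⟩

/-- the coordinates with the numbers `i` and `j` -/
def coordL (i j : Ix g) : V1 g →ₗ[ℂ] (Fin 2 → ℂ) :=
  LinearMap.pi ![LinearMap.proj i, LinearMap.proj j]

/-- the alternating form given by two coordinates -/
noncomputable def altB (i j : Ix g) : (V1 g) [⋀^Fin 2]→ₗ[ℂ] ℂ :=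
  (Matrix.detRowAlternating (R := ℂ) (n := Fin 2)).compLinearMap (coordL i j)

theorem altB_apply (i j : Ix g) (x y : V1 g) : altB i j ![x, y] = x i * y j - x j * y i := by
  have h : altB i j ![x, y] = Matrix.det (fun k => coordL i j ((![x, y] : Fin 2 → V1 g) k)) := rfl
  rw [h, Matrix.det_fin_two]
  rfl

/-- the family of alternating forms with `altB i j` in degree two -/
noncomputable def famB (i j : Ix g) : (n : ℕ) → (V1 g) [⋀^Fin n]→ₗ[ℂ] ℂ
  | 2 => altB i j
  | _ => 0

/-- the linear form on the exterior algebra given by two coordinates -/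
noncomputable def phiB (i j : Ix g) : Coh g 1 →ₗ[ℂ] ℂ :=
  ExteriorAlgebra.liftAlternating (famB i j)

theorem phiB_mul (i j : Ix g) (x y : V1 g) :
    phiB i j (iota g 1 x * iota g 1 y) = x i * y j - x j * y i := by
  have h : phiB i j (iota g 1 x * iota g 1 y) =
      ExteriorAlgebra.liftAlternating (famB i j)
        (ExteriorAlgebra.ι ℂ x * ExteriorAlgebra.ι ℂ y) := rfl
  rw [h, ExteriorAlgebra.liftAlternating_ι_mul, ExteriorAlgebra.liftAlternating_ι,
    ← altB_apply i j x y]
  rfl

/-- the adjoint of a matrix for the symplectic form -/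
def adjM (M : Matrix (Ix g) (Ix g) ℂ) : Matrix (Ix g) (Ix g) ℂ :=
  Matrix.of fun i j => sgI i * sgI j * M (oppI j) (oppI i)

theorem adjM_apply (M : Matrix (Ix g) (Ix g) ℂ) (i j : Ix g) :
    adjM M i j = sgI i * sgI j * M (oppI j) (oppI i) := rfl

theorem adjM_mul (M N : Matrix (Ix g) (Ix g) ℂ) : adjM (M * N) = adjM N * adjM M := by
  ext i j
  rw [adjM_apply, Matrix.mul_apply, Matrix.mul_apply, Finset.mul_sum,
    ← Equiv.sum_comp (oppE (g := g))]
  apply Finset.sum_congr rfl
  intro k _
  rw [adjM_apply, adjM_apply]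
  show sgI i * sgI j * (M (oppI j) (oppI k) * N (oppI k) (oppI i)) = _
  linear_combination (-(sgI i * sgI j * N (oppI k) (oppI i) * M (oppI j) (oppI k))) * sgI_mul k

theorem adjM_ne {M : Matrix (Ix g) (Ix g) ℂ} {i j : Ix g} (h : M i j ≠ 0) :
    adjM M (oppI j) (oppI i) ≠ 0 := by
  rw [adjM_apply, oppI_oppI, oppI_oppI]
  exact mul_ne_zero (mul_ne_zero (sgI_ne _) (sgI_ne _)) h

end

section

variable {Y : Pc0b458Z.NumAb.{u}} {A : Pc0b458Z.CMAb} {S : Pc0b458G.Specialisation Y A}

theorem single_apply_eq {g : ℕ} (M : Matrix (Ix g) (Ix g) ℂ) (i j : Ix g) :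
    Matrix.toLin' M (Pi.single j 1) i = M i j := by
  rw [Matrix.toLin'_apply, Matrix.mulVec_single_one]
  rfl

/-- the motivic Lie algebra is contained in the symplectic Lie algebra -/
theorem GM_adj {M : Matrix (Ix A.g) (Ix A.g) ℂ} (hM : M ∈ GM S) : adjM M = -M := by
  have key : ∀ i j : Ix A.g, sgI j * M i (oppI j) = sgI i * M j (oppI i) := by
    intro i j
    obtain ⟨D, hD, h0⟩ := (mem_Lie S).1 (mem_GM.1 hM) _ _ _ S.pol
    have h1 : D (pol A.g) = ∑ s : Fin A.g,
        (iota A.g 1 (Matrix.toLin' M (Pi.single (s, true, 0) 1)) *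
          iota A.g 1 (Pi.single (s, false, 0) 1) +
        iota A.g 1 (Pi.single (s, true, 0) 1) *
          iota A.g 1 (Matrix.toLin' M (Pi.single (s, false, 0) 1))) := by
      have h2 : (pol A.g) = ∑ s : Fin A.g, iota A.g 1 (Pi.single (s, true, 0) 1) *
          iota A.g 1 (Pi.single (s, false, 0) 1) := rfl
      rw [h2, map_sum]
      apply Finset.sum_congr rfl
      intro s _
      rw [hD.2, hD.1, hD.1]
    have h2 : ∑ s : Fin A.g,
        (M i (s, true, 0) * (Pi.single (s, false, 0) 1 : Ix A.g → ℂ) j -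
          M j (s, true, 0) * (Pi.single (s, false, 0) 1 : Ix A.g → ℂ) i +
        ((Pi.single (s, true, 0) 1 : Ix A.g → ℂ) i * M j (s, false, 0) -
          (Pi.single (s, true, 0) 1 : Ix A.g → ℂ) j * M i (s, false, 0))) = 0 := by
      have h3 : phiB i j (D (pol A.g)) = 0 := by
        have h4 : D (pol A.g) = 0 := h0
        rw [h4, map_zero]
      rw [h1, map_sum] at h3
      rw [← h3]
      apply Finset.sum_congr rfl
      intro s _
      rw [map_add, phiB_mul, phiB_mul, single_apply_eq, single_apply_eq, single_apply_eq,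
        single_apply_eq]
    have e1 : ∀ (F : Fin A.g → ℂ) (b : Bool) (k : Ix A.g),
        ∑ s : Fin A.g, F s * (Pi.single (s, b, 0) 1 : Ix A.g → ℂ) k =
          if k.2.1 = b then F k.1 else 0 := by
      rintro F b ⟨t, c, l⟩
      have hl : l = 0 := Subsingleton.elim _ _
      subst hl
      rw [Finset.sum_eq_single t]
      · by_cases hcb : c = b
        · subst hcb
          rw [Pi.single_eq_same, if_pos rfl, mul_one]
        · rw [if_neg hcb, Pi.single_eq_of_ne (fun h => hcb (by
            have := congrArg (fun i : Ix A.g => i.2.1) h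
            exact this)), mul_zero]
      · intro s _ hs
        rw [Pi.single_eq_of_ne (fun h => hs (by
          have := congrArg (fun i : Ix A.g => i.1) h
          exact this.symm)), mul_zero]
      · intro h
        exact absurd (Finset.mem_univ t) h
    have e2 : ∀ (F : Fin A.g → ℂ) (b : Bool) (k : Ix A.g),
        ∑ s : Fin A.g, (Pi.single (s, b, 0) 1 : Ix A.g → ℂ) k * F s =
          if k.2.1 = b then F k.1 else 0 := by
      intro F b k
      rw [← e1 F b k]
      apply Finset.sum_congr rfl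
      intro s _
      ring
    rw [Finset.sum_add_distrib, Finset.sum_sub_distrib, Finset.sum_sub_distrib,
      e1 (fun s => M i (s, true, 0)), e1 (fun s => M j (s, true, 0)),
      e2 (fun s => M j (s, false, 0)), e2 (fun s => M i (s, false, 0))] at h2
    obtain ⟨s, b, l⟩ := i
    obtain ⟨t, c, l'⟩ := j
    have hl : l = 0 := Subsingleton.elim _ _
    have hl' : l' = 0 := Subsingleton.elim _ _
    subst hl
    subst hl'
    cases b <;> cases c <;> simp [sgI, oppI] at h2 ⊢ <;>
      first | linear_combination h2 | linear_combination (-1 : ℂ) * h2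
  ext i j
  rw [adjM_apply, Matrix.neg_apply]
  have h1 := key i (oppI j)
  rw [oppI_oppI, sgI_opp] at h1
  linear_combination (-(sgI j)) * h1 - M i j * sgI_mul j

/-- diagonal central maps -/
theorem central_iff {d : Ix A.g → ℂ} : Central S (Matrix.toLin' (Matrix.diagonal d)) ↔
    (∀ M ∈ GM S, ∀ i j, M i j ≠ 0 → d i = d j) ∧
    ∀ N : Matrix (Ix A.g) (Ix A.g) ℂ, (∀ M ∈ GM S, N * M = M * N) →
      ∀ i j, N i j ≠ 0 → d i = d j := by
  have comm : ∀ M : Matrix (Ix A.g) (Ix A.g) ℂ,
      Matrix.toLin' (Matrix.diagonal d) * Matrix.toLin' M =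
        Matrix.toLin' M * Matrix.toLin' (Matrix.diagonal d) ↔
      ∀ i j, M i j ≠ 0 → d i = d j := by
    intro M
    have e1 : Matrix.toLin' (Matrix.diagonal d) * Matrix.toLin' M =
        Matrix.toLin' (Matrix.diagonal d * M) := (Matrix.toLin'_mul _ _).symm
    have e2 : Matrix.toLin' M * Matrix.toLin' (Matrix.diagonal d) =
        Matrix.toLin' (M * Matrix.diagonal d) := (Matrix.toLin'_mul _ _).symm
    rw [e1, e2, EquivLike.apply_eq_iff_eq]
    constructor
    · intro h i j hij
      have h1 := congrFun (congrFun h i) j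
      rw [Matrix.diagonal_mul, Matrix.mul_diagonal, mul_comm] at h1
      exact mul_left_cancel₀ hij h1
    · intro h
      ext i j
      rw [Matrix.diagonal_mul, Matrix.mul_diagonal]
      by_cases h1 : M i j = 0
      · rw [h1, mul_zero, zero_mul]
      · rw [h i j h1, mul_comm]
  have comm' : ∀ M N : Matrix (Ix A.g) (Ix A.g) ℂ,
      Matrix.toLin' N * Matrix.toLin' M = Matrix.toLin' M * Matrix.toLin' N ↔
        N * M = M * N := by
    intro M N
    have e1 : Matrix.toLin' N * Matrix.toLin' M = Matrix.toLin' (N * M) :=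
      (Matrix.toLin'_mul _ _).symm
    have e2 : Matrix.toLin' M * Matrix.toLin' N = Matrix.toLin' (M * N) :=
      (Matrix.toLin'_mul _ _).symm
    rw [e1, e2, EquivLike.apply_eq_iff_eq]
  constructor
  · rintro ⟨h1, h2⟩
    refine ⟨fun M hM => (comm M).1 (h1 _ (mem_GM.1 hM)), fun N hN => (comm N).1 (h2 _ ?_)⟩
    intro T hT
    have hT' : LinearMap.toMatrix' T ∈ GM S := by
      rw [mem_GM, Matrix.toLin'_toMatrix']
      exact hT
    have h3 := (comm' _ _).2 (hN _ hT')
    rwa [Matrix.toLin'_toMatrix'] at h3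
  · rintro ⟨h1, h2⟩
    refine ⟨fun T hT => ?_, fun Z' hZ' => ?_⟩
    · have hT' : LinearMap.toMatrix' T ∈ GM S := by
        rw [mem_GM, Matrix.toLin'_toMatrix']
        exact hT
      have h3 := (comm _).2 (h1 _ hT')
      rwa [Matrix.toLin'_toMatrix'] at h3
    · have h3 := (comm (LinearMap.toMatrix' Z')).2 (h2 _ fun M hM => ?_)
      · rwa [Matrix.toLin'_toMatrix'] at h3
      · rw [← comm', Matrix.toLin'_toMatrix']
        exact hZ' _ (mem_GM.1 hM)

/-- the adjoint of a diagonal central map is central -/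
theorem central_bar {d : Ix A.g → ℂ} (h : Central S (Matrix.toLin' (Matrix.diagonal d))) :
    Central S (Matrix.toLin' (Matrix.diagonal fun i => d (oppI i))) := by
  rw [central_iff] at h ⊢
  refine ⟨fun M hM i j hij => ?_, fun N hN i j hij => ?_⟩
  · have h1 := adjM_ne hij
    rw [GM_adj hM, Matrix.neg_apply] at h1
    exact (h.1 M hM _ _ (neg_ne_zero.1 h1)).symm
  · refine (h.2 (adjM N) (fun M hM => ?_) _ _ (adjM_ne hij)).symm
    have h1 : M = -adjM M := by rw [GM_adj hM, neg_neg]
    calc adjM N * M = -(adjM N * adjM M) := by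
          conv_lhs => rw [h1]
          rw [Matrix.mul_neg]
      _ = -(adjM M * adjM N) := by rw [← adjM_mul, ← adjM_mul, hN M hM]
      _ = M * adjM N := by
          conv_rhs => rw [h1]
          rw [Matrix.neg_mul]

/-- all diagonal central maps have the same values at `i` and at `j` -/
def EqS (S : Pc0b458G.Specialisation Y A) (i j : Ix A.g) : Prop :=
  ∀ d : Ix A.g → ℂ, Central S (Matrix.toLin' (Matrix.diagonal d)) → d i = d j

theorem fineS : Fine (GM S) oppI (EqS S) where
  equiv := ⟨fun _ _ _ => rfl, fun h d hd => (h d hd).symm,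
    fun h h' d hd => (h d hd).trans (h' d hd)⟩
  conn i j hij := by
    have h1 := hij _ (ind_central (S := S) i)
    have h2 : ind S i i = 1 := if_pos (Relation.EqvGen.refl _)
    by_contra h3
    have h4 : ind S i j = 0 := if_neg h3
    rw [h2, h4] at h1
    exact one_ne_zero h1
  opp i j hij d hd := hij _ (central_bar hd)
  bar_bar := oppI_oppI
  wt := by
    rintro ⟨s, b, l⟩ f hf
    have hl : l = 0 := Subsingleton.elim _ _
    subst hl
    have h1 := GM_pair (S := S) (p := fun i => (f i : ℂ)) hf s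
    have h2 : f (s, true, 0) + f (s, false, 0) = 0 := by exact_mod_cast h1
    cases b
    · rw [add_comm]
      exact h2
    · exact h2

/-- a diagonal map with the same value at indices of the same class is central -/
theorem central_of_eqS {d : Ix A.g → ℂ} (h : ∀ i j, EqS S i j → d i = d j) :
    Central S (Matrix.toLin' (Matrix.diagonal d)) := by
  rw [central_iff]
  exact ⟨fun M hM i j hij => h i j fun d' hd' => (central_iff.1 hd').1 M hM i j hij,
    fun N hN i j hij => h i j fun d' hd' => (central_iff.1 hd').2 N hN i j hij⟩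

/-- skew diagonal maps -/
theorem skewMap_diag {g : ℕ} {d : Ix g → ℂ} (h : ∀ i, d (oppI i) = -d i) :
    SkewMap (Matrix.toLin' (Matrix.diagonal d)) := by
  intro x y
  unfold form
  rw [← Finset.sum_neg_distrib]
  apply Finset.sum_congr rfl
  intro s _
  have h1 : d (s, false, 0) = -d (s, true, 0) := h (s, true, 0)
  simp only [Matrix.toLin'_apply, Matrix.mulVec_diagonal]
  rw [h1]
  ring

/-- if a diagonal map kills a class then its weights are zero on it -/
theorem weight_of_kill {n : ℕ} {z : Coh A.g 1}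
    {c : (Fin A.g → ℤ) × Finset (Fin A.g) → ℂ} (hc : z = ∑ p ∈ idx A.g (2 * n), c p • mo p.1 p.2)
    {η : Fin A.g → ℤ} {T : Finset (Fin A.g)} (hp : (η, T) ∈ idx A.g (2 * n)) (h : c (η, T) ≠ 0)
    {p : Ix A.g → ℂ} (hpair : ∀ s, p (s, true, 0) + p (s, false, 0) = 0)
    (hk : ∃ D, IsDer (Matrix.toLin' (Matrix.diagonal p)) D ∧ D z = 0) :
    ∑ i ∈ letters η, p i = 0 := by
  let d : Fin A.g → Bool → ℂ := fun s b => p (s, b, 0)
  obtain ⟨D, hD, hD0⟩ : ∃ D, IsDerV (diagV d) D ∧ D z = 0 := by
    obtain ⟨D, h1, h2⟩ := hk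
    rw [toLin_diagonal] at h1
    exact ⟨D, h1, h2⟩
  obtain ⟨hη, hT, -⟩ := mem_idx.1 hp
  have e1 : (0 : Coh A.g 1) =
      ∑ q ∈ idx A.g (2 * n), (c q * ∑ s, ev d q.1 q.2 s) • mo q.1 q.2 := by
    rw [← hD0, hc, map_sum]
    apply Finset.sum_congr rfl
    intro q _
    rw [map_smul, der_diag hD, smul_smul]
  have h2 := (Pc0b458V.CMAb.co_eq_zero (A := A.toV) e1 hp).1
    ((congrArg A.toV.int (zero_mul _)).trans (map_zero _))
  have h3 : ∑ s, ev d η T s = 0 := (mul_eq_zero.1 h2).resolve_left h
  rw [sum_letters_aux hη]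
  refine Eq.trans ?_ h3
  apply Finset.sum_congr rfl
  intro s _
  unfold ev
  by_cases hs : s ∈ T
  · have h4 := hT s hs
    have h5 : d s true + d s false = 0 := hpair s
    rw [if_pos hs, h4, h5]
    simp
  · rw [if_neg hs]

end

end Pc0b458E
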