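import Pool.Agent.Lib.Pc0b458E.Rel
import Pool.Agent.Lib.Pc0b458V.Base

/-!
# The signs of the algebraic weights are the values of a character
-/

open Finset ComplexConjugate

namespace Pc0b458E

open Pc0b458V

/-- a partial character on a symmetric set of elements of `ℤ^g` extends -/
theorem exists_char {g : ℕ} (W : Set (Fin g → ℤ)) (hW : ∀ η ∈ W, -η ∈ W) (μ : (Fin g → ℤ) → ℂˣ)
    (h : ∀ L : List (Fin g → ℤ), (∀ η ∈ L, η ∈ W) → L.sum = 0 → (L.map μ).prod = 1) :
    ∃ v : Fin g → ℂˣ, ∀ η ∈ W, μ η = ∏ s, v s ^ η s := by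
  -- the divisible group
  have hdiv : ∀ {n : ℤ}, n ≠ 0 → Function.Surjective fun a : Additive ℂˣ => n • a := by
    intro n hn z
    refine ⟨Additive.ofMul (Units.mk0 (Complex.exp (Complex.log (z.toMul : ℂ) / n))
      (Complex.exp_ne_zero _)), ?_⟩
    apply Additive.toMul.injective
    show (Units.mk0 (Complex.exp (Complex.log (z.toMul : ℂ) / n)) (Complex.exp_ne_zero _)) ^ n = _
    ext
    rw [Units.val_zpow_eq_zpow_val, Units.val_mk0, ← Complex.exp_int_mul, mul_div_cancel₀,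
      Complex.exp_log (Units.ne_zero _)]
    exact_mod_cast hn
  let _ : DivisibleBy (Additive ℂˣ) ℤ := divisibleByOfSMulRightSurj _ _ hdiv
  have hB : Module.Baer ℤ (Additive ℂˣ) := Module.Baer.of_divisible _
  -- the graph
  have hsym : ∀ L : List (Fin g → ℤ), (∀ η ∈ L, η ∈ W) →
      (L.map fun η => -η).sum = -L.sum ∧
      ((L.map fun η => -η).map μ).prod = ((L.map μ).prod)⁻¹ := by
    intro L hL
    have h1 : (L.map fun η => -η).sum = -L.sum := by
      induction L with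
      | nil => simp
      | cons η L ih =>
        rw [List.map_cons, List.sum_cons, List.sum_cons,
          ih fun η h => hL η (List.mem_cons_of_mem _ h)]
        abel
    refine ⟨h1, ?_⟩
    have h2 := h (L ++ L.map fun η => -η) (fun η hη => by
      rcases List.mem_append.1 hη with h3 | h3
      · exact hL η h3
      · obtain ⟨ζ, hζ, rfl⟩ := List.mem_map.1 h3
        exact hW ζ (hL ζ hζ)) (by rw [List.sum_append, h1, add_neg_cancel])
    rw [List.map_append, List.prod_append] at h2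
    exact eq_inv_of_mul_eq_one_right h2
  let Γ : AddSubgroup ((Fin g → ℤ) × Additive ℂˣ) :=
    { carrier := {p | ∃ L : List (Fin g → ℤ), (∀ η ∈ L, η ∈ W) ∧ p.1 = L.sum ∧
        p.2 = Additive.ofMul (L.map μ).prod}
      zero_mem' := ⟨[], by simp, by simp, by simp⟩
      add_mem' := by
        rintro p q ⟨L, hL, h1, h2⟩ ⟨L', hL', h1', h2'⟩
        refine ⟨L ++ L', ?_, ?_, ?_⟩
        · intro η hη
          rcases List.mem_append.1 hη with h3 | h3
          · exact hL η h3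
          · exact hL' η h3
        · rw [Prod.fst_add, h1, h1', List.sum_append]
        · rw [Prod.snd_add, h2, h2', List.map_append, List.prod_append, ofMul_mul]
      neg_mem' := by
        rintro p ⟨L, hL, h1, h2⟩
        obtain ⟨h3, h4⟩ := hsym L hL
        refine ⟨L.map fun η => -η, ?_, ?_, ?_⟩
        · intro η hη
          obtain ⟨ζ, hζ, rfl⟩ := List.mem_map.1 hη
          exact hW ζ (hL ζ hζ)
        · rw [Prod.fst_neg, h1, h3]
        · rw [Prod.snd_neg, h2, h4, ofMul_inv] }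
  let f : Γ →+ (Fin g → ℤ) := (AddMonoidHom.fst _ _).comp Γ.subtype
  let q : Γ →+ Additive ℂˣ := (AddMonoidHom.snd _ _).comp Γ.subtype
  have hf : Function.Injective f := by
    rw [injective_iff_map_eq_zero]
    rintro ⟨⟨x, z⟩, L, hL, h1, h2⟩ h3
    have h3' : x = 0 := h3
    have h1' : x = L.sum := h1
    have h2' : z = Additive.ofMul (L.map μ).prod := h2
    have h4 := h L hL (by rw [← h1', h3'])
    rw [h4, ofMul_one] at h2'
    subst h2'
    subst h3'
    rfl
  obtain ⟨ψ, hψ⟩ := hB.extension_property_addMonoidHom f hf q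
  refine ⟨fun s => (ψ (Pi.single s 1)).toMul, fun η hη => ?_⟩
  have hmem : (η, Additive.ofMul (μ η)) ∈ Γ := ⟨[η], by simpa using hη, by simp, by simp⟩
  have h1 : ψ η = Additive.ofMul (μ η) := DFunLike.congr_fun hψ ⟨_, hmem⟩
  have h2 : η = ∑ s, η s • (Pi.single s 1 : Fin g → ℤ) := by
    funext t
    rw [Finset.sum_apply]
    simp [Pi.single_apply]
  have h3 : ψ η = ∑ s, η s • ψ (Pi.single s 1) := by
    conv_lhs => rw [h2]
    rw [map_sum]
    exact Finset.sum_congr rfl fun s _ => map_zsmul ψ _ _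
  have h4 : μ η = (∑ s, η s • ψ (Pi.single s 1)).toMul := by
    rw [← h3, h1]
    rfl
  rw [h4, toMul_sum]
  rfl

variable {A : CMAb}

open CMAb

/-- the set of the weights of the classes which are not isotropic -/
def Wset (A : CMAb) : Set (Fin A.g → ℤ) :=
  {η | (∀ s, η s = -1 ∨ η s = 0 ∨ η s = 1) ∧ η ≠ 0 ∧ ∃ ρ : ℂ, ρ ≠ 0 ∧ A.P η 1 ρ}

theorem P_norm {η : Fin A.g → ℤ} (hη : ∀ s, η s = -1 ∨ η s = 0 ∨ η s = 1) (h0 : η ≠ 0) {a a' : ℂ}
    (h : A.P η a a') (ha : a ≠ 0) : A.P η 1 (a' / conj a) := by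
  have := P_act hη h0 h a⁻¹
  rw [inv_mul_cancel₀ ha, map_inv₀, mul_comm, ← div_eq_mul_inv] at this
  exact this

theorem mem_Wset {η : Fin A.g → ℤ} (hη : ∀ s, η s = -1 ∨ η s = 0 ∨ η s = 1) (h0 : η ≠ 0)
    (h : A.NonNull η) : η ∈ Wset A := by
  obtain ⟨a, a', hP, haa⟩ := h
  have ha : a ≠ 0 := left_ne_zero_of_mul haa
  have ha' : a' ≠ 0 := right_ne_zero_of_mul haa
  refine ⟨hη, h0, _, ?_, P_norm hη h0 hP ha⟩
  exact div_ne_zero ha' (by simpa using ha)

theorem P_real {η : Fin A.g → ℤ} (hη : ∀ s, η s = -1 ∨ η s = 0 ∨ η s = 1) (h0 : η ≠ 0) {ρ : ℂ}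
    (h : A.P η 1 ρ) : conj ρ = ρ := by
  have := real_pair hη h0 h h
  rw [one_mul, mul_one] at this
  exact this.symm

theorem P_uniq {η : Fin A.g → ℤ} (hη : ∀ s, η s = -1 ∨ η s = 0 ∨ η s = 1) (h0 : η ≠ 0) {ρ b b' : ℂ}
    (h : A.P η 1 ρ) (hb : A.P η b b') : b' = ρ * conj b := by
  have := real_pair hη h0 h hb
  rw [one_mul, map_mul, P_real hη h0 h] at this
  exact this

theorem neg_mem_Wset {η : Fin A.g → ℤ} (h : η ∈ Wset A) : -η ∈ Wset A := by
  obtain ⟨hη, h0, ρ, hρ, hP⟩ := h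
  exact mem_Wset (weight_neg_aux hη) (fun h => h0 (by simpa using h))
    ⟨ρ, 1, P_neg hP, by simpa using hρ⟩

theorem sg_ne_zero {g : ℕ} {η : Fin g → ℤ} (hη : ∀ s, η s = -1 ∨ η s = 0 ∨ η s = 1) :
    (sg η : ℂ) ≠ 0 := by
  intro h
  have h1 : (sg η : ℤ) = 0 := by exact_mod_cast h
  have h2 := sg_sq hη
  rw [h1] at h2
  norm_num at h2

open Classical in
/-- the value of the character at `η` -/
noncomputable def mu (A : CMAb) (η : Fin A.g → ℤ) : ℂˣ :=
  if h : η ∈ Wset A then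
    Units.mk0 ((sg η : ℂ) * h.2.2.choose) (mul_ne_zero (sg_ne_zero h.1) h.2.2.choose_spec.1)
  else 1

theorem mu_eq {η : Fin A.g → ℤ} (h : η ∈ Wset A) {ρ : ℂ} (hρ : A.P η 1 ρ) :
    (mu A η : ℂ) = sg η * ρ := by
  rw [mu, dif_pos h, Units.val_mk0]
  have h1 := P_uniq h.1 h.2.1 hρ h.2.2.choose_spec.2
  rw [map_one, mul_one] at h1
  rw [h1]

theorem mu_rel (P : PowV A) (L : List (Fin A.g → ℤ)) (hL : ∀ η ∈ L, η ∈ Wset A)
    (h0 : L.sum = 0) : (L.map (mu A)).prod = 1 := by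
  have hmem : ∀ l : Fin L.length, L.get l ∈ Wset A := fun l => hL _ (List.get_mem L l)
  choose ρ hρ hP using fun l => (hmem l).2.2
  have hLf : List.ofFn (fun l => L.get l) = L := List.ofFn_get L
  have hsum : ∀ s, ∑ l, L.get l s = 0 := by
    intro s
    have h1 : ∑ l, L.get l = 0 := by
      rw [← List.sum_ofFn, hLf, h0]
    have := congrFun h1 s
    rwa [Finset.sum_apply] at this
  have h1 := PowV.rel P (η := fun l => L.get l) (fun l => (hmem l).1) (fun l => (hmem l).2.1)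
    (a := fun _ => 1) (a' := ρ) hP hsum
  have h2 : (L.map (mu A)).prod = ∏ l, mu A (L.get l) := by
    conv_lhs => rw [← hLf]
    rw [List.map_ofFn, List.prod_ofFn]
    rfl
  rw [h2]
  ext
  rw [Units.coe_prod, Units.val_one]
  rw [Finset.prod_congr rfl fun l _ => mu_eq (hmem l) (hP l), Finset.prod_mul_distrib, h1]
  simp

/-- The coefficients of the algebraic classes which are not isotropic are given by a character. -/
theorem exists_vV (P : PowV A) : ∃ v : Fin A.g → ℂ, (∀ s, v s ≠ 0) ∧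
    ∀ η : Fin A.g → ℤ, (∀ s, η s = -1 ∨ η s = 0 ∨ η s = 1) → η ≠ 0 → A.NonNull η →
      ∀ a a' : ℂ, A.P η a a' → a' = conj a * sg η * ∏ s, v s ^ η s := by
  obtain ⟨v, hv⟩ := exists_char (Wset A) (fun η h => neg_mem_Wset h) (mu A) (mu_rel P)
  refine ⟨fun s => (v s : ℂ), fun s => (v s).ne_zero, fun η hη h0 hN a a' hP => ?_⟩
  have hW := mem_Wset hη h0 hN
  obtain ⟨-, -, ρ, hρ, hPρ⟩ := id hW
  have h1 := mu_eq hW hPρ
  have h2 : (mu A η : ℂ) = ∏ s, (v s : ℂ) ^ η s := by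
    rw [hv η hW, Units.coe_prod]
    refine Finset.prod_congr rfl fun s _ => ?_
    rw [Units.val_zpow_eq_zpow_val]
  have h3 : (sg η : ℂ) * (sg η : ℂ) = 1 := by
    exact_mod_cast congrArg (fun z : ℤ => (z : ℂ)) (sg_sq hη)
  rw [P_uniq hη h0 hPρ hP, ← h2, h1]
  linear_combination (-(ρ * conj a)) * h3

/-- the character is positive exactly on the good weights -/
theorem good_iff {v : Fin A.g → ℂ} {η : Fin A.g → ℤ}
    (hη : ∀ s, η s = -1 ∨ η s = 0 ∨ η s = 1) (hN : A.NonNull η)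
    (hv : ∀ a a' : ℂ, A.P η a a' → a' = conj a * sg η * ∏ s, v s ^ η s) :
    A.Good η ↔ ∃ r : ℝ, 0 < r ∧ ∏ s, v s ^ η s = r := by
  have h3 : (sg η : ℂ) * (sg η : ℂ) = 1 := by
    exact_mod_cast congrArg (fun z : ℤ => (z : ℂ)) (sg_sq hη)
  have key : ∀ a a' : ℂ, A.P η a a' →
      (sg η : ℂ) * a * a' = (Complex.normSq a : ℂ) * ∏ s, v s ^ η s := by
    intro a a' hP
    rw [hv a a' hP, ← Complex.mul_conj]
    linear_combination (a * conj a * ∏ s, v s ^ η s) * h3
  constructor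
  · rintro ⟨a, a', hP, r, hr, h⟩
    rw [key a a' hP] at h
    have ha : a ≠ 0 := by
      rintro rfl
      rw [map_zero, Complex.ofReal_zero, zero_mul] at h
      have : r = 0 := by exact_mod_cast h.symm
      exact hr.ne' this
    have hn : 0 < Complex.normSq a := Complex.normSq_pos.2 ha
    refine ⟨r / Complex.normSq a, div_pos hr hn, ?_⟩
    push_cast
    rw [← h, mul_div_cancel_left₀]
    exact_mod_cast hn.ne'
  · rintro ⟨r, hr, h⟩
    obtain ⟨a, a', hP, haa⟩ := hN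
    have hn : 0 < Complex.normSq a := Complex.normSq_pos.2 (left_ne_zero_of_mul haa)
    refine ⟨a, a', hP, Complex.normSq a * r, mul_pos hn hr, ?_⟩
    rw [key a a' hP, h]
    push_cast
    rfl

/-- weights of size at most four are good -/
theorem pos_of_size {v : Fin A.g → ℂ} {η : Fin A.g → ℤ}
    (hη : ∀ s, η s = -1 ∨ η s = 0 ∨ η s = 1) (h0 : η ≠ 0) (hN : A.NonNull η) (hs : size η ≤ 4)
    (hv : ∀ a a' : ℂ, A.P η a a' → a' = conj a * sg η * ∏ s, v s ^ η s) :
    ∃ r : ℝ, 0 < r ∧ ∏ s, v s ^ η s = r :=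
  (good_iff hη hN hv).1 (A.base hη h0 hs hN)

end Pc0b458E
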