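import Pool.Agent.Lib.Pc0b458E.Stmt
import Pool.Agent.Lib.Pc0b458E.CharV
import Pool.Agent.Lib.Pc0b458V.Conv

/-!
# The numbers `v s`
-/

open Finset ComplexConjugate

namespace Pc0b458E

open Pc0b458V

variable {A : Pc0b458Z.CMAb}

namespace Powers

variable (P : Powers A)

theorem int_add (m : ℕ) (x y : Pc0b458Z.Coh A.g m) : P.int m (x + y) = P.int m x + P.int m y := by
  have := P.int_linear m 1 x y
  rwa [one_smul, one_mul] at this

theorem int_zero (m : ℕ) : P.int m 0 = 0 := by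
  have := P.int_add m 0 0
  rw [add_zero] at this
  simpa using this

theorem int_smul (m : ℕ) (c : ℂ) (x : Pc0b458Z.Coh A.g m) : P.int m (c • x) = c * P.int m x := by
  have := P.int_linear m c x 0
  rwa [add_zero, int_zero, add_zero] at this

theorem eff_alg {i : ℕ} {x : Pc0b458Z.Coh A.g 1} (hx : x ∈ A.eff i) : x ∈ A.alg i := by
  refine ⟨x, hx, 0, ?_, (sub_zero x).symm⟩
  have := A.smul_mem i 0 le_rfl x hx
  rwa [Rat.cast_zero, zero_smul] at this

/-- the same data -/
noncomputable def toV : PowV A.toV where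
  cyc := P.cyc
  mul_mem := P.mul_mem
  pull m v hv i x hx :=
    Eq.mp (congrArg (fun z : Pc0b458Z.Coh A.g m => z ∈ P.cyc m i) (Pc0b458Z.pb_eq v x))
      (P.pull m v hv i x (eff_alg hx))
  int m :=
    { toFun := P.int m
      map_add' := P.int_add m
      map_smul' := P.int_smul m }
  int_cyc := P.int_cyc
  int_prod m x :=
    Eq.trans (congrArg (fun f : Fin m → Pc0b458Z.Coh A.g m => P.int m (List.ofFn f).prod)
      (funext fun j => (Pc0b458Z.pb_eq (Pi.single j 1) (x j)).symm)) (P.int_prod m x)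

end Powers

/-- the two coefficients of an algebraic class of weight `η` are conjugate up to a character -/
theorem exists_v (P : Powers A) : ∃ v : Fin A.g → ℂ, (∀ s, v s ≠ 0) ∧
    ∀ η : Fin A.g → ℤ, (∀ s, η s = -1 ∨ η s = 0 ∨ η s = 1) → η ≠ 0 →
      ∀ a a' : ℂ, A.toV.P η a a' → a * a' ≠ 0 → a' = conj a * (sg η : ℂ) * ∏ s, v s ^ η s := by
  obtain ⟨v, hv, h⟩ := exists_vV P.toV
  exact ⟨v, hv, fun η hη h0 a a' hP haa => h η hη h0 ⟨a, a', hP, haa⟩ a a' hP⟩

end Pc0b458E
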