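import Pool.Agent.Lib.Pc0b458E.StmtP
import Pool.Agent.Lib.Pc0b458E.Alg2
import Pool.Agent.Lib.Pc0b458E.RealC
import Pool.Agent.Lib.Pc0b458L.Code

/-!
# The parities of the weights of a class
-/

universe u

open Finset

namespace Pc0b458E

open Pc0b458V Pc0b458L

section

variable {g : ℕ} {Pl : Type} [Fintype Pl] [DecidableEq Pl]

/-- the multidegree of a monomial -/
noncomputable def mdeg (pl : Fin g → Pl) (η : Fin g → ℤ) (T : Finset (Fin g)) (p : Pl) : ℕ :=
  ((letters η).filter fun i => pl i.1 = p).card + 2 * (T.filter fun t => pl t = p).card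

theorem prod_fib {α : Type} (s : Finset α) (f : α → Pl) (z : Pl → ℂ) :
    ∏ i ∈ s, z (f i) = ∏ p, z p ^ (s.filter fun i => f i = p).card := by
  rw [← Finset.prod_fiberwise s f]
  apply Finset.prod_congr rfl
  intro p _
  rw [Finset.prod_congr rfl (g := fun _ => z p), Finset.prod_const]
  intro i hi
  rw [(Finset.mem_filter.1 hi).2]

theorem prod_mdeg (pl : Fin g → Pl) (η : Fin g → ℤ) (T : Finset (Fin g)) (z : Pl → ℂ) :
    (∏ i ∈ letters η, z (pl i.1)) * ∏ s ∈ T, z (pl s) * z (pl s) = ∏ p, z p ^ mdeg pl η T p := by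
  rw [prod_fib (letters η) (fun i => pl i.1) z, Finset.prod_mul_distrib, prod_fib T pl z,
    ← Finset.prod_mul_distrib, ← Finset.prod_mul_distrib]
  apply Finset.prod_congr rfl
  intro p _
  rw [mdeg, pow_add, two_mul, pow_add]

omit [Fintype Pl] [DecidableEq Pl] in
theorem diag_eq_toLin (pl : Fin g → Pl) (z : Pl → ℂ) : (diag fun s _ => z (pl s)) =
    Matrix.toLin' (Matrix.diagonal fun i : Ix g => z (pl i.1)) := by
  rw [toLin_diagonal]

/-- a product of powers determines the exponents -/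
theorem pow_inj {m m' : Pl → ℕ} (h : ∀ z : Pl → ℂ, ∏ p, z p ^ m p = ∏ p, z p ^ m' p) : m = m' := by
  funext q
  have h1 := h (Function.update 1 q 2)
  have h2 : ∀ k : Pl → ℕ, ∏ p, (Function.update (1 : Pl → ℂ) q 2) p ^ k p = 2 ^ k q := by
    intro k
    rw [Finset.prod_eq_single q]
    · rw [Function.update_self]
    · intro p _ hp
      rw [Function.update_of_ne hp, Pi.one_apply, one_pow]
    · intro hq
      exact absurd (Finset.mem_univ q) hq
  rw [h2, h2] at h1
  have h3 : (2 : ℕ) ^ m q = 2 ^ m' q := by exact_mod_cast h1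
  exact Nat.pow_right_injective (le_refl 2) h3

end

section

variable (A : Pc0b458V.CMAb) {Pl : Type} [Fintype Pl] [DecidableEq Pl]

/-- the monomials which occur in a class of multidegree `m` have multidegree `m` -/
theorem mdeg_eq {n : ℕ} {w : Coh A.g 1} {c : (Fin A.g → ℤ) × Finset (Fin A.g) → ℂ}
    (hc : w = ∑ p ∈ idx A.g (2 * n), c p • mo p.1 p.2) {pl : Fin A.g → Pl} {m : Pl → ℕ}
    (hm : MultiDeg pl m w) {η : Fin A.g → ℤ} {T : Finset (Fin A.g)} (hp : (η, T) ∈ idx A.g (2 * n))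
    (h0 : c (η, T) ≠ 0) : mdeg pl η T = m := by
  apply pow_inj
  intro z
  have h1 : extV (Matrix.toLin' (Matrix.diagonal fun i : Ix A.g => z (pl i.1))) w =
      (∏ p, z p ^ m p) • w := by
    have h2 := hm z
    rw [diag_eq_toLin] at h2
    exact h2
  have h3 : ∑ p ∈ idx A.g (2 * n),
      (c p * ((∏ q, z q ^ mdeg pl p.1 p.2 q) - ∏ q, z q ^ m q)) • mo p.1 p.2 = 0 := by
    have h4 : extV (Matrix.toLin' (Matrix.diagonal fun i : Ix A.g => z (pl i.1))) w -
        (∏ p, z p ^ m p) • w = 0 := by rw [h1, sub_self]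
    rw [← h4]
    conv_rhs => rw [hc]
    rw [map_sum, Finset.smul_sum, ← Finset.sum_sub_distrib]
    apply Finset.sum_congr rfl
    rintro ⟨θ, V⟩ hq
    obtain ⟨hθ, hV, -⟩ := mem_idx.1 hq
    rw [map_smul, extV_mo, prod_efac _ hθ hV, prod_mdeg, smul_smul, smul_smul, ← sub_smul]
    congr 1
    ring
  have h5 := coef_zero A h3 hp
  rcases mul_eq_zero.1 h5 with h6 | h6
  · exact absurd h6 h0
  · exact sub_eq_zero.1 h6

end

section

variable {Y : Pc0b458Z.NumAb.{u}} {A : Pc0b458Z.CMAb} {S : Pc0b458G.Specialisation Y A}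
  {Pl : Type} [Fintype Pl] [DecidableEq Pl] {Γ : Subgroup (Equiv.Perm Pl)}

/-- the set of the multidegrees which occur in the class of a cycle is stable under the Galois
group -/
theorem exists_mdeg (F : Places S Γ) {n : ℕ} {x : Y.Z} {y : Coh A.g 1} (hy : S.sp n x y)
    {c : (Fin A.g → ℤ) × Finset (Fin A.g) → ℂ}
    (hc : y = ∑ p ∈ idx A.g (2 * n), c p • mo p.1 p.2) : ∃ M : Finset (Pl → ℕ),
      (∀ m ∈ M, ∀ γ ∈ Γ, (fun p => m (γ p)) ∈ M) ∧
      (∀ η T, (η, T) ∈ idx A.g (2 * n) → c (η, T) ≠ 0 → mdeg F.pl η T ∈ M) ∧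
      ∀ m ∈ M, ∃ η T, (η, T) ∈ idx A.g (2 * n) ∧ c (η, T) ≠ 0 ∧ mdeg F.pl η T = m := by
  obtain ⟨M, d, hd, hM⟩ : ∃ (M : Finset (Pl → ℕ)) (d : (Pl → ℕ) → Coh A.g 1),
      y = ∑ m ∈ M, d m ∧ ∀ m ∈ M, d m ≠ 0 ∧ d m ∈ gr A.g 1 (2 * n) ∧ MultiDeg F.pl m (d m) ∧
        ∀ γ ∈ Γ, (fun p => m (γ p)) ∈ M := F.galois n x y hy
  have hrep : ∀ m : Pl → ℕ, ∃ e : (Fin A.g → ℤ) × Finset (Fin A.g) → ℂ, m ∈ M →
      d m = ∑ p ∈ idx A.g (2 * n), e p • mo p.1 p.2 := by
    intro m
    by_cases hm : m ∈ M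
    · obtain ⟨e, he⟩ := rep (hM m hm).2.1
      exact ⟨e, fun _ => he⟩
    · exact ⟨0, fun h => absurd h hm⟩
  choose e he using hrep
  -- the coefficients of `y`
  have hcoef : ∀ q ∈ idx A.g (2 * n), c q = ∑ m ∈ M, e m q := by
    have h1 : ∑ q ∈ idx A.g (2 * n), (c q - ∑ m ∈ M, e m q) • mo q.1 q.2 = (0 : Coh A.g 1) := by
      have h2 : (y : Coh A.g 1) = ∑ q ∈ idx A.g (2 * n), (∑ m ∈ M, e m q) • mo q.1 q.2 := by
        have h3 : ∑ m ∈ M, d m = ∑ m ∈ M, ∑ q ∈ idx A.g (2 * n), e m q • mo q.1 q.2 :=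
          Finset.sum_congr rfl fun m hm => he m hm
        have h4 : ∑ q ∈ idx A.g (2 * n), (∑ m ∈ M, e m q) • mo q.1 q.2 =
            ∑ q ∈ idx A.g (2 * n), ∑ m ∈ M, (e m q • mo q.1 q.2 : Coh A.g 1) :=
          Finset.sum_congr rfl fun q _ => Finset.sum_smul
        rw [hd, h3, h4]
        exact Finset.sum_comm
      rw [Finset.sum_congr rfl fun q _ => sub_smul _ _ _, Finset.sum_sub_distrib, ← h2, ← hc,
        sub_self]
    rintro ⟨η, T⟩ hq
    exact sub_eq_zero.1 (coef_zero A.toV h1 hq)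
  have hdeg : ∀ m ∈ M, ∀ η T, (η, T) ∈ idx A.g (2 * n) → e m (η, T) ≠ 0 → mdeg F.pl η T = m :=
    fun m hm η T hq h0 => mdeg_eq A.toV (he m hm) (hM m hm).2.2.1 hq h0
  refine ⟨M, fun m hm => (hM m hm).2.2.2, fun η T hq h0 => ?_, fun m hm => ?_⟩
  · rw [hcoef _ hq] at h0
    obtain ⟨m, hm, h1⟩ := Finset.exists_ne_zero_of_sum_ne_zero h0
    rw [hdeg m hm η T hq h1]
    exact hm
  · obtain ⟨⟨η, T⟩, hq, h1⟩ : ∃ q ∈ idx A.g (2 * n), e m q ≠ 0 := by
      by_contra hcon
      push Not at hcon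
      apply (hM m hm).1
      rw [he m hm]
      apply Finset.sum_eq_zero
      intro q hq
      rw [hcon q hq, zero_smul]
    refine ⟨η, T, hq, ?_, hdeg m hm η T hq h1⟩
    rw [hcoef _ hq, Finset.sum_eq_single m]
    · exact h1
    · intro m' hm' hne
      by_contra h2
      exact hne ((hdeg m' hm' η T hq h2).symm.trans (hdeg m hm η T hq h1))
    · intro h
      exact absurd hm h

/-- the sets of letters of the weights of a class -/
def wset (n : ℕ) (c : (Fin A.g → ℤ) × Finset (Fin A.g) → ℂ) : Set (Finset (Ix A.g)) :=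
  {I | ∃ η T, (η, T) ∈ idx A.g (2 * n) ∧ c (η, T) ≠ 0 ∧ I = letters η}

/-- the parities -/
def parP (pl : Fin A.g → Pl) (I : Finset (Ix A.g)) : Pl → ZMod 2 :=
  fun p => ((I.filter fun i => pl i.1 = p).card : ZMod 2)

theorem parP_eq (pl : Fin A.g → Pl) (η : Fin A.g → ℤ) (T : Finset (Fin A.g)) :
    parP pl (letters η) = fun p => (mdeg pl η T p : ZMod 2) := by
  funext p
  have h2 : (2 : ZMod 2) = 0 := by decide
  rw [parP, mdeg, Nat.cast_add, Nat.cast_mul, Nat.cast_ofNat, h2, zero_mul, add_zero]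

theorem sum_mdeg (pl : Fin A.g → Pl) {η : Fin A.g → ℤ} {T : Finset (Fin A.g)} {d : ℕ}
    (hq : (η, T) ∈ idx A.g d) : ∑ p, mdeg pl η T p = d := by
  obtain ⟨hη, hT, hd⟩ := mem_idx.1 hq
  unfold mdeg
  rw [Finset.sum_add_distrib, ← Finset.mul_sum]
  have h1 : ∑ p, ((letters η).filter fun i => pl i.1 = p).card = (letters η).card :=
    (Finset.card_eq_sum_card_fiberwise fun _ _ => Finset.mem_univ _).symm
  have h2 : ∑ p, (T.filter fun t => pl t = p).card = T.card :=
    (Finset.card_eq_sum_card_fiberwise fun _ _ => Finset.mem_univ _).symm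
  rw [h1, h2, card_letters hη]
  exact hd

omit [DecidableEq Pl] in
/-- the set of the parities is stable under the Galois group -/
theorem parP_stable [DecidableEq Pl] (F : Places S Γ) {n : ℕ} {x : Y.Z} {y : Coh A.g 1}
    (hy : S.sp n x y) {c : (Fin A.g → ℤ) × Finset (Fin A.g) → ℂ}
    (hc : y = ∑ p ∈ idx A.g (2 * n), c p • mo p.1 p.2) :
    ∀ γ ∈ Γ, ∀ v ∈ parP F.pl '' wset n c, (fun p => v (γ p)) ∈ parP F.pl '' wset n c := by
  obtain ⟨M, h1, h2, h3⟩ := exists_mdeg F hy hc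
  rintro γ hγ _ ⟨_, ⟨η, T, hq, h0, rfl⟩, rfl⟩
  obtain ⟨η', T', hq', h0', h4⟩ := h3 _ (h1 _ (h2 η T hq h0) γ hγ)
  refine ⟨letters η', ⟨η', T', hq', h0', rfl⟩, ?_⟩
  rw [parP_eq F.pl η' T', parP_eq F.pl η T, h4]

/-- the parities have sum zero, and at most `2 n` of them are not zero -/
theorem parP_even (pl : Fin A.g → Pl) {n : ℕ} {c : (Fin A.g → ℤ) × Finset (Fin A.g) → ℂ} :
    ∀ v ∈ parP pl '' wset n c, ∑ p, v p = 0 ∧ (univ.filter fun p => v p ≠ 0).card ≤ 2 * n := by
  rintro _ ⟨_, ⟨η, T, hq, h0, rfl⟩, rfl⟩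
  have h6 := sum_mdeg pl hq
  constructor
  · have h5 : ((∑ p, mdeg pl η T p : ℕ) : ZMod 2) = 0 := by
      rw [h6, Nat.cast_mul, Nat.cast_ofNat]
      have h2 : (2 : ZMod 2) = 0 := by decide
      rw [h2, zero_mul]
    rw [Nat.cast_sum] at h5
    rw [parP_eq pl η T]
    exact h5
  · rw [← h6, Finset.card_eq_sum_ones, Finset.sum_filter]
    apply Finset.sum_le_sum
    intro p _
    by_cases h : parP pl (letters η) p = 0
    · rw [if_neg (not_not.2 h)]
      exact Nat.zero_le _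
    · rw [if_pos h]
      rw [Nat.one_le_iff_ne_zero]
      intro h7
      apply h
      rw [parP_eq pl η T]
      show ((mdeg pl η T p : ℕ) : ZMod 2) = 0
      rw [h7, Nat.cast_zero]

theorem zmod2_cases (a : ZMod 2) : a = 0 ∨ a = 1 := by
  revert a
  decide

omit [DecidableEq Pl] in
/-- the number of places where a function with sum zero is not zero is even -/
theorem even_support [DecidableEq Pl] {v : Pl → ZMod 2} (h0 : ∑ p, v p = 0) :
    Even (univ.filter fun p => v p ≠ 0).card := by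
  have e1 : ∑ p, v p = ((univ.filter fun p => v p ≠ 0).card : ZMod 2) := by
    rw [Finset.card_eq_sum_ones, Nat.cast_sum, Finset.sum_filter]
    apply Finset.sum_congr rfl
    intro p _
    rcases zmod2_cases (v p) with h | h
    · rw [h, if_neg (not_not.2 rfl)]
    · rw [h, if_pos one_ne_zero, Nat.cast_one]
  rwa [e1, ZMod.natCast_eq_zero_iff_even] at h0

theorem parP_eq_par (pl : Fin A.g → Pl) : parP pl = par (fun i : Ix A.g => pl i.1) := rfl

/-- the functions in the span of the parities have sum zero -/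
theorem closure_even (pl : Fin A.g → Pl) {n : ℕ} {c : (Fin A.g → ℤ) × Finset (Fin A.g) → ℂ}
    {u : Pl → ZMod 2} (hu : u ∈ AddSubgroup.closure (parP pl '' wset n c)) : ∑ p, u p = 0 := by
  induction hu using AddSubgroup.closure_induction with
  | mem u hu => exact (parP_even pl u hu).1
  | zero => simp
  | add v w _ _ hv hw => simp only [Pi.add_apply, Finset.sum_add_distrib, hv, hw, add_zero]
  | neg v _ hv => simp only [Pi.neg_apply, Finset.sum_neg_distrib, hv, neg_zero]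

/-- if the Galois group is large then the parities are spanned by pairs and by sets of four places -/
theorem code_of_places (F : Places S Γ) {n : ℕ} (hQ : QuadCode Γ n) {x : Y.Z} {y : Coh A.g 1}
    (hy : S.sp n x y) {c : (Fin A.g → ℤ) × Finset (Fin A.g) → ℂ}
    (hc : y = ∑ p ∈ idx A.g (2 * n), c p • mo p.1 p.2) :
    AddSubgroup.closure (par (fun i : Ix A.g => F.pl i.1) '' wset n c) ≤ AddSubgroup.closure
      {v | v ∈ AddSubgroup.closure (par (fun i : Ix A.g => F.pl i.1) '' wset n c) ∧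
        ∃ S : Finset Pl, (S.card = 2 ∨ S.card = 4) ∧ v = fun s => if s ∈ S then 1 else 0} := by
  rw [← parP_eq_par, AddSubgroup.closure_le]
  have h1 := hQ _ (parP_stable F hy hc) (parP_even F.pl)
  refine h1.trans ?_
  rw [SetLike.coe_subset_coe, AddSubgroup.closure_le]
  rintro v ⟨hv, h4⟩
  have hev := even_support (closure_even F.pl hv)
  have hind : v = fun s => if s ∈ (univ.filter fun p => v p ≠ 0) then 1 else 0 := by
    funext p
    rcases zmod2_cases (v p) with h | h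
    · rw [if_neg (by simp [h]), h]
    · rw [if_pos (by simp [h]), h]
  obtain ⟨k, hk⟩ := hev
  have hk' : k = 0 ∨ k = 1 ∨ k = 2 := by omega
  rcases hk' with rfl | rfl | rfl
  · have h0 : v = 0 := by
      rw [add_zero, Finset.card_eq_zero] at hk
      rw [hind, hk]
      funext p
      simp
    rw [h0]
    exact AddSubgroup.zero_mem _
  · exact AddSubgroup.subset_closure ⟨hv, _, Or.inl hk, hind⟩
  · exact AddSubgroup.subset_closure ⟨hv, _, Or.inr hk, hind⟩

/-- the weights are zero on the diagonal elements -/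
theorem wset_null {n : ℕ} {x : Y.Z} {y : Coh A.g 1}
    (hy : S.sp n x y) {c : (Fin A.g → ℤ) × Finset (Fin A.g) → ℂ}
    (hc : y = ∑ p ∈ idx A.g (2 * n), c p • mo p.1 p.2) :
    ∀ I ∈ wset n c, ∀ f ∈ Car (GM S), ∑ i ∈ I, f i = 0 := by
  rintro _ ⟨η, T, hq, h0, rfl⟩ f hf
  have h1 := GM_weight hy hc hq h0 (p := fun i => (f i : ℂ)) hf
  exact_mod_cast h1

/-- indices over the same place are connected -/
theorem places_conn (F : Places S Γ) {i j : Ix A.g} (h : F.pl i.1 = F.pl j.1) :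
    Conn (GM S) i j := by
  obtain ⟨z, hz⟩ := F.central _ (ind_central (S := S) i)
  rw [diag_eq_toLin] at hz
  have h1 : ∀ k : Ix A.g, ind S i k = z (F.pl k.1) := by
    intro k
    have h2 := congrArg (fun T : Module.End ℂ (H1 A.g) => T (Pi.single k 1) k) hz
    simp only [diag_single, Pi.smul_apply, Pi.single_eq_same, smul_eq_mul, mul_one] at h2
    exact h2
  have h3 : ind S i i = 1 := if_pos (Relation.EqvGen.refl _)
  by_contra h4
  have h5 : ind S i j = 0 := if_neg h4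
  rw [h1, h] at h3
  rw [h1, h3] at h5
  exact one_ne_zero h5

end

end Pc0b458E
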