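import Pool.Agent.Lib.Pc0b458E.StmtM
import Pool.Agent.Lib.Pc0b458E.Code
import Pool.Agent.Lib.Pc0b458L.MixedQ

/-!
# The parities of the weights of a class at the real places
-/

universe u

open Finset

namespace Pc0b458E

open Pc0b458V Pc0b458L

section

variable {g : ℕ} {Pl : Type} [Fintype Pl] [DecidableEq Pl]

/-- the multidegree of a monomial at the real places -/
noncomputable def mdegO (pl : Fin g → Option Pl) (η : Fin g → ℤ) (T : Finset (Fin g)) (p : Pl) :
    ℕ :=
  ((letters η).filter fun i => pl i.1 = some p).card + 2 * (T.filter fun t => pl t = some p).card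

theorem prod_fibO {α : Type} (s : Finset α) (f : α → Option Pl) (z : Pl → ℂ) :
    ∏ i ∈ s, (f i).elim 1 z = ∏ p, z p ^ (s.filter fun i => f i = some p).card := by
  classical
  rw [← Finset.prod_fiberwise s f, Fintype.prod_option]
  have h1 : ∏ i ∈ s with f i = none, (f i).elim 1 z = 1 := by
    apply Finset.prod_eq_one
    intro i hi
    rw [(Finset.mem_filter.1 hi).2]
    rfl
  rw [h1, one_mul]
  apply Finset.prod_congr rfl
  intro p _
  rw [Finset.prod_congr rfl (g := fun _ => z p), Finset.prod_const]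
  intro i hi
  rw [(Finset.mem_filter.1 hi).2]
  rfl

theorem sum_fibO {α : Type} (s : Finset α) (f : α → Option Pl) :
    ∑ p, (s.filter fun i => f i = some p).card + (s.filter fun i => ¬ f i ≠ none).card =
      s.card := by
  classical
  have h1 : s.card = ∑ o : Option Pl, (s.filter fun i => f i = o).card :=
    Finset.card_eq_sum_card_fiberwise fun _ _ => Finset.mem_univ _
  rw [h1, Fintype.sum_option, add_comm]
  simp only [ne_eq, not_not]

theorem prod_mdegO (pl : Fin g → Option Pl) (η : Fin g → ℤ) (T : Finset (Fin g)) (z : Pl → ℂ) :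
    (∏ i ∈ letters η, (pl i.1).elim 1 z) * ∏ s ∈ T, (pl s).elim 1 z * (pl s).elim 1 z =
      ∏ p, z p ^ mdegO pl η T p := by
  rw [prod_fibO (letters η) (fun i => pl i.1) z, Finset.prod_mul_distrib, prod_fibO T pl z,
    ← Finset.prod_mul_distrib, ← Finset.prod_mul_distrib]
  apply Finset.prod_congr rfl
  intro p _
  rw [mdegO, pow_add, two_mul, pow_add]

omit [Fintype Pl] [DecidableEq Pl] in
theorem diagO_eq_toLin (pl : Fin g → Option Pl) (z : Pl → ℂ) :
    (diag fun s _ => (pl s).elim 1 z) =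
      Matrix.toLin' (Matrix.diagonal fun i : Ix g => (pl i.1).elim 1 z) := by
  rw [toLin_diagonal]

end

section

variable (A : Pc0b458V.CMAb) {Pl : Type} [Fintype Pl] [DecidableEq Pl]

/-- the monomials which occur in a class of multidegree `m` have multidegree `m` -/
theorem mdegO_eq {n : ℕ} {w : Coh A.g 1} {c : (Fin A.g → ℤ) × Finset (Fin A.g) → ℂ}
    (hc : w = ∑ p ∈ idx A.g (2 * n), c p • mo p.1 p.2) {pl : Fin A.g → Option Pl} {m : Pl → ℕ}
    (hm : ∀ z : Pl → ℂ, ext (diag fun s _ => (pl s).elim 1 z) w = (∏ p, z p ^ m p) • w)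
    {η : Fin A.g → ℤ} {T : Finset (Fin A.g)} (hp : (η, T) ∈ idx A.g (2 * n))
    (h0 : c (η, T) ≠ 0) : mdegO pl η T = m := by
  apply pow_inj
  intro z
  have h1 : extV (Matrix.toLin' (Matrix.diagonal fun i : Ix A.g => (pl i.1).elim 1 z)) w =
      (∏ p, z p ^ m p) • w := by
    have h2 := hm z
    rw [diagO_eq_toLin] at h2
    exact h2
  have h3 : ∑ p ∈ idx A.g (2 * n),
      (c p * ((∏ q, z q ^ mdegO pl p.1 p.2 q) - ∏ q, z q ^ m q)) • mo p.1 p.2 = 0 := by
    have h4 : extV (Matrix.toLin' (Matrix.diagonal fun i : Ix A.g => (pl i.1).elim 1 z)) w -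
        (∏ p, z p ^ m p) • w = 0 := by rw [h1, sub_self]
    rw [← h4]
    conv_rhs => rw [hc]
    rw [map_sum, Finset.smul_sum, ← Finset.sum_sub_distrib]
    apply Finset.sum_congr rfl
    rintro ⟨θ, V⟩ hq
    obtain ⟨hθ, hV, -⟩ := mem_idx.1 hq
    rw [map_smul, extV_mo, prod_efac _ hθ hV, prod_mdegO, smul_smul, smul_smul, ← sub_smul]
    congr 1
    ring
  have h5 := coef_zero A h3 hp
  rcases mul_eq_zero.1 h5 with h6 | h6
  · exact absurd h6 h0
  · exact sub_eq_zero.1 h6

end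

section

variable {Y : Pc0b458Z.NumAb.{u}} {A : Pc0b458Z.CMAb} {S : Pc0b458G.Specialisation Y A}
  {Pl : Type} [Fintype Pl] [DecidableEq Pl] {Γ : Subgroup (Equiv.Perm Pl)}

/-- the set of the multidegrees which occur in the class of a cycle is stable under the Galois
group -/
theorem exists_mdegO (F : RealPlaces S Γ) {n : ℕ} {x : Y.Z} {y : Coh A.g 1} (hy : S.sp n x y)
    {c : (Fin A.g → ℤ) × Finset (Fin A.g) → ℂ}
    (hc : y = ∑ p ∈ idx A.g (2 * n), c p • mo p.1 p.2) : ∃ M : Finset (Pl → ℕ),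
      (∀ m ∈ M, ∀ γ ∈ Γ, (fun p => m (γ p)) ∈ M) ∧
      (∀ η T, (η, T) ∈ idx A.g (2 * n) → c (η, T) ≠ 0 → mdegO F.pl η T ∈ M) ∧
      ∀ m ∈ M, ∃ η T, (η, T) ∈ idx A.g (2 * n) ∧ c (η, T) ≠ 0 ∧ mdegO F.pl η T = m := by
  obtain ⟨M, d, hd, hM⟩ : ∃ (M : Finset (Pl → ℕ)) (d : (Pl → ℕ) → Coh A.g 1),
      y = ∑ m ∈ M, d m ∧ ∀ m ∈ M, d m ≠ 0 ∧ d m ∈ gr A.g 1 (2 * n) ∧
        (∀ z : Pl → ℂ, ext (diag fun s _ => (F.pl s).elim 1 z) (d m) = (∏ p, z p ^ m p) • d m) ∧
        ∀ γ ∈ Γ, (fun p => m (γ p)) ∈ M := F.galois n x y hy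
  have hrep : ∀ m : Pl → ℕ, ∃ e : (Fin A.g → ℤ) × Finset (Fin A.g) → ℂ, m ∈ M →
      d m = ∑ p ∈ idx A.g (2 * n), e p • mo p.1 p.2 := by
    intro m
    by_cases hm : m ∈ M
    · obtain ⟨e, he⟩ := rep (hM m hm).2.1
      exact ⟨e, fun _ => he⟩
    · exact ⟨0, fun h => absurd h hm⟩
  choose e he using hrep
  -- the coefficients of `y`
  have hcoef : ∀ q ∈ idx A.g (2 * n), c q = ∑ m ∈ M, e m q := by
    have h1 : ∑ q ∈ idx A.g (2 * n), (c q - ∑ m ∈ M, e m q) • mo q.1 q.2 = (0 : Coh A.g 1) := by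
      have h2 : (y : Coh A.g 1) = ∑ q ∈ idx A.g (2 * n), (∑ m ∈ M, e m q) • mo q.1 q.2 := by
        have h3 : ∑ m ∈ M, d m = ∑ m ∈ M, ∑ q ∈ idx A.g (2 * n), e m q • mo q.1 q.2 :=
          Finset.sum_congr rfl fun m hm => he m hm
        have h4 : ∑ q ∈ idx A.g (2 * n), (∑ m ∈ M, e m q) • mo q.1 q.2 =
            ∑ q ∈ idx A.g (2 * n), ∑ m ∈ M, (e m q • mo q.1 q.2 : Coh A.g 1) :=
          Finset.sum_congr rfl fun q _ => Finset.sum_smul
        rw [hd, h3, h4]
        exact Finset.sum_comm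
      rw [Finset.sum_congr rfl fun q _ => sub_smul _ _ _, Finset.sum_sub_distrib, ← h2, ← hc,
        sub_self]
    rintro ⟨η, T⟩ hq
    exact sub_eq_zero.1 (coef_zero A.toV h1 hq)
  have hdeg : ∀ m ∈ M, ∀ η T, (η, T) ∈ idx A.g (2 * n) → e m (η, T) ≠ 0 → mdegO F.pl η T = m :=
    fun m hm η T hq h0 => mdegO_eq A.toV (he m hm) (hM m hm).2.2.1 hq h0
  refine ⟨M, fun m hm => (hM m hm).2.2.2, fun η T hq h0 => ?_, fun m hm => ?_⟩
  · rw [hcoef _ hq] at h0
    obtain ⟨m, hm, h1⟩ := Finset.exists_ne_zero_of_sum_ne_zero h0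
    rw [hdeg m hm η T hq h1]
    exact hm
  · obtain ⟨⟨η, T⟩, hq, h1⟩ : ∃ q ∈ idx A.g (2 * n), e m q ≠ 0 := by
      by_contra hcon
      push Not at hcon
      apply (hM m hm).1
      rw [he m hm]
      apply Finset.sum_eq_zero
      intro q hq
      rw [hcon q hq, zero_smul]
    refine ⟨η, T, hq, ?_, hdeg m hm η T hq h1⟩
    rw [hcoef _ hq, Finset.sum_eq_single m]
    · exact h1
    · intro m' hm' hne
      by_contra h2
      exact hne ((hdeg m' hm' η T hq h2).symm.trans (hdeg m hm η T hq h1))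
    · intro h
      exact absurd hm h

/-- the real place of a letter -/
def plI (pl : Fin A.g → Option Pl) (i : Ix A.g) : Option Pl := pl i.1

omit [Fintype Pl] in
theorem parO_eq (pl : Fin A.g → Option Pl) (η : Fin A.g → ℤ) (T : Finset (Fin A.g)) :
    parO (plI pl) (letters η) = fun p => (mdegO pl η T p : ZMod 2) := by
  funext p
  have h2 : (2 : ZMod 2) = 0 := by decide
  rw [parO, mdegO, Nat.cast_add, Nat.cast_mul, Nat.cast_ofNat, h2, zero_mul, add_zero]
  rfl

/-- the set of the parities is stable under the Galois group -/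
theorem parO_stable (F : RealPlaces S Γ) {n : ℕ} {x : Y.Z} {y : Coh A.g 1}
    (hy : S.sp n x y) {c : (Fin A.g → ℤ) × Finset (Fin A.g) → ℂ}
    (hc : y = ∑ p ∈ idx A.g (2 * n), c p • mo p.1 p.2) :
    ∀ γ ∈ Γ, ∀ v ∈ parO (plI F.pl) '' wset n c,
      (fun p => v (γ p)) ∈ parO (plI F.pl) '' wset n c := by
  obtain ⟨M, h1, h2, h3⟩ := exists_mdegO F hy hc
  rintro γ hγ _ ⟨_, ⟨η, T, hq, h0, rfl⟩, rfl⟩
  obtain ⟨η', T', hq', h0', h4⟩ := h3 _ (h1 _ (h2 η T hq h0) γ hγ)
  refine ⟨letters η', ⟨η', T', hq', h0', rfl⟩, ?_⟩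
  rw [parO_eq F.pl η' T', parO_eq F.pl η T, h4]

/-- the parities have sum zero, and at most `2 n` of them are not zero -/
theorem parO_even (pl : Fin A.g → Option Pl) {n : ℕ}
    {c : (Fin A.g → ℤ) × Finset (Fin A.g) → ℂ}
    (hev : ∀ I ∈ wset n c, Even (I.filter fun i => ¬ plI pl i ≠ none).card) :
    ∀ v ∈ parO (plI pl) '' wset n c,
      ∑ p, v p = 0 ∧ (univ.filter fun p => v p ≠ 0).card ≤ 2 * n := by
  rintro _ ⟨_, ⟨η, T, hq, h0, rfl⟩, rfl⟩
  obtain ⟨hη, hT, hd⟩ := mem_idx.1 hq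
  have h6 := sum_fibO (letters η) (plI pl)
  rw [card_letters hη] at h6
  have hev' := hev _ ⟨η, T, hq, h0, rfl⟩
  have h7 : ∀ p, parO (plI pl) (letters η) p =
      (((letters η).filter fun i => plI pl i = some p).card : ZMod 2) := fun p => rfl
  constructor
  · rw [Finset.sum_congr rfl fun p _ => h7 p, ← Nat.cast_sum, ZMod.natCast_eq_zero_iff_even]
    have h8 : Even (size η) := by
      have : size η = 2 * (n - T.card) := by omega
      rw [this]
      exact even_two_mul _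
    rw [← h6] at h8
    exact (Nat.even_add.1 h8).2 hev'
  · have h8 : ∑ p, ((letters η).filter fun i => plI pl i = some p).card ≤ 2 * n := by omega
    refine le_trans ?_ h8
    rw [Finset.card_eq_sum_ones, Finset.sum_filter]
    apply Finset.sum_le_sum
    intro p _
    by_cases h : parO (plI pl) (letters η) p = 0
    · rw [if_neg (not_not.2 h)]
      exact Nat.zero_le _
    · rw [if_pos h, Nat.one_le_iff_ne_zero]
      intro h9
      apply h
      rw [h7, h9, Nat.cast_zero]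

omit [DecidableEq Pl] in
/-- the functions in the span of the parities have sum zero -/
theorem closure_evenO {W : Set (Pl → ZMod 2)} (hW : ∀ v ∈ W, ∑ p, v p = 0)
    {u : Pl → ZMod 2} (hu : u ∈ AddSubgroup.closure W) : ∑ p, u p = 0 := by
  induction hu using AddSubgroup.closure_induction with
  | mem u hu => exact hW u hu
  | zero => simp
  | add v w _ _ hv hw => simp only [Pi.add_apply, Finset.sum_add_distrib, hv, hw, add_zero]
  | neg v _ hv => simp only [Pi.neg_apply, Finset.sum_neg_distrib, hv, neg_zero]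

/-- if the Galois group is large then the parities are spanned by pairs and by sets of four places -/
theorem code_of_realPlaces (F : RealPlaces S Γ) {n : ℕ} (hQ : QuadCode Γ n) {x : Y.Z}
    {y : Coh A.g 1} (hy : S.sp n x y) {c : (Fin A.g → ℤ) × Finset (Fin A.g) → ℂ}
    (hc : y = ∑ p ∈ idx A.g (2 * n), c p • mo p.1 p.2)
    (hev : ∀ I ∈ wset n c, Even (I.filter fun i => ¬ plI F.pl i ≠ none).card) :
    AddSubgroup.closure (parO (plI F.pl) '' wset n c) ≤ AddSubgroup.closure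
      {v | v ∈ AddSubgroup.closure (parO (plI F.pl) '' wset n c) ∧
        ∃ S : Finset Pl, (S.card = 2 ∨ S.card = 4) ∧ v = fun s => if s ∈ S then 1 else 0} := by
  rw [AddSubgroup.closure_le]
  have h1 := hQ _ (parO_stable F hy hc) (parO_even F.pl hev)
  refine h1.trans ?_
  rw [SetLike.coe_subset_coe, AddSubgroup.closure_le]
  rintro v ⟨hv, h4⟩
  have hev := even_support (closure_evenO (fun v hv => (parO_even F.pl hev v hv).1) hv)
  have hind : v = fun s => if s ∈ (univ.filter fun p => v p ≠ 0) then 1 else 0 := by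
    funext p
    rcases zmod2_cases (v p) with h | h
    · rw [if_neg (by simp [h]), h]
    · rw [if_pos (by simp [h]), h]
  obtain ⟨k, hk⟩ := hev
  have hk' : k = 0 ∨ k = 1 ∨ k = 2 := by omega
  rcases hk' with rfl | rfl | rfl
  · have h0 : v = 0 := by
      rw [add_zero, Finset.card_eq_zero] at hk
      rw [hind, hk]
      funext p
      simp
    rw [h0]
    exact AddSubgroup.zero_mem _
  · exact AddSubgroup.subset_closure ⟨hv, _, Or.inl hk, hind⟩
  · exact AddSubgroup.subset_closure ⟨hv, _, Or.inr hk, hind⟩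

end

end Pc0b458E
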