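import Pool.Agent.Lib.Pc0b458E.StmtP

/-!
# Sets of functions on the places which are stable under the Galois group
-/

namespace Pc0b458E

open Finset

section

variable {Pl : Type} [Fintype Pl] [DecidableEq Pl]

namespace CodesAux

theorem zmod2_cases (a : ZMod 2) : a = 0 ∨ a = 1 := by
  fin_cases a
  · exact Or.inl rfl
  · exact Or.inr rfl

theorem sum_eq_card (v : Pl → ZMod 2) : ∑ p, v p = ((univ.filter fun p => v p ≠ 0).card : ZMod 2) := by
  rw [card_filter, Nat.cast_sum]
  refine sum_congr rfl fun p _ => ?_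
  rcases zmod2_cases (v p) with h | h
  · rw [h]; simp
  · rw [h]; simp

theorem even_wt {v : Pl → ZMod 2} (h : ∑ p, v p = 0) : Even (univ.filter fun p => v p ≠ 0).card := by
  rw [sum_eq_card] at h
  rw [ZMod.natCast_eq_zero_iff] at h
  exact even_iff_two_dvd.mpr h

/-- the function which is not zero exactly at `a` and at `b` -/
def pr2 (a b : Pl) : Pl → ZMod 2 := Pi.single a 1 + Pi.single b 1

theorem pr2_comm (a b : Pl) : pr2 a b = pr2 b a := add_comm _ _

theorem add_self_fun (v : Pl → ZMod 2) : v + v = 0 := funext fun _ => CharTwo.add_self_eq_zero _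

theorem pr2_self (a : Pl) : pr2 a a = 0 := add_self_fun _

theorem pr2_add (a b c : Pl) : pr2 a b + pr2 b c = pr2 a c := by
  have h : (Pi.single b 1 + Pi.single b 1 : Pl → ZMod 2) = 0 := add_self_fun _
  unfold pr2
  calc (Pi.single a 1 + Pi.single b 1 + (Pi.single b 1 + Pi.single c 1) : Pl → ZMod 2)
      = Pi.single a 1 + (Pi.single b 1 + Pi.single b 1) + Pi.single c 1 := by abel
    _ = _ := by rw [h, add_zero]

theorem wt_pr2 (a b : Pl) : (univ.filter fun p => pr2 a b p ≠ 0).card ≤ 4 := by
  have h : (univ.filter fun p => pr2 a b p ≠ 0) ⊆ {a, b} := by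
    intro p hp
    rw [mem_filter] at hp
    by_contra hc
    simp only [mem_insert, mem_singleton, not_or] at hc
    apply hp.2
    simp [pr2, Pi.single_apply, hc.1, hc.2]
  exact (card_le_card h).trans ((card_le_two).trans (by norm_num))

theorem pr2_comp (γ : Equiv.Perm Pl) (a b : Pl) :
    (fun p => pr2 (γ a) (γ b) (γ p)) = pr2 a b := by
  funext p
  simp [pr2, Pi.single_apply]

/-- a function with sum zero is a sum of functions which are not zero at exactly two places -/
theorem mem_of_pr2 {H : AddSubgroup (Pl → ZMod 2)} (hH : ∀ a b, pr2 a b ∈ H) {v : Pl → ZMod 2}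
    (hv : ∑ p, v p = 0) : v ∈ H := by
  by_cases hPl : Nonempty Pl
  · obtain ⟨a⟩ := hPl
    have h : v = ∑ p, (if v p = 0 then 0 else pr2 p a) := by
      have h1 : ∀ p, (if v p = 0 then 0 else pr2 p a) =
          (v p • Pi.single p 1 + v p • Pi.single a 1 : Pl → ZMod 2) := by
        intro p
        rcases zmod2_cases (v p) with h | h
        · rw [h]; simp
        · rw [h]; simp [pr2]
      rw [sum_congr rfl fun p _ => h1 p, sum_add_distrib, ← sum_smul, hv, zero_smul, add_zero]
      funext q
      rw [Finset.sum_apply]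
      simp [Pi.single_apply]
    rw [h]
    refine sum_mem fun p _ => ?_
    split_ifs
    · exact zero_mem _
    · exact hH _ _
  · have : v = 0 := by
      funext p
      exact absurd ⟨p⟩ hPl
    rw [this]
    exact zero_mem _

theorem quad_of_pr2 {W : Set (Pl → ZMod 2)} (h : ∀ a b, pr2 a b ∈ AddSubgroup.closure W)
    {v : Pl → ZMod 2} (hv : ∑ p, v p = 0) :
    v ∈ AddSubgroup.closure
        {v | v ∈ AddSubgroup.closure W ∧ (univ.filter fun p => v p ≠ 0).card ≤ 4} :=
  mem_of_pr2 (fun a b => AddSubgroup.subset_closure (show pr2 a b ∈ {v | v ∈ AddSubgroup.closure W ∧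
    (univ.filter fun p => v p ≠ 0).card ≤ 4} from ⟨h a b, wt_pr2 a b⟩)) hv

/-- the span of a stable set is stable -/
theorem closure_stable {Γ : Subgroup (Equiv.Perm Pl)} {W : Set (Pl → ZMod 2)}
    (hW : ∀ γ ∈ Γ, ∀ v ∈ W, (fun p => v (γ p)) ∈ W) {γ : Equiv.Perm Pl} (hγ : γ ∈ Γ)
    {v : Pl → ZMod 2} (hv : v ∈ AddSubgroup.closure W) :
    (fun p => v (γ p)) ∈ AddSubgroup.closure W := by
  induction hv using AddSubgroup.closure_induction with
  | mem x hx => exact AddSubgroup.subset_closure (hW γ hγ x hx)
  | zero => exact zero_mem _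
  | add x y _ _ hx hy => exact add_mem hx hy
  | neg x _ hx => exact neg_mem hx

end CodesAux

open CodesAux

/-- at most five places -/
theorem quadCode_of_card {Γ : Subgroup (Equiv.Perm Pl)} {n : ℕ} (h : Fintype.card Pl ≤ 5) :
    QuadCode Γ n := by
  intro W _ h2 v hv
  refine AddSubgroup.subset_closure ⟨AddSubgroup.subset_closure hv, ?_⟩
  have h3 := even_wt (h2 v hv).1
  have h4 : (univ.filter fun p => v p ≠ 0).card ≤ 5 := (card_filter_le _ _).trans h
  rcases h3 with ⟨k, hk⟩
  omega

/-- codimension at most two -/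
theorem quadCode_of_le_two {Γ : Subgroup (Equiv.Perm Pl)} {n : ℕ} (hn : n ≤ 2) :
    QuadCode Γ n := by
  intro W _ h2 v hv
  refine AddSubgroup.subset_closure ⟨AddSubgroup.subset_closure hv, ?_⟩
  have := (h2 v hv).2
  omega

theorem CodesAux.pr2_spread {Γ : Subgroup (Equiv.Perm Pl)} (hΓ : ∀ γ : Equiv.Perm Pl, γ.IsThreeCycle → γ ∈ Γ)
    {W : Set (Pl → ZMod 2)} (hW : ∀ γ ∈ Γ, ∀ v ∈ W, (fun p => v (γ p)) ∈ W) {b c x : Pl}
    (hbc : b ≠ c) (hxb : x ≠ b) (hxc : x ≠ c) (h : pr2 b c ∈ AddSubgroup.closure W) :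
    pr2 x b ∈ AddSubgroup.closure W := by
  have h1 : (Equiv.swap x b * Equiv.swap x c).IsThreeCycle :=
    Equiv.Perm.isThreeCycle_swap_mul_swap_same hxb hxc hbc
  have h2 := closure_stable hW (hΓ _ h1) h
  have h3 : (fun p => pr2 b c ((Equiv.swap x b * Equiv.swap x c) p)) = pr2 x c := by
    have h4 := pr2_comp (Equiv.swap x b * Equiv.swap x c) x c
    have h5 : (Equiv.swap x b * Equiv.swap x c) x = c := by
      rw [Equiv.Perm.mul_apply, Equiv.swap_apply_left, Equiv.swap_apply_of_ne_of_ne hxc.symm hbc.symm]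
    have h6 : (Equiv.swap x b * Equiv.swap x c) c = b := by
      rw [Equiv.Perm.mul_apply, Equiv.swap_apply_right, Equiv.swap_apply_left]
    rw [h5, h6] at h4
    rw [pr2_comm b c]
    exact h4
  rw [h3] at h2
  rw [← pr2_add x c b, pr2_comm c b]
  exact add_mem h2 h

/-- The Galois group contains all even permutations. -/
theorem quadCode_of_alt {Γ : Subgroup (Equiv.Perm Pl)}
    (hΓ : ∀ γ : Equiv.Perm Pl, γ.IsThreeCycle → γ ∈ Γ) {n : ℕ}
    (hn : Odd (Fintype.card Pl) ∨ 2 * n < Fintype.card Pl) : QuadCode Γ n := by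
  intro W hW h2 v hv
  by_cases h4 : (univ.filter fun p => v p ≠ 0).card ≤ 4
  · exact AddSubgroup.subset_closure ⟨AddSubgroup.subset_closure hv, h4⟩
  refine quad_of_pr2 ?_ (h2 v hv).1
  obtain ⟨h5, h6⟩ := h2 v hv
  -- the function is not constant
  obtain ⟨c, hc⟩ : ∃ c, v c = 0 := by
    by_contra hcon
    push Not at hcon
    have h7 : (univ.filter fun p => v p ≠ 0) = univ := by
      rw [filter_true_of_mem]
      exact fun p _ => hcon p
    have h8 := even_wt h5
    rw [h7] at h8 h6
    rw [Finset.card_univ] at h8 h6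
    rcases hn with hn | hn
    · exact (Nat.not_even_iff_odd.mpr hn) h8
    · omega
  obtain ⟨a, ha, b, hb, hab⟩ : ∃ a ∈ univ.filter fun p => v p ≠ 0, ∃ b ∈ univ.filter fun p => v p ≠ 0,
      a ≠ b := by
    have : 1 < (univ.filter fun p => v p ≠ 0).card := by omega
    exact Finset.one_lt_card.mp this
  rw [mem_filter] at ha hb
  have ha1 : v a = 1 := (zmod2_cases (v a)).resolve_left ha.2
  have hb1 : v b = 1 := (zmod2_cases (v b)).resolve_left hb.2
  have hac : a ≠ c := by
    rintro rfl
    exact ha.2 hc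
  have hbc : b ≠ c := by
    rintro rfl
    exact hb.2 hc
  have hvW : v ∈ AddSubgroup.closure W := AddSubgroup.subset_closure hv
  -- the three cycle
  have h1 : (Equiv.swap a b * Equiv.swap a c).IsThreeCycle :=
    Equiv.Perm.isThreeCycle_swap_mul_swap_same hab hac hbc
  have h7 := closure_stable hW (hΓ _ h1) hvW
  have h8 : (fun p => v ((Equiv.swap a b * Equiv.swap a c) p)) + v = pr2 a c := by
    funext p
    rw [Pi.add_apply]
    by_cases hpa : p = a
    · subst hpa
      have : (Equiv.swap p b * Equiv.swap p c) p = c := by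
        rw [Equiv.Perm.mul_apply, Equiv.swap_apply_left,
          Equiv.swap_apply_of_ne_of_ne hac.symm hbc.symm]
      rw [this, hc, ha1]
      simp [pr2, Pi.single_apply, hac]
    · by_cases hpc : p = c
      · subst hpc
        have : (Equiv.swap a b * Equiv.swap a p) p = b := by
          rw [Equiv.Perm.mul_apply, Equiv.swap_apply_right, Equiv.swap_apply_left]
        rw [this, hc, hb1]
        simp [pr2, Pi.single_apply, hpa]
      · by_cases hpb : p = b
        · subst hpb
          have : (Equiv.swap a p * Equiv.swap a c) p = a := by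
            rw [Equiv.Perm.mul_apply, Equiv.swap_apply_of_ne_of_ne hab.symm hbc,
              Equiv.swap_apply_right]
          rw [this, ha1, hb1]
          simp [pr2, Pi.single_apply, hpa, hpc]
          exact CharTwo.add_self_eq_zero _
        · have : (Equiv.swap a b * Equiv.swap a c) p = p := by
            rw [Equiv.Perm.mul_apply, Equiv.swap_apply_of_ne_of_ne hpa hpc,
              Equiv.swap_apply_of_ne_of_ne hpa hpb]
          rw [this]
          simp [pr2, Pi.single_apply, hpa, hpc]
          exact CharTwo.add_self_eq_zero _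
  have h9 : pr2 a c ∈ AddSubgroup.closure W := by
    rw [← h8]
    exact add_mem h7 hvW
  -- all pairs
  have h10 : ∀ x, pr2 a x ∈ AddSubgroup.closure W := by
    intro x
    by_cases hxa : x = a
    · rw [hxa, pr2_self]
      exact zero_mem _
    · by_cases hxc : x = c
      · rw [hxc]
        exact h9
      · rw [pr2_comm]
        exact pr2_spread hΓ hW hac hxa hxc h9
  intro x y
  rw [← pr2_add x a y, pr2_comm x a]
  exact add_mem (h10 x) (h10 y)

/-- seven places, a transitive Galois group -/
theorem quadCode_of_seven {Γ : Subgroup (Equiv.Perm Pl)} {n : ℕ}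
    (hΓ : ∀ a b : Pl, ∃ γ ∈ Γ, γ a = b) (h : Fintype.card Pl = 7) : QuadCode Γ n := by
  intro W hW h2 v hv
  by_cases h4 : (univ.filter fun p => v p ≠ 0).card ≤ 4
  · exact AddSubgroup.subset_closure ⟨AddSubgroup.subset_closure hv, h4⟩
  refine quad_of_pr2 ?_ (h2 v hv).1
  have h5 := even_wt (h2 v hv).1
  have h6 : (univ.filter fun p => v p ≠ 0).card = 6 := by
    have h7 : (univ.filter fun p => v p ≠ 0).card ≤ 7 := (card_filter_le _ _).trans h.le
    rcases h5 with ⟨k, hk⟩
    omega
  -- one zero
  have h7 : (univ.filter fun p => v p = 0).card = 1 := by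
    have h8 := Finset.card_filter_add_card_filter_not (s := (univ : Finset Pl)) (fun p => v p = 0)
    rw [Finset.card_univ, h] at h8
    have h9 : (univ.filter fun p => ¬ v p = 0).card = 6 := h6
    omega
  obtain ⟨c, hc⟩ := Finset.card_eq_one.mp h7
  have hv0 : ∀ p, v p = if p = c then 0 else 1 := by
    intro p
    have : p ∈ (univ.filter fun p => v p = 0) ↔ p ∈ ({c} : Finset Pl) := by rw [hc]
    simp only [mem_filter, mem_univ, true_and, mem_singleton] at this
    split_ifs with h10
    · exact this.mpr h10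
    · exact (zmod2_cases (v p)).resolve_left fun h11 => h10 (this.mp h11)
  have hvW : v ∈ AddSubgroup.closure W := AddSubgroup.subset_closure hv
  have key : ∀ x, (fun p => if p = x then (0 : ZMod 2) else 1) ∈ AddSubgroup.closure W := by
    intro x
    obtain ⟨γ, hγ, hγx⟩ := hΓ x c
    have h8 := closure_stable hW hγ hvW
    have h9 : (fun p => v (γ p)) = fun p => if p = x then (0 : ZMod 2) else 1 := by
      funext p
      rw [hv0, ← hγx]
      simp
    rwa [h9] at h8
  intro x y
  have h8 : pr2 x y = (fun p => if p = x then (0 : ZMod 2) else 1) +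
      fun p => if p = y then (0 : ZMod 2) else 1 := by
    funext p
    rw [Pi.add_apply]
    have h2' : (1 + 1 : ZMod 2) = 0 := CharTwo.add_self_eq_zero _
    by_cases hx : p = x
    · by_cases hy : p = y
      · simp [pr2, Pi.single_apply, hx, hy]
        rw [← hx, hy]
        simp [h2']
      · subst hx
        simp [pr2, Pi.single_apply, hy]
    · by_cases hy : p = y
      · subst hy
        simp [pr2, Pi.single_apply, hx]
      · simp [pr2, Pi.single_apply, hx, hy, h2']
  rw [h8]
  exact add_mem (key x) (key y)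

end

end Pc0b458E
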