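import Pool.Agent.Lib.Pc0b458E.Codes

/-!
# Transitive groups of prime degree
-/

namespace Pc0b458E

open Finset Polynomial CodesAux

namespace CodesP

theorem irr {p : ℕ} (hp : p.Prime) (hp2 : ¬ 2 ∣ p) (h : orderOf (2 : ZMod p) = p - 1) :
    Irreducible (cyclotomic p (ZMod 2)) := by
  haveI : Fact (Nat.Prime 2) := ⟨Nat.prime_two⟩
  refine ZMod.irreducible_of_dvd_cyclotomic_of_natDegree (p := 2) (n := p) hp2 dvd_rfl ?_
  rw [natDegree_cyclotomic, Nat.totient_prime hp, ← h, ← orderOf_units, ZMod.coe_unitOfCoprime]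
  norm_num

variable {Pl : Type} [Fintype Pl] [DecidableEq Pl]

/-- the action of the permutation `σ` on the functions -/
def T (σ : Equiv.Perm Pl) : Module.End (ZMod 2) (Pl → ZMod 2) := LinearMap.funLeft (ZMod 2) (ZMod 2) σ

theorem T_apply (σ : Equiv.Perm Pl) (v : Pl → ZMod 2) (x : Pl) : T σ v x = v (σ x) := rfl

theorem T_pow (σ : Equiv.Perm Pl) (k : ℕ) (v : Pl → ZMod 2) (x : Pl) :
    (T σ ^ k) v x = v ((σ ^ k) x) := by
  induction k generalizing v with
  | zero => rfl
  | succ k ih =>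
    rw [pow_succ, Module.End.mul_apply, ih, T_apply, pow_succ', Equiv.Perm.mul_apply]

theorem aeval_mem {σ : Equiv.Perm Pl} {H : AddSubgroup (Pl → ZMod 2)}
    (hH : ∀ v ∈ H, T σ v ∈ H) (f : (ZMod 2)[X]) {v : Pl → ZMod 2} (hv : v ∈ H) :
    aeval (T σ) f v ∈ H := by
  have h1 : ∀ k : ℕ, (T σ ^ k) v ∈ H := by
    intro k
    induction k with
    | zero => exact hv
    | succ k ih =>
      rw [pow_succ', Module.End.mul_apply]
      exact hH _ ih
  rw [aeval_eq_sum_range, LinearMap.sum_apply]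
  refine sum_mem fun k _ => ?_
  rw [LinearMap.smul_apply]
  rcases zmod2_cases (f.coeff k) with h | h
  · rw [h, zero_smul]
    exact zero_mem _
  · rw [h, one_smul]
    exact h1 k

section

variable {σ : Equiv.Perm Pl} (hp : (Fintype.card Pl).Prime) (hσ : orderOf σ = Fintype.card Pl)

include hp hσ

theorem moves (x : Pl) : σ x ≠ x := by
  have hc : σ.IsCycle := Equiv.Perm.isCycle_of_prime_order'' hp hσ
  have h1 : σ.support = univ := by
    rw [← Finset.card_eq_iff_eq_univ, ← hc.orderOf, hσ]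
  have h2 : x ∈ σ.support := by
    rw [h1]
    exact mem_univ x
  exact Equiv.Perm.mem_support.mp h2

theorem reach (x y : Pl) : ∃ k : ℕ, (σ ^ k) x = y :=
  (Equiv.Perm.isCycle_of_prime_order'' hp hσ).exists_pow_eq (moves hp hσ x) (moves hp hσ y)

theorem pow_inj {x : Pl} {i j : ℕ} (hij : i ≤ j) (hj : j < Fintype.card Pl)
    (h : (σ ^ i) x = (σ ^ j) x) : i = j := by
  have hc : σ.IsCycle := Equiv.Perm.isCycle_of_prime_order'' hp hσ
  obtain ⟨m, rfl⟩ := Nat.exists_eq_add_of_le hij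
  rw [pow_add, Equiv.Perm.mul_apply] at h
  have h1 : (σ ^ m) x = x := ((σ ^ i).injective h).symm
  have h2 := (hc.pow_eq_one_iff' (moves hp hσ x)).mpr h1
  have h3 : orderOf σ ∣ m := orderOf_dvd_of_pow_eq_one h2
  rw [hσ] at h3
  rcases Nat.eq_zero_or_pos m with h4 | h4
  · omega
  · have := Nat.le_of_dvd h4 h3
    omega

theorem sum_pow (w : Pl → ZMod 2) (x : Pl) :
    ∑ k ∈ range (Fintype.card Pl), w ((σ ^ k) x) = ∑ y, w y := by
  have hinj : Set.InjOn (fun k : ℕ => (σ ^ k) x) (range (Fintype.card Pl) : Finset ℕ) := by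
    intro i hi j hj h
    have hi' := mem_range.mp (mem_coe.mp hi)
    have hj' := mem_range.mp (mem_coe.mp hj)
    rcases le_total i j with hij | hij
    · exact pow_inj hp hσ hij hj' h
    · exact (pow_inj hp hσ hij hi' h.symm).symm
  have himg : (range (Fintype.card Pl)).image (fun k : ℕ => (σ ^ k) x) = univ := by
    rw [← Finset.card_eq_iff_eq_univ, card_image_of_injOn hinj, card_range]
  rw [← himg, sum_image hinj]

theorem aeval_cyc (w : Pl → ZMod 2) (x : Pl) :
    aeval (T σ) (cyclotomic (Fintype.card Pl) (ZMod 2)) w x = ∑ y, w y := by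
  haveI : Fact (Fintype.card Pl).Prime := ⟨hp⟩
  rw [cyclotomic_prime, map_sum, LinearMap.sum_apply, Finset.sum_apply, ← sum_pow hp hσ w x]
  refine sum_congr rfl fun k _ => ?_
  rw [map_pow, aeval_X, T_pow]

theorem T_pow_card : T σ ^ (Fintype.card Pl) = 1 := by
  refine LinearMap.ext fun v => ?_
  funext x
  rw [T_pow, ← hσ, pow_orderOf_eq_one]
  rfl

/-- the orbit of an even function spans all even functions -/
theorem pair_mem (hp2 : ¬ 2 ∣ Fintype.card Pl)
    (h2 : orderOf (2 : ZMod (Fintype.card Pl)) = Fintype.card Pl - 1)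
    {H : AddSubgroup (Pl → ZMod 2)} (hH : ∀ v ∈ H, T σ v ∈ H) {v : Pl → ZMod 2} (hv : v ∈ H)
    (hs : ∑ y, v y = 0) (h0 : v ≠ 0) (a : Pl) : pr2 a (σ a) ∈ H := by
  haveI : Fact (Fintype.card Pl).Prime := ⟨hp⟩
  set e : Pl → ZMod 2 := Pi.single (σ a) 1 with he
  choose k hk using fun x => reach hp hσ x (σ a)
  have hek : ∀ x, (T σ ^ k x) e = Pi.single x 1 := by
    intro x
    funext y
    rw [T_pow, he, Pi.single_apply, Pi.single_apply]
    congr 1
    rw [← hk x, eq_iff_iff]
    exact (σ ^ k x).injective.eq_iff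
  set f : (ZMod 2)[X] := ∑ x, C (v x) * X ^ k x with hf
  have hfe : aeval (T σ) f e = v := by
    rw [hf, map_sum, LinearMap.sum_apply]
    have h3 : ∀ x, aeval (T σ) (C (v x) * X ^ k x) e = Pi.single x (v x) := by
      intro x
      rw [map_mul, aeval_C, map_pow, aeval_X, Module.End.mul_apply, hek,
        Module.algebraMap_end_apply]
      funext y
      rw [Pi.smul_apply, Pi.single_apply, Pi.single_apply]
      split_ifs <;> simp
    rw [sum_congr rfl fun x _ => h3 x]
    exact Finset.univ_sum_single v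
  have hnd : ¬ cyclotomic (Fintype.card Pl) (ZMod 2) ∣ f := by
    rintro ⟨q, hq⟩
    apply h0
    have h4 : ∀ x, v x = ∑ y, aeval (T σ) q e y := by
      intro x
      conv_lhs => rw [← hfe, hq, map_mul, Module.End.mul_apply]
      exact aeval_cyc hp hσ _ x
    have h5 : ((Fintype.card Pl : ℕ) : ZMod 2) = 1 := by
      rcases zmod2_cases ((Fintype.card Pl : ℕ) : ZMod 2) with h6 | h6
      · exact absurd ((ZMod.natCast_eq_zero_iff _ _).mp h6) hp2
      · exact h6
    have h6 : ∑ y, aeval (T σ) q e y = 0 := by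
      rw [sum_congr rfl fun x _ => h4 x, sum_const, card_univ, nsmul_eq_mul, h5, one_mul] at hs
      exact hs
    funext x
    rw [h4 x, h6]
    rfl
  have hco : IsCoprime (cyclotomic (Fintype.card Pl) (ZMod 2)) f :=
    ((irr hp hp2 h2).coprime_iff_not_dvd).mpr hnd
  obtain ⟨α, β, hab⟩ := hco
  have h7 : (X - 1 : (ZMod 2)[X]) * β * f = (X - 1) - α * (X ^ Fintype.card Pl - 1) := by
    rw [← cyclotomic_prime_mul_X_sub_one (ZMod 2) (Fintype.card Pl)]
    linear_combination (X - 1 : (ZMod 2)[X]) * hab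
  have h8 : aeval (T σ) (X ^ Fintype.card Pl - 1 : (ZMod 2)[X]) = 0 := by
    rw [map_sub, map_pow, aeval_X, T_pow_card hp hσ, map_one, sub_self]
  have h9 : aeval (T σ) ((X - 1 : (ZMod 2)[X]) * β) v = T σ e - e := by
    rw [← hfe, ← Module.End.mul_apply, ← map_mul, h7, map_sub, map_mul, h8, mul_zero, sub_zero,
      map_sub, aeval_X, map_one]
    rfl
  have h10 : T σ e - e = pr2 a (σ a) := by
    funext y
    rw [Pi.sub_apply, T_apply, he, pr2, Pi.add_apply, Pi.single_apply, Pi.single_apply,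
      Pi.single_apply, sub_eq_add_neg, CharTwo.neg_eq]
    congr 2
    rw [eq_iff_iff]
    exact σ.injective.eq_iff
  rw [← h10, ← h9]
  exact aeval_mem hH _ hv

end

theorem exists_cycle {Γ : Subgroup (Equiv.Perm Pl)} (hΓ : ∀ a b : Pl, ∃ γ ∈ Γ, γ a = b)
    (hp : (Fintype.card Pl).Prime) : ∃ σ ∈ Γ, orderOf σ = Fintype.card Pl := by
  haveI : Fact (Fintype.card Pl).Prime := ⟨hp⟩
  haveI : MulAction.IsPretransitive Γ Pl := ⟨fun a b => by
    obtain ⟨γ, hγ, h⟩ := hΓ a b
    exact ⟨⟨γ, hγ⟩, h⟩⟩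
  have hne : Nonempty Pl := Fintype.card_pos_iff.mp hp.pos
  obtain ⟨a⟩ := hne
  have h1 : (MulAction.stabilizer Γ a).index = Nat.card Pl :=
    MulAction.index_stabilizer_of_transitive Γ a
  have h2 : Fintype.card Pl ∣ Nat.card Γ := by
    rw [← Nat.card_eq_fintype_card, ← h1]
    exact (MulAction.stabilizer Γ a).index_dvd_card
  obtain ⟨g, hg⟩ := exists_prime_orderOf_dvd_card' (Fintype.card Pl) h2
  exact ⟨g, g.2, by rw [Subgroup.orderOf_coe, hg]⟩

end CodesP

open CodesP

variable {Pl : Type} [Fintype Pl] [DecidableEq Pl]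

/-- the number of places is a prime number modulo which two is a primitive root, and the Galois group
is transitive -/
theorem quadCode_of_prime {Γ : Subgroup (Equiv.Perm Pl)} {n : ℕ}
    (hΓ : ∀ a b : Pl, ∃ γ ∈ Γ, γ a = b) (hp : (Fintype.card Pl).Prime)
    (h2 : orderOf (2 : ZMod (Fintype.card Pl)) = Fintype.card Pl - 1) : QuadCode Γ n := by
  rcases Nat.lt_or_ge 5 (Fintype.card Pl) with h5 | h5
  · have hodd : ¬ 2 ∣ Fintype.card Pl := by
      intro h
      have := (Nat.prime_dvd_prime_iff_eq Nat.prime_two hp).mp h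
      omega
    obtain ⟨σ, hσΓ, hσ⟩ := exists_cycle hΓ hp
    intro W hW hW2 v hv
    by_cases h0 : v = 0
    · rw [h0]
      exact zero_mem _
    have hH : ∀ w ∈ AddSubgroup.closure W, T σ w ∈ AddSubgroup.closure W :=
      fun w hw => closure_stable hW hσΓ hw
    have h1 := pair_mem hp hσ hodd h2 hH (AddSubgroup.subset_closure hv) (hW2 v hv).1 h0
    refine quad_of_pr2 ?_ (hW2 v hv).1
    have h3 : ∀ (x : Pl) (k : ℕ), pr2 x ((σ ^ k) x) ∈ AddSubgroup.closure W := by
      intro x k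
      induction k with
      | zero =>
        rw [pow_zero, Equiv.Perm.one_apply, pr2_self]
        exact zero_mem _
      | succ k ih =>
        rw [← pr2_add x ((σ ^ k) x), pow_succ', Equiv.Perm.mul_apply]
        exact add_mem ih (h1 _)
    intro x y
    obtain ⟨k, hk⟩ := reach hp hσ x y
    rw [← hk]
    exact h3 x k
  · exact quadCode_of_card h5

end Pc0b458E
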