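import Pool.Agent.Lib.Pc0b458E.Alg

/-!
# A scalar centre makes the index set connected
-/

universe u

open Finset

namespace Pc0b458E

open Pc0b458V Pc0b458L

variable {Y : Pc0b458Z.NumAb.{u}} {A : Pc0b458Z.CMAb} {S : Pc0b458G.Specialisation Y A}

theorem toMatrix_mem_GM {T : Module.End ℂ (H1 A.g)} (hT : T ∈ Lie S) :
    LinearMap.toMatrix' T ∈ GM S := by
  rw [mem_GM, Matrix.toLin'_toMatrix']
  exact hT

theorem GM_conn (hC : ScalarCentre S) (P : Ix A.g → Prop) (h0 : ∃ i, P i)
    (h1 : ∀ i j, (∃ X ∈ GM S, X i j ≠ 0) → (P i ↔ P j))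
    (h2 : ∀ i j, (∀ f ∈ Car (GM S), f i = f j) → (P i ↔ P j)) (i : Ix A.g) : P i := by
  classical
  let z : Ix A.g → ℂ := fun i => if P i then 1 else 0
  have hz : ∀ i j, (P i ↔ P j) → z i = z j := by
    intro i j h
    by_cases hi : P i
    · simp [z, hi, h.1 hi]
    · have hj : ¬ P j := fun hj => hi (h.2 hj)
      simp [z, hi, hj]
  -- a matrix which vanishes outside the pairs with the same value of `P` commutes with `z`
  have key : ∀ T : Module.End ℂ (H1 A.g), (∀ i j, LinearMap.toMatrix' T i j ≠ 0 → (P i ↔ P j)) →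
      Matrix.toLin' (Matrix.diagonal z) * T = T * Matrix.toLin' (Matrix.diagonal z) := by
    intro T hT
    have h : Matrix.diagonal z * LinearMap.toMatrix' T =
        LinearMap.toMatrix' T * Matrix.diagonal z := by
      ext i j
      rw [Matrix.diagonal_mul, Matrix.mul_diagonal]
      by_cases h : LinearMap.toMatrix' T i j = 0
      · rw [h, mul_zero, zero_mul]
      · rw [hz i j (hT i j h), mul_comm]
    have := congrArg Matrix.toLin' h
    rwa [Matrix.toLin'_mul, Matrix.toLin'_mul, Matrix.toLin'_toMatrix'] at this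
  have hA : ∀ T ∈ Lie S, Matrix.toLin' (Matrix.diagonal z) * T =
      T * Matrix.toLin' (Matrix.diagonal z) := by
    intro T hT
    exact key T fun i j h => h1 i j ⟨_, toMatrix_mem_GM hT, h⟩
  have hB : ∀ Z' : Module.End ℂ (H1 A.g), (∀ T ∈ Lie S, Z' * T = T * Z') →
      Matrix.toLin' (Matrix.diagonal z) * Z' = Z' * Matrix.toLin' (Matrix.diagonal z) := by
    intro Z' hZ'
    apply key
    intro i j hij
    apply h2
    intro f hf
    have h3 : Matrix.toLin' (Matrix.diagonal fun i => (f i : ℂ)) ∈ Lie S := hf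
    have h4 := congrArg LinearMap.toMatrix' (hZ' _ h3)
    rw [LinearMap.toMatrix'_mul, LinearMap.toMatrix'_mul, LinearMap.toMatrix'_toLin'] at h4
    have h5 := congrFun (congrFun h4 i) j
    rw [Matrix.mul_diagonal, Matrix.diagonal_mul, mul_comm] at h5
    exact_mod_cast (mul_right_cancel₀ hij h5).symm
  obtain ⟨c, hc⟩ := hC (Matrix.toLin' (Matrix.diagonal z)) hA hB
  have hval : ∀ i, z i = c := by
    intro i
    have h3 := congrArg (fun T => LinearMap.toMatrix' T i i) hc
    simp only [LinearMap.toMatrix'_toLin', Matrix.diagonal_apply_eq, map_smul,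
      LinearMap.toMatrix'_one, Matrix.smul_apply, Matrix.one_apply_eq, smul_eq_mul, mul_one]
      at h3
    exact h3
  obtain ⟨i0, hi0⟩ := h0
  by_contra hi
  have h4 := (hval i0).trans (hval i).symm
  simp [z, hi0, hi] at h4

end Pc0b458E
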