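import Pool.Agent.Lib.Pc0b458E.CharV
import Pool.Agent.Lib.Pc0b458V.Psd

/-!
# Isotropic weights do not occur, if numerically trivial classes vanish

`num_R1`: a class with real coefficients which is numerically trivial vanishes (write the
coefficients in a basis of the real numbers over the rational numbers).
-/

open Finset ComplexConjugate

namespace Pc0b458E

open Pc0b458V CMAb

variable {A : CMAb}

theorem alg_add {i : ℕ} {x y : Coh A.g 1} (hx : x ∈ A.alg i) (hy : y ∈ A.alg i) :
    x + y ∈ A.alg i := by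
  obtain ⟨a, ha, b, hb, rfl⟩ := hx
  obtain ⟨c, hc, d, hd, rfl⟩ := hy
  exact ⟨a + c, A.add_mem i _ ha _ hc, b + d, A.add_mem i _ hb _ hd, by abel⟩

theorem alg_zero (i : ℕ) : (0 : Coh A.g 1) ∈ A.alg i :=
  ⟨pol A.g ^ i, pol_pow_mem_eff i, pol A.g ^ i, pol_pow_mem_eff i, (sub_self _).symm⟩

theorem alg_smul {i : ℕ} (q : ℚ) {x : Coh A.g 1} (hx : x ∈ A.eff i) : (q : ℂ) • x ∈ A.alg i := by
  have h0 : (0 : Coh A.g 1) ∈ A.eff i := by
    have := A.smul_mem i 0 le_rfl x hx
    rwa [Rat.cast_zero, zero_smul] at this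
  rcases le_total 0 q with h | h
  · exact ⟨_, A.smul_mem i q h x hx, 0, h0, (sub_zero _).symm⟩
  · refine ⟨0, h0, _, A.smul_mem i (-q) (by linarith) x hx, ?_⟩
    push_cast
    module

theorem alg_int {i j : ℕ} (hij : i + j = A.g) {x y : Coh A.g 1} (hx : x ∈ A.alg i)
    (hy : y ∈ A.alg j) : ∃ q : ℚ, A.int (x * y) = q := by
  obtain ⟨a, ha, b, hb, rfl⟩ := hx
  obtain ⟨c, hc, d, hd, rfl⟩ := hy
  have key : ∀ u ∈ A.eff i, ∀ w ∈ A.eff j, ∃ q : ℚ, A.int (u * w) = q := by
    intro u hu w hw
    have h1 := A.mul_mem i j u hu w hw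
    rw [hij] at h1
    obtain ⟨r, -, h⟩ := A.int_eff _ h1
    exact ⟨r, h⟩
  obtain ⟨q1, h1⟩ := key a ha c hc
  obtain ⟨q2, h2⟩ := key a ha d hd
  obtain ⟨q3, h3⟩ := key b hb c hc
  obtain ⟨q4, h4⟩ := key b hb d hd
  refine ⟨q1 - q2 - (q3 - q4), ?_⟩
  rw [sub_mul, mul_sub, mul_sub, map_sub, map_sub, map_sub, h1, h2, h3, h4]
  push_cast
  rfl

/-- a class with real coefficients, in a basis of the real numbers over the rational numbers -/
theorem R1_rep {ι : Type*} (b : Module.Basis ι ℚ ℝ) {i : ℕ} {z : Coh A.g 1} (hz : z ∈ A.R1 i) :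
    ∃ (s : Finset ι) (y : ι → Coh A.g 1), (∀ k, y k ∈ A.alg i) ∧
      z = ∑ k ∈ s, ((b k : ℝ) : ℂ) • y k := by
  classical
  have hext : ∀ (s t : Finset ι) (y : ι → Coh A.g 1), s ⊆ t →
      (∑ k ∈ s, ((b k : ℝ) : ℂ) • y k) =
        ∑ k ∈ t, ((b k : ℝ) : ℂ) • (if k ∈ s then y k else 0) := by
    intro s t y h
    rw [← Finset.sum_subset h]
    · refine Finset.sum_congr rfl fun k hk => ?_
      rw [if_pos hk]
    · intro k _ hk
      rw [if_neg hk, smul_zero]
  refine Submodule.span_induction (p := fun z _ => ∃ (s : Finset ι) (y : ι → Coh A.g 1),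
      (∀ k, y k ∈ A.alg i) ∧ z = ∑ k ∈ s, ((b k : ℝ) : ℂ) • y k) ?_ ?_ ?_ ?_ hz
  · intro x hx
    refine ⟨(b.repr 1).support, fun k => ((b.repr 1 k : ℚ) : ℂ) • x, fun k => alg_smul _ hx, ?_⟩
    have h1 : (1 : ℝ) = ∑ k ∈ (b.repr 1).support, (b.repr 1 k : ℚ) • b k := by
      have := b.linearCombination_repr (1 : ℝ)
      rw [Finsupp.linearCombination_apply, Finsupp.sum] at this
      exact this.symm
    have h2 : (1 : ℂ) = ∑ k ∈ (b.repr 1).support, ((b k : ℝ) : ℂ) * ((b.repr 1 k : ℚ) : ℂ) := by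
      have := congrArg (fun r : ℝ => (r : ℂ)) h1
      simp only [Complex.ofReal_one, Complex.ofReal_sum] at this
      rw [this]
      refine Finset.sum_congr rfl fun k _ => ?_
      rw [Rat.smul_def]
      push_cast
      ring
    simp only [smul_smul]
    rw [← Finset.sum_smul, ← h2, one_smul]
  · exact ⟨∅, fun _ => 0, fun k => alg_zero i, by simp⟩
  · rintro x w - - ⟨s, y, hy, rfl⟩ ⟨t, u, hu, rfl⟩
    refine ⟨s ∪ t, fun k => (if k ∈ s then y k else 0) + (if k ∈ t then u k else 0), ?_, ?_⟩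
    · intro k
      apply alg_add
      · split_ifs
        · exact hy k
        · exact alg_zero i
      · split_ifs
        · exact hu k
        · exact alg_zero i
    · rw [hext s (s ∪ t) y subset_union_left, hext t (s ∪ t) u subset_union_right,
        ← Finset.sum_add_distrib]
      simp only [smul_add]
  · rintro r x - ⟨s, y, hy, rfl⟩
    have hy' : ∀ k, ∃ a ∈ A.eff i, ∃ c ∈ A.eff i, y k = a - c := hy
    choose a ha c hc hac using hy'
    -- coefficients of `r * b k`
    refine ⟨s.biUnion fun k => (b.repr (r * b k)).support, fun l =>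
      ∑ k ∈ s, ((b.repr (r * b k) l : ℚ) : ℂ) • y k, ?_, ?_⟩
    · intro l
      refine Finset.sum_induction _ (fun z => z ∈ A.alg i) (fun _ _ => alg_add) (alg_zero i) ?_
      intro k _
      rw [hac k, smul_sub]
      have h1 := alg_smul (A := A) (b.repr (r * b k) l) (ha k)
      have h2 := alg_smul (A := A) (-(b.repr (r * b k) l)) (hc k)
      have := alg_add h1 h2
      convert this using 1
      push_cast
      module
    · have h1 : ∀ k ∈ s, ((r * b k : ℝ) : ℂ) =
          ∑ l ∈ s.biUnion (fun k => (b.repr (r * b k)).support),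
            ((b l : ℝ) : ℂ) * ((b.repr (r * b k) l : ℚ) : ℂ) := by
        intro k hk
        have h2 : (r * b k : ℝ) = ∑ l ∈ (b.repr (r * b k)).support,
            (b.repr (r * b k) l : ℚ) • b l := by
          have := b.linearCombination_repr (r * b k)
          rw [Finsupp.linearCombination_apply, Finsupp.sum] at this
          exact this.symm
        have h3 : ((r * b k : ℝ) : ℂ) = ∑ l ∈ (b.repr (r * b k)).support,
            ((b l : ℝ) : ℂ) * ((b.repr (r * b k) l : ℚ) : ℂ) := by
          have := congrArg (fun r : ℝ => (r : ℂ)) h2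
          simp only [Complex.ofReal_sum] at this
          rw [this]
          refine Finset.sum_congr rfl fun l _ => ?_
          rw [Rat.smul_def]
          push_cast
          ring
        rw [h3]
        apply Finset.sum_subset
        · exact Finset.subset_biUnion_of_mem (fun k => (b.repr (r * b k)).support) hk
        · intro l _ hl
          rw [Finsupp.notMem_support_iff.1 hl, Rat.cast_zero, mul_zero]
      have h4 : r • ∑ k ∈ s, ((b k : ℝ) : ℂ) • y k = ∑ k ∈ s, ((r * b k : ℝ) : ℂ) • y k := by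
        rw [Finset.smul_sum]
        refine Finset.sum_congr rfl fun k _ => ?_
        push_cast
        rw [mul_smul]
        rfl
      rw [h4, Finset.sum_congr rfl fun k hk => by rw [h1 k hk]]
      simp only [Finset.smul_sum, Finset.sum_smul, smul_smul]
      rw [Finset.sum_comm]

/-- a class with real coefficients which is numerically trivial vanishes -/
theorem num_R1 (hnum : ∀ i, ∀ x ∈ A.alg i,
      (∀ j, i + j = A.g → ∀ y ∈ A.alg j, A.int (x * y) = 0) → x = 0)
    {i : ℕ} {z : Coh A.g 1} (hz : z ∈ A.R1 i)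
    (h : ∀ j, i + j = A.g → ∀ w ∈ A.R1 j, A.int (z * w) = 0) : z = 0 := by
  classical
  let b := Module.Basis.ofVectorSpace ℚ ℝ
  obtain ⟨s, y, hy, rfl⟩ := R1_rep b hz
  apply Finset.sum_eq_zero
  intro k hk
  rw [hnum i (y k) (hy k), smul_zero]
  intro j hj w hw
  choose q hq using fun l => alg_int hj (hy l) hw
  have h1 := h j hj w (alg_R1 hw)
  rw [Finset.sum_mul, map_sum] at h1
  simp only [smul_mul_assoc, map_smul, hq, smul_eq_mul] at h1
  have h2 : ∑ l ∈ s, q l • b l = 0 := by
    have h3 : ((∑ l ∈ s, q l • b l : ℝ) : ℂ) = 0 := by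
      rw [← h1]
      push_cast
      refine Finset.sum_congr rfl fun l _ => ?_
      rw [Rat.smul_def]
      push_cast
      ring
    exact_mod_cast h3
  have h4 := linearIndependent_iff'.1 b.linearIndependent s q h2 k hk
  rw [hq, h4, Rat.cast_zero]

/-- isotropic weights do not occur -/
theorem null_P (hnum : ∀ i, ∀ x ∈ A.alg i,
      (∀ j, i + j = A.g → ∀ y ∈ A.alg j, A.int (x * y) = 0) → x = 0)
    {η : Fin A.g → ℤ} (hη : ∀ s, η s = -1 ∨ η s = 0 ∨ η s = 1) (h0 : η ≠ 0) (hN : ¬ A.NonNull η)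
    {a a' : ℂ} (hP : A.P η a a') : a = 0 ∧ a' = 0 := by
  obtain ⟨k, hk, hx⟩ := id hP
  have hη' := weight_neg_aux hη
  have h0' : -η ≠ 0 := fun h => h0 (by simpa using h)
  have hN' : ¬ A.NonNull (-η) := fun h => hN (by have := h.neg; rwa [neg_neg] at this)
  have hzero : a • mo η ∅ + a' • mo (-η) ∅ = (0 : Coh A.g 1) := by
    apply num_R1 hnum hx
    intro j hj w hw
    obtain ⟨d, hd⟩ := rep (R1_gr hw)
    have e : ∀ p ∈ idx A.g (2 * j), A.int ((a • mo η ∅ + a' • mo (-η) ∅) * (d p • mo p.1 p.2)) = 0 := by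
      rintro ⟨θ, T⟩ hp
      obtain ⟨hθ, hT, hsz⟩ := mem_idx.1 hp
      have f1 : a * d (θ, T) * A.int (mo η ∅ * mo θ T) = 0 := by
        by_cases h : θ = -η
        · subst h
          have := null_pair hη h0 hN hP (by
            have := P_of_rep hw hd (neg_mem_idx hp)
            rwa [neg_neg] at this)
          rw [this, zero_mul]
        · have := A.int_mul_ne (T := ∅) (U := ∅) hη hθ (by simp) hT h
          rw [dT_empty, mul_one] at this
          rw [this, mul_zero]
      have f2 : a' * d (θ, T) * A.int (mo (-η) ∅ * mo θ T) = 0 := by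
        by_cases h : θ = η
        · subst h
          have := null_pair hη' h0' hN' (P_neg hP) (by
            have := P_of_rep hw hd (neg_mem_idx hp)
            rwa [neg_neg] at this)
          rw [this, zero_mul]
        · have := A.int_mul_ne (T := ∅) (U := ∅) hη' hθ (by simp) hT (by rwa [neg_neg])
          rw [dT_empty, mul_one] at this
          rw [this, mul_zero]
      rw [add_mul, smul_mul_smul_comm, smul_mul_smul_comm, map_add, map_smul, map_smul, smul_eq_mul,
        smul_eq_mul, f1, f2, add_zero]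
    rw [hd, Finset.mul_sum, map_sum]
    exact Finset.sum_eq_zero e
  -- the coefficients
  obtain ⟨t, ht, htop⟩ := A.top_pos
  have key : ∀ (ζ : Fin A.g → ℤ), (∀ s, ζ s = -1 ∨ ζ s = 0 ∨ ζ s = 1) → ζ ≠ 0 → size ζ = 2 * k →
      ∀ b b' : ℂ, b • mo ζ ∅ + b' • mo (-ζ) ∅ = (0 : Coh A.g 1) → b = 0 := by
    intro ζ hζ hζ0 hζk b b' hb
    have h1 := congrArg (fun z => A.int (z * mo (-ζ) ∅ * dT (zer ζ))) hb
    simp only [add_mul, smul_mul_assoc, zero_mul, map_zero, map_add, map_smul] at h1
    rw [mo_mul_self (weight_neg_aux hζ) (fun h => hζ0 (by simpa using h)), zero_mul, map_zero,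
      smul_zero, add_zero, mo_mul_neg hζ hζk, smul_mul_assoc, dT_mul (disjoint_supp_zer_aux ζ),
      supp_union_zer_aux, map_smul] at h1
    have h2 : A.int (dT univ) = t := htop
    rw [h2, smul_eq_mul, smul_eq_mul] at h1
    have h3 : (t : ℂ) ≠ 0 := by exact_mod_cast ht.ne'
    have h4 : ((-1 : ℂ) ^ k) ≠ 0 := pow_ne_zero _ (by norm_num)
    exact (mul_eq_zero.1 h1).resolve_right (mul_ne_zero (mul_ne_zero h4 (sg_ne_zero hζ)) h3)
  refine ⟨key η hη h0 hk a a' hzero, key (-η) hη' h0' (by rw [size_neg]; exact hk) a' a ?_⟩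
  rw [neg_neg, add_comm]
  exact hzero

end Pc0b458E
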