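import Pool.Agent.Lib.Pc0b458E.Char
import Pool.Agent.Lib.Pc0b458E.Null
import Pool.Agent.Lib.Pc0b458E.Der

/-!
# The antilinear automorphism fixes the classes of algebraic cycles
-/

open Finset ComplexConjugate

namespace Pc0b458E

open Pc0b458V

/-- the antilinear automorphism fixes the classes with real coefficients -/
theorem kap_R1 {A : CMAb} (hnum : ∀ i, ∀ x ∈ A.alg i,
      (∀ j, i + j = A.g → ∀ y ∈ A.alg j, A.int (x * y) = 0) → x = 0)
    {v : Fin A.g → ℂ} (hv : ∀ s, v s ≠ 0)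
    (h : ∀ η : Fin A.g → ℤ, (∀ s, η s = -1 ∨ η s = 0 ∨ η s = 1) → η ≠ 0 →
      ∀ a a' : ℂ, A.P η a a' → a * a' ≠ 0 → a' = conj a * (sg η : ℂ) * ∏ s, v s ^ η s)
    {n : ℕ} {z : Coh A.g 1} (hz : z ∈ A.R1 n) : kap v z = z := by
  obtain ⟨c, hc⟩ := rep (CMAb.R1_gr hz)
  have key : ∀ p ∈ idx A.g (2 * n), kap v (c p • mo p.1 p.2) = c (-p.1, p.2) • mo (-p.1) p.2 := by
    rintro ⟨η, T⟩ hp
    obtain ⟨hη, hT, hsz⟩ := mem_idx.1 hp
    have hP := CMAb.P_of_rep hz hc hp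
    rw [kap_smul, kap_mo hv hη hT, smul_smul]
    simp only
    congr 1
    by_cases h0 : η = 0
    · subst h0
      obtain ⟨r, hr⟩ := CMAb.P_zero hP
      have e4 : c (0, T) = ((r / 2 : ℝ) : ℂ) := by
        rw [neg_zero] at hr
        push_cast
        rw [← hr]
        ring
      have e5 : sg (0 : Fin A.g → ℤ) = 1 := by
        rw [sg]
        apply Finset.prod_eq_one
        intro s hs
        rw [supp, mem_filter] at hs
        exact absurd rfl hs.2
      rw [neg_zero, e4, Complex.conj_ofReal, e5]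
      simp
    · by_cases hN : A.NonNull η
      · obtain ⟨-, -, ρ, hρ, hPρ⟩ := mem_Wset hη h0 hN
        have h1 := P_uniq hη h0 hPρ hP
        by_cases hc0 : c (η, T) = 0
        · rw [h1, hc0]
          simp
        · have h2 : c (η, T) * c (-η, T) ≠ 0 := by
            apply mul_ne_zero hc0
            rw [h1]
            exact mul_ne_zero hρ (by simpa using hc0)
          rw [h η hη h0 _ _ hP h2]
          ring
      · obtain ⟨h1, h2⟩ := null_P hnum hη h0 hN hP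
        rw [h1, h2]
        simp
  conv_lhs => rw [hc]
  rw [kap_sum, Finset.sum_congr rfl key, hc]
  refine Finset.sum_nbij' (fun p => (-p.1, p.2)) (fun p => (-p.1, p.2)) ?_ ?_ ?_ ?_ ?_
  · rintro ⟨η, T⟩ hp
    exact neg_mem_idx hp
  · rintro ⟨η, T⟩ hp
    exact neg_mem_idx hp
  · rintro ⟨η, T⟩ _
    simp
  · rintro ⟨η, T⟩ _
    simp
  · rintro ⟨η, T⟩ _
    rfl

variable {A : Pc0b458Z.CMAb}

theorem Powers.numV (P : Powers A) : ∀ i, ∀ x ∈ A.toV.alg i,
    (∀ j, i + j = A.toV.g → ∀ y ∈ A.toV.alg j, A.toV.int (x * y) = 0) → x = 0 := P.num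

/-- the coefficients of isotropic weights vanish -/
theorem null_zero (P : Powers A) {n : ℕ} {z : Coh A.g 1} (hz : z ∈ A.alg n)
    {c : (Fin A.g → ℤ) × Finset (Fin A.g) → ℂ} (hc : z = ∑ p ∈ idx A.g (2 * n), c p • mo p.1 p.2)
    {η : Fin A.g → ℤ} {T : Finset (Fin A.g)} (hp : (η, T) ∈ idx A.g (2 * n)) (h0 : η ≠ 0)
    (hN : ¬ A.toV.NonNull η) : c (η, T) = 0 := by
  have hz' : z ∈ A.toV.R1 n := CMAb.alg_R1 (A := A.toV) hz
  have hη := (mem_idx.1 hp).1
  exact (null_P (A := A.toV) P.numV hη h0 hN (CMAb.P_of_rep (A := A.toV) hz' hc hp)).1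

/-- the antilinear automorphism fixes the classes of algebraic cycles -/
theorem kap_alg (P : Powers A) {v : Fin A.g → ℂ} (hv : ∀ s, v s ≠ 0)
    (h : ∀ η : Fin A.g → ℤ, (∀ s, η s = -1 ∨ η s = 0 ∨ η s = 1) → η ≠ 0 →
      ∀ a a' : ℂ, A.toV.P η a a' → a * a' ≠ 0 → a' = conj a * (sg η : ℂ) * ∏ s, v s ^ η s)
    {n : ℕ} {z : Coh A.g 1} (hz : z ∈ A.alg n) : kap v z = z :=
  kap_R1 (A := A.toV) P.numV hv h (CMAb.alg_R1 (A := A.toV) hz)

end Pc0b458E
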