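import Pool.Agent.Lib.Pc0b458E.Sat
import Pool.Agent.Lib.Pc0b458E.Fix
import Pool.Agent.Lib.Pc0b458E.Alg2
import Pool.Agent.Lib.Pc0b458L.ScaleS
import Pool.Agent.Lib.Pc0b458L.Scale1

/-!
# The central map and the classes of degree at most four

Suppose that the algebraic weights are saturated, and that every weight occurs at least four times.
Then the central map of the phases fixes the classes of degree at most four which are fixed by all
central maps which fix the classes of all algebraic cycles on `Y`.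
-/

universe u

open Finset ComplexConjugate

namespace Pc0b458E

open Pc0b458V Pc0b458L

/-- a sequence of different elements which are related to the given ones -/
theorem exists_distinct {ι : Type} {r : ι → ι → Prop} {n : ℕ}
    (hr : ∀ i, ∃ F : Finset ι, n ≤ F.card ∧ ∀ j ∈ F, r i j) {m : ℕ} (hm : m ≤ n)
    (b : Fin m → ι) : ∃ b' : Fin m → ι, Function.Injective b' ∧ ∀ k, r (b k) (b' k) := by
  classical
  induction m with
  | zero => exact ⟨b, fun i => i.elim0, fun i => i.elim0⟩
  | succ m ih =>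
    obtain ⟨c, hc, hcr⟩ := ih (by omega) fun k => b k.succ
    obtain ⟨F, hF, hFr⟩ := hr (b 0)
    have h1 : (Finset.univ.image c).card ≤ m := by
      refine Finset.card_image_le.trans ?_
      rw [Finset.card_univ, Fintype.card_fin]
    have h2 : ((F \ Finset.univ.image c)).Nonempty := by
      rw [← Finset.card_pos]
      have := Finset.le_card_sdiff (Finset.univ.image c) F
      omega
    obtain ⟨j, hj⟩ := h2
    rw [Finset.mem_sdiff] at hj
    refine ⟨Fin.cons j c, ?_, ?_⟩
    · rw [Fin.cons_injective_iff]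
      refine ⟨?_, hc⟩
      rintro ⟨k, hk⟩
      exact hj.2 (Finset.mem_image.2 ⟨k, Finset.mem_univ _, hk⟩)
    · intro k
      refine Fin.cases ?_ (fun k => ?_) k
      · rw [Fin.cons_zero]
        exact hFr j hj.1
      · rw [Fin.cons_succ]
        exact hcr k

section

variable {g : ℕ}

/-- the character of a sequence of different letters -/
theorem sum_single_eq {m : ℕ} {b : Fin m → Ix g} (hb : Function.Injective b) :
    ∑ k, (Pi.single (b k) 1 : Ix g → ℤ) = indI (Finset.univ.image b) := by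
  classical
  funext i
  rw [Finset.sum_apply]
  unfold indI
  split_ifs with h
  · obtain ⟨k, -, hk⟩ := Finset.mem_image.1 h
    rw [Finset.sum_eq_single k]
    · rw [hk, Pi.single_eq_same]
    · intro k' _ hk'
      apply Pi.single_eq_of_ne
      intro h'
      exact hk' (hb (h'.symm.trans hk.symm))
    · intro h'
      exact absurd (Finset.mem_univ _) h'
  · apply Finset.sum_eq_zero
    intro k _
    apply Pi.single_eq_of_ne
    intro h'
    exact h (Finset.mem_image.2 ⟨k, Finset.mem_univ _, h'.symm⟩)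

theorem toW_indI_cases (I : Finset (Ix g)) (s : Fin g) :
    toW (indI I) s = -1 ∨ toW (indI I) s = 0 ∨ toW (indI I) s = 1 := by
  classical
  rw [toW_apply]
  unfold indI
  split_ifs <;> norm_num

theorem size_toW_indI (I : Finset (Ix g)) : size (toW (indI I)) ≤ I.card := by
  classical
  have h1 : I.card = ∑ i : Ix g, (if i ∈ I then 1 else 0) := by
    rw [Finset.card_eq_sum_ones, Finset.sum_ite_mem, Finset.univ_inter]
  rw [h1, Fintype.sum_prod_type, size]
  apply Finset.sum_le_sum
  intro s _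
  rw [Fintype.sum_prod_type, Fintype.sum_bool, Fin.sum_univ_one, Fin.sum_univ_one, toW_apply]
  unfold indI
  split_ifs <;> norm_num

end

variable {Y : Pc0b458Z.NumAb.{u}} {A : Pc0b458Z.CMAb} {S : Pc0b458G.Specialisation Y A}

/-- equal weights, in terms of the real functions -/
theorem car_of_same {s : Fin A.g} {b : Bool} {t : Fin A.g} {c : Bool} (h : Same S s b t c) :
    ∀ f ∈ Car (GM S), f ((s, b, 0) : Ix A.g) = f (t, c, 0) := by
  intro f hf
  have h1 : diag (fun s b => ((f (s, b, 0) : ℝ) : ℂ)) ∈ Lie S := diag_mem.1 hf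
  have h2 := h _ h1
  exact_mod_cast h2

/-- the characters in `gensT S` are zero on the diagonal elements -/
theorem gensT_null {x : Ix A.g → ℤ} (hx : x ∈ gensT S) {f : Ix A.g → ℝ} (hf : f ∈ Car (GM S)) :
    ∑ i, (x i : ℝ) * f i = 0 := by
  classical
  have hs : ∀ i, ∑ k, ((Pi.single i 1 : Ix A.g → ℤ) k : ℝ) * f k = f i := pair_single f
  rcases hx with ⟨s, rfl⟩ | ⟨i, j, hij, rfl⟩ | ⟨m, x', y', hxy, c, hc, η, T, hp, h0, rfl⟩
  · have h1 := GM_pair (S := S) (p := fun i => (f i : ℂ)) hf s
    have h2 : pair f (Pi.single (s, true, 0) 1 + Pi.single (s, false, 0) 1) = 0 := by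
      rw [map_add, pair_single, pair_single]
      exact_mod_cast h1
    exact h2
  · have h2 : pair f (Pi.single i 1 - Pi.single j 1) = 0 := by
      rw [map_sub, pair_single, pair_single, hij f hf, sub_self]
    exact h2
  · have h1 := GM_weight hxy hc hp h0 (p := fun i => (f i : ℂ)) hf
    have h2 : ∑ i ∈ letters η, f i = 0 := by exact_mod_cast h1
    rw [← h2]
    unfold indI
    rw [← Finset.sum_filter_add_sum_filter_not Finset.univ (fun i => i ∈ letters η),
      Finset.sum_eq_zero (s := Finset.univ.filter fun i => i ∉ letters η) (fun i hi => by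
        rw [if_neg (Finset.mem_filter.1 hi).2]
        simp), add_zero, Finset.filter_mem_eq_inter, Finset.univ_inter]
    apply Finset.sum_congr rfl
    intro i hi
    rw [if_pos hi]
    simp

/-- The central map of the phases, and its values on sequences of at most four letters. -/
theorem exists_zc (hS : Saturated A) (Pw : Powers A) (C : Cartan S)
    (hM : ∀ (s : Fin A.g) (b : Bool), ∃ F : Finset (Fin A.g × Bool), 4 ≤ F.card ∧
      ∀ p ∈ F, Same S s b p.1 p.2) :
    ∃ (v : Fin A.g → ℂ) (z : Ix A.g → ℂ), (∀ s, v s ≠ 0) ∧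
      (∀ η : Fin A.g → ℤ, (∀ s, η s = -1 ∨ η s = 0 ∨ η s = 1) → η ≠ 0 → A.toV.NonNull η →
        ∀ a a' : ℂ, A.toV.P η a a' → a' = conj a * (sg η : ℂ) * ∏ s, v s ^ η s) ∧
      Central S (Matrix.toLin' (Matrix.diagonal z)) ∧
      (∀ s, z (s, true, 0) * z (s, false, 0) = 1) ∧
      (∀ m x' y', S.sp m x' y' → ∀ c : (Fin A.g → ℤ) × Finset (Fin A.g) → ℂ,
        y' = ∑ p ∈ idx A.g (2 * m), c p • mo p.1 p.2 → ∀ η T, (η, T) ∈ idx A.g (2 * m) →
          c (η, T) ≠ 0 → ∏ i ∈ letters η, z i = ∏ i ∈ letters η, (omD v i / (‖omD v i‖ : ℂ))) ∧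
      ∀ m ≤ 4, ∀ a : Fin m → Ix A.g,
        (∀ z' : Ix A.g → ℂ, (∀ i, ‖z' i‖ = 1) →
          (∀ i j, (∃ X ∈ GM S, X i j ≠ 0) → z' i = z' j) →
          (∀ i j, (∀ f ∈ Car (GM S), f i = f j) → z' i = z' j) →
          (∀ x ∈ gensT S, ∏ i, z' i ^ x i = 1) → ∏ k, z' (a k) = 1) →
        ∏ k, z (a k) = 1 := by
  classical
  obtain ⟨v, hv, hvN⟩ : ∃ v : Fin A.g → ℂ, (∀ s, v s ≠ 0) ∧
      ∀ η : Fin A.g → ℤ, (∀ s, η s = -1 ∨ η s = 0 ∨ η s = 1) → η ≠ 0 → A.toV.NonNull η →
        ∀ a a' : ℂ, A.toV.P η a a' → a' = conj a * (sg η : ℂ) * ∏ s, v s ^ η s :=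
    exists_vV Pw.toV
  have hch : ∀ η : Fin A.g → ℤ, (∀ s, η s = -1 ∨ η s = 0 ∨ η s = 1) → η ≠ 0 →
      ∀ a a' : ℂ, A.toV.P η a a' → a * a' ≠ 0 → a' = conj a * (sg η : ℂ) * ∏ s, v s ^ η s :=
    fun η hη h0 a a' hP ha => hvN η hη h0 ⟨a, a', hP, ha⟩ a a' hP
  have hfix : ∀ n, ∀ z ∈ A.alg n, kap v z = z := fun n z hz => kap_alg Pw hv hch hz
  have tw : ∀ X ∈ GM S, Matrix.diagonal (omD v) * X.conjTranspose *
      Matrix.diagonal (fun i => (omD v i)⁻¹) ∈ GM S := fun X hX => GM_twist hv hfix hX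
  have huf : ∀ i j, (∀ f ∈ Car (GM S), f i = f j) →
      omD v i / (‖omD v i‖ : ℂ) = omD v j / (‖omD v j‖ : ℂ) := by
    rintro ⟨s, b, l⟩ ⟨t, c', l'⟩ h
    have hl : l = 0 := Subsingleton.elim _ _
    have hl' : l' = 0 := Subsingleton.elim _ _
    subst hl
    subst hl'
    apply uf_of_same C hv hch
    intro d hd
    exact GM_same hv tw h (p := fun i : Ix A.g => d i.1 i.2.1) (diag_mem.2 hd)
  obtain ⟨t, z, ht, hz, hu, hm, he, hs⟩ := split_scaled (G := GM S) (om := omD v) (omD_ne hv) GM_lie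
    tw (GM_cartan C hv tw) huf
  have hind : ∀ J : Finset (Ix A.g), (∀ f ∈ Car (GM S), ∑ i ∈ J, f i = 0) →
      ∏ i ∈ J, t i = 1 := by
    intro J hJ
    rw [← prod_indI]
    apply hm
    intro f hf
    rw [← hJ f hf]
    unfold indI
    rw [← Finset.sum_filter_add_sum_filter_not Finset.univ (fun i => i ∈ J),
      Finset.sum_eq_zero (s := Finset.univ.filter fun i => i ∉ J) (fun i hi => by
        rw [if_neg (Finset.mem_filter.1 hi).2]
        simp), add_zero, Finset.filter_mem_eq_inter, Finset.univ_inter]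
    apply Finset.sum_congr rfl
    intro i hi
    rw [if_pos hi]
    simp
  refine ⟨v, z, hv, hvN, central_diag (S := S) he hs, fun s => ?_, ?_, ?_⟩
  · have h1 : t (s, true, 0) * t (s, false, 0) = 1 := by
      have h1 := hind {(s, true, 0), (s, false, 0)} (fun f hf => by
        have h1 := GM_pair (S := S) (p := fun i => (f i : ℂ)) hf s
        rw [Finset.sum_pair (by simp)]
        exact_mod_cast h1)
      rwa [Finset.prod_pair (by simp)] at h1
    have h2 : (omD v (s, true, 0) / (‖omD v (s, true, 0)‖ : ℂ)) *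
        (omD v (s, false, 0) / (‖omD v (s, false, 0)‖ : ℂ)) = 1 := by
      have h1 : (‖v s‖ : ℂ) ≠ 0 := by exact_mod_cast (norm_pos_iff.2 (hv s)).ne'
      have h2 := hv s
      simp only [omD, if_true, Bool.false_eq_true, if_false, norm_inv, Complex.ofReal_inv]
      field_simp
    rw [hu, hu] at h2
    calc z (s, true, 0) * z (s, false, 0) =
        z (s, true, 0) * z (s, false, 0) * (t (s, true, 0) * t (s, false, 0)) := by rw [h1, mul_one]
      _ = z (s, true, 0) * t (s, true, 0) * (z (s, false, 0) * t (s, false, 0)) := by ring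
      _ = 1 := h2
  · intro m x' y' hy' c hc η T hp hne
    have h1 : ∏ i ∈ letters η, t i = 1 := by
      apply hind
      intro f hf
      have h1 := GM_weight hy' hc hp hne (p := fun i => (f i : ℂ)) hf
      exact_mod_cast h1
    rw [Finset.prod_congr rfl (fun i _ => hu i), Finset.prod_mul_distrib, h1, mul_one]
  · intro m hm4 a ha
    obtain ⟨b, hb, hb0, hbT⟩ := relCore_scaled (G := GM S) (om := omD v) (omD_ne hv) GM_lie
      tw (GM_cartan C hv tw) huf (gensT S) (fun x hx f hf => gensT_null hx hf)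
      (fun i j hij => Or.inr (Or.inl ⟨i, j, hij, rfl⟩)) (by
        intro t' ht' hk X hX
        have hne : ∀ i, t' i ≠ 0 := by
          intro i h0
          have := ht' i
          rw [h0, norm_zero] at this
          exact zero_ne_one this
        have h1 := GM_conj (S := S) hne hk hX
        have h2 : (Matrix.of fun i j => t' i / t' j * X i j) =
            Matrix.diagonal t' * X * Matrix.diagonal (fun i => (t' i)⁻¹) := by
          ext i j
          rw [Matrix.mul_diagonal, Matrix.diagonal_mul, Matrix.of_apply]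
          ring
        rw [h2]
        exact h1) a (fun z' h1 h2 h3 h4 => ha z' h1 h2 h3 h4)
    -- different letters
    obtain ⟨b', hb', hbb⟩ := exists_distinct (r := fun i j : Ix A.g => ∀ f ∈ Car (GM S), f i = f j)
      (n := 4) (by
        rintro ⟨s, c, l⟩
        have hl : l = 0 := Subsingleton.elim _ _
        subst hl
        obtain ⟨F, hF, hFs⟩ := hM s c
        refine ⟨F.map ⟨fun p => (p.1, p.2, 0), ?_⟩, ?_, ?_⟩
        · rintro ⟨x1, x2⟩ ⟨y1, y2⟩ h
          simp only [Prod.mk.injEq] at h ⊢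
          exact ⟨h.1, h.2.1⟩
        · rw [Finset.card_map]
          exact hF
        · intro j hj
          obtain ⟨p, hp, rfl⟩ := Finset.mem_map.1 hj
          exact car_of_same (hFs p hp)) hm4 b
    have hmem : indI (Finset.univ.image b') ∈ AddSubgroup.closure (gensT S) := by
      rw [← sum_single_eq hb']
      have h1 : (∑ k, (Pi.single (b' k) 1 : Ix A.g → ℤ)) =
          (∑ k, (Pi.single (b k) 1 : Ix A.g → ℤ)) -
            ∑ k, (Pi.single (b k) 1 - Pi.single (b' k) 1 : Ix A.g → ℤ) := by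
        rw [Finset.sum_sub_distrib]
        abel
      rw [h1]
      exact AddSubgroup.sub_mem _ hbT (AddSubgroup.sum_mem _ fun k _ =>
        AddSubgroup.subset_closure (Or.inr (Or.inl ⟨b k, b' k, hbb k, rfl⟩)))
    have hph := sat_phase hS Pw C hv hvN tw hmem (toW_indI_cases _) (by
      refine (size_toW_indI _).trans ?_
      refine Finset.card_image_le.trans ?_
      rw [Finset.card_univ, Fintype.card_fin]
      exact hm4)
    rw [prod_indI, Finset.prod_image fun i _ j _ h => hb' h] at hph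
    have ht1 : ∏ k, t (b' k) = 1 := by
      have h1 := hind (Finset.univ.image b') (fun f hf => by
        rw [Finset.sum_image fun i _ j _ h => hb' h, ← hb0 f hf]
        exact Finset.sum_congr rfl fun k _ => (hbb k f hf).symm)
      rwa [Finset.prod_image fun i _ j _ h => hb' h] at h1
    rw [Finset.prod_congr rfl (fun k _ => hu (b' k)), Finset.prod_mul_distrib, ht1, mul_one] at hph
    rw [← hph]
    refine Finset.prod_congr rfl fun k _ => ?_
    rw [← hs (b k) (b' k) (hbb k)]
    exact conn_const he hs (hb k)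

/-- a diagonal map which is trivial on `gensT S` fixes the classes of all algebraic cycles on `Y` -/
theorem fix_of_gensT {t : Ix A.g → ℂ} (ht : ∀ i, t i ≠ 0)
    (hk : ∀ x ∈ gensT S, ∏ i, t i ^ x i = 1) {n : ℕ} {x : Y.Z} {y : Coh A.g 1}
    (hxy : S.sp n x y) : ext (Matrix.toLin' (Matrix.diagonal t)) y = y := by
  obtain ⟨c, hc⟩ := rep (g := A.g)
    (CMAb.R1_gr (A := A.toV) (CMAb.alg_R1 (A := A.toV) (S.alg n x y hxy)))
  refine (ext_fix A.toV hc).2 fun η T hp h0 => ?_
  have h1 : ∏ i ∈ letters η, t i = 1 := by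
    rw [← prod_indI]
    exact hk _ (Or.inr (Or.inr ⟨n, x, y, hxy, c, hc, η, T, hp, h0, rfl⟩))
  have h2 : ∀ s : Fin A.g, t (s, true, 0) * t (s, false, 0) = 1 := by
    intro s
    rw [← prod_single_add ht]
    exact hk _ (Or.inl ⟨s, rfl⟩)
  have h3 : ∏ s ∈ T, t (s, true, 0) * t (s, false, 0) = 1 := Finset.prod_eq_one fun s _ => h2 s
  exact (congrArg₂ (fun a b : ℂ => a * b) h1 h3).trans (mul_one 1)

/-- the map which extends `-1`, in odd degree -/
theorem ext_neg_odd {g k : ℕ} (hk : Odd k) {y : Coh g 1} (hy : y ∈ gr g 1 k) :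
    ext (Matrix.toLin' (Matrix.diagonal fun _ : Ix g => (-1 : ℂ))) y = -y := by
  have h : extV (Matrix.toLin' (Matrix.diagonal fun _ : Ix g => (-1 : ℂ))) y = -y := by
    obtain ⟨c, hc⟩ := rep hy
    rw [hc, map_sum, ← Finset.sum_neg_distrib]
    apply Finset.sum_congr rfl
    rintro ⟨η, T⟩ hp
    obtain ⟨hη, hT, hd⟩ := mem_idx.1 hp
    rw [map_smul, extV_mo, prod_efac _ hη hT, Finset.prod_const, Finset.prod_const,
      card_letters hη]
    have h1 : (-1 : ℂ) ^ size η * ((-1 : ℂ) * -1) ^ T.card = -1 := by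
      have h2 : Odd (size η) := by
        rw [← Nat.not_even_iff_odd]
        rw [← Nat.not_even_iff_odd, ← hd] at hk
        exact fun h3 => hk (h3.add (even_two_mul _))
      rw [h2.neg_one_pow]
      norm_num
    rw [h1, neg_smul, one_smul, smul_neg]
  exact h

/-- the letters of a weight as a sequence -/
theorem exists_seq {g : ℕ} (η : Fin g → ℤ) : ∃ a : Fin (letters η).card → Ix g,
    ∀ w : Ix g → ℂ, ∏ k, w (a k) = ∏ i ∈ letters η, w i := by
  refine ⟨fun k => ((letters η).equivFin.symm k).1, fun w => ?_⟩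
  rw [Equiv.prod_comp (letters η).equivFin.symm (fun i : {x // x ∈ letters η} => w i.1),
    Finset.prod_coe_sort]

/-- **The central map and the classes of degree at most four.** The central map of the phases fixes
the classes of degree at most four which are fixed by the unitary diagonal central maps which fix the
classes of all algebraic cycles on `Y`. -/
theorem exists_z4 (hS : Saturated A) (Pw : Powers A) (C : Cartan S)
    (hM : ∀ (s : Fin A.g) (b : Bool), ∃ F : Finset (Fin A.g × Bool), 4 ≤ F.card ∧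
      ∀ p ∈ F, Same S s b p.1 p.2) :
    ∃ (v : Fin A.g → ℂ) (z : Ix A.g → ℂ), (∀ s, v s ≠ 0) ∧
      (∀ η : Fin A.g → ℤ, (∀ s, η s = -1 ∨ η s = 0 ∨ η s = 1) → η ≠ 0 → A.toV.NonNull η →
        ∀ a a' : ℂ, A.toV.P η a a' → a' = conj a * (sg η : ℂ) * ∏ s, v s ^ η s) ∧
      Central S (Matrix.toLin' (Matrix.diagonal z)) ∧
      (∀ s, z (s, true, 0) * z (s, false, 0) = 1) ∧
      (∀ m x' y', S.sp m x' y' → ∀ c : (Fin A.g → ℤ) × Finset (Fin A.g) → ℂ,
        y' = ∑ p ∈ idx A.g (2 * m), c p • mo p.1 p.2 → ∀ η T, (η, T) ∈ idx A.g (2 * m) →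
          c (η, T) ≠ 0 → ∏ i ∈ letters η, z i = ∏ i ∈ letters η, (omD v i / (‖omD v i‖ : ℂ))) ∧
      ∀ k ≤ 4, ∀ y : Coh A.g 1, y ∈ gr A.g 1 k →
        (∀ z' : Ix A.g → ℂ, (∀ i, ‖z' i‖ = 1) → Central S (Matrix.toLin' (Matrix.diagonal z')) →
          (∀ m x' y', S.sp m x' y' → ext (Matrix.toLin' (Matrix.diagonal z')) y' = y') →
          ext (Matrix.toLin' (Matrix.diagonal z')) y = y) →
        ext (Matrix.toLin' (Matrix.diagonal z)) y = y := by
  classical
  obtain ⟨v, z, hv, hvN, hC, hz, hw, hcore⟩ := exists_zc hS Pw C hM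
  refine ⟨v, z, hv, hvN, hC, hz, hw, ?_⟩
  intro k hk4 y hy hfix
  have hne : ∀ t : Ix A.g → ℂ, (∀ i, ‖t i‖ = 1) → ∀ i, t i ≠ 0 := by
    intro t ht i h0
    have := ht i
    rw [h0, norm_zero] at this
    exact zero_ne_one this
  rcases Nat.even_or_odd k with hk | hk
  · obtain ⟨n, rfl⟩ := hk
    rw [← two_mul] at hy hk4
    obtain ⟨c, hc⟩ := rep hy
    refine (ext_fix A.toV hc).2 fun (η : Fin A.g → ℤ) (T : Finset (Fin A.g))
      (hp : (η, T) ∈ idx A.g (2 * n)) h0 => ?_
    obtain ⟨hη, hT, hd⟩ := mem_idx.1 hp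
    have e1 : ∏ s ∈ T, z (s, true, 0) * z (s, false, 0) = 1 := Finset.prod_eq_one fun s _ => hz s
    refine (congrArg₂ (fun a b : ℂ => a * b) ?_ e1).trans (mul_one 1)
    obtain ⟨a, hl⟩ := exists_seq η
    refine (hl z).symm.trans (hcore _ (by rw [card_letters hη]; omega) _ ?_)
    intro z' h1 h2 h3 h4
    refine (hl z').trans ?_
    have h5 := (ext_fix A.toV hc).1 (hfix z' h1 (central_diag (S := S) h2 h3)
      (fun m x' y' hxy => fix_of_gensT (hne z' h1) h4 hxy)) η T hp h0
    have e2 : ∏ s ∈ T, z' (s, true, 0) * z' (s, false, 0) = 1 := Finset.prod_eq_one fun s _ => by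
      rw [← prod_single_add (hne z' h1)]
      exact h4 _ (Or.inl ⟨s, rfl⟩)
    have h6 : (∏ i ∈ letters η, z' i) * 1 = 1 :=
      (congrArg (fun b : ℂ => (∏ i ∈ letters η, z' i) * b) e2).symm.trans h5
    rwa [mul_one] at h6
  · have h1 := hfix (fun _ => -1) (fun _ => by norm_num)
      (central_diag (S := S) (fun _ _ _ => rfl) fun _ _ _ => rfl) (by
        intro m x' y' hxy
        obtain ⟨c, hc⟩ := rep (g := A.g)
          (CMAb.R1_gr (A := A.toV) (CMAb.alg_R1 (A := A.toV) (S.alg m x' y' hxy)))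
        refine (ext_fix A.toV hc).2 fun η T hp _ => ?_
        obtain ⟨hη, hT, hd⟩ := mem_idx.1 hp
        rw [Finset.prod_const, Finset.prod_const, card_letters hη]
        have h2 : Even (size η) := by
          rw [← Nat.not_odd_iff_even]
          intro h3
          have h4 := h3.add_even (even_two_mul T.card)
          rw [hd] at h4
          exact (Nat.not_odd_iff_even.2 (even_two_mul m)) h4
        rw [h2.neg_one_pow]
        norm_num)
    have h2 := (ext_neg_odd hk hy).symm.trans h1
    have h3 : y = 0 := by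
      have h4 : (2 : ℂ) • y = 0 := by
        rw [two_smul]
        nth_rewrite 1 [← h2]
        exact neg_add_cancel y
      exact (smul_eq_zero.1 h4).resolve_left two_ne_zero
    rw [h3]
    exact map_zero (ext (Matrix.toLin' (Matrix.diagonal z)))

end Pc0b458E
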