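import Pool.Agent.Lib.Pc0b458E.Aut

/-!
# The action of diagonal maps on the coefficients of a class
-/

universe u

open Finset

namespace Pc0b458E

open Pc0b458V Pc0b458L

variable {g : ℕ}

theorem ext_rep {n : ℕ} {y : Coh g 1} {c : (Fin g → ℤ) × Finset (Fin g) → ℂ}
    (hc : y = ∑ p ∈ idx g (2 * n), c p • mo p.1 p.2) {z : Ix g → ℂ}
    (hz : ∀ s, z (s, true, 0) * z (s, false, 0) = 1) :
    ext (Matrix.toLin' (Matrix.diagonal z)) y =
      ∑ p ∈ idx g (2 * n), ((∏ i ∈ letters p.1, z i) * c p) • mo p.1 p.2 := by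
  have h : extV (Matrix.toLin' (Matrix.diagonal z)) y =
      ∑ p ∈ idx g (2 * n), ((∏ i ∈ letters p.1, z i) * c p) • mo p.1 p.2 := by
    rw [hc, map_sum]
    apply Finset.sum_congr rfl
    rintro ⟨η, T⟩ hp
    obtain ⟨hη, hT, -⟩ := mem_idx.1 hp
    rw [map_smul, extV_mo, prod_efac z hη hT, smul_smul, Finset.prod_eq_one (s := T)
      (fun s _ => hz s), mul_one, mul_comm]
  exact h

theorem prod_letters_zero {M : Type*} [CommMonoid M] (F : Ix g → M) :
    ∏ i ∈ letters (0 : Fin g → ℤ), F i = 1 := by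
  rw [prod_letters (η := (0 : Fin g → ℤ)) (fun _ => Or.inr (Or.inl rfl))]
  apply Finset.prod_eq_one
  intro s _
  simp

theorem prod_letters_neg {η : Fin g → ℤ} (hη : ∀ s, η s = -1 ∨ η s = 0 ∨ η s = 1) {z : Ix g → ℂ}
    (hz : ∀ s, z (s, true, 0) * z (s, false, 0) = 1) :
    ∏ i ∈ letters (-η), z i = (∏ i ∈ letters η, z i)⁻¹ := by
  have hn : ∀ s, (-η) s = -1 ∨ (-η) s = 0 ∨ (-η) s = 1 := by
    intro s
    rcases hη s with h | h | h <;> simp [h]
  rw [prod_letters hn, prod_letters hη, ← Finset.prod_inv_distrib]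
  apply Finset.prod_congr rfl
  intro s _
  have h1 : z (s, false, 0) = (z (s, true, 0))⁻¹ :=
    (inv_eq_of_mul_eq_one_right (hz s)).symm
  have h2 : z (s, true, 0) = (z (s, false, 0))⁻¹ := by rw [h1, inv_inv]
  rcases hη s with h | h | h
  · simp [h, h1]
  · simp [h]
  · simp [h, h1]

end Pc0b458E
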