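import Pool.Agent.Lib.Pc0b458G.Main

/-!
# The weights of the classes generated in codimension at most two are good
-/

open Finset

namespace Pc0b458E

open Pc0b458V

variable {A : Pc0b458Z.CMAb}

theorem genA_good {m : ℕ} {y' : Coh A.g 1} (h : Pc0b458G.GenA A m y')
    {c : (Fin A.g → ℤ) × Finset (Fin A.g) → ℂ} (hc : y' = ∑ p ∈ idx A.g (2 * m), c p • mo p.1 p.2)
    {η : Fin A.g → ℤ} {T : Finset (Fin A.g)} (hp : (η, T) ∈ idx A.g (2 * m)) (h0 : η ≠ 0)
    (hN : A.toV.NonNull η) (hcp : c (η, T) ≠ 0) : A.toV.Good η := by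
  have h1 : A.toV.Generated η := (Pc0b458G.GenA.genC h).2 η T hp
    (fun h2 => hcp ((Pc0b458V.CMAb.co_eq_zero (A := A.toV) hc hp).1 h2)) (Or.inr hN)
  exact (Pc0b458V.CMAb.good_of_generated h1).2

end Pc0b458E
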