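import Pool.Agent.Lib.Pc0b458V.Reality

/-!
# Products of generators

`gl L` is the product of the generators in the list `L`. It depends on the order only up to sign.
`tau` is the linear automorphism of the cohomology ring of `A^m` with `gen s true j ↦ gen s false j`
and `gen s false j ↦ -gen s true j`.
-/

open Finset ComplexConjugate

namespace Pc0b458E

open Pc0b458V

variable {g m : ℕ}

/-- the product of the generators in a list -/
noncomputable def gl (L : List (Fin g × Bool × Fin m)) : Coh g m :=
  (L.map fun i => gen i.1 i.2.1 i.2.2).prod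

theorem gl_nil : gl ([] : List (Fin g × Bool × Fin m)) = 1 := by simp [gl]

theorem gl_cons (i : Fin g × Bool × Fin m) (L : List (Fin g × Bool × Fin m)) :
    gl (i :: L) = gen i.1 i.2.1 i.2.2 * gl L := by simp [gl]

theorem gl_append (L L' : List (Fin g × Bool × Fin m)) : gl (L ++ L') = gl L * gl L' := by
  simp [gl]

theorem gl_flatten {n : ℕ} (f : Fin n → List (Fin g × Bool × Fin m)) :
    gl (List.ofFn f).flatten = lprod fun i => gl (f i) := by
  induction n with
  | zero => simp [lprod_zero, gl_nil]
  | succ n ih => rw [List.ofFn_succ, List.flatten_cons, gl_append, lprod_succ, ih]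

theorem gl_mem_gr (L : List (Fin g × Bool × Fin m)) : gl L ∈ gr g m L.length := by
  induction L with
  | nil => rw [gl_nil]; exact one_mem_gr
  | cons i L ih =>
    rw [gl_cons, List.length_cons, add_comm]
    exact mul_mem_gr (gen_mem_gr _ _ _) ih

theorem gl_mul_gen {i : Fin g × Bool × Fin m} {L : List (Fin g × Bool × Fin m)} (h : i ∈ L) :
    gl L * gen i.1 i.2.1 i.2.2 = 0 := by
  induction L with
  | nil => simp at h
  | cons j L ih =>
    rw [gl_cons, mul_assoc]
    rcases List.mem_cons.1 h with rfl | h
    · have h1 := gr_comm (gl_mem_gr L) (gen_mem_gr i.1 i.2.1 i.2.2)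
      rw [h1, mul_smul_comm, ← mul_assoc, gen_sq, zero_mul, smul_zero]
    · rw [ih h, mul_zero]

theorem gl_perm {L L' : List (Fin g × Bool × Fin m)} (h : L.Perm L') :
    gl L = gl L' ∨ gl L = -gl L' := by
  induction h with
  | nil => exact Or.inl rfl
  | cons i _ ih =>
    rw [gl_cons, gl_cons]
    rcases ih with h | h
    · left; rw [h]
    · right; rw [h, mul_neg]
  | swap i j L =>
    right
    rw [gl_cons, gl_cons, gl_cons, gl_cons, ← mul_assoc, gen_anti, neg_mul, mul_assoc]
  | trans _ _ h1 h2 =>
    rcases h1 with h1 | h1 <;> rcases h2 with h2 | h2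
    · left; rw [h1, h2]
    · right; rw [h1, h2]
    · right; rw [h1, h2]
    · left; rw [h1, h2, neg_neg]

theorem coe_flatten {α : Type*} {n : ℕ} (f : Fin n → List α) :
    ((List.ofFn f).flatten : Multiset α) = ∑ i, (f i : Multiset α) := by
  induction n with
  | zero => simp
  | succ n ih =>
    rw [List.ofFn_succ, List.flatten_cons, Fin.sum_univ_succ, ← ih, Multiset.coe_add]

/-! ### the flip -/

/-- the flip on the first cohomology -/
noncomputable def tauOne (g m : ℕ) :
    (Fin g × Bool × Fin m → ℂ) →ₗ[ℂ] (Fin g × Bool × Fin m → ℂ) where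
  toFun x i := (if i.2.1 then -1 else 1) * x (i.1, !i.2.1, i.2.2)
  map_add' x y := by
    funext i
    simp only [Pi.add_apply, mul_add]
  map_smul' c x := by
    funext i
    simp only [Pi.smul_apply, RingHom.id_apply, smul_eq_mul]
    ring

/-- the flip -/
noncomputable def tau (g m : ℕ) : Coh g m →ₐ[ℂ] Coh g m := ExteriorAlgebra.map (tauOne g m)

theorem tau_iota (x : Fin g × Bool × Fin m → ℂ) : tau g m (iota g m x) = iota g m (tauOne g m x) :=
  ExteriorAlgebra.map_apply_ι (tauOne g m) x

theorem tau_gen_true (s : Fin g) (j : Fin m) : tau g m (gen s true j) = gen s false j := by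
  rw [gen, tau_iota, gen]
  congr 1
  funext i
  obtain ⟨t, c, l⟩ := i
  cases c <;> simp [tauOne, Pi.single_apply]

theorem tau_gen_false (s : Fin g) (j : Fin m) : tau g m (gen s false j) = -gen s true j := by
  rw [gen, tau_iota, gen, ← map_neg]
  congr 1
  funext i
  obtain ⟨t, c, l⟩ := i
  cases c <;> simp [tauOne, Pi.single_apply]

/-- a real pull-back commutes with the flip -/
theorem tau_pb {v : Fin m → Fin g → ℂ} (hv : ∀ j s, conj (v j s) = v j s) (z : Coh g 1) :
    tau g m (pb v z) = pb v (tau g 1 z) := by
  have : (tau g m).comp (pb v) = (pb v).comp (tau g 1) := by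
    apply hom_ext_gen
    intro s b
    cases b
    · simp only [AlgHom.comp_apply, pb_gen_false, map_sum, map_smul, tau_gen_false, hv, map_neg,
        pb_gen_true, smul_neg, Finset.sum_neg_distrib]
    · simp only [AlgHom.comp_apply, pb_gen_true, map_sum, map_smul, tau_gen_true, hv,
        pb_gen_false]
  exact DFunLike.congr_fun this z

theorem tau_dd (s : Fin g) : tau g 1 (dd s) = dd s := by
  rw [dd, map_mul, tau_gen_true, tau_gen_false, mul_neg, gen_anti, neg_neg]

theorem tau_mo {η : Fin g → ℤ} (hη : ∀ s, η s = -1 ∨ η s = 0 ∨ η s = 1) :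
    tau g 1 (mo η ∅) = (sg η : ℂ) • mo (-η) ∅ := by
  have h1 : ((sg η : ℤ) : ℂ) = ∏ s, if η s = -1 then (-1 : ℂ) else 1 := by
    unfold sg supp
    rw [Finset.prod_filter]
    push_cast
    refine Finset.prod_congr rfl fun s _ => ?_
    rcases hη s with h | h | h <;> simp [h]
  unfold mo
  rw [map_lprod, h1, ← lprod_smul]
  congr 1
  funext s
  unfold lt
  simp only [Finset.notMem_empty, if_false, Pi.neg_apply]
  rcases hη s with h | h | h
  · simp [h, tau_gen_false]
  · simp [h]
  · simp [h, tau_gen_true]

end Pc0b458E
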