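import Pool.Agent.Lib.Pc0b458E.Der

/-!
# The matrix of the conjugate of a symplectic linear map

If the derivation which extends `T` kills the class of the polarisation, then `T` is in the
symplectic Lie algebra, and its conjugate under the antilinear map `kapOne v` has the matrix
`-(om Tᴴ om⁻¹)`, where `om` is diagonal.
-/

open Finset ComplexConjugate Pc0b458V Matrix

namespace Pc0b458E

variable {g : ℕ}

/-- a functional on the cohomology ring which detects the coefficient of a product of two vectors -/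
theorem exists_detect (k l : Fin g × Bool × Fin 1) :
    ∃ Φ : Coh g 1 →ₗ[ℂ] ℂ, ∀ a b : V1 g, Φ (iota g 1 a * iota g 1 b) = a l * b k - a k * b l := by
  let d : Fin g × Bool × Fin 1 → Module.Dual ℂ (V1 g) := fun i => LinearMap.proj i
  let Ψ : ExteriorAlgebra ℂ (V1 g) →ₗ[ℂ] ℂ :=
    (ExteriorAlgebra.algebraMapInv : ExteriorAlgebra ℂ (V1 g) →ₐ[ℂ] ℂ).toLinearMap ∘ₗ
      (CliffordAlgebra.contractLeft (Q := (0 : QuadraticForm ℂ (V1 g))) (d k)) ∘ₗ
      (CliffordAlgebra.contractLeft (Q := (0 : QuadraticForm ℂ (V1 g))) (d l))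
  refine ⟨Ψ, fun a b => ?_⟩
  change ExteriorAlgebra.algebraMapInv
    (CliffordAlgebra.contractLeft (Q := (0 : QuadraticForm ℂ (V1 g))) (d k)
      (CliffordAlgebra.contractLeft (Q := (0 : QuadraticForm ℂ (V1 g))) (d l)
        (CliffordAlgebra.ι (0 : QuadraticForm ℂ (V1 g)) a *
          CliffordAlgebra.ι (0 : QuadraticForm ℂ (V1 g)) b))) = _
  rw [CliffordAlgebra.contractLeft_ι_mul, CliffordAlgebra.contractLeft_ι, map_sub, map_smul,
    CliffordAlgebra.contractLeft_ι, ← Algebra.commutes, CliffordAlgebra.contractLeft_algebraMap_mul,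
    CliffordAlgebra.contractLeft_ι, map_sub, map_smul, map_mul]
  have h : ∀ c : ℂ, ExteriorAlgebra.algebraMapInv
      (algebraMap ℂ (CliffordAlgebra (0 : QuadraticForm ℂ (V1 g))) c) = c := fun c =>
    AlgHom.commutes (ExteriorAlgebra.algebraMapInv : ExteriorAlgebra ℂ (V1 g) →ₐ[ℂ] ℂ) c
  rw [h, h, h, smul_eq_mul]
  change a l * b k - b l * a k = _
  ring

/-- `1` on `gen s true 0`, `-1` on `gen s false 0` -/
def eps (b : Bool) : ℂ := if b then 1 else -1

/-- the partner -/
def bar (i : Fin g × Bool × Fin 1) : Fin g × Bool × Fin 1 := (i.1, !i.2.1, i.2.2)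

theorem bar_bar (i : Fin g × Bool × Fin 1) : bar (bar i) = i := by
  obtain ⟨s, b, l⟩ := i
  simp [bar]

/-- a linear map which kills the class of the polarisation is symplectic -/
theorem symp_aux {T : Module.End ℂ (V1 g)} (hT : ∃ D, IsDerV T D ∧ D (Pc0b458V.pol g) = 0)
    (k l : Fin g × Bool × Fin 1) :
    eps l.2.1 * LinearMap.toMatrix' T k (bar l) = eps k.2.1 * LinearMap.toMatrix' T l (bar k) := by
  obtain ⟨D, hD, h0⟩ := hT
  obtain ⟨Φ, hΦ⟩ := exists_detect k l
  have h1 : D (Pc0b458V.pol g) = ∑ s : Fin g,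
      (iota g 1 (T (Pi.single (s, true, 0) 1)) * iota g 1 (Pi.single (s, false, 0) 1) +
        iota g 1 (Pi.single (s, true, 0) 1) * iota g 1 (T (Pi.single (s, false, 0) 1))) := by
    rw [Pc0b458V.pol, map_sum]
    apply Finset.sum_congr rfl
    intro s _
    rw [hD.2, gen, gen, hD.1, hD.1]
  have h2 : Φ (D (Pc0b458V.pol g)) = 0 := by rw [h0, map_zero]
  rw [h1, map_sum] at h2
  set M := LinearMap.toMatrix' T with hM
  have h3 : ∀ s : Fin g, Φ (iota g 1 (T (Pi.single (s, true, 0) 1)) *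
      iota g 1 (Pi.single (s, false, 0) 1) +
      iota g 1 (Pi.single (s, true, 0) 1) * iota g 1 (T (Pi.single (s, false, 0) 1))) =
      M l (s, true, 0) * (if k = (s, false, 0) then 1 else 0) -
        M k (s, true, 0) * (if l = (s, false, 0) then 1 else 0) +
      ((if l = (s, true, 0) then 1 else 0) * M k (s, false, 0) -
        (if k = (s, true, 0) then 1 else 0) * M l (s, false, 0)) := by
    intro s
    rw [map_add, hΦ, hΦ]
    simp only [Pi.single_apply]
    rfl
  rw [Finset.sum_congr rfl fun s _ => h3 s] at h2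
  obtain ⟨s₁, b₁, k₁⟩ := k
  obtain ⟨s₂, b₂, k₂⟩ := l
  have e1 : k₁ = 0 := Subsingleton.elim _ _
  have e2 : k₂ = 0 := Subsingleton.elim _ _
  subst e1 e2
  simp only [Prod.mk.injEq, and_true, Finset.sum_add_distrib, Finset.sum_sub_distrib] at h2
  cases b₁ <;> cases b₂ <;> simp [eps, bar] at h2 ⊢ <;>
    first | linear_combination h2 | linear_combination -h2

/-- the entries of a symplectic matrix -/
theorem symp_entry {T : Module.End ℂ (V1 g)} (hT : ∃ D, IsDerV T D ∧ D (Pc0b458V.pol g) = 0)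
    (i j : Fin g × Bool × Fin 1) :
    LinearMap.toMatrix' T (bar i) (bar j) =
      -(eps i.2.1 * eps j.2.1 * LinearMap.toMatrix' T j i) := by
  have h := symp_aux hT (bar i) j
  rw [bar_bar] at h
  obtain ⟨s₁, b₁, k₁⟩ := i
  obtain ⟨s₂, b₂, k₂⟩ := j
  cases b₁ <;> cases b₂ <;> simp [eps, bar] at h ⊢ <;>
    first | linear_combination h | linear_combination -h

/-- the diagonal matrix of the twist -/
noncomputable def omD (v : Fin g → ℂ) (i : Fin g × Bool × Fin 1) : ℂ :=
  if i.2.1 then (v i.1)⁻¹ else v i.1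

/-- the matrix of the conjugate of a symplectic map -/
theorem toMatrix_cj {v : Fin g → ℂ} (hv : ∀ s, v s ≠ 0) {T : Module.End ℂ (V1 g)}
    (hT : ∃ D, IsDerV T D ∧ D (Pc0b458V.pol g) = 0) :
    LinearMap.toMatrix' (cj (kapOne v) (kapInv v) T) =
      -(diagonal (omD v) * (LinearMap.toMatrix' T)ᴴ * diagonal (fun i => (omD v i)⁻¹)) := by
  ext i j
  rw [Matrix.neg_apply, Matrix.mul_diagonal, Matrix.diagonal_mul, Matrix.conjTranspose_apply,
    LinearMap.toMatrix'_apply]
  have h1 : kapInv v (Pi.single j 1) =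
      ((if j.2.1 then -conj (v j.1) else (conj (v j.1))⁻¹) •
        (Pi.single (bar j) 1 : V1 g)) := by
    funext k
    obtain ⟨s₁, b₁, k₁⟩ := k
    obtain ⟨s₂, b₂, k₂⟩ := j
    have e1 : k₁ = 0 := Subsingleton.elim _ _
    have e2 : k₂ = 0 := Subsingleton.elim _ _
    subst e1 e2
    by_cases hs : s₁ = s₂
    · subst hs
      cases b₁ <;> cases b₂ <;> simp [kapInv, bar]
    · cases b₁ <;> cases b₂ <;> simp [kapInv, bar, hs]
  have h2 : cj (kapOne v) (kapInv v) T (Pi.single j 1) i =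
      (if i.2.1 then -(v i.1)⁻¹ else v i.1) * conj (T (kapInv v (Pi.single j 1)) (bar i)) := rfl
  rw [h2, h1, map_smul, Pi.smul_apply, smul_eq_mul, map_mul]
  have h3 : T (Pi.single (bar j) 1) (bar i) =
      -(eps i.2.1 * eps j.2.1 * LinearMap.toMatrix' T j i) := symp_entry hT i j
  rw [h3]
  have h4 := hv i.1
  have h5 := hv j.1
  obtain ⟨s₁, b₁, k₁⟩ := i
  obtain ⟨s₂, b₂, k₂⟩ := j
  cases b₁ <;> cases b₂ <;> simp [eps, omD] <;> ring

end Pc0b458E
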