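import Pool.Agent.Lib.Pc0b458E.Alg
import Pool.Agent.Lib.Pc0b458E.Mat

/-!
# The phases of the letters of a weight
-/

open Finset ComplexConjugate

namespace Pc0b458E

open Pc0b458V Pc0b458L

/-- the phases of the letters of a weight -/
theorem phase_iff {g : ℕ} {v : Fin g → ℂ} (hv : ∀ s, v s ≠ 0) {η : Fin g → ℤ}
    (hη : ∀ s, η s = -1 ∨ η s = 0 ∨ η s = 1) :
    ∏ i ∈ letters η, (omD v i / (‖omD v i‖ : ℂ)) = 1 ↔ ∃ r : ℝ, 0 < r ∧ ∏ s, v s ^ η s = r := by
  have hnv : ∀ s, (‖v s‖ : ℂ) ≠ 0 := fun s => by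
    exact_mod_cast (norm_pos_iff.2 (hv s)).ne'
  have h1 : ∏ i ∈ letters η, (omD v i / (‖omD v i‖ : ℂ)) = ∏ s, (v s / (‖v s‖ : ℂ)) ^ (-η s) := by
    rw [prod_letters hη]
    apply Finset.prod_congr rfl
    intro s _
    rcases hη s with h | h | h
    · rw [h]
      simp [omD]
    · rw [h]
      simp
    · rw [h]
      simp [omD]
      rw [div_eq_mul_inv, mul_comm]
  have h3 : (∏ s, v s ^ η s) * ∏ s, (v s / (‖v s‖ : ℂ)) ^ (-η s) =
      ((∏ s, ‖v s‖ ^ η s : ℝ) : ℂ) := by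
    rw [← Finset.prod_mul_distrib]
    push_cast
    apply Finset.prod_congr rfl
    intro s _
    rw [div_zpow, zpow_neg, zpow_neg, inv_div_inv, mul_div_cancel₀]
    exact zpow_ne_zero _ (hv s)
  have h4 : 0 < ∏ s, ‖v s‖ ^ η s := Finset.prod_pos fun s _ => zpow_pos (norm_pos_iff.2 (hv s)) _
  rw [h1]
  constructor
  · intro h
    rw [h, mul_one] at h3
    exact ⟨_, h4, h3⟩
  · rintro ⟨r, hr, h⟩
    rw [h] at h3
    have h5 : ‖∏ s, (v s / (‖v s‖ : ℂ)) ^ (-η s)‖ = 1 := by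
      rw [norm_prod]
      apply Finset.prod_eq_one
      intro s _
      rw [norm_zpow, norm_div, Complex.norm_real, norm_norm, div_self (norm_pos_iff.2 (hv s)).ne',
        one_zpow]
    have h6 : r = ∏ s, ‖v s‖ ^ η s := by
      have := congrArg norm h3
      rw [norm_mul, h5, mul_one, Complex.norm_real, Complex.norm_real, Real.norm_of_nonneg hr.le,
        Real.norm_of_nonneg h4.le] at this
      exact this
    rw [← h6] at h3
    have hr0 : (r : ℂ) ≠ 0 := by exact_mod_cast hr.ne'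
    exact mul_left_cancel₀ hr0 (h3.trans (mul_one _).symm)

end Pc0b458E
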