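import Pool.Agent.Lib.Pc0b458E.Alg
import Pool.Agent.Lib.Pc0b458E.Mat

/-!
# The motivic Lie algebra is stable under the twisted adjoint
-/

universe u

open Finset Matrix

namespace Pc0b458E

open Pc0b458V Pc0b458L

variable {Y : Pc0b458Z.NumAb.{u}} {A : Pc0b458Z.CMAb} {S : Pc0b458G.Specialisation Y A}

theorem GM_twist {v : Fin A.g → ℂ} (hv : ∀ s, v s ≠ 0) (hfix : ∀ n, ∀ z ∈ A.alg n, kap v z = z)
    {X : Matrix (Ix A.g) (Ix A.g) ℂ} (hX : X ∈ GM S) :
    diagonal (omD v) * Xᴴ * diagonal (fun i => (omD v i)⁻¹) ∈ GM S := by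
  have hT : ∃ D, IsDerV (Matrix.toLin' X) D ∧ D (Pc0b458V.pol A.g) = 0 :=
    mem_GM.1 hX 1 Y.L _ S.pol
  have h1 := toMatrix_cj hv hT
  rw [LinearMap.toMatrix'_toLin'] at h1
  have h2 : Matrix.toLin' (diagonal (omD v) * Xᴴ * diagonal (fun i => (omD v i)⁻¹)) =
      (-1 : ℂ) • cj (kapOne v) (kapInv v) (Matrix.toLin' X) := by
    have e1 : diagonal (omD v) * Xᴴ * diagonal (fun i => (omD v i)⁻¹) =
        -LinearMap.toMatrix' (cj (kapOne v) (kapInv v) (Matrix.toLin' X)) := by rw [h1, neg_neg]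
    rw [e1, map_neg, Matrix.toLin'_toMatrix']
    apply LinearMap.ext
    intro f
    rw [LinearMap.neg_apply, LinearMap.smul_apply, neg_one_smul]
  rw [mem_GM, h2]
  intro n x y hxy
  obtain ⟨D, hD, hD0⟩ := der_conj_kill (kapOne_kapInv hv) (kapInv_kapOne hv)
    (hfix n y (S.alg n x y hxy)) (mem_GM.1 hX n x y hxy)
  refine ⟨(-1 : ℂ) • D, hD.smul (-1), ?_⟩
  exact (congrArg (fun z : Coh A.g 1 => (-1 : ℂ) • z) hD0).trans (smul_zero _)

theorem omD_ne {g : ℕ} {v : Fin g → ℂ} (hv : ∀ s, v s ≠ 0) (i : Ix g) : omD v i ≠ 0 := by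
  unfold omD
  split_ifs
  · exact inv_ne_zero (hv _)
  · exact hv _

theorem GM_same {v : Fin A.g → ℂ} (hv : ∀ s, v s ≠ 0)
    (tw : ∀ X ∈ GM S, diagonal (omD v) * Xᴴ * diagonal (fun i => (omD v i)⁻¹) ∈ GM S)
    {i j : Ix A.g} (h : ∀ f ∈ Car (GM S), f i = f j) {p : Ix A.g → ℂ} (hp : diagonal p ∈ GM S) :
    p i = p j := by
  have h1 := tw _ hp
  have h2 : diagonal (omD v) * (diagonal p)ᴴ * diagonal (fun i => (omD v i)⁻¹) =
      diagonal (fun i => star (p i)) := by
    rw [Matrix.diagonal_conjTranspose, Matrix.diagonal_mul_diagonal,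
      Matrix.diagonal_mul_diagonal]
    congr 1
    funext i
    rw [Pi.star_apply, mul_comm (omD v i), mul_assoc, mul_inv_cancel₀ (omD_ne hv i), mul_one]
  rw [h2] at h1
  have hre : (fun i => (p i).re) ∈ Car (GM S) := by
    have h3 : diagonal (fun i => (((p i).re : ℝ) : ℂ)) =
        (1 / 2 : ℂ) • (diagonal p + diagonal (fun i => star (p i))) := by
      rw [Matrix.diagonal_add, ← Matrix.diagonal_smul]
      congr 1
      funext i
      rw [Pi.smul_apply, smul_eq_mul, Complex.star_def, Complex.add_conj]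
      push_cast
      ring
    change diagonal (fun i => (((p i).re : ℝ) : ℂ)) ∈ GM S
    rw [h3]
    exact (GM S).smul_mem _ ((GM S).add_mem hp h1)
  have him : (fun i => (p i).im) ∈ Car (GM S) := by
    have h3 : diagonal (fun i => (((p i).im : ℝ) : ℂ)) =
        (-Complex.I / 2 : ℂ) • (diagonal p - diagonal (fun i => star (p i))) := by
      rw [Matrix.diagonal_sub, ← Matrix.diagonal_smul]
      congr 1
      funext i
      rw [Pi.smul_apply, smul_eq_mul, Complex.star_def, Complex.sub_conj]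
      push_cast
      linear_combination ((p i).im : ℂ) * Complex.I_mul_I
    change diagonal (fun i => (((p i).im : ℝ) : ℂ)) ∈ GM S
    rw [h3]
    exact (GM S).smul_mem _ ((GM S).sub_mem hp h1)
  exact Complex.ext (h _ hre) (h _ him)

theorem diag_toLin {g : ℕ} (d : Fin g → Bool → ℂ) :
    diag d = Matrix.toLin' (diagonal fun i : Ix g => d i.1 i.2.1) := by
  apply LinearMap.ext
  intro f
  funext i
  rw [Matrix.toLin'_apply, Matrix.mulVec_diagonal]
  rfl

theorem GM_cartan (C : Cartan S) {v : Fin A.g → ℂ} (hv : ∀ s, v s ≠ 0)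
    (tw : ∀ X ∈ GM S, diagonal (omD v) * Xᴴ * diagonal (fun i => (omD v i)⁻¹) ∈ GM S) :
    ∀ X ∈ GM S, (∀ f ∈ Car (GM S), ∀ i j, X i j ≠ 0 → f i = f j) →
      ∀ i j, i ≠ j → X i j = 0 := by
  intro X hX hf i j hij
  obtain ⟨d, hd⟩ := C.centraliser (Matrix.toLin' X) (mem_GM.1 hX) (by
    intro d hd
    have hp : diagonal (fun i : Ix A.g => d i.1 i.2.1) ∈ GM S := diag_mem.2 hd
    rw [diag_toLin, Module.End.mul_eq_comp, Module.End.mul_eq_comp, ← Matrix.toLin'_mul,
      ← Matrix.toLin'_mul]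
    congr 1
    ext a b
    rw [Matrix.diagonal_mul, Matrix.mul_diagonal]
    by_cases hab : X a b = 0
    · rw [hab, mul_zero, zero_mul]
    · have h1 := GM_same hv tw (fun f hfC => hf f hfC a b hab) hp
      rw [h1, mul_comm])
  rw [diag_toLin] at hd
  have h2 := Matrix.toLin'.injective hd
  rw [h2, Matrix.diagonal_apply_ne _ hij]

end Pc0b458E
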