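import Pool.Agent.Lib.Pc0b458E.Alg
import Pool.Agent.Lib.Pc0b458E.Mat
import Pool.Agent.Lib.Pc0b458E.Char
import Pool.Agent.Lib.Pc0b458E.Fix
import Pool.Agent.Lib.Pc0b458V.AlgP

/-!
# Equal weights have equal phases
-/

universe u

open Finset ComplexConjugate

namespace Pc0b458E

open Pc0b458V Pc0b458L

/-- the sign of a letter -/
def sgB (b : Bool) : ℤ := if b then 1 else -1

lemma sgB_not (b : Bool) : sgB (!b) = -sgB b := by
  cases b <;> rfl

/-- the monomial with one letter -/
lemma mo_single {g : ℕ} (s : Fin g) (b : Bool) :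
    mo (Pi.single s (sgB b) : Fin g → ℤ) ∅ = gen s b 0 := by
  have h : (lt (Pi.single s (sgB b) : Fin g → ℤ) ∅) = fun i => if i = s then gen s b 0 else 1 := by
    funext i
    by_cases hi : i = s
    · subst hi
      cases b <;> simp [lt, sgB]
    · simp [lt, hi, sgB]
  rw [mo, h]
  exact lprod_ite s (gen s b 0)

/-- the weight with two letters -/
def pairW {g : ℕ} (s : Fin g) (b : Bool) (t : Fin g) (c : Bool) : Fin g → ℤ :=
  Pi.single s (sgB b) + Pi.single t (sgB (!c))

lemma pairW_apply {g : ℕ} {s t : Fin g} (hst : s ≠ t) (b c : Bool) (i : Fin g) :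
    pairW s b t c i = if i = s then sgB b else if i = t then sgB (!c) else 0 := by
  unfold pairW
  rw [Pi.add_apply]
  by_cases h1 : i = s
  · subst h1
    rw [Pi.single_eq_same, Pi.single_eq_of_ne hst, if_pos rfl, add_zero]
  · rw [if_neg h1, Pi.single_eq_of_ne h1]
    by_cases h2 : i = t
    · subst h2
      rw [Pi.single_eq_same, if_pos rfl, zero_add]
    · rw [if_neg h2, Pi.single_eq_of_ne h2, add_zero]

lemma sgB_cases (b : Bool) : sgB b = -1 ∨ sgB b = 1 := by
  cases b
  · exact Or.inl rfl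
  · exact Or.inr rfl

lemma single_cases {g : ℕ} (s : Fin g) (b : Bool) (i : Fin g) :
    (Pi.single s (sgB b) : Fin g → ℤ) i = -1 ∨ (Pi.single s (sgB b) : Fin g → ℤ) i = 0 ∨
      (Pi.single s (sgB b) : Fin g → ℤ) i = 1 := by
  by_cases h : i = s
  · subst h
    rw [Pi.single_eq_same]
    rcases sgB_cases b with h | h
    · exact Or.inl h
    · exact Or.inr (Or.inr h)
  · rw [Pi.single_eq_of_ne h]
    exact Or.inr (Or.inl rfl)

lemma pairW_cases {g : ℕ} {s t : Fin g} (hst : s ≠ t) (b c : Bool) (i : Fin g) :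
    pairW s b t c i = -1 ∨ pairW s b t c i = 0 ∨ pairW s b t c i = 1 := by
  rw [pairW_apply hst]
  split_ifs
  · rcases sgB_cases b with h | h
    · exact Or.inl h
    · exact Or.inr (Or.inr h)
  · rcases sgB_cases (!c) with h | h
    · exact Or.inl h
    · exact Or.inr (Or.inr h)
  · exact Or.inr (Or.inl rfl)

lemma pairW_ne {g : ℕ} {s t : Fin g} (hst : s ≠ t) (b c : Bool) : pairW s b t c ≠ 0 := by
  intro h
  have := congrFun h s
  rw [pairW_apply hst, if_pos rfl] at this
  rcases sgB_cases b with h1 | h1 <;> rw [h1] at this <;> simp at this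

lemma pairW_size {g : ℕ} {s t : Fin g} (hst : s ≠ t) (b c : Bool) : size (pairW s b t c) = 2 := by
  unfold size
  have h : ∀ i : Fin g, (pairW s b t c i).natAbs = (if i = s then 1 else 0) + (if i = t then 1 else 0) := by
    intro i
    rw [pairW_apply hst]
    by_cases h1 : i = s
    · subst h1
      rw [if_pos rfl, if_pos rfl, if_neg hst]
      rcases sgB_cases b with h1 | h1 <;> rw [h1] <;> rfl
    · rw [if_neg h1, if_neg h1]
      by_cases h2 : i = t
      · rw [if_pos h2, if_pos h2]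
        rcases sgB_cases (!c) with h1 | h1 <;> rw [h1] <;> rfl
      · rw [if_neg h2, if_neg h2]
        rfl
  rw [Finset.sum_congr rfl fun i _ => h i, Finset.sum_add_distrib, Finset.sum_ite_eq',
    Finset.sum_ite_eq', if_pos (Finset.mem_univ _), if_pos (Finset.mem_univ _)]

/-- the monomials of the weight with two letters -/
lemma mo_pairW {g : ℕ} {s t : Fin g} (hst : s ≠ t) (b c : Bool) :
    ∃ ε : ℂ, (ε = 1 ∨ ε = -1) ∧ mo (pairW s b t c) ∅ = ε • (gen s b 0 * gen t (!c) 0) ∧
      mo (-pairW s b t c) ∅ = ε • (gen s (!b) 0 * gen t c 0) := by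
  obtain ⟨ε, hε, h1, h2⟩ := mo_mul (single_cases s b) (single_cases t (!c))
    (fun i => pairW_cases hst b c i)
  have hO : supp (Pi.single s (sgB b) : Fin g → ℤ) ∩ supp (Pi.single t (sgB (!c)) : Fin g → ℤ) = ∅ := by
    ext i
    simp only [supp, Finset.mem_inter, Finset.mem_filter, Finset.mem_univ, true_and,
      Finset.notMem_empty, iff_false, not_and, not_not]
    intro h
    by_cases hi : i = s
    · subst hi
      exact Pi.single_eq_of_ne hst _
    · exact absurd (Pi.single_eq_of_ne hi _) h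
  have hneg : ∀ (r : Fin g) (d : Bool), -(Pi.single r (sgB d) : Fin g → ℤ) =
      Pi.single r (sgB (!d)) := by
    intro r d
    rw [sgB_not, Pi.single_neg]
  rw [hO, mo_single, mo_single] at h1
  rw [hO, hneg, hneg, mo_single, mo_single, Bool.not_not, Finset.card_empty, pow_zero, mul_one] at h2
  have hεε : ε * ε = 1 := by rcases hε with h | h <;> rw [h] <;> norm_num
  refine ⟨ε, hε, ?_, ?_⟩
  · rw [h1, smul_smul, hεε, one_smul]
    rfl
  · rw [h2, smul_smul, hεε, one_smul]
    rfl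

variable {Y : Pc0b458Z.NumAb.{u}} {A : Pc0b458Z.CMAb} {S : Pc0b458G.Specialisation Y A}

lemma span_alg_eff {i : ℕ} {z : Coh A.g 1} (hz : z ∈ Submodule.span ℂ (A.alg i)) :
    z ∈ Submodule.span ℂ (A.eff i) := by
  have h : Submodule.span ℂ (A.alg i) ≤ Submodule.span ℂ (A.eff i) := by
    rw [Submodule.span_le]
    intro x hx
    exact CMAb.AlgPAux.R1_le (A := A.toV) i (CMAb.alg_R1 (A := A.toV) hx)
  exact h hz

/-- the other letters -/
lemma Same.not {s : Fin A.g} {b : Bool} {t : Fin A.g} {c : Bool} (h : Same S s b t c) :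
    Same S s (!b) t (!c) := by
  intro d hd
  have h1 := h d hd
  have hp : Matrix.diagonal (fun i : Ix A.g => d i.1 i.2.1) ∈ GM S := diag_mem.2 hd
  have h2 : d s true + d s false = 0 := GM_pair hp s
  have h3 : d t true + d t false = 0 := GM_pair hp t
  cases b <;> cases c <;> simp only [Bool.not_true, Bool.not_false] at * <;> linear_combination h2 - h3 - h1

/-- `v s` and `v t` have the same phase, up to inversion -/
lemma pos_of_same (C : Cartan S) {v : Fin A.g → ℂ} (hv : ∀ s, v s ≠ 0)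
    (hch : ∀ η : Fin A.g → ℤ, (∀ s, η s = -1 ∨ η s = 0 ∨ η s = 1) → η ≠ 0 →
      ∀ a a' : ℂ, A.toV.P η a a' → a * a' ≠ 0 → a' = conj a * (sg η : ℂ) * ∏ s, v s ^ η s)
    {s : Fin A.g} {b : Bool} {t : Fin A.g} {c : Bool} (hst : s ≠ t) (h : Same S s b t c) :
    ∃ r : ℝ, 0 < r ∧ v s ^ sgB b * v t ^ sgB (!c) = r := by
  have hd1 : gen s b 0 * gen t (!c) 0 ∈ Submodule.span ℂ (A.alg 1) := C.divisor s b t c hst h
  have hd2 : gen s (!b) 0 * gen t c 0 ∈ Submodule.span ℂ (A.alg 1) := by
    have := C.divisor s (!b) t (!c) hst h.not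
    rwa [Bool.not_not] at this
  obtain ⟨ε, hε, e1, e2⟩ := mo_pairW hst b c
  have hη := pairW_cases hst b c
  have hn0 := pairW_ne hst b c
  have ha1 : ∀ i, |pairW s b t c i| ≤ 1 := by
    intro i
    rcases hη i with h | h | h <;> rw [h] <;> norm_num
  have hb1 : mon (pairW s b t c) ∈ Submodule.span ℂ (A.eff 1) := by
    rw [mon_eq, e1]
    exact Submodule.smul_mem _ _ (span_alg_eff hd1)
  have hc1 : mon (-pairW s b t c) ∈ Submodule.span ℂ (A.eff 1) := by
    rw [mon_eq, e2]
    exact Submodule.smul_mem _ _ (span_alg_eff hd2)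
  have halg : A.toV.Algebraic (pairW s b t c) := ⟨ha1, 1, pairW_size hst b c, hb1, hc1⟩
  have hsz : size (pairW s b t c) ≤ 4 := by
    rw [pairW_size hst]
    norm_num
  have hN : A.toV.NonNull (pairW s b t c) := CMAb.nonNull_of_algebraic hn0 halg
  obtain ⟨a, a', hP, r, hr, hra0⟩ := CMAb.base (A := A.toV) hη hn0 hsz hN
  have hra : (sg (pairW s b t c) : ℂ) * a * a' = r := hra0
  have haa : a * a' ≠ 0 := by
    intro h0
    rw [mul_assoc, h0, mul_zero] at hra
    exact hr.ne' (by exact_mod_cast hra.symm)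
  have h1 := hch _ hη hn0 a a' hP haa
  have h3 : (sg (pairW s b t c) : ℂ) * (sg (pairW s b t c) : ℂ) = 1 := by
    exact_mod_cast congrArg (fun z : ℤ => (z : ℂ)) (sg_sq hη)
  have ha : a ≠ 0 := left_ne_zero_of_mul haa
  have hn : 0 < Complex.normSq a := Complex.normSq_pos.2 ha
  have h4 : ∏ i, v i ^ pairW s b t c i = v s ^ sgB b * v t ^ sgB (!c) := by
    have h5 : ∀ i, v i ^ pairW s b t c i =
        (if i = s then v i ^ sgB b else 1) * (if i = t then v i ^ sgB (!c) else 1) := by
      intro i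
      rw [pairW_apply hst]
      by_cases h1 : i = s
      · rw [if_pos h1, if_pos h1, if_neg (h1 ▸ hst), mul_one]
      · rw [if_neg h1, if_neg h1]
        by_cases h2 : i = t
        · rw [if_pos h2, if_pos h2, one_mul]
        · rw [if_neg h2, if_neg h2, zpow_zero, one_mul]
    rw [Finset.prod_congr rfl fun i _ => h5 i, Finset.prod_mul_distrib, Finset.prod_ite_eq',
      Finset.prod_ite_eq', if_pos (Finset.mem_univ _), if_pos (Finset.mem_univ _)]
  refine ⟨r / Complex.normSq a, div_pos hr hn, ?_⟩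
  rw [← h4]
  push_cast
  rw [← hra, h1, eq_div_iff (by exact_mod_cast hn.ne'), ← Complex.mul_conj]
  linear_combination (-(a * conj a * ∏ i, v i ^ pairW s b t c i)) * h3

/-- the phase of a letter -/
lemma omD_eq {v : Fin A.g → ℂ} (s : Fin A.g) (b : Bool) :
    omD v (s, b, 0) = (v s ^ sgB b)⁻¹ := by
  cases b
  · simp [omD, sgB]
  · simp [omD, sgB]

lemma phase_eq {z w : ℂ} (hz : z ≠ 0) (hw : w ≠ 0) {r : ℝ} (hr : 0 < r) (h : z⁻¹ * w = r) :
    z / (‖z‖ : ℂ) = w / (‖w‖ : ℂ) := by
  have h1 : w = r * z := by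
    rw [← h]
    field_simp
  have hz' : (‖z‖ : ℂ) ≠ 0 := by exact_mod_cast (norm_pos_iff.2 hz).ne'
  have hr' : (r : ℂ) ≠ 0 := by exact_mod_cast hr.ne'
  rw [h1, norm_mul, Complex.norm_real, Real.norm_of_nonneg hr.le]
  push_cast
  rw [mul_div_mul_left _ _ hr']

lemma uf_ne (C : Cartan S) {v : Fin A.g → ℂ} (hv : ∀ s, v s ≠ 0)
    (hch : ∀ η : Fin A.g → ℤ, (∀ s, η s = -1 ∨ η s = 0 ∨ η s = 1) → η ≠ 0 →
      ∀ a a' : ℂ, A.toV.P η a a' → a * a' ≠ 0 → a' = conj a * (sg η : ℂ) * ∏ s, v s ^ η s)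
    {s : Fin A.g} {b : Bool} {t : Fin A.g} {c : Bool} (hst : s ≠ t) (h : Same S s b t c) :
    omD v (s, b, 0) / (‖omD v (s, b, 0)‖ : ℂ) = omD v (t, c, 0) / (‖omD v (t, c, 0)‖ : ℂ) := by
  obtain ⟨r, hr, h1⟩ := pos_of_same C hv hch hst h
  rw [omD_eq, omD_eq]
  refine phase_eq (inv_ne_zero (zpow_ne_zero _ (hv s))) (inv_ne_zero (zpow_ne_zero _ (hv t))) hr ?_
  rw [inv_inv, ← h1, sgB_not, zpow_neg]

/-- letters of the same weight have the same phase -/
theorem uf_of_same (C : Cartan S) {v : Fin A.g → ℂ} (hv : ∀ s, v s ≠ 0)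
    (hch : ∀ η : Fin A.g → ℤ, (∀ s, η s = -1 ∨ η s = 0 ∨ η s = 1) → η ≠ 0 →
      ∀ a a' : ℂ, A.toV.P η a a' → a * a' ≠ 0 → a' = conj a * (sg η : ℂ) * ∏ s, v s ^ η s)
    {s : Fin A.g} {b : Bool} {t : Fin A.g} {c : Bool} (h : Same S s b t c) :
    omD v (s, b, 0) / (‖omD v (s, b, 0)‖ : ℂ) = omD v (t, c, 0) / (‖omD v (t, c, 0)‖ : ℂ) := by
  by_cases hst : s = t
  · subst hst
    have key : Same S s true s false →
        omD v (s, true, 0) / (‖omD v (s, true, 0)‖ : ℂ) =
          omD v (s, false, 0) / (‖omD v (s, false, 0)‖ : ℂ) := by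
      intro h0
      obtain ⟨t, c, hts, h1⟩ := C.zero s h0
      have h2 : Same S s true t (!c) := by
        intro d hd
        have hp : Matrix.diagonal (fun i : Ix A.g => d i.1 i.2.1) ∈ GM S := diag_mem.2 hd
        have e1 : d s true + d s false = 0 := GM_pair hp s
        have e2 : d t true + d t false = 0 := GM_pair hp t
        have e3 : d s true = d s false := h0 d hd
        have e4 : d s true = d t c := h1 d hd
        have e5 : d s true = 0 := by linear_combination (1 / 2 : ℂ) * e1 + (1 / 2 : ℂ) * e3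
        cases c
        · simp only [Bool.not_false]
          linear_combination 2 * e5 - e2 - e4
        · simp only [Bool.not_true]
          linear_combination 2 * e5 - e2 - e4
      have f1 := uf_ne C hv hch hts.symm h1
      have f2 := uf_ne C hv hch hts.symm h2
      have hvs := hv s
      have hvt := hv t
      have g1 : ∀ (r : Fin A.g) (d : Bool), omD v (r, !d, 0) = (omD v (r, d, 0))⁻¹ := by
        intro r d
        rw [omD_eq, omD_eq, sgB_not, zpow_neg]
      have g2 : ∀ (r : Fin A.g) (d : Bool), omD v (r, !d, 0) / (‖omD v (r, !d, 0)‖ : ℂ) =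
          (omD v (r, d, 0) / (‖omD v (r, d, 0)‖ : ℂ))⁻¹ := by
        intro r d
        rw [g1, norm_inv, Complex.ofReal_inv, inv_div_inv, inv_div]
      have g3 := g2 s true
      rw [Bool.not_true] at g3
      rw [g2 t c] at f2
      rw [g3, f1, ← f2, f1]
    cases b <;> cases c
    · rfl
    · exact (key fun d hd => (h d hd).symm).symm
    · exact key h
    · rfl
  · exact uf_ne C hv hch hst h

end Pc0b458E
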