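import Pool.Agent.Lib.Pc0b458E.Fix
import Pool.Agent.Lib.Pc0b458E.Uf
import Pool.Agent.Lib.Pc0b458E.Alg2
import Pool.Agent.Lib.Pc0b458E.Aut
import Pool.Agent.Lib.Pc0b458E.Phase
import Pool.Agent.Lib.Pc0b458E.Twist
import Pool.Agent.Lib.Pc0b458L.ScaleS

/-!
# The central involution
-/

universe u

open Finset ComplexConjugate

namespace Pc0b458E

open Pc0b458V Pc0b458L

/-- the value of a character on a set of letters -/
theorem prod_set {ι : Type} [Fintype ι] [DecidableEq ι] {G : Submodule ℂ (Matrix ι ι ℂ)}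
    {t : ι → ℂ} (h : ∀ m : ι → ℤ, (∀ f ∈ Car G, ∑ i, m i * f i = 0) → ∏ i, t i ^ m i = 1)
    (J : Finset ι) (hJ : ∀ f ∈ Car G, ∑ i ∈ J, f i = 0) : ∏ i ∈ J, t i = 1 := by
  have h1 := h (fun i => if i ∈ J then 1 else 0) (fun f hf => by
    have h2 := hJ f hf
    rw [← Finset.sum_filter_add_sum_filter_not Finset.univ (fun i => i ∈ J),
      Finset.sum_congr rfl (g := fun i => f i) (fun i hi => by
        rw [Finset.mem_filter] at hi
        simp [hi.2]),
      Finset.sum_eq_zero (s := Finset.univ.filter fun i => i ∉ J) (fun i hi => by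
        rw [Finset.mem_filter] at hi
        simp [hi.2]), add_zero, Finset.filter_mem_eq_inter, Finset.univ_inter]
    exact h2)
  rw [← h1, ← Finset.prod_filter_mul_prod_filter_not Finset.univ (fun i => i ∈ J),
    Finset.prod_congr rfl (s₁ := Finset.univ.filter fun i => i ∈ J) (g := fun i => t i)
      (fun i hi => by
        rw [Finset.mem_filter] at hi
        simp [hi.2]),
    Finset.prod_eq_one (s := Finset.univ.filter fun i => i ∉ J) (fun i hi => by
        rw [Finset.mem_filter] at hi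
        simp [hi.2]), mul_one, Finset.filter_mem_eq_inter, Finset.univ_inter]

variable {Y : Pc0b458Z.NumAb.{u}} {A : Pc0b458Z.CMAb} {S : Pc0b458G.Specialisation Y A}

/-- There is a central diagonal map which acts on the classes of algebraic cycles on `Y` through the
phases of the character `v`. -/
theorem exists_z (Pw : Powers A) (C : Cartan S) :
    ∃ (v : Fin A.g → ℂ) (z : Ix A.g → ℂ), (∀ s, v s ≠ 0) ∧
      (∀ η : Fin A.g → ℤ, (∀ s, η s = -1 ∨ η s = 0 ∨ η s = 1) → η ≠ 0 → A.toV.NonNull η →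
        ∀ a a' : ℂ, A.toV.P η a a' → a' = conj a * (sg η : ℂ) * ∏ s, v s ^ η s) ∧
      Central S (Matrix.toLin' (Matrix.diagonal z)) ∧
      (∀ s, z (s, true, 0) * z (s, false, 0) = 1) ∧
      ∀ m x' y', S.sp m x' y' → ∀ c : (Fin A.g → ℤ) × Finset (Fin A.g) → ℂ,
        y' = ∑ p ∈ idx A.g (2 * m), c p • mo p.1 p.2 → ∀ η T, (η, T) ∈ idx A.g (2 * m) →
          c (η, T) ≠ 0 → ∏ i ∈ letters η, z i = ∏ i ∈ letters η, (omD v i / (‖omD v i‖ : ℂ)) := by
  classical
  obtain ⟨v, hv, hvN⟩ : ∃ v : Fin A.g → ℂ, (∀ s, v s ≠ 0) ∧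
      ∀ η : Fin A.g → ℤ, (∀ s, η s = -1 ∨ η s = 0 ∨ η s = 1) → η ≠ 0 → A.toV.NonNull η →
        ∀ a a' : ℂ, A.toV.P η a a' → a' = conj a * (sg η : ℂ) * ∏ s, v s ^ η s :=
    exists_vV Pw.toV
  have hch : ∀ η : Fin A.g → ℤ, (∀ s, η s = -1 ∨ η s = 0 ∨ η s = 1) → η ≠ 0 →
      ∀ a a' : ℂ, A.toV.P η a a' → a * a' ≠ 0 → a' = conj a * (sg η : ℂ) * ∏ s, v s ^ η s :=
    fun η hη h0 a a' hP ha => hvN η hη h0 ⟨a, a', hP, ha⟩ a a' hP
  have hfix : ∀ n, ∀ z ∈ A.alg n, kap v z = z := fun n z hz => kap_alg Pw hv hch hz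
  have tw : ∀ X ∈ GM S, Matrix.diagonal (omD v) * X.conjTranspose *
      Matrix.diagonal (fun i => (omD v i)⁻¹) ∈ GM S := fun X hX => GM_twist hv hfix hX
  have huf : ∀ i j, (∀ f ∈ Car (GM S), f i = f j) →
      omD v i / (‖omD v i‖ : ℂ) = omD v j / (‖omD v j‖ : ℂ) := by
    rintro ⟨s, b, l⟩ ⟨t, c', l'⟩ h
    have hl : l = 0 := Subsingleton.elim _ _
    have hl' : l' = 0 := Subsingleton.elim _ _
    subst hl
    subst hl'
    apply uf_of_same C hv hch
    intro d hd
    exact GM_same hv tw h (p := fun i : Ix A.g => d i.1 i.2.1) (diag_mem.2 hd)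
  obtain ⟨t, z, ht, hz, hu, hm, he, hs⟩ := split_scaled (G := GM S) (om := omD v) (omD_ne hv) GM_lie
    tw (GM_cartan C hv tw) huf
  have hpair : ∀ s : Fin A.g, ∀ F : Ix A.g → ℂ,
      ∏ i ∈ ({(s, true, 0), (s, false, 0)} : Finset (Ix A.g)), F i =
        F (s, true, 0) * F (s, false, 0) := fun s F => Finset.prod_pair (by simp)
  have hsum : ∀ s : Fin A.g, ∀ F : Ix A.g → ℝ,
      ∑ i ∈ ({(s, true, 0), (s, false, 0)} : Finset (Ix A.g)), F i =
        F (s, true, 0) + F (s, false, 0) := fun s F => Finset.sum_pair (by simp)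
  refine ⟨v, z, hv, hvN, central_diag (S := S) he hs, fun s => ?_, ?_⟩
  · have h1 : t (s, true, 0) * t (s, false, 0) = 1 := by
      rw [← hpair]
      apply prod_set hm
      intro f hf
      have h1 := GM_pair (S := S) (p := fun i => (f i : ℂ)) hf s
      rw [hsum]
      exact_mod_cast h1
    have h2 : (omD v (s, true, 0) / (‖omD v (s, true, 0)‖ : ℂ)) *
        (omD v (s, false, 0) / (‖omD v (s, false, 0)‖ : ℂ)) = 1 := by
      have h1 : (‖v s‖ : ℂ) ≠ 0 := by exact_mod_cast (norm_pos_iff.2 (hv s)).ne'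
      have h2 := hv s
      simp only [omD, if_true, Bool.false_eq_true, if_false, norm_inv, Complex.ofReal_inv]
      field_simp
    rw [hu, hu] at h2
    calc z (s, true, 0) * z (s, false, 0) =
        z (s, true, 0) * z (s, false, 0) * (t (s, true, 0) * t (s, false, 0)) := by rw [h1, mul_one]
      _ = z (s, true, 0) * t (s, true, 0) * (z (s, false, 0) * t (s, false, 0)) := by ring
      _ = 1 := h2
  · intro m x' y' hy' c hc η T hp hne
    have h1 : ∏ i ∈ letters η, t i = 1 := by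
      apply prod_set hm
      intro f hf
      have h1 := GM_weight hy' hc hp hne (p := fun i => (f i : ℂ)) hf
      exact_mod_cast h1
    rw [Finset.prod_congr rfl (fun i _ => hu i), Finset.prod_mul_distrib, h1, mul_one]

end Pc0b458E
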