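import Pool.Agent.Lib.Pc0b458G.Main

/-!
# Positivity of the twisted form on primitive classes

`x2` is obtained from `x` by multiplication of the coefficients of the weight `η` by `e η`, where
`e (-η) * sg η * a * a'` is positive for the pairs `(a, a')` of `P η`.
-/



open Finset ComplexConjugate

namespace Pc0b458V

namespace CMAb

variable {A : CMAb}

/-- twisted positivity for one pair gives twisted positivity for all pairs -/
theorem twist_pos {η : Fin A.g → ℤ} (hη : ∀ s, η s = -1 ∨ η s = 0 ∨ η s = 1) (h0 : η ≠ 0) {E : ℂ}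
    (h : ∃ a a' : ℂ, A.P η a a' ∧ ∃ r : ℝ, 0 < r ∧ E * a * a' = r) {b b' : ℂ} (hb : A.P η b b') :
    ∃ r : ℝ, 0 ≤ r ∧ E * b * b' = r ∧ (r = 0 → b = 0) := by
  obtain ⟨a, a', hP, r, hr, he⟩ := h
  have ha : a ≠ 0 := by
    rintro rfl
    simp only [mul_zero, zero_mul] at he
    have : r = 0 := by exact_mod_cast he.symm
    exact hr.ne' this
  have h1 := real_pair hη h0 hP hb
  have h2 := real_pair hη h0 hP hP
  have hn : 0 < Complex.normSq a := Complex.normSq_pos.2 ha
  refine ⟨Complex.normSq b * r / Complex.normSq a, ?_, ?_, ?_⟩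
  · exact div_nonneg (mul_nonneg (Complex.normSq_nonneg b) hr.le) hn.le
  · have hca : conj a ≠ 0 := by simpa using ha
    have e1 : ((Complex.normSq b * r / Complex.normSq a : ℝ) : ℂ) =
        (b * conj b) * r / (a * conj a) := by
      push_cast
      rw [← Complex.mul_conj, ← Complex.mul_conj]
    rw [e1, eq_div_iff (mul_ne_zero ha hca), ← he]
    have h3 : a * b' = conj a' * conj b := by rw [h1, map_mul]
    have h4 : a * a' = conj a' * conj a := by rw [h2, map_mul]
    linear_combination E * b * conj a * h3 - E * b * conj b * h4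
  · intro h0'
    rw [div_eq_zero_iff] at h0'
    rcases h0' with h0' | h0'
    · rcases mul_eq_zero.1 h0' with h | h
      · exact Complex.normSq_eq_zero.1 h
      · exact absurd h hr.ne'
    · exact absurd h0' hn.ne'

/-- one term of the form -/
theorem zpos_term {n : ℕ} (hn : 2 * n ≤ A.g) {x : Coh A.g 1} (hx : A.Prim n x)
    {c : (Fin A.g → ℤ) × Finset (Fin A.g) → ℂ} (hc : x = ∑ p ∈ idx A.g (2 * n), c p • mo p.1 p.2)
    {e : (Fin A.g → ℤ) → ℂ} (he : e 0 = 1)
    (hG : ∀ η T, (η, T) ∈ idx A.g (2 * n) → η ≠ 0 → A.NonNull η → c (η, T) ≠ 0 →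
      ∃ a a' : ℂ, A.P η a a' ∧ ∃ r : ℝ, 0 < r ∧ (e (-η) * (sg η : ℂ)) * a * a' = r)
    {η : Fin A.g → ℤ} {T : Finset (Fin A.g)} (h : (η, T) ∈ idx A.g (2 * n)) :
    ∃ r : ℝ, 0 ≤ r ∧ (-1) ^ n * ∑ T' ∈ powersetCard T.card (zer η) with Disjoint T T',
      (-1 : ℂ) ^ (n - T.card) * (sg η : ℂ) * (c (η, T) * (e (-η) * c (-η, T'))) = r ∧
      (r = 0 → (η = 0 ∨ A.NonNull η) → c (η, T) = 0) := by
  have hR : x ∈ A.R1 n := alg_R1 hx.1
  obtain ⟨hη, hT, hsz⟩ := mem_idx.1 h
  have hTz : T ⊆ zer η := fun s hs => by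
    rw [zer, mem_filter]
    exact ⟨mem_univ _, hT s hs⟩
  have hnη : ∀ s, (-η) s = -1 ∨ (-η) s = 0 ∨ (-η) s = 1 := fun s => by
    rcases hη s with h | h | h <;> simp [h]
  have hz : zer (-η) = zer η := by
    ext s
    simp [zer]
  have hTn : T.card ≤ n := by omega
  by_cases hnull : η ≠ 0 ∧ ¬ A.NonNull η
  · refine ⟨0, le_rfl, ?_, ?_⟩
    · rw [Finset.sum_eq_zero]
      · simp
      · intro T' hT'
        rw [mem_filter, mem_powersetCard] at hT'
        have h' : (η, T') ∈ idx A.g (2 * n) := by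
          rw [mem_idx]
          refine ⟨hη, fun s hs => ?_, by rw [hT'.1.2]; exact hsz⟩
          have := hT'.1.1 hs
          rw [zer, mem_filter] at this
          exact this.2
        rw [mul_left_comm (c (η, T)), null_pair hη hnull.1 hnull.2 (P_of_rep hR hc h)
          (P_of_rep hR hc h'), mul_zero, mul_zero]
    · intro _ hor
      rcases hor with h0 | h0
      · exact absurd h0 hnull.1
      · exact absurd h0 hnull.2
  · have hor : η = 0 ∨ A.NonNull η := by
      by_contra hcon
      rw [not_or] at hcon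
      exact hnull hcon
    have hor' : -η = 0 ∨ A.NonNull (-η) := by
      rcases hor with h | h
      · left; rw [h, neg_zero]
      · right; exact h.neg
    have hcard := card_zer hη
    have hincl := incl (zer η) T.card (by omega) (fun T' => c (-η, T'))
      (by
        intro U hU hcU
        have := harm hn hx hc (η := -η) (U := U) hnη hor' (by rw [hz]; exact hU)
          (by rw [size_neg, hcU]; exact hsz)
        rw [hz, hcU] at this
        exact this)
      hTz rfl
    have hsum : ∑ T' ∈ powersetCard T.card (zer η) with Disjoint T T',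
        (-1 : ℂ) ^ (n - T.card) * (sg η : ℂ) * (c (η, T) * (e (-η) * c (-η, T'))) =
        (-1 : ℂ) ^ n * ((e (-η) * (sg η : ℂ)) * c (η, T) * c (-η, T)) := by
      have e1 : ∀ T' : Finset (Fin A.g), (-1 : ℂ) ^ (n - T.card) * (sg η : ℂ) *
          (c (η, T) * (e (-η) * c (-η, T'))) =
            ((-1 : ℂ) ^ (n - T.card) * (e (-η) * (sg η : ℂ)) * c (η, T)) *
            c (-η, T') := fun T' => by ring
      simp only [e1]
      rw [← Finset.mul_sum]
      have e2 : (powersetCard T.card (zer η)).filter (fun T' => Disjoint T T') =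
          (powersetCard T.card (zer η)).filter (fun T' => Disjoint T' T) := by
        apply Finset.filter_congr
        intro T' _
        exact disjoint_comm
      rw [e2, hincl]
      have e3 : (-1 : ℂ) ^ n = (-1) ^ (n - T.card) * (-1) ^ T.card := by
        rw [← pow_add, Nat.sub_add_cancel hTn]
      rw [e3]
      ring
    rw [hsum, ← mul_assoc, ← mul_pow]
    simp only [mul_neg, mul_one, neg_neg, one_pow, one_mul]
    by_cases h0 : η = 0
    · obtain ⟨r, hr⟩ := P_zero (h0 ▸ P_of_rep hR hc h)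
      have hneg : -η = η := by rw [h0, neg_zero]
      have e4 : c (η, T) = ((r / 2 : ℝ) : ℂ) := by
        subst h0
        rw [neg_zero] at hr
        push_cast
        rw [← hr]
        ring
      have e5 : sg η = 1 := by
        rw [h0, sg]
        apply Finset.prod_eq_one
        intro s hs
        rw [supp, mem_filter] at hs
        exact absurd rfl hs.2
      refine ⟨(r / 2) * (r / 2), mul_self_nonneg _, ?_, ?_⟩
      · rw [hneg, e5, e4, h0, he]
        push_cast
        ring
      · intro hr0 _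
        rw [e4, mul_self_eq_zero.1 hr0, Complex.ofReal_zero]
    · have hN : A.NonNull η := hor.resolve_left h0
      by_cases hc0 : c (η, T) = 0
      · refine ⟨0, le_rfl, ?_, fun _ _ => hc0⟩
        rw [hc0]
        simp
      · obtain ⟨r, hr0, hr, hr1⟩ := twist_pos hη h0 (hG η T h h0 hN hc0) (P_of_rep hR hc h)
        exact ⟨r, hr0, hr, fun h1 _ => hr1 h1⟩

/-- positivity, and nondegeneracy with respect to all algebraic classes -/
theorem zpos {n : ℕ} (hn : 2 * n ≤ A.g) {x : Coh A.g 1} (hx : A.Prim n x)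
    {c : (Fin A.g → ℤ) × Finset (Fin A.g) → ℂ} (hc : x = ∑ p ∈ idx A.g (2 * n), c p • mo p.1 p.2)
    {e : (Fin A.g → ℤ) → ℂ} (he : e 0 = 1)
    (hG : ∀ η T, (η, T) ∈ idx A.g (2 * n) → η ≠ 0 → A.NonNull η → c (η, T) ≠ 0 →
      ∃ a a' : ℂ, A.P η a a' ∧ ∃ r : ℝ, 0 < r ∧ (e (-η) * (sg η : ℂ)) * a * a' = r)
    {x2 : Coh A.g 1} (hx2 : x2 = ∑ p ∈ idx A.g (2 * n), (e p.1 * c p) • mo p.1 p.2) :
    ∃ r : ℝ, 0 ≤ r ∧ (-1) ^ n * A.int (x * x2 * pol A.g ^ (A.g - 2 * n)) = r ∧
      (r = 0 → ∀ w ∈ A.R1 n, A.int (x * w * pol A.g ^ (A.g - 2 * n)) = 0) := by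
  have hR : x ∈ A.R1 n := alg_R1 hx.1
  have hsq := A.int_bil hn c (fun p => e p.1 * c p)
  rw [← hc, ← hx2] at hsq
  rw [hsq]
  choose! r hr0 hr hr1 using fun p : (Fin A.g → ℤ) × Finset (Fin A.g) =>
    fun hp : p ∈ idx A.g (2 * n) => zpos_term hn hx hc he hG (η := p.1) (T := p.2) hp
  obtain ⟨t, ht, ht'⟩ := A.top_pos
  refine ⟨((A.g - 2 * n).factorial : ℝ) * t * ∑ p ∈ idx A.g (2 * n), r p, ?_, ?_, ?_⟩
  · apply mul_nonneg
    · positivity
    · exact Finset.sum_nonneg hr0
  · rw [ht']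
    push_cast
    rw [← Finset.sum_congr rfl hr, ← Finset.mul_sum]
    ring
  · intro h0 w hw
    have h1 : ∑ p ∈ idx A.g (2 * n), r p = 0 := by
      have h2 : ((A.g - 2 * n).factorial : ℝ) * t ≠ 0 := by positivity
      exact (mul_eq_zero.1 h0).resolve_left h2
    have h2 : ∀ p ∈ idx A.g (2 * n), r p = 0 := (Finset.sum_eq_zero_iff_of_nonneg hr0).1 h1
    obtain ⟨d, hd⟩ := rep (R1_gr hw)
    have hb := A.int_bil hn c d
    rw [← hc, ← hd] at hb
    rw [hb, Finset.sum_eq_zero, mul_zero]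
    rintro ⟨η, T⟩ hp
    obtain ⟨hη, hT, hsz⟩ := mem_idx.1 hp
    apply Finset.sum_eq_zero
    intro T' hT'
    rw [mem_filter, mem_powersetCard] at hT'
    have h' : (η, T') ∈ idx A.g (2 * n) := by
      rw [mem_idx]
      refine ⟨hη, fun s hs => ?_, by rw [hT'.1.2]; exact hsz⟩
      have := hT'.1.1 hs
      rw [zer, mem_filter] at this
      exact this.2
    by_cases hor : η = 0 ∨ A.NonNull η
    · have := hr1 (η, T) hp (h2 _ hp) hor
      rw [this, zero_mul, mul_zero]
    · rw [not_or] at hor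
      have := null_pair hη hor.1 hor.2 (P_of_rep hR hc hp) (P_of_rep hw hd h')
      simp only at this ⊢
      rw [this, mul_zero]

end CMAb

end Pc0b458V

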