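import Pool.Agent.Lib.Pc0b458G.Main

/-!
# Specialisation of primitive classes
-/

universe u

open Finset

namespace Pc0b458E

open Pc0b458Z Pc0b458G

variable {X Y : NumAb.{u}} {A : CMAb}

/-- a primitive class on `X` has a pull-back with a primitive specialisation -/
theorem exists_prim (P : Product X Y) (S : Specialisation Y A) {n : ℕ} (hn : 2 * n ≤ X.g)
    {x : X.Z} (hx : x ∈ X.cod n) (hL : X.L ^ (X.g - 2 * n + 1) * x = 0) :
    ∃ y, S.sp n (P.pr x) y ∧ pol A.g ^ (A.g - 2 * n + 1) * y = 0 := by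
  have hn' : 2 * n ≤ Y.g := by rw [P.dim]; omega
  have hmem := P.pr_mem n x hx
  have hLy := pr_prim P hn hL
  obtain ⟨y, hy⟩ := S.ex n _ hmem
  have hlef : Lef Y n (P.pr x) (fun i => if i = 0 then P.pr x else 0) := by
    refine ⟨?_, ?_, ?_, ?_⟩
    · rw [Finset.sum_eq_single 0]
      · simp
      · intro i _ hi
        simp [hi]
      · intro h
        exact absurd (Finset.mem_range.2 (by omega)) h
    · intro i hi
      by_cases h : i = 0
      · subst h
        simpa using hmem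
      · simp only [h, if_false]
        exact zero_mem_cod hn' hmem (by omega)
    · intro i hi
      by_cases h : i = 0
      · subst h
        simpa using hLy
      · simp [h]
    · intro i hi hlt
      by_cases h : i = 0
      · omega
      · simp [h]
  obtain ⟨k, hk, hk'⟩ := S.lef n _ y _ hy hlef
  refine ⟨k 0, ?_, ?_⟩
  · have := hk' 0 (Nat.zero_le n)
    simpa using this
  · have := hk.prim 0 (Nat.zero_le n)
    simpa using this

theorem prim_of_sp (S : Specialisation Y A) {n : ℕ} {x : Y.Z} {y : Coh A.g 1} (hy : S.sp n x y)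
    (h : pol A.g ^ (A.g - 2 * n + 1) * y = 0) : A.Prim n y := by
  refine ⟨S.alg _ _ _ hy, fun j _ w _ => ?_⟩
  rw [h, zero_mul, A.int_zero]

theorem int_sp (S : Specialisation Y A) {n : ℕ} (hn : 2 * n ≤ Y.g) {x w : Y.Z}
    {y w' : Coh A.g 1} (hy : S.sp n x y) (hw : S.sp n w w') :
    A.int (y * w' * pol A.g ^ (A.g - 2 * n)) = Y.deg (x * w * Y.L ^ (Y.g - 2 * n)) := by
  have h1 := S.mul _ _ _ _ _ _ (S.mul _ _ _ _ _ _ hy hw) (sp_pow S (Y.g - 2 * n))
  have e : n + n + (Y.g - 2 * n) = Y.g := by omega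
  rw [e] at h1
  have h2 := S.deg _ _ h1
  rw [S.dim] at h2
  rw [S.dim]
  exact h2

/-- a specialisation of a class which is not zero pairs nontrivially with some class -/
theorem exists_dual (S : Specialisation Y A) {n : ℕ} (hn : 2 * n ≤ Y.g) {x : Y.Z}
    (hx : x ∈ Y.cod n) (h0 : x ≠ 0) {y : Coh A.g 1} (hy : S.sp n x y) :
    ∃ w' ∈ A.alg n, A.int (y * w' * pol A.g ^ (A.g - 2 * n)) ≠ 0 := by
  by_contra hcon
  push Not at hcon
  apply h0
  apply Y.num n x hx
  intro j hj z hz'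
  have hj' : j = Y.g - n := by omega
  subst hj'
  obtain ⟨w, hw, rfl⟩ := Y.lef n hn z hz'
  obtain ⟨w', hw'⟩ := S.ex n w hw
  have h8 := int_sp S hn hy hw'
  rw [hcon w' (S.alg _ _ _ hw')] at h8
  have h10 : Y.deg (x * w * Y.L ^ (Y.g - 2 * n)) = 0 := by exact_mod_cast h8.symm
  rw [← h10]
  congr 1
  ring

/-- from the self intersection on `A` to the self intersection on `X` -/
theorem pos_of_pos (P : Product X Y) (S : Specialisation Y A) {n : ℕ} (hn : 2 * n ≤ X.g)
    {x : X.Z} (hx : x ∈ X.cod n) {y : Coh A.g 1} (hy : S.sp n (P.pr x) y) {r : ℝ} (hr : 0 < r)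
    (h : (-1) ^ n * A.int (y * y * pol A.g ^ (A.g - 2 * n)) = r) :
    0 < (-1) ^ n * X.deg (x * x * X.L ^ (X.g - 2 * n)) := by
  have hn' : 2 * n ≤ Y.g := by rw [P.dim]; omega
  rw [int_sp S hn' hy hy] at h
  have h2 : ((((-1) ^ n * Y.deg (P.pr x * P.pr x * Y.L ^ (Y.g - 2 * n)) : ℚ) : ℝ) : ℂ) =
      (r : ℂ) := by
    rw [← h]
    push_cast
    rfl
  have h3 : (((-1) ^ n * Y.deg (P.pr x * P.pr x * Y.L ^ (Y.g - 2 * n)) : ℚ) : ℝ) = r :=
    Complex.ofReal_injective h2
  have h4 : (0 : ℝ) < (((-1) ^ n * Y.deg (P.pr x * P.pr x * Y.L ^ (Y.g - 2 * n)) : ℚ) : ℝ) := by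
    rw [h3]
    exact hr
  have h1 : 0 < (-1) ^ n * Y.deg (P.pr x * P.pr x * Y.L ^ (Y.g - 2 * n)) := by exact_mod_cast h4
  rw [pr_form P hn hx] at h1
  have h5 : (0 : ℚ) < ((X.g + P.b - 2 * n).choose (X.g - 2 * n) : ℚ) * P.degB := by
    have h6 : 0 < (X.g + P.b - 2 * n).choose (X.g - 2 * n) := Nat.choose_pos (by omega)
    have h7 := P.degB_pos
    positivity
  have e : (-1) ^ n * (((X.g + P.b - 2 * n).choose (X.g - 2 * n) : ℚ) * P.degB *
      X.deg (x * x * X.L ^ (X.g - 2 * n))) =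
      (((X.g + P.b - 2 * n).choose (X.g - 2 * n) : ℚ) * P.degB) *
        ((-1) ^ n * X.deg (x * x * X.L ^ (X.g - 2 * n))) := by ring
  rw [e] at h1
  exact (mul_pos_iff_of_pos_left h5).1 h1

end Pc0b458E
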