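import Pool.Agent.Lib.Pc0b458E.Inv
import Pool.Agent.Lib.Pc0b458E.PosZ
import Pool.Agent.Lib.Pc0b458E.Spec

/-!
# The central involution
-/

universe u

open Finset ComplexConjugate

namespace Pc0b458E

open Pc0b458V Pc0b458L

/-- the phase of a weight -/
theorem prod_phase {g : ℕ} {v : Fin g → ℂ} (hv : ∀ s, v s ≠ 0) {η : Fin g → ℤ}
    (hη : ∀ s, η s = -1 ∨ η s = 0 ∨ η s = 1) :
    ‖∏ i ∈ letters η, (omD v i / (‖omD v i‖ : ℂ))‖ = 1 ∧
      ∃ r : ℝ, 0 < r ∧ (∏ s, v s ^ η s) * ∏ i ∈ letters η, (omD v i / (‖omD v i‖ : ℂ)) = r := by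
  have h1 : ∏ i ∈ letters η, (omD v i / (‖omD v i‖ : ℂ)) = ∏ s, (v s / (‖v s‖ : ℂ)) ^ (-η s) := by
    rw [prod_letters hη]
    apply Finset.prod_congr rfl
    intro s _
    rcases hη s with h | h | h
    · rw [h]
      simp [omD]
    · rw [h]
      simp
    · rw [h]
      simp [omD]
      rw [div_eq_mul_inv, mul_comm]
  rw [h1]
  refine ⟨?_, ∏ s, ‖v s‖ ^ η s, Finset.prod_pos fun s _ => zpow_pos (norm_pos_iff.2 (hv s)) _, ?_⟩
  · rw [norm_prod]
    apply Finset.prod_eq_one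
    intro s _
    rw [norm_zpow, norm_div, Complex.norm_real, norm_norm, div_self (norm_pos_iff.2 (hv s)).ne',
      one_zpow]
  · rw [← Finset.prod_mul_distrib]
    push_cast
    apply Finset.prod_congr rfl
    intro s _
    rw [div_zpow, zpow_neg, zpow_neg, inv_div_inv, mul_div_cancel₀]
    exact zpow_ne_zero _ (hv s)

/-- the phase of the weight of a class which is not isotropic is a sign, namely the sign of the value
of the character -/
theorem phase_sign {A : CMAb} {v : Fin A.g → ℂ} (hv : ∀ s, v s ≠ 0) {η : Fin A.g → ℤ}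
    (hη : ∀ s, η s = -1 ∨ η s = 0 ∨ η s = 1) (h0 : η ≠ 0) (hN : A.NonNull η)
    (hvN : ∀ a a' : ℂ, A.P η a a' → a' = conj a * (sg η : ℂ) * ∏ s, v s ^ η s) {e : ℂ}
    (he : e = ∏ i ∈ letters η, (omD v i / (‖omD v i‖ : ℂ))) :
    e * e = 1 ∧ ∃ r : ℝ, 0 < r ∧ e * ∏ s, v s ^ η s = r := by
  obtain ⟨hn, r, hr, h⟩ := prod_phase hv hη
  rw [← he] at hn h
  rw [mul_comm] at h
  obtain ⟨-, -, ρ, hρ, hP⟩ := mem_Wset hη h0 hN
  have h1 := hvN 1 ρ hP
  rw [map_one, one_mul] at h1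
  have h2 : conj (∏ s, v s ^ η s) = ∏ s, v s ^ η s := by
    have h3 := P_real hη h0 hP
    rw [h1, map_mul, map_intCast] at h3
    exact mul_left_cancel₀ (sg_ne_zero hη) h3
  have hV : (∏ s, v s ^ η s) ≠ 0 := by
    intro h3
    rw [h1, h3, mul_zero] at hρ
    exact hρ rfl
  have h4 : conj e = e := by
    have h5 := congrArg conj h
    rw [map_mul, h2, Complex.conj_ofReal, ← h] at h5
    exact mul_right_cancel₀ hV h5
  refine ⟨?_, r, hr, h⟩
  have h5 := Complex.mul_conj e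
  rw [h4, Complex.normSq_eq_norm_sq, hn] at h5
  rw [h5]
  norm_num

/-- the letters of `-η` -/
theorem letters_neg {g : ℕ} {z : Ix g → ℂ} (hz : ∀ s, z (s, true, 0) * z (s, false, 0) = 1)
    {η : Fin g → ℤ} (hη : ∀ s, η s = -1 ∨ η s = 0 ∨ η s = 1) :
    (∏ i ∈ letters (-η), z i) * ∏ i ∈ letters η, z i = 1 := by
  have hnη : ∀ s, (-η) s = -1 ∨ (-η) s = 0 ∨ (-η) s = 1 := fun s => by
    rcases hη s with h | h | h <;> simp [h]
  rw [prod_letters hη, prod_letters hnη, ← Finset.prod_mul_distrib]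
  apply Finset.prod_eq_one
  intro s _
  rcases hη s with h | h | h
  · simp only [Pi.neg_apply, h, neg_neg]
    norm_num
    exact hz s
  · simp [h]
  · simp only [Pi.neg_apply, h]
    norm_num
    rw [mul_comm]
    exact hz s

theorem letters_zero {g : ℕ} (z : Ix g → ℂ) : ∏ i ∈ letters (0 : Fin g → ℤ), z i = 1 := by
  rw [prod_letters (η := (0 : Fin g → ℤ)) (fun _ => Or.inr (Or.inl rfl))]
  simp

/-- the coefficients of the image of a class -/
theorem ext_rep {g : ℕ} {z : Ix g → ℂ} (hz : ∀ s, z (s, true, 0) * z (s, false, 0) = 1) {n : ℕ}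
    {y : Coh g 1} {c : (Fin g → ℤ) × Finset (Fin g) → ℂ}
    (hc : y = ∑ p ∈ idx g (2 * n), c p • mo p.1 p.2) :
    ext (Matrix.toLin' (Matrix.diagonal z)) y =
      ∑ p ∈ idx g (2 * n), ((∏ i ∈ letters p.1, z i) * c p) • mo p.1 p.2 := by
  show extV (Matrix.toLin' (Matrix.diagonal z)) y = _
  rw [hc, map_sum]
  apply Finset.sum_congr rfl
  rintro ⟨η, T⟩ hp
  obtain ⟨hη, hT, -⟩ := mem_idx.1 hp
  rw [map_smul, extV_mo, prod_efac z hη hT, Finset.prod_eq_one fun s _ => hz s, mul_one, smul_smul,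
    mul_comm]

variable {Y : Pc0b458Z.NumAb.{u}} {A : Pc0b458Z.CMAb} {S : Pc0b458G.Specialisation Y A}

/-- A central diagonal map which acts on the classes of algebraic cycles on `Y` through the phases of
the character `v` acts on them as an involution, and the form twisted by this involution is
positive. -/
theorem involution_of (Pw : Powers A) {v : Fin A.g → ℂ} {z : Ix A.g → ℂ} (hv : ∀ s, v s ≠ 0)
    (hvN : ∀ η : Fin A.g → ℤ, (∀ s, η s = -1 ∨ η s = 0 ∨ η s = 1) → η ≠ 0 → A.toV.NonNull η →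
      ∀ a a' : ℂ, A.toV.P η a a' → a' = conj a * (sg η : ℂ) * ∏ s, v s ^ η s)
    (hz : ∀ s, z (s, true, 0) * z (s, false, 0) = 1)
    (hw : ∀ m x' y', S.sp m x' y' → ∀ c : (Fin A.g → ℤ) × Finset (Fin A.g) → ℂ,
      y' = ∑ p ∈ idx A.g (2 * m), c p • mo p.1 p.2 → ∀ η T, (η, T) ∈ idx A.g (2 * m) →
        c (η, T) ≠ 0 → ∏ i ∈ letters η, z i = ∏ i ∈ letters η, (omD v i / (‖omD v i‖ : ℂ))) :
    (∀ m x' y', S.sp m x' y' → Pc0b458G.GenA A m y' →
        ext (Matrix.toLin' (Matrix.diagonal z)) y' = y') ∧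
      (∀ m x' y', S.sp m x' y' → ext (Matrix.toLin' (Matrix.diagonal z))
        (ext (Matrix.toLin' (Matrix.diagonal z)) y') = y') ∧
      ∀ n, 2 * n ≤ A.g → ∀ x y, S.sp n x y → A.Prim n y →
        ∃ r : ℝ, 0 ≤ r ∧ (-1) ^ n * A.int (y * ext (Matrix.toLin' (Matrix.diagonal z)) y *
            Pc0b458Z.pol A.g ^ (A.g - 2 * n)) = r ∧
          (r = 0 → ∀ w ∈ A.alg n, A.int (y * w * Pc0b458Z.pol A.g ^ (A.g - 2 * n)) = 0) := by
  -- the weights
  have key : ∀ m x' y', S.sp m x' y' → ∀ c : (Fin A.g → ℤ) × Finset (Fin A.g) → ℂ,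
      y' = ∑ p ∈ idx A.g (2 * m), c p • mo p.1 p.2 → ∀ η T, (η, T) ∈ idx A.g (2 * m) →
        c (η, T) ≠ 0 → η ≠ 0 → A.toV.NonNull η := by
    intro m x' y' hy' c hc η T hp hne h0
    by_contra hcon
    exact hne (null_zero Pw (S.alg _ _ _ hy') hc hp h0 hcon)
  have hrep : ∀ m x' y', S.sp m x' y' → ∃ c : (Fin A.g → ℤ) × Finset (Fin A.g) → ℂ,
      y' = ∑ p ∈ idx A.g (2 * m), c p • mo p.1 p.2 := fun m x' y' hy' =>
    rep (CMAb.R1_gr (A := A.toV) (CMAb.alg_R1 (A := A.toV) (S.alg _ _ _ hy')))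
  refine ⟨?_, ?_, ?_⟩
  · intro m x' y' hy' hG
    obtain ⟨c, hc⟩ := hrep m x' y' hy'
    refine (ext_fix A.toV hc).2 ?_
    intro η T hp hne
    have e1 : ∏ s ∈ T, z (s, true, 0) * z (s, false, 0) = 1 := Finset.prod_eq_one fun s _ => hz s
    refine (congrArg₂ (· * ·) ?_ e1).trans (mul_one (1 : ℂ))
    by_cases h0 : η = 0
    · rw [h0]
      exact letters_zero z
    · obtain ⟨hη, -, -⟩ := mem_idx.1 hp
      have hN := key m x' y' hy' c hc η T hp hne h0
      have h1 := (Pc0b458G.GenA.genC hG).2 η T hp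
        (fun h => hne ((A.toV.co_eq_zero hc hp).1 h)) (Or.inr hN)
      have h2 := (good_iff (A := A.toV) hη hN (hvN η hη h0 hN)).1
        (CMAb.good_of_generated h1).2
      exact (hw m x' y' hy' c hc η T hp hne).trans ((phase_iff hv hη).2 h2)
  · intro m x' y' hy'
    obtain ⟨c, hc⟩ := hrep m x' y' hy'
    rw [ext_rep hz (ext_rep hz hc)]
    conv_rhs => rw [hc]
    apply Finset.sum_congr rfl
    rintro ⟨η, T⟩ hp
    by_cases hne : c (η, T) = 0
    · simp only [hne, mul_zero]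
    · by_cases h0 : η = 0
      · subst h0
        simp only [letters_zero, one_mul]
      · obtain ⟨hη, -, -⟩ := mem_idx.1 hp
        have hN := key m x' y' hy' c hc η T hp hne h0
        have h1 := (phase_sign (A := A.toV) hv hη h0 hN (hvN η hη h0 hN)
          (hw m x' y' hy' c hc η T hp hne)).1
        simp only
        rw [← mul_assoc, h1, one_mul]
  · intro n hn x y hy hP
    obtain ⟨c, hc⟩ := hrep n x y hy
    obtain ⟨r, hr0, hr, hr1⟩ := CMAb.zpos (A := A.toV) hn (x := y) hP hc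
      (e := fun η => ∏ i ∈ letters η, z i) (letters_zero z) (by
        intro η T hp h0 hN hne
        obtain ⟨hη, -, -⟩ := mem_idx.1 hp
        obtain ⟨-, -, ρ, -, hP⟩ := mem_Wset hη h0 hN
        obtain ⟨h1, r, hr, h2⟩ := phase_sign (A := A.toV) hv hη h0 hN (hvN η hη h0 hN)
          (hw n x y hy c hc η T hp hne)
        have h3 := letters_neg hz hη
        have h4 : (∏ i ∈ letters (-η), z i) = ∏ i ∈ letters η, z i := by
          have h5 : (∏ i ∈ letters η, z i) ≠ 0 := left_ne_zero_of_mul (h1.trans_ne one_ne_zero)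
          exact mul_right_cancel₀ h5 (h3.trans h1.symm)
        refine ⟨1, ρ, hP, r, hr, ?_⟩
        have h5 := hvN η hη h0 hN 1 ρ hP
        rw [map_one, one_mul] at h5
        have h6 : (sg η : ℂ) * (sg η : ℂ) = 1 := by
          exact_mod_cast congrArg (fun z : ℤ => (z : ℂ)) (sg_sq hη)
        have h7 : ∀ E V σ : ℂ, σ * σ = 1 → (E * σ) * 1 * (σ * V) = E * V := fun E V σ h => by
          linear_combination E * V * h
        rw [h5, ← h2]
        refine Eq.trans ?_ (h7 _ _ _ h6)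
        exact congrArg (fun w : ℂ => w * (sg η : ℂ) * 1 * ((sg η : ℂ) * ∏ s, v s ^ η s)) h4)
      (ext_rep hz hc)
    exact ⟨r, hr0, hr, fun h w hw => hr1 h w (CMAb.alg_R1 (A := A.toV) hw)⟩

/-- There is a central linear map which acts on the classes of algebraic cycles on `Y` as an
involution, and the form twisted by this involution is positive. -/
theorem exists_involution (Pw : Powers A) (C : Cartan S) :
    ∃ Z : Module.End ℂ (H1 A.g), Central S Z ∧
      (∀ m x' y', S.sp m x' y' → Pc0b458G.GenA A m y' → ext Z y' = y') ∧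
      (∀ m x' y', S.sp m x' y' → ext Z (ext Z y') = y') ∧
      ∀ n, 2 * n ≤ A.g → ∀ x y, S.sp n x y → A.Prim n y →
        ∃ r : ℝ, 0 ≤ r ∧ (-1) ^ n * A.int (y * ext Z y * Pc0b458Z.pol A.g ^ (A.g - 2 * n)) = r ∧
          (r = 0 → ∀ w ∈ A.alg n, A.int (y * w * Pc0b458Z.pol A.g ^ (A.g - 2 * n)) = 0) := by
  obtain ⟨v, z, hv, hvN, hC, hz, hw⟩ := exists_z (S := S) Pw C
  exact ⟨Matrix.toLin' (Matrix.diagonal z), hC, involution_of Pw hv hvN hz hw⟩

end Pc0b458E
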