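import Pool.Agent.Lib.Pc0b458G.Main

/-!
# Positivity on primitive classes whose weights are good
-/

universe u

open Finset ComplexConjugate

namespace Pc0b458V

namespace CMAb

variable {A : CMAb}

/-- one term of the form -/
theorem epos_term {n : ℕ} (hn : 2 * n ≤ A.g) {x : Coh A.g 1} (hx : A.Prim n x)
    {c : (Fin A.g → ℤ) × Finset (Fin A.g) → ℂ} (hc : x = ∑ p ∈ idx A.g (2 * n), c p • mo p.1 p.2)
    (hG : ∀ η T, (η, T) ∈ idx A.g (2 * n) → η ≠ 0 → A.NonNull η → c (η, T) ≠ 0 → A.Good η)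
    {η : Fin A.g → ℤ} {T : Finset (Fin A.g)} (h : (η, T) ∈ idx A.g (2 * n)) :
    ∃ r : ℝ, 0 ≤ r ∧ (-1) ^ n * ∑ T' ∈ powersetCard T.card (zer η) with Disjoint T T',
      (-1 : ℂ) ^ (n - T.card) * (sg η : ℂ) * (c (η, T) * c (-η, T')) = r ∧
      (r = 0 → (η = 0 ∨ A.NonNull η) → c (η, T) = 0) := by
  have hR : x ∈ A.R1 n := alg_R1 hx.1
  obtain ⟨hη, hT, hsz⟩ := mem_idx.1 h
  have hTz : T ⊆ zer η := fun s hs => by
    rw [zer, mem_filter]
    exact ⟨mem_univ _, hT s hs⟩
  have hnη : ∀ s, (-η) s = -1 ∨ (-η) s = 0 ∨ (-η) s = 1 := fun s => by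
    rcases hη s with h | h | h <;> simp [h]
  have hz : zer (-η) = zer η := by
    ext s
    simp [zer]
  have hTn : T.card ≤ n := by omega
  by_cases hnull : η ≠ 0 ∧ ¬ A.NonNull η
  · refine ⟨0, le_rfl, ?_, ?_⟩
    · rw [Finset.sum_eq_zero]
      · simp
      · intro T' hT'
        rw [mem_filter, mem_powersetCard] at hT'
        have h' : (η, T') ∈ idx A.g (2 * n) := by
          rw [mem_idx]
          refine ⟨hη, fun s hs => ?_, by rw [hT'.1.2]; exact hsz⟩
          have := hT'.1.1 hs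
          rw [zer, mem_filter] at this
          exact this.2
        rw [null_pair hη hnull.1 hnull.2 (P_of_rep hR hc h) (P_of_rep hR hc h'), mul_zero]
    · intro _ hor
      rcases hor with h0 | h0
      · exact absurd h0 hnull.1
      · exact absurd h0 hnull.2
  · have hor : η = 0 ∨ A.NonNull η := by
      by_contra hcon
      rw [not_or] at hcon
      exact hnull hcon
    have hor' : -η = 0 ∨ A.NonNull (-η) := by
      rcases hor with h | h
      · left; rw [h, neg_zero]
      · right; exact h.neg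
    have hcard := card_zer hη
    have hincl := incl (zer η) T.card (by omega) (fun T' => c (-η, T'))
      (by
        intro U hU hcU
        have := harm hn hx hc (η := -η) (U := U) hnη hor' (by rw [hz]; exact hU)
          (by rw [size_neg, hcU]; exact hsz)
        rw [hz, hcU] at this
        exact this)
      hTz rfl
    have hsum : ∑ T' ∈ powersetCard T.card (zer η) with Disjoint T T',
        (-1 : ℂ) ^ (n - T.card) * (sg η : ℂ) * (c (η, T) * c (-η, T')) =
        (-1 : ℂ) ^ n * ((sg η : ℂ) * c (η, T) * c (-η, T)) := by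
      have e1 : ∀ T' : Finset (Fin A.g), (-1 : ℂ) ^ (n - T.card) * (sg η : ℂ) *
          (c (η, T) * c (-η, T')) = ((-1 : ℂ) ^ (n - T.card) * (sg η : ℂ) * c (η, T)) *
            c (-η, T') := fun T' => by ring
      simp only [e1]
      rw [← Finset.mul_sum]
      have e2 : (powersetCard T.card (zer η)).filter (fun T' => Disjoint T T') =
          (powersetCard T.card (zer η)).filter (fun T' => Disjoint T' T) := by
        apply Finset.filter_congr
        intro T' _
        exact disjoint_comm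
      rw [e2, hincl]
      have e3 : (-1 : ℂ) ^ n = (-1) ^ (n - T.card) * (-1) ^ T.card := by
        rw [← pow_add, Nat.sub_add_cancel hTn]
      rw [e3]
      ring
    rw [hsum, ← mul_assoc, ← mul_pow]
    simp only [mul_neg, mul_one, neg_neg, one_pow, one_mul]
    by_cases h0 : η = 0
    · obtain ⟨r, hr⟩ := P_zero (h0 ▸ P_of_rep hR hc h)
      have hneg : -η = η := by rw [h0, neg_zero]
      have e4 : c (η, T) = ((r / 2 : ℝ) : ℂ) := by
        subst h0
        rw [neg_zero] at hr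
        push_cast
        rw [← hr]
        ring
      have e5 : sg η = 1 := by
        rw [h0, sg]
        apply Finset.prod_eq_one
        intro s hs
        rw [supp, mem_filter] at hs
        exact absurd rfl hs.2
      refine ⟨(r / 2) * (r / 2), mul_self_nonneg _, ?_, ?_⟩
      · rw [hneg, e5, e4]
        push_cast
        ring
      · intro hr0 _
        rw [e4, mul_self_eq_zero.1 hr0, Complex.ofReal_zero]
    · have hN : A.NonNull η := hor.resolve_left h0
      by_cases hc0 : c (η, T) = 0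
      · refine ⟨0, le_rfl, ?_, fun _ _ => hc0⟩
        rw [hc0]
        simp
      · have hgood := hG η T h h0 hN hc0
        obtain ⟨r, hr0, hr⟩ := hgood.pos hη h0 (P_of_rep hR hc h)
        refine ⟨r, hr0, hr, fun hr1 _ => ?_⟩
        exfalso
        rw [hr1] at hr
        have h2 : c (-η, T) = 0 := by
          have h3 : (sg η : ℂ) * c (η, T) ≠ 0 := mul_ne_zero (sg_ne hη) hc0
          have h4 : (sg η : ℂ) * c (η, T) * c (-η, T) = 0 := by
            rw [hr, Complex.ofReal_zero]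
          exact (mul_eq_zero.1 h4).resolve_left h3
        obtain ⟨a, a', hP, ha⟩ := hN
        have h5 := real_pair hη h0 hP (P_of_rep hR hc h)
        rw [h2, mul_zero] at h5
        have h6 : a' * c (η, T) = 0 := by
          have := congrArg conj h5.symm
          simpa using this
        rcases mul_eq_zero.1 h6 with h7 | h7
        · exact ha (by rw [h7, mul_zero])
        · exact hc0 h7

/-- positivity, and nondegeneracy with respect to all algebraic classes -/
theorem epos {n : ℕ} (hn : 2 * n ≤ A.g) {x : Coh A.g 1} (hx : A.Prim n x)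
    (hG : ∀ c : (Fin A.g → ℤ) × Finset (Fin A.g) → ℂ,
      x = ∑ p ∈ idx A.g (2 * n), c p • mo p.1 p.2 → ∀ η T, (η, T) ∈ idx A.g (2 * n) → η ≠ 0 →
        A.NonNull η → c (η, T) ≠ 0 → A.Good η) :
    ∃ r : ℝ, 0 ≤ r ∧ (-1) ^ n * A.int (x * x * pol A.g ^ (A.g - 2 * n)) = r ∧
      (r = 0 → ∀ w ∈ A.R1 n, A.int (x * w * pol A.g ^ (A.g - 2 * n)) = 0) := by
  have hR : x ∈ A.R1 n := alg_R1 hx.1
  obtain ⟨c, hc⟩ := rep (R1_gr hR)
  have hsq := A.int_sq hn c
  rw [← hc] at hsq
  rw [hsq]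
  choose! r hr0 hr hr1 using fun p : (Fin A.g → ℤ) × Finset (Fin A.g) =>
    fun hp : p ∈ idx A.g (2 * n) => epos_term hn hx hc (hG c hc) (η := p.1) (T := p.2) hp
  obtain ⟨t, ht, ht'⟩ := A.top_pos
  refine ⟨((A.g - 2 * n).factorial : ℝ) * t * ∑ p ∈ idx A.g (2 * n), r p, ?_, ?_, ?_⟩
  · apply mul_nonneg
    · positivity
    · exact Finset.sum_nonneg hr0
  · rw [ht']
    push_cast
    rw [← Finset.sum_congr rfl hr, ← Finset.mul_sum]
    ring
  · intro h0 w hw
    have h1 : ∑ p ∈ idx A.g (2 * n), r p = 0 := by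
      have h2 : ((A.g - 2 * n).factorial : ℝ) * t ≠ 0 := by positivity
      exact (mul_eq_zero.1 h0).resolve_left h2
    have h2 : ∀ p ∈ idx A.g (2 * n), r p = 0 := (Finset.sum_eq_zero_iff_of_nonneg hr0).1 h1
    obtain ⟨d, hd⟩ := rep (R1_gr hw)
    have hb := A.int_bil hn c d
    rw [← hc, ← hd] at hb
    rw [hb, Finset.sum_eq_zero, mul_zero]
    rintro ⟨η, T⟩ hp
    obtain ⟨hη, hT, hsz⟩ := mem_idx.1 hp
    apply Finset.sum_eq_zero
    intro T' hT'
    rw [mem_filter, mem_powersetCard] at hT'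
    have h' : (η, T') ∈ idx A.g (2 * n) := by
      rw [mem_idx]
      refine ⟨hη, fun s hs => ?_, by rw [hT'.1.2]; exact hsz⟩
      have := hT'.1.1 hs
      rw [zer, mem_filter] at this
      exact this.2
    by_cases hor : η = 0 ∨ A.NonNull η
    · have := hr1 (η, T) hp (h2 _ hp) hor
      rw [this, zero_mul, mul_zero]
    · rw [not_or] at hor
      have := null_pair hη hor.1 hor.2 (P_of_rep hR hc hp) (P_of_rep hw hd h')
      simp only at this ⊢
      rw [this, mul_zero]

end CMAb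

end Pc0b458V

namespace Pc0b458E

open Pc0b458V

/-- positivity on the primitive classes with good weights -/
theorem pos_of_good {Y : Pc0b458Z.NumAb.{u}} {A : Pc0b458Z.CMAb} (S : Pc0b458G.Specialisation Y A)
    {n : ℕ} (hn : 2 * n ≤ Y.g) {x : Y.Z} (hmem : x ∈ Y.cod n)
    (hL : Y.L ^ (Y.g - 2 * n + 1) * x = 0) (h0 : x ≠ 0)
    (hG : ∀ z : Coh A.g 1, S.sp n x z → ∀ c : (Fin A.g → ℤ) × Finset (Fin A.g) → ℂ,
      z = ∑ p ∈ idx A.g (2 * n), c p • mo p.1 p.2 → ∀ η T, (η, T) ∈ idx A.g (2 * n) → η ≠ 0 →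
        A.toV.NonNull η → c (η, T) ≠ 0 → A.toV.Good η) :
    0 < (-1) ^ n * Y.deg (x * x * Y.L ^ (Y.g - 2 * n)) := by
  obtain ⟨y, hy⟩ := S.ex n x hmem
  -- the primitive component
  have hlef : Pc0b458G.Lef Y n x (fun i => if i = 0 then x else 0) := by
    refine ⟨?_, ?_, ?_, ?_⟩
    · rw [Finset.sum_eq_single 0]
      · simp
      · intro i _ hi
        simp [hi]
      · intro h
        exact absurd (Finset.mem_range.2 (by omega)) h
    · intro i hi
      by_cases h : i = 0
      · subst h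
        simpa using hmem
      · simp only [h, if_false]
        exact Pc0b458G.zero_mem_cod hn hmem (by omega)
    · intro i hi
      by_cases h : i = 0
      · subst h
        simpa using hL
      · simp [h]
    · intro i hi hlt
      by_cases h : i = 0
      · omega
      · simp [h]
  obtain ⟨k, hk, hk'⟩ := S.lef n x y _ hy hlef
  have hz : S.sp n x (k 0) := by
    have := hk' 0 (Nat.zero_le n)
    simpa using this
  have hGz := hG (k 0) hz
  have hprim : Pc0b458Z.pol A.g ^ (A.g - 2 * n + 1) * k 0 = 0 := by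
    have := hk.prim 0 (Nat.zero_le n)
    simpa using this
  have hP : A.Prim n (k 0) := by
    refine ⟨S.alg _ _ _ hz, fun j _ w _ => ?_⟩
    rw [hprim, zero_mul, A.int_zero]
  have hn' : 2 * n ≤ A.g := S.dim ▸ hn
  obtain ⟨r, hr, hr', hr0⟩ := Pc0b458V.CMAb.epos (A := A.toV) hn' (x := k 0) hP hGz
  have hdeg : ∀ w w', S.sp n w w' →
      A.int (k 0 * w' * Pc0b458Z.pol A.g ^ (A.g - 2 * n)) = Y.deg (x * w * Y.L ^ (Y.g - 2 * n)) := by
    intro w w' hw
    have h1 := S.mul _ _ _ _ _ _ (S.mul _ _ _ _ _ _ hz hw) (Pc0b458G.sp_pow S (Y.g - 2 * n))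
    have e : n + n + (Y.g - 2 * n) = Y.g := by omega
    rw [e] at h1
    have h2 := S.deg _ _ h1
    rw [S.dim] at h2
    rw [S.dim]
    exact h2
  have h1 := hdeg x (k 0) hz
  have hr2 : (-1) ^ n * A.int (k 0 * k 0 * Pc0b458Z.pol A.g ^ (A.g - 2 * n)) = r := hr'
  rw [h1] at hr2
  have h2 : ((((-1) ^ n * Y.deg (x * x * Y.L ^ (Y.g - 2 * n)) : ℚ) : ℝ) : ℂ) = (r : ℂ) := by
    rw [← hr2]
    push_cast
    rfl
  have h3 : (((-1) ^ n * Y.deg (x * x * Y.L ^ (Y.g - 2 * n)) : ℚ) : ℝ) = r :=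
    Complex.ofReal_injective h2
  have h4 : (0 : ℝ) ≤ (((-1) ^ n * Y.deg (x * x * Y.L ^ (Y.g - 2 * n)) : ℚ) : ℝ) := h3 ▸ hr
  have h5 : 0 ≤ (-1) ^ n * Y.deg (x * x * Y.L ^ (Y.g - 2 * n)) := by exact_mod_cast h4
  refine lt_of_le_of_ne h5 fun h6 => h0 ?_
  have hr1 : r = 0 := by
    rw [← h3, ← h6]
    norm_num
  have h7 := hr0 hr1
  apply Y.num n x hmem
  intro j hj z hz'
  have hj' : j = Y.g - n := by omega
  subst hj'
  obtain ⟨w, hw, rfl⟩ := Y.lef n hn z hz'
  obtain ⟨w', hw'⟩ := S.ex n w hw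
  have h8 := hdeg w w' hw'
  have h9 : A.int (k 0 * w' * Pc0b458Z.pol A.g ^ (A.g - 2 * n)) = 0 :=
    h7 w' (Pc0b458V.CMAb.alg_R1 (A := A.toV) (S.alg _ _ _ hw'))
  rw [h9] at h8
  have h10 : Y.deg (x * w * Y.L ^ (Y.g - 2 * n)) = 0 := by exact_mod_cast h8.symm
  rw [← h10]
  congr 1
  ring

end Pc0b458E
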