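import Pool.Agent.Lib.Pc0b458E.Spec
import Pool.Agent.Lib.Pc0b458E.Pos

/-!
# Positivity for one class with good weights
-/

universe u

open Finset

namespace Pc0b458E

open Pc0b458V Pc0b458G

/-- positivity for a class whose primitive specialisation `y` has good weights -/
theorem pos_of_good_at {X Y : Pc0b458Z.NumAb.{u}} {A : Pc0b458Z.CMAb} (P : Product X Y)
    (S : Specialisation Y A) {n : ℕ} (hn : 2 * n ≤ X.g) {x : X.Z} (hx : x ∈ X.cod n) (h0 : x ≠ 0)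
    {y : Pc0b458Z.Coh A.g 1} (hy : S.sp n (P.pr x) y)
    (hL : Pc0b458Z.pol A.g ^ (A.g - 2 * n + 1) * y = 0)
    (hG : ∀ c : (Fin A.g → ℤ) × Finset (Fin A.g) → ℂ,
      y = ∑ p ∈ idx A.g (2 * n), c p • mo p.1 p.2 → ∀ η T, (η, T) ∈ idx A.g (2 * n) → η ≠ 0 →
        A.toV.NonNull η → c (η, T) ≠ 0 → A.toV.Good η) :
    0 < (-1) ^ n * X.deg (x * x * X.L ^ (X.g - 2 * n)) := by
  have hn' : 2 * n ≤ Y.g := by rw [P.dim]; omega
  have hnA : 2 * n ≤ A.g := S.dim ▸ hn'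
  obtain ⟨r, hr, hr', hr0⟩ := Pc0b458V.CMAb.epos (A := A.toV) hnA (x := y) (prim_of_sp S hy hL) hG
  have hr2 : (-1) ^ n * A.int (y * y * Pc0b458Z.pol A.g ^ (A.g - 2 * n)) = r := hr'
  have hr1 : 0 < r := by
    refine lt_of_le_of_ne hr fun h => ?_
    obtain ⟨w, hw, hne⟩ := exists_dual S hn' (P.pr_mem n x hx) (pr_ne P hx h0) hy
    exact hne (hr0 h.symm w (Pc0b458V.CMAb.alg_R1 (A := A.toV) hw))
  exact pos_of_pos P S hn hx hy hr1 hr2

end Pc0b458E
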