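import Pool.Agent.Lib.Pc0b458E.MixedE
import Pool.Agent.Lib.Pc0b458E.PosAt

/-!
# Positivity for the classes killed by the skew part of the centre
-/

universe u

namespace Pc0b458E

open Pc0b458Z Pc0b458G

/-- positivity for a class with a primitive specialisation which is killed by the skew-adjoint
elements of the centre -/
theorem mainM {X Y : NumAb.{u}} (P : Product X Y) {A : CMAb} (Pw : Powers A)
    (hs : Saturated A) (S : Specialisation Y A) (C : Cartan S) {Pl : Type} [Fintype Pl]
    {Γ : Subgroup (Equiv.Perm Pl)} (F : RealPlaces S Γ) {n : ℕ} (hQ : QuadCode Γ n)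
    (hn : 2 * n ≤ X.g) {x : X.Z} (hx : x ∈ X.cod n) (h0 : x ≠ 0) {y : Coh A.g 1}
    (hy : S.sp n (P.pr x) y) (hL : pol A.g ^ (A.g - 2 * n + 1) * y = 0)
    (hk : ∀ W, Central S W → SkewMap W → ∃ D, IsDer W D ∧ D y = 0) :
    0 < (-1) ^ n * X.deg (x * x * X.L ^ (X.g - 2 * n)) := by
  classical
  exact pos_of_good_at P S hn hx h0 hy hL fun c hc η T hp hη hN hcp =>
    good_of_mixed Pw hs C F hQ hy hk hc hp hη hN hcp

/-- if the centre is totally real then the only skew-adjoint element is zero -/
theorem skew_eq_zero {Y : NumAb.{u}} {A : CMAb} {S : Specialisation Y A} {Pl : Type} [Fintype Pl]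
    {Γ : Subgroup (Equiv.Perm Pl)} (F : RealPlaces S Γ) (h : ∀ s, F.pl s ≠ none)
    {W : Module.End ℂ (H1 A.g)} (hW : Central S W) (hsk : SkewMap W) : W = 0 := by
  obtain ⟨d, z, rfl, hd⟩ := F.real W hW
  have h1 : ∀ s b, d s b = 0 := by
    intro s b
    obtain ⟨p, hp⟩ := Option.ne_none_iff_exists'.1 (h s)
    have h2 : d s true = z p := hd s true p hp
    have h3 : d s false = z p := hd s false p hp
    have h4 := hsk (Pi.single (s, true, 0) 1) (Pi.single (s, false, 0) 1)
    have e : ∀ (t : Fin A.g) (c : Bool) (r : Fin 1),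
        diag d (Pi.single (t, c, r) 1) = d t c • Pi.single (t, c, r) 1 := by
      intro t c r
      funext j
      by_cases hj : j = (t, c, r)
      · subst hj
        simp [diag]
      · simp [diag, Pi.single_eq_of_ne hj]
    rw [e, e] at h4
    have h5 : form (Pi.single (s, true, 0) (1 : ℂ)) (Pi.single (s, false, 0) 1) = 1 := by
      unfold form
      rw [Finset.sum_eq_single s]
      · simp
      · intro t _ ht
        simp [Pi.single_apply, ht]
      · intro h
        exact absurd (Finset.mem_univ s) h
    have h6 : ∀ (a : ℂ) (x y : H1 A.g), form (a • x) y = a * form x y := by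
      intro a x y
      simp only [form, Finset.mul_sum, Pi.smul_apply, smul_eq_mul]
      exact Finset.sum_congr rfl fun _ _ => by ring
    have h7 : ∀ (a : ℂ) (x y : H1 A.g), form x (a • y) = a * form x y := by
      intro a x y
      simp only [form, Finset.mul_sum, Pi.smul_apply, smul_eq_mul]
      exact Finset.sum_congr rfl fun _ _ => by ring
    rw [h6, h7, h5, h2, h3] at h4
    have h8 : z p = 0 := by
      have : z p + z p = 0 := by linear_combination h4
      exact add_self_eq_zero.1 this
    cases b
    · rw [h3, h8]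
    · rw [h2, h8]
  ext v
  simp [diag, h1]

/-- the zero map kills everything -/
theorem kill_zero {g : ℕ} (y : Coh g 1) : ∃ D, IsDer (0 : Module.End ℂ (H1 g)) D ∧ D y = 0 :=
  ⟨0, ⟨fun v => by simp, fun x y => by simp⟩, rfl⟩

end Pc0b458E
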