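import Pool.Agent.Lib.Pc0b458E.RealR
import Pool.Agent.Lib.Pc0b458E.Pos

/-!
# Positivity if the centre is totally real of degree at most three
-/

universe u

namespace Pc0b458E

open Pc0b458V Pc0b458G

/-- the numerical Hodge standard conjecture for `X` -/
theorem mainR {X Y : Pc0b458Z.NumAb.{u}} (P : Product X Y) {A : Pc0b458Z.CMAb} (Pw : Powers A)
    (S : Specialisation Y A) (C : Cartan S) (hR : RealCentre S) {n : ℕ} (hn : 2 * n ≤ X.g)
    {x : X.Z} (hx : x ∈ X.cod n) (hL : X.L ^ (X.g - 2 * n + 1) * x = 0) (h0 : x ≠ 0) :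
    0 < (-1) ^ n * X.deg (x * x * X.L ^ (X.g - 2 * n)) := by
  have hn' : 2 * n ≤ Y.g := by rw [P.dim]; omega
  have h1 := pos_of_good S hn' (P.pr_mem n x hx) (pr_prim P hn hL) (pr_ne P hx h0)
    (fun z hz c hc η T hp hη hN hcp => good_of_realCentre Pw C hR hz hc hp hη hN hcp)
  rw [pr_form P hn hx] at h1
  have h2 : (0 : ℚ) < ((X.g + P.b - 2 * n).choose (X.g - 2 * n) : ℚ) * P.degB := by
    have h3 : 0 < (X.g + P.b - 2 * n).choose (X.g - 2 * n) := Nat.choose_pos (by omega)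
    have h4 := P.degB_pos
    positivity
  have e : (-1) ^ n * (((X.g + P.b - 2 * n).choose (X.g - 2 * n) : ℚ) * P.degB *
      X.deg (x * x * X.L ^ (X.g - 2 * n))) =
      (((X.g + P.b - 2 * n).choose (X.g - 2 * n) : ℚ) * P.degB) *
        ((-1) ^ n * X.deg (x * x * X.L ^ (X.g - 2 * n))) := by ring
  rw [e] at h1
  exact (mul_pos_iff_of_pos_left h2).1 h1

end Pc0b458E
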