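import Pool.Agent.Lib.Pc0b458E.StmtS

/-!
# Classes of small degree, and classes of rank two

The setting of `MP_c0b458_ag`, continued from `Pool.Agent.Lib.Pc0b458E.StmtG` and
`Pool.Agent.Lib.Pc0b458E.StmtS`.
-/

universe u

namespace Pc0b458E

open Pc0b458Z Pc0b458G

/-- The theorem of Ancona (Standard conjectures for abelian fourfolds, 2021) on motives of rank two.
If a class `y` of an algebraic cycle on `A` is a sum of classes of the weights `η` and `-η`, then it
is in a motive of rank two, with complex multiplication by an imaginary quadratic field, which lifts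
to characteristic zero together with its quadratic form, and so the form is positive. -/
def RankTwo (A : CMAb) : Prop :=
  ∀ n y (η : Fin A.g → ℤ) (a b : ℂ), 2 * n ≤ A.g → (∀ s, |η s| ≤ 1) → y ∈ A.alg n →
    y = a • mon η + b • mon (-η) → a * b ≠ 0 →
      ∃ r : ℝ, 0 ≤ r ∧ (-1) ^ n * A.int (y * y * pol A.g ^ (A.g - 2 * n)) = r

section

variable {Y : NumAb.{u}} {A : CMAb} (S : Specialisation Y A)

/-- the cohomology class `c` is fixed by all central linear maps which fix the classes of all
algebraic cycles on `Y` -/
def CFixed (c : Coh A.g 1) : Prop :=
  ∀ Z' : Module.End ℂ (H1 A.g), Central S Z' →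
    (∀ m x' y', S.sp m x' y' → ext Z' y' = y') → ext Z' c = c

/-- The eigenvalues of the diagonal elements of the motivic Lie algebra of `Y` on the first
cohomology have multiplicity at least four. This holds if `Y` is the fourth power of an abelian
variety. -/
def Four : Prop :=
  ∀ s b, ∃ f : Fin 4 → Fin A.g × Bool, Function.Injective f ∧
    ∀ k, Same S s b (f k).1 (f k).2

end

end Pc0b458E
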