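import Pool.Agent.Lib.Pc0b458E.Invol
import Pool.Agent.Lib.Pc0b458E.StmtZ

/-!
# Classes of rank two
-/

universe u

open Finset ComplexConjugate

namespace Pc0b458E

open Pc0b458V Pc0b458L

/-- the value of the form on a class of the weights `η` and `-η` -/
theorem int_two (A : Pc0b458V.CMAb) {n : ℕ} {η : Fin A.g → ℤ}
    (hη : ∀ s, η s = -1 ∨ η s = 0 ∨ η s = 1) (h0 : η ≠ 0) (hn : size η = 2 * n) (a b : ℂ) :
    A.int ((a • mo η ∅ + b • mo (-η) ∅) * (a • mo η ∅ + b • mo (-η) ∅) *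
      pol A.g ^ (A.g - 2 * n)) =
      ((A.g - 2 * n).factorial : ℂ) * ((-1 : ℂ) ^ n * (sg η : ℂ) * A.top * (2 * (a * b))) := by
  have hnη : ∀ s, (-η) s = -1 ∨ (-η) s = 0 ∨ (-η) s = 1 := fun s => by
    rcases hη s with h | h | h <;> simp [h]
  have h1 : (-η) ≠ 0 := fun h => h0 (by simpa using h)
  have hcard := card_zer hη
  have e1 : mo (-η) ∅ * mo η ∅ = mo η ∅ * mo (-η) ∅ := by
    have h5 : mo (-η) ∅ ∈ gr A.g 1 (2 * n) := by
      apply mo_mem
      rw [mem_idx]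
      exact ⟨hnη, by simp, by rw [size_neg]; simp [hn]⟩
    exact even_comm h5 _
  have e2 : (a • mo η ∅ + b • mo (-η) ∅) * (a • mo η ∅ + b • mo (-η) ∅) =
      (2 * (a * b)) • (mo η ∅ * mo (-η) ∅) := by
    rw [add_mul, mul_add, mul_add]
    simp only [smul_mul_smul_comm]
    rw [mo_mul_self hη h0, mo_mul_self hnη h1, e1]
    simp only [smul_zero, zero_add, add_zero]
    rw [← add_smul]
    congr 1
    ring
  have h2 := A.g_sum_W (η := η) (T := ∅) (T' := ∅) (l := A.g - 2 * n) hη hn (by simp) (by simp)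
    (by simp only [card_empty]; omega)
  rw [if_pos (disjoint_empty_left _)] at h2
  rw [CMAb.g_int_mul_pol_pow]
  congr 1
  rw [← h2, Finset.sum_mul]
  apply Finset.sum_congr rfl
  intro W _
  rw [e2, smul_mul_assoc, map_smul, smul_eq_mul, mul_comm]

/-- the scalar `2` acts on the classes of degree `d` as `2 ^ d` -/
theorem ext_two {g d : ℕ} {y : Coh g 1} (hy : y ∈ gr g 1 d) :
    extV (Matrix.toLin' (Matrix.diagonal fun _ : Ix g => (2 : ℂ))) y = (2 : ℂ) ^ d • y := by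
  obtain ⟨c, hc⟩ := rep hy
  rw [hc, map_sum, Finset.smul_sum]
  apply Finset.sum_congr rfl
  rintro ⟨η, T⟩ hp
  obtain ⟨hη, hT, hd⟩ := mem_idx.1 hp
  rw [map_smul, extV_mo, prod_efac _ hη hT, Finset.prod_const, Finset.prod_const,
    card_letters hη, ← hd, smul_comm]
  congr 1
  rw [pow_add, pow_mul]
  norm_num

/-- a class which has two degrees is zero -/
theorem eq_zero_of_two {g d e : ℕ} (h : d ≠ e) {y : Coh g 1} (hd : y ∈ gr g 1 d)
    (he : y ∈ gr g 1 e) : y = 0 := by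
  have h1 := (ext_two hd).symm.trans (ext_two he)
  rw [← sub_eq_zero, ← sub_smul] at h1
  rcases smul_eq_zero.1 h1 with h2 | h2
  · exfalso
    apply h
    have h3 : ((2 ^ d : ℕ) : ℂ) = ((2 ^ e : ℕ) : ℂ) := by
      push_cast
      exact sub_eq_zero.1 h2
    exact Nat.pow_right_injective (le_refl 2) (by exact_mod_cast h3)
  · exact h2

theorem abs_cases {g : ℕ} {η : Fin g → ℤ} (h : ∀ s, |η s| ≤ 1) :
    ∀ s, η s = -1 ∨ η s = 0 ∨ η s = 1 := fun s => by
  have := abs_le.1 (h s)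
  omega

variable {Y : Pc0b458Z.NumAb.{u}} {A : Pc0b458Z.CMAb} {S : Pc0b458G.Specialisation Y A}

/-- **The weights of a class of rank two are good.** -/
theorem good_of_rankTwo (h : RankTwo A) {n : ℕ} {y : Coh A.g 1} {η : Fin A.g → ℤ} {a b : ℂ}
    (hη : ∀ s, |η s| ≤ 1) (hy : y ∈ A.alg n) (he : y = a • Pc0b458Z.mon η + b • Pc0b458Z.mon (-η))
    (hab : a * b ≠ 0) (h0 : η ≠ 0) (hs : size η = 2 * n) : A.toV.P η a b ∧ A.toV.Good η := by
  have hη' := abs_cases hη
  have hcard := card_zer hη'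
  have hn : 2 * n ≤ A.g := by omega
  have hR : y ∈ A.toV.R1 n := CMAb.alg_R1 (A := A.toV) hy
  have e1 : y = a • mo η ∅ + b • mo (-η) ∅ := by
    rw [he]
    exact congrArg₂ (fun u w : Coh A.g 1 => a • u + b • w) (mon_eq η) (mon_eq (-η))
  have hP : A.toV.P η a b :=
    ⟨n, hs, (congrArg (fun w : Coh A.g 1 => w ∈ A.toV.R1 n) e1).mp hR⟩
  refine ⟨hP, a, b, hP, ?_⟩
  obtain ⟨r, hr, h1⟩ := h n y η a b hn hη hy he hab
  have h2 : A.toV.int (y * y * pol A.g ^ (A.g - 2 * n)) =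
      ((A.g - 2 * n).factorial : ℂ) * ((-1 : ℂ) ^ n * (sg η : ℂ) * A.toV.top * (2 * (a * b))) := by
    rw [e1]
    exact int_two A.toV hη' h0 hs a b
  obtain ⟨t, ht, ht'⟩ := CMAb.top_pos (A := A.toV)
  rw [ht'] at h2
  have h3 : (-1 : ℂ) ^ n * A.toV.int (y * y * pol A.g ^ (A.g - 2 * n)) = r := h1
  rw [h2] at h3
  have h4 : (-1 : ℂ) ^ n * (-1) ^ n = 1 := by
    rw [← mul_pow]
    norm_num
  have hf : (0 : ℝ) < ((A.g - 2 * n).factorial : ℝ) := by positivity
  have h5 : ((A.g - 2 * n).factorial : ℂ) * (t : ℂ) * 2 * ((sg η : ℂ) * a * b) = r := by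
    rw [← h3]
    linear_combination (-(((A.g - 2 * n).factorial : ℂ) * (sg η : ℂ) * t * (2 * (a * b)))) * h4
  have h6 : ((((A.g - 2 * n).factorial : ℝ) * t * 2 : ℝ) : ℂ) ≠ 0 := by
    exact_mod_cast (by positivity : (0 : ℝ) < ((A.g - 2 * n).factorial : ℝ) * t * 2).ne'
  have h7 : (sg η : ℂ) * a * b = ((r / (((A.g - 2 * n).factorial : ℝ) * t * 2) : ℝ) : ℂ) := by
    rw [Complex.ofReal_div, eq_div_iff h6, ← h5]
    push_cast
    ring
  refine ⟨_, ?_, h7⟩
  have h8 : (0 : ℝ) ≤ r / (((A.g - 2 * n).factorial : ℝ) * t * 2) := by positivity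
  refine lt_of_le_of_ne h8 fun h9 => ?_
  rw [← h9, Complex.ofReal_zero, mul_assoc] at h7
  exact mul_ne_zero (CMAb.sg_ne hη') hab h7

/-- **The central map fixes the classes of rank two.** -/
theorem fix_of_rankTwo (h : RankTwo A) {v : Fin A.g → ℂ} {z : Ix A.g → ℂ} (hv : ∀ s, v s ≠ 0)
    (hvN : ∀ η : Fin A.g → ℤ, (∀ s, η s = -1 ∨ η s = 0 ∨ η s = 1) → η ≠ 0 → A.toV.NonNull η →
      ∀ a a' : ℂ, A.toV.P η a a' → a' = conj a * (sg η : ℂ) * ∏ s, v s ^ η s)
    (hz : ∀ s, z (s, true, 0) * z (s, false, 0) = 1)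
    (hw : ∀ m x' y', S.sp m x' y' → ∀ c : (Fin A.g → ℤ) × Finset (Fin A.g) → ℂ,
      y' = ∑ p ∈ idx A.g (2 * m), c p • mo p.1 p.2 → ∀ η T, (η, T) ∈ idx A.g (2 * m) →
        c (η, T) ≠ 0 → ∏ i ∈ letters η, z i = ∏ i ∈ letters η, (omD v i / (‖omD v i‖ : ℂ)))
    {m : ℕ} {x' : Y.Z} {y' : Coh A.g 1} {η : Fin A.g → ℤ} {a b : ℂ} (hy : S.sp m x' y')
    (hη : ∀ s, |η s| ≤ 1) (he : y' = a • Pc0b458Z.mon η + b • Pc0b458Z.mon (-η))
    (hab : a * b ≠ 0) : ext (Matrix.toLin' (Matrix.diagonal z)) y' = y' := by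
  have hη' := abs_cases hη
  have hnη : ∀ s, (-η) s = -1 ∨ (-η) s = 0 ∨ (-η) s = 1 := fun s => by
    rcases hη' s with h | h | h <;> simp [h]
  have e1 : y' = a • mo η ∅ + b • mo (-η) ∅ := by
    rw [he]
    exact congrArg₂ (fun u w : Coh A.g 1 => a • u + b • w) (mon_eq η) (mon_eq (-η))
  have hgr : y' ∈ gr A.g 1 (2 * m) :=
    CMAb.R1_gr (A := A.toV) (CMAb.alg_R1 (A := A.toV) (S.alg _ _ _ hy))
  have hmo : ∀ θ : Fin A.g → ℤ, (∀ s, θ s = -1 ∨ θ s = 0 ∨ θ s = 1) → mo θ ∅ ∈ gr A.g 1 (size θ) :=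
    fun θ hθ => mo_mem (mem_idx.2 ⟨hθ, by simp, by simp⟩)
  by_cases hs : size η = 2 * m
  · -- the weights
    have hmem : (η, ∅) ∈ idx A.g (2 * m) := mem_idx.2 ⟨hη', by simp, by simp [hs]⟩
    have hmem' : (-η, ∅) ∈ idx A.g (2 * m) := neg_mem_idx hmem
    have key : ∏ i ∈ letters η, z i = 1 := by
      by_cases h0 : η = 0
      · rw [h0]
        exact letters_zero z
      · obtain ⟨hP, hG⟩ := good_of_rankTwo h hη (S.alg _ _ _ hy) he hab h0 hs
        have hN : A.toV.NonNull η := ⟨a, b, hP, hab⟩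
        have h2 := (good_iff (A := A.toV) hη' hN (hvN η hη' h0 hN)).1 hG
        have hne : (η, (∅ : Finset (Fin A.g))) ≠ (-η, ∅) := by
          intro h3
          apply h0
          have h4 : η = -η := (Prod.mk.inj h3).1
          funext s
          have h5 := congrFun h4 s
          simp only [Pi.neg_apply, Pi.zero_apply] at h5 ⊢
          omega
        have hc : y' = ∑ p ∈ idx A.g (2 * m), (if p = (η, ∅) then a else if p = (-η, ∅) then b
            else 0) • mo p.1 p.2 := by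
          have h3 : ∀ p ∈ idx A.g (2 * m), (if p = (η, ∅) then a else if p = (-η, ∅) then b
              else 0) • mo p.1 p.2 = (if p = (η, ∅) then a • mo η ∅ else 0) +
                (if p = (-η, ∅) then b • mo (-η) ∅ else 0) := by
            intro p _
            by_cases h4 : p = (η, ∅)
            · rw [if_pos h4, if_pos h4, if_neg (h4 ▸ hne), h4, add_zero]
            · rw [if_neg h4, if_neg h4, zero_add]
              by_cases h5 : p = (-η, ∅)
              · rw [if_pos h5, if_pos h5, h5]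
              · rw [if_neg h5, if_neg h5, zero_smul]
          rw [Finset.sum_congr rfl h3, Finset.sum_add_distrib, Finset.sum_ite_eq',
            Finset.sum_ite_eq', if_pos hmem, if_pos hmem', e1]
        have h3 := hw m x' y' hy _ hc η ∅ hmem (by
          rw [if_pos rfl]
          exact left_ne_zero_of_mul hab)
        exact h3.trans ((phase_iff hv hη').2 h2)
    have key' : ∏ i ∈ letters (-η), z i = 1 := by
      have h3 := letters_neg hz hη'
      rw [key, mul_one] at h3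
      exact h3
    have hfix : ∀ θ : Fin A.g → ℤ, (∀ s, θ s = -1 ∨ θ s = 0 ∨ θ s = 1) →
        ∏ i ∈ letters θ, z i = 1 →
        extV (Matrix.toLin' (Matrix.diagonal z)) (mo θ ∅) = mo θ ∅ := by
      intro θ hθ h3
      rw [extV_mo, prod_efac z hθ (by simp), h3, Finset.prod_empty, mul_one, one_smul]
    show extV (Matrix.toLin' (Matrix.diagonal z)) y' = y'
    rw [e1, map_add, map_smul, map_smul, hfix η hη' key, hfix (-η) hnη key']
  · have h1 : y' = 0 := by
      refine eq_zero_of_two (fun h3 => hs h3.symm) hgr ?_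
      rw [e1]
      refine Submodule.add_mem _ (Submodule.smul_mem _ _ (hmo η hη'))
        (Submodule.smul_mem _ _ ?_)
      have h3 := hmo (-η) hnη
      rw [size_neg] at h3
      exact h3
    show extV (Matrix.toLin' (Matrix.diagonal z)) y' = y'
    rw [h1, map_zero]

/-- **The central map fixes the classes of rank two.** If one of the coefficients is zero then the
class is zero. -/
theorem fix_of_rankTwo' (h : RankTwo A) (Pw : Powers A) {v : Fin A.g → ℂ} {z : Ix A.g → ℂ}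
    (hv : ∀ s, v s ≠ 0)
    (hvN : ∀ η : Fin A.g → ℤ, (∀ s, η s = -1 ∨ η s = 0 ∨ η s = 1) → η ≠ 0 → A.toV.NonNull η →
      ∀ a a' : ℂ, A.toV.P η a a' → a' = conj a * (sg η : ℂ) * ∏ s, v s ^ η s)
    (hz : ∀ s, z (s, true, 0) * z (s, false, 0) = 1)
    (hw : ∀ m x' y', S.sp m x' y' → ∀ c : (Fin A.g → ℤ) × Finset (Fin A.g) → ℂ,
      y' = ∑ p ∈ idx A.g (2 * m), c p • mo p.1 p.2 → ∀ η T, (η, T) ∈ idx A.g (2 * m) →
        c (η, T) ≠ 0 → ∏ i ∈ letters η, z i = ∏ i ∈ letters η, (omD v i / (‖omD v i‖ : ℂ)))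
    {m : ℕ} {x' : Y.Z} {y' : Coh A.g 1} {η : Fin A.g → ℤ} {a b : ℂ} (hy : S.sp m x' y')
    (hη : ∀ s, |η s| ≤ 1) (he : y' = a • Pc0b458Z.mon η + b • Pc0b458Z.mon (-η)) :
    ext (Matrix.toLin' (Matrix.diagonal z)) y' = y' := by
  by_cases hab : a * b = 0
  swap
  · exact fix_of_rankTwo h hv hvN hz hw hy hη he hab
  have hη' := abs_cases hη
  have hnη : ∀ s, (-η) s = -1 ∨ (-η) s = 0 ∨ (-η) s = 1 := fun s => by
    rcases hη' s with h | h | h <;> simp [h]
  have e1 : y' = a • mo η ∅ + b • mo (-η) ∅ := by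
    rw [he]
    exact congrArg₂ (fun u w : Coh A.g 1 => a • u + b • w) (mon_eq η) (mon_eq (-η))
  show extV (Matrix.toLin' (Matrix.diagonal z)) y' = y'
  by_cases h0 : η = 0
  · subst h0
    have h1 : extV (Matrix.toLin' (Matrix.diagonal z)) (mo (0 : Fin A.g → ℤ) ∅) = mo 0 ∅ := by
      rw [extV_mo, prod_efac z hη' (by simp), letters_zero, Finset.prod_empty, mul_one, one_smul]
    rw [e1, neg_zero, map_add, map_smul, map_smul, h1]
  have hR : y' ∈ A.toV.R1 m := CMAb.alg_R1 (A := A.toV) (S.alg _ _ _ hy)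
  by_cases hs : size η = 2 * m
  · have hP : A.toV.P η a b :=
      ⟨m, hs, (congrArg (fun w : Coh A.g 1 => w ∈ A.toV.R1 m) e1).mp hR⟩
    have h1 : a = 0 ∧ b = 0 := by
      by_cases hN : A.toV.NonNull η
      · obtain ⟨α, α', hα, hne⟩ := hN
        have h2 := CMAb.real_pair (A := A.toV) hη' h0 hα hP
        rcases mul_eq_zero.1 hab with h3 | h3
        · refine ⟨h3, ?_⟩
          rw [h3, mul_zero, map_zero] at h2
          exact (mul_eq_zero.1 h2).resolve_left (left_ne_zero_of_mul hne)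
        · refine ⟨?_, h3⟩
          rw [h3, mul_zero] at h2
          have h4 := congrArg conj h2
          rw [map_zero, Complex.conj_conj] at h4
          exact (mul_eq_zero.1 h4.symm).resolve_left (right_ne_zero_of_mul hne)
      · exact null_P (A := A.toV) Pw.numV hη' h0 hN hP
    rw [e1, h1.1, h1.2, zero_smul, zero_smul, add_zero, map_zero]
  · have h1 : y' = 0 := by
      refine eq_zero_of_two (fun h3 => hs h3.symm) (CMAb.R1_gr (A := A.toV) hR) ?_
      rw [e1]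
      have hmo : ∀ θ : Fin A.g → ℤ, (∀ s, θ s = -1 ∨ θ s = 0 ∨ θ s = 1) →
          mo θ ∅ ∈ gr A.g 1 (size θ) := fun θ hθ => mo_mem (mem_idx.2 ⟨hθ, by simp, by simp⟩)
      refine Submodule.add_mem _ (Submodule.smul_mem _ _ (hmo η hη'))
        (Submodule.smul_mem _ _ ?_)
      have h3 := hmo (-η) hnη
      rw [size_neg] at h3
      exact h3
    rw [h1, map_zero]

end Pc0b458E
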