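import Pool.Agent.Lib.Pc0b458E.Invol

/-!
# Positivity up to a central involution
-/

universe u

namespace Pc0b458E

open Pc0b458Z Pc0b458G

/-- positivity up to a central involution -/
theorem mainZ {X Y : NumAb.{u}} (P : Product X Y) {A : CMAb} (Pw : Powers A)
    (S : Specialisation Y A) (C : Cartan S) :
    ∃ Z : Module.End ℂ (H1 A.g), Central S Z ∧
      (∀ m x' y', S.sp m x' y' → GenA A m y' → ext Z y' = y') ∧
      (∀ m x' y', S.sp m x' y' → ext Z (ext Z y') = y') ∧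
      ∀ n, 2 * n ≤ X.g → ∀ x ∈ X.cod n, X.L ^ (X.g - 2 * n + 1) * x = 0 → x ≠ 0 →
        (∃ y, S.sp n (P.pr x) y ∧ pol A.g ^ (A.g - 2 * n + 1) * y = 0) ∧
        ∀ y, S.sp n (P.pr x) y → pol A.g ^ (A.g - 2 * n + 1) * y = 0 →
          (∃ r : ℝ, 0 < r ∧ (-1) ^ n * A.int (y * ext Z y * pol A.g ^ (A.g - 2 * n)) = r) ∧
          (ext Z y = y → 0 < (-1) ^ n * X.deg (x * x * X.L ^ (X.g - 2 * n))) := by
  obtain ⟨Z, hC, hG, hI, hpos⟩ := exists_involution (S := S) Pw C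
  refine ⟨Z, hC, hG, hI, fun n hn x hx hL h0 => ⟨exists_prim P S hn hx hL, fun y hy hp => ?_⟩⟩
  have hn' : 2 * n ≤ Y.g := by rw [P.dim]; omega
  have hnA : 2 * n ≤ A.g := S.dim ▸ hn'
  obtain ⟨r, hr, hr', hr0⟩ := hpos n hnA _ y hy (prim_of_sp S hy hp)
  have hr1 : 0 < r := by
    refine lt_of_le_of_ne hr fun h => ?_
    obtain ⟨w, hw, hne⟩ := exists_dual S hn' (P.pr_mem n x hx) (pr_ne P hx h0) hy
    exact hne (hr0 h.symm w hw)
  refine ⟨⟨r, hr1, hr'⟩, fun hfix => ?_⟩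
  rw [hfix] at hr'
  exact pos_of_pos P S hn hx hy hr1 hr'

end Pc0b458E
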