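import Pool.Agent.Lib.Pc0b458E.PowV

/-!
# The complementary class

For weights `η l`, `l : Fin r`, with sum zero, `Yc` is a product of classes of divisors on `A^r` such
that the product of the `mo (η l) ∅` on the factors with `Yc` is a real multiple of the top class.
-/

open Finset ComplexConjugate

namespace Pc0b458E

open Pc0b458V

/-- an involution which changes the sign -/
theorem exists_flip {n : ℕ} (a : Fin n → ℤ) (ha : ∀ i, a i = -1 ∨ a i = 0 ∨ a i = 1)
    (h0 : ∑ i, a i = 0) : ∃ σ : Equiv.Perm (Fin n), (∀ i, a (σ i) = -a i) ∧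
      ∀ i, a i = 0 → σ i = i := by
  classical
  have hc : (univ.filter fun i => a i = 1).card = (univ.filter fun i => a i = -1).card := by
    have h1 : ∑ i, a i = ((univ.filter fun i => a i = 1).card : ℤ) -
        ((univ.filter fun i => a i = -1).card : ℤ) := by
      rw [card_filter, card_filter]
      push_cast
      rw [← Finset.sum_sub_distrib]
      refine Finset.sum_congr rfl fun i _ => ?_
      rcases ha i with h | h | h <;> simp [h]
    omega
  let e := Finset.equivOfCardEq hc
  have he : ∀ i (h : a i = 1), a (e ⟨i, by simp [h]⟩ : Fin n) = -1 := fun i h => by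
    have := (e ⟨i, by simp [h]⟩).2
    exact (mem_filter.1 this).2
  have he' : ∀ i (h : a i = -1), a (e.symm ⟨i, by simp [h]⟩ : Fin n) = 1 := fun i h => by
    have := (e.symm ⟨i, by simp [h]⟩).2
    exact (mem_filter.1 this).2
  let f : Fin n → Fin n := fun i =>
    if h : a i = 1 then (e ⟨i, by simp [h]⟩ : Fin n)
    else if h' : a i = -1 then (e.symm ⟨i, by simp [h']⟩ : Fin n) else i
  have hf : Function.Involutive f := by
    intro i
    by_cases h : a i = 1
    · have h1 : f i = (e ⟨i, by simp [h]⟩ : Fin n) := by simp only [f, dif_pos h]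
      have h2 : a (f i) = -1 := by rw [h1]; exact he i h
      have h3 : f (f i) = (e.symm ⟨f i, by simp [h2]⟩ : Fin n) := by
        have h4 : ¬ a (f i) = 1 := by rw [h2]; decide
        simp only [f] at h4 h2 ⊢
        rw [dif_neg h4, dif_pos h2]
      rw [h3]
      have h5 : (⟨f i, by simp [h2]⟩ : {x // x ∈ univ.filter fun i => a i = -1}) =
          e ⟨i, by simp [h]⟩ := Subtype.ext h1
      rw [h5, Equiv.symm_apply_apply]
    · by_cases h' : a i = -1
      · have h1 : f i = (e.symm ⟨i, by simp [h']⟩ : Fin n) := by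
          simp only [f, dif_neg h, dif_pos h']
        have h2 : a (f i) = 1 := by rw [h1]; exact he' i h'
        have h3 : f (f i) = (e ⟨f i, by simp [h2]⟩ : Fin n) := by
          simp only [f] at h2 ⊢
          rw [dif_pos h2]
        rw [h3]
        have h5 : (⟨f i, by simp [h2]⟩ : {x // x ∈ univ.filter fun i => a i = 1}) =
            e.symm ⟨i, by simp [h']⟩ := Subtype.ext h1
        rw [h5, Equiv.apply_symm_apply]
      · have h1 : f i = i := by simp only [f, dif_neg h, dif_neg h']
        rw [h1, h1]
  refine ⟨hf.toPerm, fun i => ?_, fun i hi => ?_⟩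
  · show a (f i) = -a i
    by_cases h : a i = 1
    · simp only [f, dif_pos h]
      rw [he i h, h]
    · by_cases h' : a i = -1
      · simp only [f, dif_neg h, dif_pos h']
        rw [he' i h', h']
        rfl
      · simp only [f, dif_neg h, dif_neg h']
        rcases ha i with h1 | h1 | h1
        · exact absurd h1 h'
        · rw [h1]; rfl
        · exact absurd h1 h
  · show f i = i
    have h : ¬ a i = 1 := by rw [hi]; decide
    have h' : ¬ a i = -1 := by rw [hi]; decide
    simp only [f, dif_neg h, dif_neg h']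

theorem mul_lprod_congr {g m n : ℕ} {a b : Fin n → Coh g m} (x : Coh g m)
    (h : ∀ i, x * a i = x * b i) (hb : ∀ i z, b i * z = z * b i) : x * lprod a = x * lprod b := by
  induction n with
  | zero => simp [lprod_zero]
  | succ n ih =>
    rw [lprod_succ, lprod_succ, ← mul_assoc, h 0, ← hb 0, mul_assoc,
      ih (a := fun i => a i.succ) (b := fun i => b i.succ) (fun i => h i.succ)
      (fun i => hb i.succ), ← mul_assoc, ← mul_assoc, hb 0]

theorem lprod_central {g m n : ℕ} {b : Fin n → Coh g m} (hb : ∀ i z, b i * z = z * b i)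
    (z : Coh g m) : lprod b * z = z * lprod b := by
  induction n with
  | zero => simp [lprod_zero]
  | succ n ih =>
    rw [lprod_succ, mul_assoc, ih (fun i => hb i.succ), ← mul_assoc, hb 0, mul_assoc]

section

variable {g m : ℕ}

/-- the class `e_p f_q + e_q f_p` -/
noncomputable def Mc (s : Fin g) (p q : Fin m) : Coh g m :=
  pb (Pi.single p 1 + Pi.single q 1) (dd s) - pb (Pi.single p 1) (dd s) - pb (Pi.single q 1) (dd s)

theorem pb_single_gen (p : Fin m) (s : Fin g) (b : Bool) :
    pb (Pi.single p 1) (gen s b 0) = gen s b p := by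
  rw [pb_gen, Finset.sum_eq_single p]
  · simp
  · intro j _ hj
    simp [hj]
  · intro h
    exact absurd (mem_univ p) h

theorem pb_single_add_gen (p q : Fin m) (s : Fin g) (b : Bool) :
    pb (Pi.single p 1 + Pi.single q 1) (gen s b 0) = gen s b p + gen s b q := by
  have h : ∀ j, (if b = true then (Pi.single p 1 + Pi.single q 1 : Fin m → Fin g → ℂ) j s
      else conj ((Pi.single p 1 + Pi.single q 1 : Fin m → Fin g → ℂ) j s)) =
      (if j = p then (1 : ℂ) else 0) + (if j = q then (1 : ℂ) else 0) := by
    intro j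
    have e : ∀ p : Fin m, (Pi.single p 1 : Fin m → Fin g → ℂ) j s = if j = p then 1 else 0 := by
      intro p
      by_cases h : j = p
      · subst h
        simp
      · simp [h]
    rw [Pi.add_apply, Pi.add_apply, e, e]
    cases b
    · rw [if_neg (by decide), map_add]
      congr 1
      · by_cases h : j = p <;> simp [h]
      · by_cases h : j = q <;> simp [h]
    · rw [if_pos rfl]
  rw [pb_gen]
  simp only [h, add_smul, Finset.sum_add_distrib, ite_smul, one_smul, zero_smul,
    Finset.sum_ite_eq', mem_univ, if_true]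

theorem Mc_eq (s : Fin g) (p q : Fin m) :
    Mc s p q = gen s true p * gen s false q + gen s true q * gen s false p := by
  rw [Mc, dd, map_mul, map_mul, map_mul, pb_single_add_gen, pb_single_add_gen, pb_single_gen,
    pb_single_gen, pb_single_gen, pb_single_gen, add_mul, mul_add, mul_add]
  abel

theorem conj_single (p : Fin m) (j : Fin m) (s : Fin g) :
    conj ((Pi.single p 1 : Fin m → Fin g → ℂ) j s) = (Pi.single p 1 : Fin m → Fin g → ℂ) j s := by
  rw [Pi.single_apply]
  by_cases h : j = p <;> simp [h]

theorem tau_Mc (s : Fin g) (p q : Fin m) : tau g m (Mc s p q) = Mc s p q := by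
  rw [Mc, map_sub, map_sub, tau_pb, tau_pb (conj_single p), tau_pb (conj_single q), tau_dd]
  intro j t
  rw [Pi.add_apply, Pi.add_apply, map_add, conj_single, conj_single]

theorem Mc_central (s : Fin g) (p q : Fin m) (z : Coh g m) : Mc s p q * z = z * Mc s p q := by
  have h : Mc s p q ∈ gr g m (2 * 1) :=
    sub_mem (sub_mem (pb_mem_gr _ (dd_mem_gr s)) (pb_mem_gr _ (dd_mem_gr s)))
      (pb_mem_gr _ (dd_mem_gr s))
  exact even_comm h z

theorem gg_central (s : Fin g) (p q : Fin m) (z : Coh g m) :
    gen s true p * gen s false q * z = z * (gen s true p * gen s false q) := by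
  have h : gen s true p * gen s false q ∈ gr g m (1 + 1) :=
    mul_mem_gr (gen_mem_gr _ _ _) (gen_mem_gr _ _ _)
  exact even_comm (k := 1) h z

variable {r : ℕ} (η : Fin r → Fin g → ℤ)

/-- the product of the monomials on the factors -/
noncomputable def Xp : Coh g r := lprod fun l => pb (Pi.single l 1) (mo (η l) ∅)

/-- the list of the letters of `Xp` at `l` and `s` -/
def lx (l : Fin r) (s : Fin g) : List (Fin g × Bool × Fin r) :=
  if η l s = 1 then [(s, true, l)] else if η l s = -1 then [(s, false, l)] else []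

/-- the list of the letters of `Xp` -/
def Lx : List (Fin g × Bool × Fin r) :=
  (List.ofFn fun l => (List.ofFn fun s => lx η l s).flatten).flatten

theorem Xp_eq : Xp η = gl (Lx η) := by
  rw [Xp, Lx, gl_flatten]
  congr 1
  funext l
  rw [gl_flatten, mo, map_lprod]
  congr 1
  funext s
  unfold lt lx
  simp only [Finset.notMem_empty, if_false]
  split_ifs
  · rw [pb_single_gen, gl_cons, gl_nil, mul_one]
  · rw [pb_single_gen, gl_cons, gl_nil, mul_one]
  · rw [map_one, gl_nil]

theorem mem_Lx {l : Fin r} {s : Fin g} (h : η l s = 1) : (s, true, l) ∈ Lx η := by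
  rw [Lx, List.mem_flatten]
  refine ⟨_, (List.mem_ofFn' _ _).2 ⟨l, rfl⟩, ?_⟩
  rw [List.mem_flatten]
  refine ⟨_, (List.mem_ofFn' _ _).2 ⟨s, rfl⟩, ?_⟩
  simp [lx, h]

theorem Xp_mul_gen {l : Fin r} {s : Fin g} (h : η l s = 1) : Xp η * gen s true l = 0 := by
  rw [Xp_eq]
  exact gl_mul_gen (i := (s, true, l)) (mem_Lx η h)

theorem tau_Xp (hη : ∀ l s, η l s = -1 ∨ η l s = 0 ∨ η l s = 1) :
    tau g r (Xp η) = (∏ l, (sg (η l) : ℂ)) • Xp fun l => -η l := by
  rw [Xp, map_lprod, Xp, ← lprod_smul]
  congr 1
  funext l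
  rw [tau_pb (conj_single l), tau_mo (hη l), map_smul]

/-- the top class -/
noncomputable def Tp (g r : ℕ) : Coh g r :=
  lprod fun j => pb (Pi.single j 1) (dT (univ : Finset (Fin g)))

/-- the list of all letters -/
def Lt (g r : ℕ) : List (Fin g × Bool × Fin r) :=
  (List.ofFn fun j => (List.ofFn fun s => [(s, true, j), (s, false, j)]).flatten).flatten

theorem Tp_eq : Tp g r = gl (Lt g r) := by
  rw [Tp, Lt, gl_flatten]
  congr 1
  funext l
  rw [gl_flatten, dT, mo, map_lprod]
  congr 1
  funext s
  rw [lt_zero, if_pos (mem_univ s), dd, map_mul, pb_single_gen, pb_single_gen, gl_cons, gl_cons,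
    gl_nil, mul_one]

theorem tau_Tp : tau g r (Tp g r) = Tp g r := by
  rw [Tp, map_lprod]
  congr 1
  funext l
  rw [tau_pb (conj_single l), dT, mo, map_lprod]
  congr 2
  funext s
  rw [lt_zero, if_pos (mem_univ s), tau_dd]

variable (σ : Fin g → Equiv.Perm (Fin r))

/-- the complementary class -/
noncomputable def Yc : Coh g r :=
  lprod fun s => lprod fun p => if η p s = -1 then 1 else Mc s p (σ s p)

/-- the list of the letters which complement `Xp` -/
def Ly : List (Fin g × Bool × Fin r) :=
  (List.ofFn fun s => (List.ofFn fun p => if η p s = -1 then [] else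
    [(s, true, σ s p), (s, false, p)]).flatten).flatten

theorem tau_Yc : tau g r (Yc η σ) = Yc η σ := by
  rw [Yc, map_lprod]
  congr 1
  funext s
  rw [map_lprod]
  congr 1
  funext p
  split_ifs
  · rw [map_one]
  · rw [tau_Mc]

variable {η σ}

/-- the coefficient -/
def cf (a : ℤ) : ℂ := if a = 0 then 2 else 1

theorem Xp_mul_Mc (hη : ∀ l s, η l s = -1 ∨ η l s = 0 ∨ η l s = 1)
    (h0 : ∀ s i, η i s = 0 → σ s i = i) (s : Fin g) (p : Fin r) (hp : η p s ≠ -1) :
    Xp η * Mc s p (σ s p) = Xp η * (cf (η p s) • (gen s true (σ s p) * gen s false p)) := by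
  rw [Mc_eq]
  rcases hη p s with h | h | h
  · exact absurd h hp
  · rw [h0 s p h, h, cf, if_pos rfl]
    congr 1
    module
  · rw [mul_add, ← mul_assoc, Xp_mul_gen η h, zero_mul, zero_add, h, cf, if_neg (by decide),
      one_smul]

theorem Xp_mul_Yc (hη : ∀ l s, η l s = -1 ∨ η l s = 0 ∨ η l s = 1)
    (h0 : ∀ s i, η i s = 0 → σ s i = i) :
    Xp η * Yc η σ = (∏ s, ∏ p, if η p s = -1 then 1 else cf (η p s)) • gl (Lx η ++ Ly η σ) := by
  have h1 : Xp η * Yc η σ = Xp η * lprod fun s => lprod fun p =>
      (if η p s = -1 then 1 else cf (η p s)) •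
        gl (if η p s = -1 then [] else [(s, true, σ s p), (s, false, p)]) := by
    have hc : ∀ s p z, ((if η p s = -1 then 1 else cf (η p s)) •
        gl (if η p s = -1 then [] else [(s, true, σ s p), (s, false, p)])) * z =
        z * ((if η p s = -1 then 1 else cf (η p s)) •
        gl (if η p s = -1 then [] else [(s, true, σ s p), (s, false, p)])) := by
      intro s p z
      rw [smul_mul_assoc, mul_smul_comm]
      congr 1
      by_cases h : η p s = -1
      · simp [h, gl_nil]
      · simp only [h, if_false]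
        rw [gl_cons, gl_cons, gl_nil, mul_one]
        exact gg_central s _ _ z
    apply mul_lprod_congr
    · intro s
      apply mul_lprod_congr
      · intro p
        by_cases h : η p s = -1
        · simp [h, gl_nil]
        · simp only [h, if_false]
          rw [gl_cons, gl_cons, gl_nil, mul_one]
          exact Xp_mul_Mc hη h0 s p h
      · exact hc s
    · intro s z
      exact lprod_central (hc s) z
  rw [h1]
  simp only [lprod_smul]
  rw [mul_smul_comm, gl_append, ← Xp_eq, Ly, gl_flatten]
  congr 2
  congr 1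
  funext s
  rw [gl_flatten]

theorem perm (hη : ∀ l s, η l s = -1 ∨ η l s = 0 ∨ η l s = 1)
    (hs : ∀ s i, η (σ s i) s = -η i s) : (Lx η ++ Ly η σ).Perm (Lt g r) := by
  rw [← Multiset.coe_eq_coe, ← Multiset.coe_add, Lx, Ly, Lt, coe_flatten, coe_flatten, coe_flatten]
  simp only [coe_flatten]
  rw [Finset.sum_comm, ← Finset.sum_add_distrib]
  rw [Finset.sum_comm (γ := Fin r)]
  refine Finset.sum_congr rfl fun s _ => ?_
  have h1 : ∀ p, ((if η p s = -1 then ([] : List (Fin g × Bool × Fin r)) else
      [(s, true, σ s p), (s, false, p)] : List _) : Multiset (Fin g × Bool × Fin r)) =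
      (if η (σ s p) s = 1 then 0 else {(s, true, σ s p)}) +
      (if η p s = -1 then 0 else {(s, false, p)}) := by
    intro p
    rw [hs s p]
    rcases hη p s with h | h | h <;> simp [h] <;> rfl
  simp only [h1]
  rw [Finset.sum_add_distrib, Equiv.sum_comp (σ s) fun q =>
    (if η q s = 1 then (0 : Multiset (Fin g × Bool × Fin r)) else {(s, true, q)}),
    ← Finset.sum_add_distrib, ← Finset.sum_add_distrib]
  refine Finset.sum_congr rfl fun p _ => ?_
  unfold lx
  rcases hη p s with h | h | h
  · simp only [h]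
    norm_num
    exact Multiset.cons_swap _ _ 0
  · simp only [h]
    norm_num
    rfl
  · simp only [h]
    norm_num
    rfl

/-- the product is a real multiple of the top class -/
theorem Xp_Yc (hη : ∀ l s, η l s = -1 ∨ η l s = 0 ∨ η l s = 1)
    (hs : ∀ s i, η (σ s i) s = -η i s) (h0 : ∀ s i, η i s = 0 → σ s i = i) :
    ∃ c : ℝ, c ≠ 0 ∧ Xp η * Yc η σ = (c : ℂ) • Tp g r := by
  have h1 : ∃ d : ℝ, d ≠ 0 ∧ (∏ s, ∏ p, if η p s = -1 then 1 else cf (η p s)) = (d : ℂ) := by
    refine ⟨∏ s, ∏ p, if η p s = -1 then 1 else (if η p s = 0 then 2 else 1), ?_, ?_⟩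
    · refine Finset.prod_ne_zero_iff.2 fun s _ => Finset.prod_ne_zero_iff.2 fun p _ => ?_
      split_ifs <;> norm_num
    · push_cast
      refine Finset.prod_congr rfl fun s _ => Finset.prod_congr rfl fun p _ => ?_
      unfold cf
      split_ifs <;> norm_num
  obtain ⟨d, hd, h1⟩ := h1
  rw [Xp_mul_Yc hη h0, h1, Tp_eq]
  rcases gl_perm (perm hη hs) with h | h
  · exact ⟨d, hd, by rw [h]⟩
  · exact ⟨-d, neg_ne_zero.2 hd, by rw [h]; push_cast; rw [smul_neg, neg_smul]⟩

end

end Pc0b458E
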