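import Pool.Agent.Lib.Pc0b458E.StmtS
import Pool.Agent.Lib.Pc0b458E.Aut
import Pool.Agent.Lib.Pc0b458E.Uf
import Pool.Agent.Lib.Pc0b458E.Phase
import Pool.Agent.Lib.Pc0b458E.Twist

/-!
# Consequences of the saturation of the algebraic weights

* `gensT S`: the characters of the group of the diagonal maps which fix the classes of all algebraic
  cycles on `Y`, and which are equal on equal weights;
* `GM_conj`: a diagonal map with this property normalises the motivic Lie algebra;
* `toW`: the weight on `A` of a character; `toW_mem`: it is in the group generated by the algebraic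
  weights;
* `sat_phase`: if the weight has size at most four then it has phase one.
-/

universe u

open Finset ComplexConjugate

namespace Pc0b458E

open Pc0b458V Pc0b458L

/-- the weight of a character of the diagonal maps -/
def toW {g : ℕ} : (Ix g → ℤ) →+ (Fin g → ℤ) where
  toFun x s := x (s, true, 0) - x (s, false, 0)
  map_zero' := by
    funext s
    simp
  map_add' x y := by
    funext s
    simp only [Pi.add_apply]
    ring

lemma toW_apply {g : ℕ} (x : Ix g → ℤ) (s : Fin g) : toW x s = x (s, true, 0) - x (s, false, 0) := rfl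

open Classical in
/-- the character of a set of letters -/
noncomputable def indI {g : ℕ} (I : Finset (Ix g)) : Ix g → ℤ := fun i => if i ∈ I then 1 else 0

lemma prod_indI {g : ℕ} (I : Finset (Ix g)) (t : Ix g → ℂ) : ∏ i, t i ^ indI I i = ∏ i ∈ I, t i := by
  classical
  unfold indI
  have h : ∀ i, t i ^ (if i ∈ I then (1 : ℤ) else 0) = if i ∈ I then t i else 1 := by
    intro i
    split_ifs
    · exact zpow_one _
    · exact zpow_zero _
  rw [Finset.prod_congr rfl fun i _ => h i, Finset.prod_ite_mem, Finset.univ_inter]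

lemma toW_letters {g : ℕ} {η : Fin g → ℤ} (hη : ∀ s, η s = -1 ∨ η s = 0 ∨ η s = 1) :
    toW (indI (letters η)) = η := by
  classical
  funext s
  rw [toW_apply]
  have h1 : ((s, true, 0) : Ix g) ∈ letters η ↔ η s = 1 := by
    simp [letters]
  have h2 : ((s, false, 0) : Ix g) ∈ letters η ↔ η s = -1 := by
    simp [letters]
  unfold indI
  rcases hη s with h | h | h
  · have h3 : ¬ (η s = 1) := by rw [h]; decide
    rw [if_neg (fun h4 => h3 (h1.1 h4)), if_pos (h2.2 h), h]
    norm_num
  · have h3 : ¬ (η s = 1) := by rw [h]; decide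
    have h4 : ¬ (η s = -1) := by rw [h]; decide
    rw [if_neg (fun h5 => h3 (h1.1 h5)), if_neg (fun h5 => h4 (h2.1 h5)), h]
    norm_num
  · have h3 : ¬ (η s = -1) := by rw [h]; decide
    rw [if_pos (h1.2 h), if_neg (fun h4 => h3 (h2.1 h4)), h]
    norm_num

/-- the value of a product of phases depends only on the weight -/
lemma prod_phase_toW {g : ℕ} {v : Fin g → ℂ} (hv : ∀ s, v s ≠ 0) (x : Ix g → ℤ) :
    ∏ i, (omD v i / (‖omD v i‖ : ℂ)) ^ x i = ∏ s, (v s / (‖v s‖ : ℂ)) ^ (-toW x s) := by
  rw [Fintype.prod_prod_type]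
  refine Finset.prod_congr rfl fun s _ => ?_
  rw [Fintype.prod_prod_type, Fintype.prod_bool, Fin.prod_univ_one, Fin.prod_univ_one, toW_apply]
  have hn : (‖v s‖ : ℂ) ≠ 0 := by exact_mod_cast (norm_pos_iff.2 (hv s)).ne'
  have h1 : omD v (s, true, 0) / (‖omD v (s, true, 0)‖ : ℂ) = (v s / (‖v s‖ : ℂ))⁻¹ := by
    simp only [omD, if_true, norm_inv, Complex.ofReal_inv]
    rw [inv_div_inv, inv_div]
  have h2 : omD v (s, false, 0) / (‖omD v (s, false, 0)‖ : ℂ) = v s / (‖v s‖ : ℂ) := by
    simp [omD]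
  rw [h1, h2]
  have hu : v s / (‖v s‖ : ℂ) ≠ 0 := div_ne_zero (hv s) hn
  rw [inv_zpow', ← zpow_add₀ hu]
  congr 1
  ring

/-- the product of the phases of the letters of a weight -/
lemma prod_phase_letters {g : ℕ} {v : Fin g → ℂ} (hv : ∀ s, v s ≠ 0) {x : Ix g → ℤ} {η : Fin g → ℤ}
    (hη : ∀ s, η s = -1 ∨ η s = 0 ∨ η s = 1) (hx : toW x = η) :
    ∏ i, (omD v i / (‖omD v i‖ : ℂ)) ^ x i = ∏ i ∈ letters η, (omD v i / (‖omD v i‖ : ℂ)) := by
  rw [← prod_indI (letters η) fun i => omD v i / (‖omD v i‖ : ℂ), prod_phase_toW hv,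
    prod_phase_toW hv, hx, toW_letters hη]

variable {Y : Pc0b458Z.NumAb.{u}} {A : Pc0b458Z.CMAb} {S : Pc0b458G.Specialisation Y A}

/-- generators of the group of the characters of the group of the diagonal maps which fix the classes
of all algebraic cycles on `Y` and are equal on equal weights -/
def gensT (S : Pc0b458G.Specialisation Y A) : Set (Ix A.g → ℤ) :=
  {x | (∃ s, x = Pi.single (s, true, 0) 1 + Pi.single (s, false, 0) 1) ∨
    (∃ i j, (∀ f ∈ Car (GM S), f i = f j) ∧ x = Pi.single i 1 - Pi.single j 1) ∨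
    ∃ m x' y', S.sp m x' y' ∧ ∃ c : (Fin A.g → ℤ) × Finset (Fin A.g) → ℂ,
      y' = ∑ p ∈ idx A.g (2 * m), c p • mo p.1 p.2 ∧ ∃ η T, (η, T) ∈ idx A.g (2 * m) ∧
        c (η, T) ≠ 0 ∧ x = indI (letters η)}

lemma prod_single_add {g : ℕ} {t : Ix g → ℂ} (ht : ∀ i, t i ≠ 0) (i j : Ix g) :
    ∏ k, t k ^ (Pi.single i 1 + Pi.single j 1 : Ix g → ℤ) k = t i * t j := by
  classical
  have h : ∀ k, t k ^ (Pi.single i 1 + Pi.single j 1 : Ix g → ℤ) k =
      t k ^ (Pi.single i 1 : Ix g → ℤ) k * t k ^ (Pi.single j 1 : Ix g → ℤ) k := by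
    intro k
    rw [Pi.add_apply, zpow_add₀ (ht k)]
  have h1 : ∀ i : Ix g, ∏ k, t k ^ (Pi.single i 1 : Ix g → ℤ) k = t i := by
    intro i
    rw [Finset.prod_eq_single i]
    · rw [Pi.single_eq_same, zpow_one]
    · intro k _ hk
      rw [Pi.single_eq_of_ne hk, zpow_zero]
    · intro h
      exact absurd (Finset.mem_univ i) h
  rw [Finset.prod_congr rfl fun k _ => h k, Finset.prod_mul_distrib, h1, h1]

/-- a diagonal map which fixes the classes of all algebraic cycles on `Y` normalises the motivic Lie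
algebra -/
theorem GM_conj_of_fix {t : Ix A.g → ℂ} (ht : ∀ i, t i ≠ 0)
    (hfix : ∀ n x y, S.sp n x y → ext (Matrix.toLin' (Matrix.diagonal t)) y = y)
    {X : Matrix (Ix A.g) (Ix A.g) ℂ} (hX : X ∈ GM S) :
    Matrix.diagonal t * X * Matrix.diagonal (fun i => (t i)⁻¹) ∈ GM S := by
  have hPQ1 : Matrix.toLin' (Matrix.diagonal t) * Matrix.toLin' (Matrix.diagonal fun i => (t i)⁻¹) =
      1 := by
    rw [toLin_diagonal_mul]
    have : (fun i => t i * (t i)⁻¹) = fun _ => (1:ℂ) := by
      funext i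
      exact mul_inv_cancel₀ (ht i)
    rw [this]
    have h1 : Matrix.diagonal (fun _ : Ix A.g => (1:ℂ)) = 1 := Matrix.diagonal_one
    rw [h1, Matrix.toLin'_one]
    rfl
  have hQP1 : Matrix.toLin' (Matrix.diagonal fun i => (t i)⁻¹) * Matrix.toLin' (Matrix.diagonal t) =
      1 := by
    rw [toLin_diagonal_mul]
    have : (fun i => (t i)⁻¹ * t i) = fun _ => (1:ℂ) := by
      funext i
      exact inv_mul_cancel₀ (ht i)
    rw [this]
    have h1 : Matrix.diagonal (fun _ : Ix A.g => (1:ℂ)) = 1 := Matrix.diagonal_one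
    rw [h1, Matrix.toLin'_one]
    rfl
  set P : Module.End ℂ (V1 A.g) := Matrix.toLin' (Matrix.diagonal t) with hP
  set Q : Module.End ℂ (V1 A.g) := Matrix.toLin' (Matrix.diagonal fun i => (t i)⁻¹) with hQ
  have hPv : ∀ v, P (Q v) = v := fun v => congrArg (fun T : Module.End ℂ (V1 A.g) => T v) hPQ1
  have hQv : ∀ v, Q (P v) = v := fun v => congrArg (fun T : Module.End ℂ (V1 A.g) => T v) hQP1
  have hPQ : ∀ x : Coh A.g 1, extV P (extV Q x) = x := by
    intro x
    have h1 : (extV P).comp (extV Q) = AlgHom.id ℂ (Coh A.g 1) := by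
      apply ExteriorAlgebra.hom_ext
      apply LinearMap.ext
      intro v
      show extV P (extV Q (iota A.g 1 v)) = iota A.g 1 v
      rw [extV_iota, extV_iota, hPv]
    exact congrArg (fun F : Coh A.g 1 →ₐ[ℂ] Coh A.g 1 => F x) h1
  have hQP : ∀ x : Coh A.g 1, extV Q (extV P x) = x := by
    intro x
    have h1 : (extV Q).comp (extV P) = AlgHom.id ℂ (Coh A.g 1) := by
      apply ExteriorAlgebra.hom_ext
      apply LinearMap.ext
      intro v
      show extV Q (extV P (iota A.g 1 v)) = iota A.g 1 v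
      rw [extV_iota, extV_iota, hQv]
    exact congrArg (fun F : Coh A.g 1 →ₐ[ℂ] Coh A.g 1 => F x) h1
  rw [mem_GM]
  have hT : Matrix.toLin' (Matrix.diagonal t * X * Matrix.diagonal (fun i => (t i)⁻¹)) =
      P * Matrix.toLin' X * Q := by
    rw [Matrix.toLin'_mul, Matrix.toLin'_mul]
    rfl
  rw [hT]
  intro n x y hxy
  obtain ⟨D, hD, hD0⟩ : ∃ D, IsDerV (Matrix.toLin' X) D ∧ D y = 0 := mem_GM.1 hX n x y hxy
  have hfy : extV P y = y := hfix n x y hxy
  have hQy : extV Q y = y := by
    conv_lhs => rw [← hfy]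
    exact hQP y
  have hDer : IsDerV (P * Matrix.toLin' X * Q)
      ((extV P).toLinearMap ∘ₗ D ∘ₗ (extV Q).toLinearMap) := by
    refine ⟨fun v => ?_, fun x y => ?_⟩
    · show extV P (D (extV Q (iota A.g 1 v))) = iota A.g 1 (P (Matrix.toLin' X (Q v)))
      rw [extV_iota, hD.1, extV_iota]
    · show extV P (D (extV Q (x * y))) = extV P (D (extV Q x)) * y + x * extV P (D (extV Q y))
      rw [map_mul, hD.2, map_add, map_mul, map_mul, hPQ, hPQ]
  refine ⟨_, hDer, ?_⟩
  show extV P (D (extV Q y)) = 0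
  rw [hQy, hD0, map_zero]

/-- a diagonal map which is trivial on `gensT S` normalises the motivic Lie algebra -/
theorem GM_conj {t : Ix A.g → ℂ} (ht : ∀ i, t i ≠ 0)
    (hk : ∀ x ∈ gensT S, ∏ i, t i ^ x i = 1)
    {X : Matrix (Ix A.g) (Ix A.g) ℂ} (hX : X ∈ GM S) :
    Matrix.diagonal t * X * Matrix.diagonal (fun i => (t i)⁻¹) ∈ GM S := by
  refine GM_conj_of_fix ht (fun n x y hxy => ?_) hX
  obtain ⟨c, hc⟩ := rep (g := A.g) (CMAb.R1_gr (A := A.toV) (CMAb.alg_R1 (A := A.toV) (S.alg n x y hxy)))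
  refine (ext_fix A.toV hc).2 fun η T hp h0 => ?_
  have h1 : ∏ i ∈ letters η, t i = 1 := by
    rw [← prod_indI]
    exact hk _ (Or.inr (Or.inr ⟨n, x, y, hxy, c, hc, η, T, hp, h0, rfl⟩))
  have h2 : ∀ s : Fin A.g, t (s, true, 0) * t (s, false, 0) = 1 := by
    intro s
    rw [← prod_single_add ht]
    exact hk _ (Or.inl ⟨s, rfl⟩)
  have h3 : ∏ s ∈ T, t (s, true, 0) * t (s, false, 0) = 1 := Finset.prod_eq_one fun s _ => h2 s
  exact (congrArg₂ (fun a b : ℂ => a * b) h1 h3).trans (mul_one 1)

/-- equal weights, in terms of the matrices -/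
lemma same_of_car {v : Fin A.g → ℂ} (hv : ∀ s, v s ≠ 0)
    (tw : ∀ X ∈ GM S, Matrix.diagonal (omD v) * X.conjTranspose *
      Matrix.diagonal (fun i => (omD v i)⁻¹) ∈ GM S) {i j : Ix A.g}
    (h : ∀ f ∈ Car (GM S), f i = f j) : Same S i.1 i.2.1 j.1 j.2.1 := by
  intro d hd
  have h1 := GM_same hv tw h (p := fun i : Ix A.g => d i.1 i.2.1) (diag_mem.2 hd)
  exact h1

/-- a weight of size two is algebraic -/
lemma algebraic_pairW (C : Cartan S) {s : Fin A.g} {b : Bool} {t : Fin A.g} {c : Bool} (hst : s ≠ t)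
    (h : Same S s b t c) : A.Algebraic (pairW s b t c) := by
  have hd1 : gen s b 0 * gen t (!c) 0 ∈ Submodule.span ℂ (A.alg 1) := C.divisor s b t c hst h
  have hd2 : gen s (!b) 0 * gen t c 0 ∈ Submodule.span ℂ (A.alg 1) := by
    have := C.divisor s (!b) t (!c) hst h.not
    rwa [Bool.not_not] at this
  obtain ⟨ε, hε, e1, e2⟩ := mo_pairW hst b c
  have ha1 : ∀ i, |pairW s b t c i| ≤ 1 := by
    intro i
    rcases pairW_cases hst b c i with h | h | h <;> rw [h] <;> norm_num
  have hb1 : mon (pairW s b t c) ∈ Submodule.span ℂ (A.eff 1) := by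
    rw [mon_eq, e1]
    exact Submodule.smul_mem _ _ (span_alg_eff hd1)
  have hc1 : mon (-pairW s b t c) ∈ Submodule.span ℂ (A.eff 1) := by
    rw [mon_eq, e2]
    exact Submodule.smul_mem _ _ (span_alg_eff hd2)
  have halg : A.toV.Algebraic (pairW s b t c) := ⟨ha1, 1, pairW_size hst b c, hb1, hc1⟩
  exact (Pc0b458Z.CMAb.algebraic_iff A).1 halg

lemma toW_single {g : ℕ} (i : Ix g) :
    toW (Pi.single i 1 : Ix g → ℤ) = Pi.single i.1 (sgB i.2.1) := by
  classical
  obtain ⟨s, b, l⟩ := i
  have hl : l = 0 := Subsingleton.elim _ _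
  subst hl
  funext t
  rw [toW_apply]
  by_cases h : t = s
  · subst h
    rw [Pi.single_eq_same]
    cases b
    · rw [Pi.single_eq_of_ne (by simp), Pi.single_eq_same]
      rfl
    · rw [Pi.single_eq_same, Pi.single_eq_of_ne (by simp)]
      rfl
  · rw [Pi.single_eq_of_ne (by simp [h]), Pi.single_eq_of_ne (by simp [h]),
      Pi.single_eq_of_ne h]
    rfl

/-- the weights of the characters in `gensT S` -/
theorem toW_gens (Pw : Powers A) (C : Cartan S) {v : Fin A.g → ℂ} (hv : ∀ s, v s ≠ 0)
    (tw : ∀ X ∈ GM S, Matrix.diagonal (omD v) * X.conjTranspose *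
      Matrix.diagonal (fun i => (omD v i)⁻¹) ∈ GM S) {x : Ix A.g → ℤ} (hx : x ∈ gensT S) :
    toW x ∈ AddSubgroup.closure {θ | A.Algebraic θ} := by
  rcases hx with ⟨s, rfl⟩ | ⟨i, j, hij, rfl⟩ | ⟨m, x', y', hxy, c, hc, η, T, hp, h0, rfl⟩
  · rw [map_add, toW_single, toW_single]
    have : (Pi.single s (sgB true) + Pi.single s (sgB false) : Fin A.g → ℤ) = 0 := by
      rw [← Pi.single_add]
      have : sgB true + sgB false = 0 := rfl
      rw [this, Pi.single_zero]
    show (Pi.single s (sgB true) + Pi.single s (sgB false) : Fin A.g → ℤ) ∈ _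
    rw [this]
    exact AddSubgroup.zero_mem _
  · have hs := same_of_car hv tw hij
    obtain ⟨s, b, l⟩ := i
    obtain ⟨t, c, l'⟩ := j
    rw [map_sub, toW_single, toW_single]
    show (Pi.single s (sgB b) - Pi.single t (sgB c) : Fin A.g → ℤ) ∈ _
    have hs' : Same S s b t c := hs
    have hpw : ∀ {s : Fin A.g} {b : Bool} {t : Fin A.g} {c : Bool}, s ≠ t → Same S s b t c →
        (Pi.single s (sgB b) - Pi.single t (sgB c) : Fin A.g → ℤ) ∈
          AddSubgroup.closure {θ | A.Algebraic θ} := by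
      intro s b t c hst h
      have h1 := AddSubgroup.subset_closure (k := {θ | A.Algebraic θ}) (algebraic_pairW C hst h)
      have h2 : pairW s b t c = Pi.single s (sgB b) - Pi.single t (sgB c) := by
        unfold pairW
        rw [sgB_not, Pi.single_neg, sub_eq_add_neg]
      rwa [h2] at h1
    by_cases hst : s = t
    · subst hst
      have key : Same S s true s false →
          (Pi.single s (sgB true) - Pi.single s (sgB false) : Fin A.g → ℤ) ∈
            AddSubgroup.closure {θ | A.Algebraic θ} := by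
        intro h0
        obtain ⟨t, c, hts, h1⟩ := C.zero s h0
        have h2 : Same S s true t (!c) := by
          intro d hd
          have hp : Matrix.diagonal (fun i : Ix A.g => d i.1 i.2.1) ∈ GM S := diag_mem.2 hd
          have e1 : d s true + d s false = 0 := GM_pair hp s
          have e2 : d t true + d t false = 0 := GM_pair hp t
          have e3 : d s true = d s false := h0 d hd
          have e4 : d s true = d t c := h1 d hd
          have e5 : d s true = 0 := by linear_combination (1 / 2 : ℂ) * e1 + (1 / 2 : ℂ) * e3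
          cases c
          · simp only [Bool.not_false]
            linear_combination 2 * e5 - e2 - e4
          · simp only [Bool.not_true]
            linear_combination 2 * e5 - e2 - e4
        have f1 := hpw hts.symm h1
        have f2 := hpw hts.symm h2
        have f3 := AddSubgroup.add_mem _ f1 f2
        have f4 : (Pi.single s (sgB true) - Pi.single s (sgB false) : Fin A.g → ℤ) =
            Pi.single s (sgB true) - Pi.single t (sgB c) +
              (Pi.single s (sgB true) - Pi.single t (sgB (!c))) := by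
          have g1 : (Pi.single s (sgB false) : Fin A.g → ℤ) = -Pi.single s (sgB true) := by
            rw [← Pi.single_neg]
            rfl
          have g2 : (Pi.single t (sgB (!c)) : Fin A.g → ℤ) = -Pi.single t (sgB c) := by
            rw [← Pi.single_neg, sgB_not]
          rw [g1, g2]
          abel
        rw [f4]
        exact f3
      cases b <;> cases c
      · rw [sub_self]
        exact AddSubgroup.zero_mem _
      · have := AddSubgroup.neg_mem _ (key fun d hd => (hs' d hd).symm)
        rwa [neg_sub] at this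
      · exact key hs'
      · rw [sub_self]
        exact AddSubgroup.zero_mem _
    · exact hpw hst hs'
  · have hη := (mem_idx.1 hp).1
    rw [toW_letters hη]
    by_cases hz : η = 0
    · rw [hz]
      exact AddSubgroup.zero_mem _
    · have hN : A.toV.NonNull η := by
        by_contra hcon
        exact h0 (null_zero Pw (S.alg _ _ _ hxy) hc hp hz hcon)
      have halg : A.toV.Algebraic η := CMAb.algebraic_of_nonNull (A := A.toV) hη hz hN
      exact AddSubgroup.subset_closure ((Pc0b458Z.CMAb.algebraic_iff A).1 halg)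

/-- the weights of the characters in the group generated by `gensT S` -/
theorem toW_mem (Pw : Powers A) (C : Cartan S) {v : Fin A.g → ℂ} (hv : ∀ s, v s ≠ 0)
    (tw : ∀ X ∈ GM S, Matrix.diagonal (omD v) * X.conjTranspose *
      Matrix.diagonal (fun i => (omD v i)⁻¹) ∈ GM S) {x : Ix A.g → ℤ}
    (hx : x ∈ AddSubgroup.closure (gensT S)) :
    toW x ∈ AddSubgroup.closure {θ | A.Algebraic θ} := by
  have h : AddSubgroup.closure (gensT S) ≤
      (AddSubgroup.closure {θ | A.Algebraic θ}).comap toW := by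
    rw [AddSubgroup.closure_le]
    intro y hy
    exact toW_gens Pw C hv tw hy
  exact h hx

/-- **Saturation.** A character in the group generated by `gensT S` whose weight has size at most four
has phase one. -/
theorem sat_phase (hS : Saturated A) (Pw : Powers A) (C : Cartan S) {v : Fin A.g → ℂ}
    (hv : ∀ s, v s ≠ 0)
    (hvN : ∀ η : Fin A.g → ℤ, (∀ s, η s = -1 ∨ η s = 0 ∨ η s = 1) → η ≠ 0 → A.toV.NonNull η →
      ∀ a a' : ℂ, A.toV.P η a a' → a' = conj a * (sg η : ℂ) * ∏ s, v s ^ η s)
    (tw : ∀ X ∈ GM S, Matrix.diagonal (omD v) * X.conjTranspose *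
      Matrix.diagonal (fun i => (omD v i)⁻¹) ∈ GM S) {x : Ix A.g → ℤ}
    (hx : x ∈ AddSubgroup.closure (gensT S)) (h1 : ∀ s, toW x s = -1 ∨ toW x s = 0 ∨ toW x s = 1)
    (h4 : size (toW x) ≤ 4) : ∏ i, (omD v i / (‖omD v i‖ : ℂ)) ^ x i = 1 := by
  rw [prod_phase_letters hv h1 rfl]
  have hmem := toW_mem Pw C hv tw hx
  have halg : A.Algebraic (toW x) := hS _ (fun s => by
    rcases h1 s with h | h | h <;> rw [h] <;> norm_num) hmem
  rw [phase_iff hv h1]
  by_cases h0 : toW x = 0
  · rw [h0]
    exact ⟨1, one_pos, by simp⟩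
  · have hN : A.toV.NonNull (toW x) :=
      CMAb.nonNull_of_algebraic h0 ((Pc0b458Z.CMAb.algebraic_iff A).2 halg)
    exact pos_of_size (A := A.toV) h1 h0 hN h4 (hvN _ h1 h0 hN)

end Pc0b458E
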