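import Pool.Agent.Lib.Pc0b458E.Code
import Pool.Agent.Lib.Pc0b458E.Sat
import Pool.Agent.Lib.Pc0b458L.CoreL
import Pool.Agent.Lib.Pc0b458L.Quad3
import Pool.Agent.Lib.Pc0b458L.ScaleQ

/-!
# The weights of the classes of algebraic cycles on `Y` are good if the parities are generated by
# functions which are not zero at no more than four places
-/

universe u

open Finset ComplexConjugate

namespace Pc0b458E

open Pc0b458V Pc0b458L

lemma card_slice {g : ℕ} (θ : Finset (Ix g)) (s : Fin g) :
    (θ.filter fun i => i.1 = s).card =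
      (if (s, true, 0) ∈ θ then 1 else 0) + (if (s, false, 0) ∈ θ then 1 else 0) := by
  classical
  have h : θ.filter (fun i => i.1 = s) =
      (if (s, true, 0) ∈ θ then {(s, true, 0)} else ∅) ∪
        (if (s, false, 0) ∈ θ then {(s, false, 0)} else ∅) := by
    ext ⟨t, b, l⟩
    have hl : l = 0 := Subsingleton.elim _ _
    subst hl
    rw [Finset.mem_filter, Finset.mem_union]
    constructor
    · rintro ⟨h1, h2⟩
      simp only at h2
      subst h2
      cases b
      · right
        rw [if_pos h1]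
        exact Finset.mem_singleton_self _
      · left
        rw [if_pos h1]
        exact Finset.mem_singleton_self _
    · rintro (h1 | h1)
      · split_ifs at h1 with h2
        · rw [Finset.mem_singleton] at h1
          rw [h1]
          exact ⟨h2, rfl⟩
        · exact absurd h1 (Finset.notMem_empty _)
      · split_ifs at h1 with h2
        · rw [Finset.mem_singleton] at h1
          rw [h1]
          exact ⟨h2, rfl⟩
        · exact absurd h1 (Finset.notMem_empty _)
  rw [h, Finset.card_union_of_disjoint]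
  · congr 1
    · split_ifs <;> simp
    · split_ifs <;> simp
  · split_ifs <;> simp

/-- the weight of a set of letters -/
lemma toW_indI {g : ℕ} (θ : Finset (Ix g)) (s : Fin g) :
    toW (indI θ) s = (if (s, true, 0) ∈ θ then 1 else 0) - (if (s, false, 0) ∈ θ then 1 else 0) := by
  rw [toW_apply]
  unfold indI
  congr 1

lemma toW_indI_cases {g : ℕ} (θ : Finset (Ix g)) (s : Fin g) :
    toW (indI θ) s = -1 ∨ toW (indI θ) s = 0 ∨ toW (indI θ) s = 1 := by
  rw [toW_indI]
  split_ifs
  · right; left; rfl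
  · right; right; rfl
  · left; rfl
  · right; left; rfl

lemma size_indI {g : ℕ} (θ : Finset (Ix g)) : size (toW (indI θ)) ≤ θ.card := by
  have h1 : θ.card = ∑ s, (θ.filter fun i => i.1 = s).card :=
    Finset.card_eq_sum_card_fiberwise fun _ _ => Finset.mem_univ _
  rw [h1, size]
  apply Finset.sum_le_sum
  intro s _
  rw [card_slice, toW_indI]
  split_ifs <;> simp

variable {Y : Pc0b458Z.NumAb.{u}} {A : Pc0b458Z.CMAb} {S : Pc0b458G.Specialisation Y A}

/-- a diagonal map which is trivial on `gensT S` is good -/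
theorem gd_of_gens {t : Ix A.g → ℂ} (ht : ∀ i, t i ≠ 0) (hk : ∀ x ∈ gensT S, ∏ i, t i ^ x i = 1) :
    Gd (GM S) t := by
  have hpair : ∀ s : Fin A.g, t (s, true, 0) * t (s, false, 0) = 1 := by
    intro s
    rw [← prod_single_add ht]
    exact hk _ (Or.inl ⟨s, rfl⟩)
  have hbar : ∀ (s : Fin A.g) (b : Bool), t (s, b, 0) * t (s, !b, 0) = 1 := by
    intro s b
    cases b
    · rw [mul_comm]
      exact hpair s
    · exact hpair s
  have hsame : ∀ i j, (∀ f ∈ Car (GM S), f i = f j) → t i = t j := by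
    intro i j hij
    have h1 := hk _ (Or.inr (Or.inl ⟨i, j, hij, rfl⟩))
    have h2 := prod_vec ht (i, j)
    rw [vec] at h2
    exact (div_eq_one_iff_eq (ht j)).1 (h2.symm.trans h1)
  refine ⟨ht, fun X hX => ?_, hsame, ?_⟩
  · have h1 := GM_conj ht hk hX
    have h2 : (Matrix.of fun i j => t i / t j * X i j) =
        Matrix.diagonal t * X * Matrix.diagonal (fun i => (t i)⁻¹) := by
      ext i j
      rw [Matrix.of_apply, Matrix.mul_diagonal, Matrix.diagonal_mul, div_eq_mul_inv]
      ring
    rw [h2]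
    exact h1
  · rintro ⟨s, b, l⟩ j hij
    have hl : l = 0 := Subsingleton.elim _ _
    subst hl
    have h1 : t j = t (s, !b, 0) := by
      apply hsame
      intro f hf
      have a1 := hij f hf
      have a2 := GM_pair (S := S) (p := fun i => (f i : ℂ)) hf s
      have a3 : f (s, true, 0) + f (s, false, 0) = 0 := by exact_mod_cast a2
      cases b
      · show f j = f (s, true, 0)
        linarith
      · show f j = f (s, false, 0)
        linarith
    rw [h1]
    exact hbar s b

/-- the weights of the classes of algebraic cycles on `Y` are good -/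
theorem good_of_places (Pw : Powers A) (hs : Saturated A) (C : Cartan S)
    {Pl : Type} [Fintype Pl] [DecidableEq Pl] {Γ : Subgroup (Equiv.Perm Pl)} (F : Places S Γ)
    {n : ℕ} (hQ : QuadCode Γ n) {x : Y.Z}
    {z : Coh A.g 1} (hz : S.sp n x z)
    {c : (Fin A.g → ℤ) × Finset (Fin A.g) → ℂ} (hc : z = ∑ p ∈ idx A.g (2 * n), c p • mo p.1 p.2)
    {η : Fin A.g → ℤ} {T : Finset (Fin A.g)} (hp : (η, T) ∈ idx A.g (2 * n)) (h0 : η ≠ 0)
    (hN : A.toV.NonNull η) (hcp : c (η, T) ≠ 0) : A.toV.Good η := by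
  classical
  obtain ⟨v, hv, hvN⟩ : ∃ v : Fin A.g → ℂ, (∀ s, v s ≠ 0) ∧
      ∀ η : Fin A.g → ℤ, (∀ s, η s = -1 ∨ η s = 0 ∨ η s = 1) → η ≠ 0 → A.toV.NonNull η →
        ∀ a a' : ℂ, A.toV.P η a a' → a' = conj a * (sg η : ℂ) * ∏ s, v s ^ η s :=
    exists_vV Pw.toV
  have hch : ∀ η : Fin A.g → ℤ, (∀ s, η s = -1 ∨ η s = 0 ∨ η s = 1) → η ≠ 0 →
      ∀ a a' : ℂ, A.toV.P η a a' → a * a' ≠ 0 → a' = conj a * (sg η : ℂ) * ∏ s, v s ^ η s :=
    fun η hη h0 a a' hP ha => hvN η hη h0 ⟨a, a', hP, ha⟩ a a' hP
  have hfix : ∀ n, ∀ z ∈ A.alg n, kap v z = z := fun n z hz => kap_alg Pw hv hch hz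
  obtain ⟨hη, hT, hsz⟩ := mem_idx.1 hp
  have tw : ∀ X ∈ GM S, Matrix.diagonal (omD v) * X.conjTranspose *
      Matrix.diagonal (fun i => (omD v i)⁻¹) ∈ GM S := fun X hX => GM_twist hv hfix hX
  have hres : ∀ I ∈ wset n c, ∏ i ∈ I, (omD v i / (‖omD v i‖ : ℂ)) = 1 := by
    refine quadcode_scaled (G := GM S) (om := omD v) (omD_ne hv) GM_lie tw (GM_cartan C hv tw)
      ?_ ?_ (fun i : Ix A.g => F.pl i.1) (fun i j h => places_conn F h) (wset n c)
      (wset_null hz hc) (code_of_places F hQ hz hc) ?_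
    · rintro ⟨s, b, l⟩ ⟨t, c', l'⟩ h
      have hl : l = 0 := Subsingleton.elim _ _
      have hl' : l' = 0 := Subsingleton.elim _ _
      subst hl
      subst hl'
      apply uf_of_same C hv hch
      intro d hd
      exact GM_same hv tw h (p := fun i : Ix A.g => d i.1 i.2.1) (diag_mem.2 hd)
    · rintro ⟨s, b, l⟩
      have hl : l = 0 := Subsingleton.elim _ _
      subst hl
      refine ⟨(s, !b, 0), ?_, ?_, places_conn F rfl⟩
      · intro f hf
        have h1 := GM_pair (S := S) (p := fun i => (f i : ℂ)) hf s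
        have h2 : f (s, true, 0) + f (s, false, 0) = 0 := by exact_mod_cast h1
        cases b
        · rw [add_comm]
          exact h2
        · exact h2
      · cases b
        · simp [omD, hv s]
        · simp [omD, hv s]
    · intro θ hcard hnc hnull ht
      have hmem : indI θ ∈ AddSubgroup.closure (gensT S) := by
        apply Quad3Aux.mem_closure_of_char
        intro t ht0 hk
        rw [prod_indI]
        apply ht t (gd_of_gens ht0 hk)
        rintro _ ⟨η', T', hq, h1, rfl⟩
        rw [← prod_indI]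
        exact hk _ (Or.inr (Or.inr ⟨n, x, z, hz, c, hc, η', T', hq, h1, rfl⟩))
      have h1 := sat_phase hs Pw C hv hvN tw hmem (toW_indI_cases θ)
        ((size_indI θ).trans hcard.le)
      rw [prod_indI θ fun i => omD v i / (‖omD v i‖ : ℂ)] at h1
      exact h1
  exact (good_iff (A := A.toV) hη hN (hvN η hη h0 hN)).2
    ((phase_iff hv hη).1 (hres _ ⟨η, T, hp, hcp, rfl⟩))

end Pc0b458E
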