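import Pool.Agent.Lib.Pc0b458E.Adj
import Pool.Agent.Lib.Pc0b458E.CodeM
import Pool.Agent.Lib.Pc0b458E.RealQ
import Pool.Agent.Lib.Pc0b458L.Bal

/-!
# The weights of the classes which are killed by the skew central maps

The classes of algebraic cycles on `Y` which are killed by all skew central maps: their weights are
good if the parities at the real places are generated by functions which are not zero at no more than
four places.
-/

universe u

open Finset ComplexConjugate

namespace Pc0b458E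

open Pc0b458V Pc0b458L

variable {Y : Pc0b458Z.NumAb.{u}} {A : Pc0b458Z.CMAb} {S : Pc0b458G.Specialisation Y A}
  {Pl : Type} [Fintype Pl] {Γ : Subgroup (Equiv.Perm Pl)}

/-- letters over the same real place -/
theorem eqS_of_place (F : RealPlaces S Γ) {i j : Ix A.g} {p : Pl} (hi : F.pl i.1 = some p)
    (hj : F.pl j.1 = some p) : EqS S i j := by
  intro d hd
  obtain ⟨d', z, h1, h2⟩ := F.real _ hd
  have h3 : ∀ k : Ix A.g, d k = d' k.1 k.2.1 := by
    intro k
    have h4 := congrArg (fun T : Module.End ℂ (H1 A.g) => T (Pi.single k 1) k) h1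
    have h5 : (diag d' : Module.End ℂ (H1 A.g)) (Pi.single k 1) k =
        d' k.1 k.2.1 * (Pi.single k 1 : H1 A.g) k := rfl
    simp only [diag_single, Pi.smul_apply, Pi.single_eq_same, smul_eq_mul, mul_one] at h4
    rw [h4, h5, Pi.single_eq_same, mul_one]
  rw [h3, h3, h2 _ _ p hi, h2 _ _ p hj]

/-- the letters over the real places -/
theorem place_iff (F : RealPlaces S Γ) (i : Ix A.g) : plI F.pl i ≠ none ↔ EqS S i (oppI i) := by
  constructor
  · intro h
    obtain ⟨p, hp⟩ := Option.ne_none_iff_exists'.1 h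
    exact eqS_of_place F (p := p) hp hp
  · intro h h0
    obtain ⟨d, hd, h1⟩ := F.complex i.1 h0
    have h2 : (diag d : Module.End ℂ (H1 A.g)) =
        Matrix.toLin' (Matrix.diagonal fun k : Ix A.g => d k.1 k.2.1) := by
      rw [toLin_diagonal]
    rw [h2] at hd
    have h3 := h _ hd
    obtain ⟨s, b, l⟩ := i
    cases b
    · exact h1 h3.symm
    · exact h1 h3

/-- the weights of a class which is killed by the skew central maps are zero on the skew
functions -/
theorem balanced_of_kill {n : ℕ} {z : Coh A.g 1}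
    {c : (Fin A.g → ℤ) × Finset (Fin A.g) → ℂ} (hc : z = ∑ p ∈ idx A.g (2 * n), c p • mo p.1 p.2)
    (hk : ∀ W : Module.End ℂ (H1 A.g), Central S W → SkewMap W → ∃ D, IsDer W D ∧ D z = 0) :
    ∀ I ∈ wset n c, ∀ d, Skew oppI (EqS S) d → ∑ i ∈ I, d i = 0 := by
  rintro _ ⟨η, T, hq, h0, rfl⟩ d hd
  have h1 : Central S (Matrix.toLin' (Matrix.diagonal fun i => (d i : ℂ))) :=
    central_of_eqS fun i j hij => by rw [hd.const i j hij]
  have h2 : ∀ i, (fun i => (d i : ℂ)) (oppI i) = -(fun i => (d i : ℂ)) i := by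
    intro i
    show ((d (oppI i) : ℝ) : ℂ) = -((d i : ℝ) : ℂ)
    rw [hd.opp i]
    push_cast
    rfl
  have h3 := weight_of_kill (A := A) hc hq h0 (p := fun i => (d i : ℂ)) (fun s => by
    have h4 := h2 (s, true, 0)
    have h5 : ((d (s, false, 0) : ℝ) : ℂ) = -((d (s, true, 0) : ℝ) : ℂ) := h4
    show ((d (s, true, 0) : ℝ) : ℂ) + ((d (s, false, 0) : ℝ) : ℂ) = 0
    rw [h5]
    ring) (hk _ h1 (skewMap_diag h2))
  exact_mod_cast h3

/-- **The weights of the classes of algebraic cycles on `Y` which are killed by the skew central maps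
are good.** -/
theorem good_of_mixed (Pw : Powers A) (hs : Saturated A) (C : Cartan S) [DecidableEq Pl]
    (F : RealPlaces S Γ) {n : ℕ} (hQ : QuadCode Γ n) {x : Y.Z}
    {z : Coh A.g 1} (hz : S.sp n x z)
    (hk : ∀ W : Module.End ℂ (H1 A.g), Central S W → SkewMap W → ∃ D, IsDer W D ∧ D z = 0)
    {c : (Fin A.g → ℤ) × Finset (Fin A.g) → ℂ} (hc : z = ∑ p ∈ idx A.g (2 * n), c p • mo p.1 p.2)
    {η : Fin A.g → ℤ} {T : Finset (Fin A.g)} (hp : (η, T) ∈ idx A.g (2 * n)) (h0 : η ≠ 0)
    (hN : A.toV.NonNull η) (hcp : c (η, T) ≠ 0) : A.toV.Good η := by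
  classical
  obtain ⟨v, hv, hvN⟩ : ∃ v : Fin A.g → ℂ, (∀ s, v s ≠ 0) ∧
      ∀ η : Fin A.g → ℤ, (∀ s, η s = -1 ∨ η s = 0 ∨ η s = 1) → η ≠ 0 → A.toV.NonNull η →
        ∀ a a' : ℂ, A.toV.P η a a' → a' = conj a * (sg η : ℂ) * ∏ s, v s ^ η s :=
    exists_vV Pw.toV
  have hch : ∀ η : Fin A.g → ℤ, (∀ s, η s = -1 ∨ η s = 0 ∨ η s = 1) → η ≠ 0 →
      ∀ a a' : ℂ, A.toV.P η a a' → a * a' ≠ 0 → a' = conj a * (sg η : ℂ) * ∏ s, v s ^ η s :=
    fun η hη h0 a a' hP ha => hvN η hη h0 ⟨a, a', hP, ha⟩ a a' hP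
  have hfix : ∀ n, ∀ z ∈ A.alg n, kap v z = z := fun n z hz => kap_alg Pw hv hch hz
  obtain ⟨hη, hT, hsz⟩ := mem_idx.1 hp
  have tw : ∀ X ∈ GM S, Matrix.diagonal (omD v) * X.conjTranspose *
      Matrix.diagonal (fun i => (omD v i)⁻¹) ∈ GM S := fun X hX => GM_twist hv hfix hX
  have hbal := balanced_of_kill (S := S) hc hk
  have hev : ∀ I ∈ wset n c, Even (I.filter fun i => ¬ plI F.pl i ≠ none).card := by
    intro I hI
    refine Fine.even (fineS (S := S)) (I.filter fun i => ¬ plI F.pl i ≠ none)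
      (fun i hi hr => (Finset.mem_filter.1 hi).2 ((place_iff F i).2 hr)) fun d hd => ?_
    have h1 := hbal I hI d hd
    rw [← Finset.sum_filter_add_sum_filter_not I (fun i => plI F.pl i ≠ none)] at h1
    have h2 : ∑ i ∈ I.filter (fun i => plI F.pl i ≠ none), d i = 0 :=
      Finset.sum_eq_zero fun i hi => hd.zero ((place_iff F i).1 (Finset.mem_filter.1 hi).2)
    rw [h2, zero_add] at h1
    exact h1
  have hres : ∀ I ∈ wset n c, ∏ i ∈ I, (omD v i / (‖omD v i‖ : ℂ)) = 1 := by
    refine quadmixed_scaled (G := GM S) (om := omD v) (omD_ne hv) GM_lie tw (GM_cartan C hv tw)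
      ?_ (fineS (S := S)) ?_ (plI F.pl) (place_iff F)
      (fun i j p hi hj => fineS.conn _ _ (eqS_of_place F hi hj)) (wset n c)
      (wset_null hz hc) hbal (code_of_realPlaces F hQ hz hc hev) ?_
    · rintro ⟨s, b, l⟩ ⟨t, c', l'⟩ h
      have hl : l = 0 := Subsingleton.elim _ _
      have hl' : l' = 0 := Subsingleton.elim _ _
      subst hl
      subst hl'
      apply uf_of_same C hv hch
      intro d hd
      exact GM_same hv tw h (p := fun i : Ix A.g => d i.1 i.2.1) (diag_mem.2 hd)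
    · rintro ⟨s, b, l⟩
      have hl : l = 0 := Subsingleton.elim _ _
      subst hl
      cases b
      · simp [omD, oppI, hv s]
      · simp [omD, oppI, hv s]
    · intro θ hcard ht
      have hmem : indI θ ∈ AddSubgroup.closure (gensT S) := by
        apply Quad3Aux.mem_closure_of_char
        intro t ht0 hk
        rw [prod_indI]
        apply ht t (gd_of_gens ht0 hk)
        rintro _ ⟨η', T', hq, h1, rfl⟩
        rw [← prod_indI]
        exact hk _ (Or.inr (Or.inr ⟨n, x, z, hz, c, hc, η', T', hq, h1, rfl⟩))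
      have h1 := sat_phase hs Pw C hv hvN tw hmem (toW_indI_cases θ)
        ((size_indI θ).trans hcard.le)
      rw [prod_indI θ fun i => omD v i / (‖omD v i‖ : ℂ)] at h1
      exact h1
  exact (good_iff (A := A.toV) hη hN (hvN η hη h0 hN)).2
    ((phase_iff hv hη).1 (hres _ ⟨η, T, hp, hcp, rfl⟩))

end Pc0b458E
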