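import Pool.Agent.Lib.Pc0b458E.StmtN
import Pool.Agent.Lib.Pc0b458E.RealC
import Pool.Agent.Lib.Pc0b458E.Uf
import Pool.Agent.Lib.Pc0b458E.Twist
import Pool.Agent.Lib.Pc0b458E.Alg2
import Pool.Agent.Lib.Pc0b458E.Phase
import Pool.Agent.Lib.Pc0b458L.Proj

/-!
# The skew-adjoint central maps are in the motivic Lie algebra if the slopes are nondegenerate
-/

universe u

open Finset

namespace Pc0b458E

open Pc0b458V Pc0b458L

/-! ### linear algebra -/

/-- a pairing which is nondegenerate on the larger one of two subspaces -/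
theorem le_of_pairing {V : Type*} [AddCommGroup V] [Module ℂ V] [FiniteDimensional ℂ V]
    {K N : Submodule ℂ V} (hNK : N ≤ K) (B : V →ₗ[ℂ] V →ₗ[ℂ] ℂ)
    (h : ∀ W ∈ K, (∀ c ∈ N, B W c = 0) → W = 0) : K ≤ N := by
  let φ : K →ₗ[ℂ] Module.Dual ℂ N := (LinearMap.lcomp ℂ ℂ N.subtype) ∘ₗ B ∘ₗ K.subtype
  have hφ : Function.Injective φ := by
    rw [← LinearMap.ker_eq_bot, LinearMap.ker_eq_bot']
    rintro ⟨W, hW⟩ h0
    have h1 : W = 0 := h W hW fun c hc => by
      have := congrArg (fun f : Module.Dual ℂ N => f ⟨c, hc⟩) h0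
      exact this
    exact Subtype.ext h1
  have h1 : Module.finrank ℂ K ≤ Module.finrank ℂ N := by
    have := LinearMap.finrank_le_finrank_of_injective hφ
    rwa [Subspace.dual_finrank_eq] at this
  exact (Submodule.eq_of_le_of_finrank_le hNK h1).ge

/-- the trace of the product with a diagonal map -/
theorem trace_diag {g : ℕ} (Z : Module.End ℂ (H1 g)) (p : Ix g → ℂ) :
    LinearMap.trace ℂ (H1 g) (Z * Matrix.toLin' (Matrix.diagonal p)) =
      ∑ i, LinearMap.toMatrix' Z i i * p i := by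
  rw [LinearMap.trace_eq_matrix_trace ℂ (Pi.basisFun ℂ (Ix g)), LinearMap.toMatrix_eq_toMatrix',
    LinearMap.toMatrix'_mul, LinearMap.toMatrix'_toLin', trace_mul_diagonal]

theorem form_add_left {g : ℕ} (x x' y : H1 g) : form (x + x') y = form x y + form x' y := by
  unfold form
  rw [← Finset.sum_add_distrib]
  refine Finset.sum_congr rfl fun s _ => ?_
  simp only [Pi.add_apply]
  ring

theorem form_add_right {g : ℕ} (x y y' : H1 g) : form x (y + y') = form x y + form x y' := by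
  unfold form
  rw [← Finset.sum_add_distrib]
  refine Finset.sum_congr rfl fun s _ => ?_
  simp only [Pi.add_apply]
  ring

/-- the form with a basis vector -/
theorem form_single_right {g : ℕ} (x : H1 g) (s : Fin g) :
    form x (Pi.single (s, false, 0) 1) = x (s, true, 0) ∧
      form x (Pi.single (s, true, 0) 1) = -x (s, false, 0) := by
  constructor
  · unfold form
    rw [Finset.sum_eq_single s]
    · simp
    · intro t _ ht
      simp [ht]
    · intro h
      exact absurd (Finset.mem_univ s) h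
  · unfold form
    rw [Finset.sum_eq_single s]
    · simp
    · intro t _ ht
      simp [ht]
    · intro h
      exact absurd (Finset.mem_univ s) h

theorem form_single_left {g : ℕ} (x : H1 g) (s : Fin g) :
    form (Pi.single (s, true, 0) 1) x = x (s, false, 0) ∧
      form (Pi.single (s, false, 0) 1) x = -x (s, true, 0) := by
  constructor
  · unfold form
    rw [Finset.sum_eq_single s]
    · simp
    · intro t _ ht
      simp [ht]
    · intro h
      exact absurd (Finset.mem_univ s) h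
  · unfold form
    rw [Finset.sum_eq_single s]
    · simp
    · intro t _ ht
      simp [ht]
    · intro h
      exact absurd (Finset.mem_univ s) h

/-- the diagonal entries of a skew-adjoint map -/
theorem SkewMap.entry {g : ℕ} {Z : Module.End ℂ (H1 g)} (h : SkewMap Z) (s : Fin g) :
    LinearMap.toMatrix' Z (s, true, 0) (s, true, 0) +
      LinearMap.toMatrix' Z (s, false, 0) (s, false, 0) = 0 := by
  have h1 := h (Pi.single (s, true, 0) 1) (Pi.single (s, false, 0) 1)
  rw [(form_single_right _ s).1, (form_single_left _ s).1] at h1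
  rw [LinearMap.toMatrix'_apply, LinearMap.toMatrix'_apply]
  linear_combination h1

/-- the trace of a skew-adjoint map is zero -/
theorem SkewMap.trace {g : ℕ} {Z : Module.End ℂ (H1 g)} (h : SkewMap Z) :
    ∑ i : Ix g, LinearMap.toMatrix' Z i i = 0 := by
  rw [Fintype.sum_prod_type]
  apply Finset.sum_eq_zero
  intro s _
  rw [Fintype.sum_prod_type, Fintype.sum_bool]
  simpa using h.entry s

/-- diagonal maps which are skew-adjoint -/
theorem skew_diag {g : ℕ} {z : Ix g → ℂ} (h : ∀ s, z (s, true, 0) + z (s, false, 0) = 0) :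
    SkewMap (Matrix.toLin' (Matrix.diagonal z)) := by
  intro x y
  unfold form
  rw [← Finset.sum_neg_distrib]
  refine Finset.sum_congr rfl fun s _ => ?_
  rw [Matrix.toLin'_apply, Matrix.toLin'_apply, Matrix.mulVec_diagonal, Matrix.mulVec_diagonal,
    Matrix.mulVec_diagonal, Matrix.mulVec_diagonal]
  linear_combination (x (s, true, 0) * y (s, false, 0) + x (s, false, 0) * y (s, true, 0) * (-1) +
    x (s, true, 0) * y (s, false, 0) * 0) * h s

section

variable {Y : Pc0b458Z.NumAb.{u}} {A : Pc0b458Z.CMAb} {S : Pc0b458G.Specialisation Y A}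

theorem Central.add {Z W : Module.End ℂ (H1 A.g)} (hZ : Central S Z) (hW : Central S W) :
    Central S (Z + W) := by
  refine ⟨fun T hT => ?_, fun Z' hZ' => ?_⟩
  · rw [add_mul, mul_add, hZ.1 T hT, hW.1 T hT]
  · rw [add_mul, mul_add, hZ.2 Z' hZ', hW.2 Z' hZ']

theorem Central.smul {Z : Module.End ℂ (H1 A.g)} (hZ : Central S Z) (c : ℂ) :
    Central S (c • Z) := by
  refine ⟨fun T hT => ?_, fun Z' hZ' => ?_⟩
  · rw [smul_mul_assoc, mul_smul_comm, hZ.1 T hT]
  · rw [smul_mul_assoc, mul_smul_comm, hZ.2 Z' hZ']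

theorem Central.zero : Central S 0 := by
  refine ⟨fun T _ => ?_, fun Z' _ => ?_⟩
  · rw [zero_mul, mul_zero]
  · rw [zero_mul, mul_zero]

/-- the central skew-adjoint maps -/
def skewCentral (S : Pc0b458G.Specialisation Y A) : Submodule ℂ (Module.End ℂ (H1 A.g)) where
  carrier := {Z | Central S Z ∧ SkewMap Z}
  add_mem' := by
    rintro Z W ⟨hZ, hZ'⟩ ⟨hW, hW'⟩
    refine ⟨hZ.add hW, fun x y => ?_⟩
    rw [LinearMap.add_apply, LinearMap.add_apply, form_add_left, form_add_right, hZ' x y, hW' x y]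
    ring
  zero_mem' := by
    refine ⟨Central.zero, fun x y => ?_⟩
    rw [LinearMap.zero_apply, LinearMap.zero_apply]
    simp [form]
  smul_mem' := by
    rintro c Z ⟨hZ, hZ'⟩
    refine ⟨hZ.smul c, fun x y => ?_⟩
    rw [LinearMap.smul_apply, LinearMap.smul_apply, form_smul_left, form_smul_right, hZ' x y]
    ring

/-- the derivation which multiplies the first cohomology by `1 / 2` -/
theorem der_half {D : Module.End ℂ (Coh A.g 1)}
    (hD : IsDerV (diagV fun _ _ => (1 / 2 : ℂ)) D) {n : ℕ} {y : Coh A.g 1}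
    (hy : y ∈ A.alg n) : D y = (n : ℂ) • y := by
  have hgr : y ∈ gr A.g 1 (2 * n) := by
    obtain ⟨a, ha, b, hb, hab⟩ := hy
    rw [hab]
    exact Submodule.sub_mem _ (A.eff_deg n a ha) (A.eff_deg n b hb)
  obtain ⟨c, hc⟩ := rep hgr
  have h1 : D y = ∑ p ∈ idx A.g (2 * n), (c p * (n : ℂ)) • mo p.1 p.2 := by
    conv_lhs => rw [hc]
    rw [map_sum]
    refine Finset.sum_congr rfl ?_
    rintro ⟨η, T⟩ hp
    obtain ⟨hη, hT, hd⟩ := mem_idx.1 hp
    rw [map_smul, der_diag hD, smul_smul]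
    congr 2
    have h2 : ∀ s, ev (fun _ _ => (1 / 2 : ℂ)) η T s =
        (1 / 2 : ℂ) * ((η s).natAbs : ℂ) + (if s ∈ T then 1 else 0) := by
      intro s
      unfold ev
      by_cases hs : s ∈ T
      · rw [if_pos hs, if_pos hs, hT s hs]
        norm_num
      · rw [if_neg hs, if_neg hs]
        rcases hη s with h | h | h
        · simp [h]
        · simp [h]
        · simp [h]
    rw [Finset.sum_congr rfl fun s _ => h2 s, Finset.sum_add_distrib, ← Finset.mul_sum,
      Finset.sum_ite_mem, Finset.univ_inter, Finset.sum_const, nsmul_eq_mul, mul_one]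
    have h3 : (∑ s, ((η s).natAbs : ℂ)) = (size η : ℂ) := by
      unfold size
      push_cast
      rfl
    rw [h3]
    have h4 : (size η : ℂ) + 2 * (T.card : ℂ) = 2 * (n : ℂ) := by exact_mod_cast hd
    linear_combination (1 / 2 : ℂ) * h4
  rw [h1]
  conv_rhs => rw [hc]
  rw [Finset.smul_sum]
  refine Finset.sum_congr rfl fun p _ => ?_
  rw [smul_smul, mul_comm]

/-- the slopes give elements of the motivic Lie algebra -/
theorem slope_mem (Sl : Slopes A) (e : Sl.E) :
    (fun i : Ix A.g => Sl.sl e i.1 i.2.1 - 1 / 2) ∈ Car (GM S) := by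
  change Matrix.diagonal (fun i : Ix A.g => ((Sl.sl e i.1 i.2.1 - 1 / 2 : ℝ) : ℂ)) ∈ GM S
  rw [diag_mem]
  refine (mem_Lie S).2 fun n x (y : Coh A.g 1) hxy => ?_
  obtain ⟨D, hD, hDy⟩ : ∃ D : Module.End ℂ (Coh A.g 1),
      IsDerV (diagV fun s b => (Sl.sl e s b : ℂ)) D ∧ D y = (n : ℂ) • y :=
    Sl.alg e n y (S.alg n x y hxy)
  obtain ⟨D', hD'⟩ := exists_der (diagV (g := A.g) fun _ _ => (1 / 2 : ℂ))
  have h1 := hD.add (hD'.smul (-1))
  have h2 : (diagV fun s b => (Sl.sl e s b : ℂ)) + (-1 : ℂ) • diagV (g := A.g) (fun _ _ => (1 / 2 : ℂ)) =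
      diag fun s b => (((Sl.sl e s b - 1 / 2 : ℝ) : ℂ)) := by
    apply LinearMap.ext
    intro f
    funext i
    show (Sl.sl e i.1 i.2.1 : ℂ) * f i + (-1 : ℂ) * ((1 / 2 : ℂ) * f i) =
      (((Sl.sl e i.1 i.2.1 - 1 / 2 : ℝ) : ℂ)) * f i
    push_cast
    ring
  rw [h2] at h1
  refine ⟨_, h1, ?_⟩
  have h3 := der_half hD' (S.alg n x y hxy)
  rw [LinearMap.add_apply, LinearMap.smul_apply, hDy]
  refine (congrArg (fun z : Coh A.g 1 => (n : ℂ) • y + (-1 : ℂ) • z) h3).trans ?_
  module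

/-- the matrix of a central map commutes with the motivic Lie algebra -/
theorem Central.matrix {Z : Module.End ℂ (H1 A.g)} (hZ : Central S Z)
    {X : Matrix (Ix A.g) (Ix A.g) ℂ} (hX : X ∈ GM S) :
    LinearMap.toMatrix' Z * X = X * LinearMap.toMatrix' Z := by
  have h1 := congrArg LinearMap.toMatrix' (hZ.1 _ (mem_GM.1 hX))
  rwa [LinearMap.toMatrix'_mul, LinearMap.toMatrix'_mul, LinearMap.toMatrix'_toLin'] at h1

theorem huf_of {v : Fin A.g → ℂ} (C : Cartan S) (hv : ∀ s, v s ≠ 0)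
    (hch : ∀ η : Fin A.g → ℤ, (∀ s, η s = -1 ∨ η s = 0 ∨ η s = 1) → η ≠ 0 →
      ∀ a a' : ℂ, A.toV.P η a a' → a * a' ≠ 0 →
        a' = starRingEnd ℂ a * (sg η : ℂ) * ∏ s, v s ^ η s)
    (tw : ∀ X ∈ GM S, Matrix.diagonal (omD v) * X.conjTranspose *
      Matrix.diagonal (fun i => (omD v i)⁻¹) ∈ GM S) (i j : Ix A.g)
    (h : ∀ f ∈ Car (GM S), f i = f j) :
    omD v i / (‖omD v i‖ : ℂ) = omD v j / (‖omD v j‖ : ℂ) := by
  obtain ⟨s, b, l⟩ := i
  obtain ⟨t, c', l'⟩ := j
  have hl : l = 0 := Subsingleton.elim _ _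
  have hl' : l' = 0 := Subsingleton.elim _ _
  subst hl
  subst hl'
  apply uf_of_same C hv hch
  intro d hd
  exact GM_same hv tw h (p := fun i : Ix A.g => d i.1 i.2.1) (diag_mem.2 hd)

/-- (N1) the central skew-adjoint maps are in the motivic Lie algebra -/
theorem skew_mem {v : Fin A.g → ℂ} (C : Cartan S) (hv : ∀ s, v s ≠ 0)
    (hch : ∀ η : Fin A.g → ℤ, (∀ s, η s = -1 ∨ η s = 0 ∨ η s = 1) → η ≠ 0 →
      ∀ a a' : ℂ, A.toV.P η a a' → a * a' ≠ 0 →
        a' = starRingEnd ℂ a * (sg η : ℂ) * ∏ s, v s ^ η s)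
    (tw : ∀ X ∈ GM S, Matrix.diagonal (omD v) * X.conjTranspose *
      Matrix.diagonal (fun i => (omD v i)⁻¹) ∈ GM S)
    {Sl : Slopes A} (hN : Nondegenerate S Sl) {Z : Module.End ℂ (H1 A.g)} (hZ : Central S Z)
    (hs : SkewMap Z) : Z ∈ Lie S := by
  classical
  choose c hc he hW using fun e : Sl.E => proj_scaled (G := GM S) (om := omD v) (omD_ne hv) GM_lie
    tw (GM_cartan C hv tw) (huf_of C hv hch tw) (slope_mem Sl e)
  let Ce : Sl.E → Module.End ℂ (H1 A.g) := fun e =>
    Matrix.toLin' (Matrix.diagonal fun i => (c e i : ℂ))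
  have hCe : ∀ e, Ce e ∈ skewCentral S := fun e =>
    ⟨central_diag S (fun i j h => by exact_mod_cast he e i j h)
      (fun i j h => by exact_mod_cast h _ (hc e)), skew_diag fun s => GM_pair (hc e) s⟩
  let N : Submodule ℂ (Module.End ℂ (H1 A.g)) := Submodule.span ℂ (Set.range Ce)
  have hNK : N ≤ skewCentral S := Submodule.span_le.2 (by
    rintro _ ⟨e, rfl⟩
    exact hCe e)
  have hNL : ∀ W ∈ N, W ∈ Lie S := by
    intro W hW'
    refine Submodule.span_induction (p := fun W _ => W ∈ Lie S) ?_ ?_ ?_ ?_ hW'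
    · rintro _ ⟨e, rfl⟩
      exact hc e
    · exact Lie_zero S
    · intro x y _ _ hx hy
      exact Lie_add S hx hy
    · intro a x _ hx
      exact Lie_smul S a hx
  let B : Module.End ℂ (H1 A.g) →ₗ[ℂ] Module.End ℂ (H1 A.g) →ₗ[ℂ] ℂ :=
    (LinearMap.mul ℂ (Module.End ℂ (H1 A.g))).compr₂ (LinearMap.trace ℂ (H1 A.g))
  have hKN : skewCentral S ≤ N := by
    refine le_of_pairing hNK B fun W hWK hWN => ?_
    refine hN W hWK.1 hWK.2 fun e => ?_
    have h0 : LinearMap.trace ℂ (H1 A.g) (W * Ce e) = 0 := hWN (Ce e)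
      (Submodule.subset_span ⟨e, rfl⟩)
    have h1 := hW e (LinearMap.toMatrix' W) fun X hX => hWK.1.matrix hX
    have h2 := trace_diag W fun i => (c e i : ℂ)
    have h3 : (diag fun s b => (Sl.sl e s b : ℂ)) =
        Matrix.toLin' (Matrix.diagonal fun i : Ix A.g => (Sl.sl e i.1 i.2.1 : ℂ)) := diag_toLin _
    rw [h3, trace_diag]
    have h4 : ∀ i : Ix A.g, LinearMap.toMatrix' W i i * (Sl.sl e i.1 i.2.1 : ℂ) =
        LinearMap.toMatrix' W i i * ((Sl.sl e i.1 i.2.1 - 1 / 2 : ℝ) : ℂ) +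
          (1 / 2 : ℂ) * LinearMap.toMatrix' W i i := by
      intro i
      push_cast
      ring
    rw [Finset.sum_congr rfl fun i _ => h4 i, Finset.sum_add_distrib, ← Finset.mul_sum,
      hWK.2.trace, mul_zero, add_zero, h1, ← h2]
    exact h0
  exact hNL Z (hKN ⟨hZ, hs⟩)

/-- (N2) connected letters have connected opposites -/
theorem conn_compat {i j : Ix A.g} (h : Conn (GM S) i j) : Conn (GM S) (bar i) (bar j) := by
  induction h with
  | rel i j hij =>
    rcases hij with ⟨X, hX, hX0⟩ | hij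
    · refine Relation.EqvGen.symm _ _ (Relation.EqvGen.rel _ _ (Or.inl ⟨X, hX, ?_⟩))
      have hT : ∃ D, IsDerV (Matrix.toLin' X) D ∧ D (Pc0b458V.pol A.g) = 0 :=
        mem_GM.1 hX 1 Y.L _ S.pol
      have h1 := symp_entry hT j i
      rw [LinearMap.toMatrix'_toLin'] at h1
      show X (bar j) (bar i) ≠ 0
      rw [h1, neg_ne_zero]
      refine mul_ne_zero (mul_ne_zero ?_ ?_) hX0
      · unfold eps
        split_ifs <;> norm_num
      · unfold eps
        split_ifs <;> norm_num
    · refine Relation.EqvGen.rel _ _ (Or.inr fun f hf => ?_)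
      have hb : ∀ i : Ix A.g, f i + f (bar i) = 0 := by
        rintro ⟨s, b, l⟩
        have hl : l = 0 := Subsingleton.elim _ _
        subst hl
        have h1 := GM_pair (S := S) (p := fun i => (f i : ℂ)) hf s
        have h2 : f (s, true, 0) + f (s, false, 0) = 0 := by exact_mod_cast h1
        cases b
        · show f (s, false, 0) + f (s, true, 0) = 0
          rw [add_comm]
          exact h2
        · exact h2
      have h1 := hij f hf
      have h2 := hb i
      have h3 := hb j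
      linarith
  | refl i => exact Relation.EqvGen.refl _
  | symm i j _ ih => exact Relation.EqvGen.symm _ _ ih
  | trans i j k _ _ ih1 ih2 => exact Relation.EqvGen.trans _ _ _ ih1 ih2

/-- (N3) the odd functions on the set of the components give elements of the motivic Lie algebra -/
theorem odd_mem {v : Fin A.g → ℂ} (C : Cartan S) (hv : ∀ s, v s ≠ 0)
    (hch : ∀ η : Fin A.g → ℤ, (∀ s, η s = -1 ∨ η s = 0 ∨ η s = 1) → η ≠ 0 →
      ∀ a a' : ℂ, A.toV.P η a a' → a * a' ≠ 0 →
        a' = starRingEnd ℂ a * (sg η : ℂ) * ∏ s, v s ^ η s)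
    (tw : ∀ X ∈ GM S, Matrix.diagonal (omD v) * X.conjTranspose *
      Matrix.diagonal (fun i => (omD v i)⁻¹) ∈ GM S)
    {Sl : Slopes A} (hN : Nondegenerate S Sl) {E : Ix A.g → ℝ}
    (hE : ∀ i j, Conn (GM S) i j → E i = E j) (hb : ∀ i, E (bar i) = -E i) : E ∈ Car (GM S) := by
  refine skew_mem C hv hch tw hN (Z := Matrix.toLin' (Matrix.diagonal fun i => (E i : ℂ))) ?_ ?_
  · refine central_diag S (fun i j h => ?_) (fun i j h => ?_)
    · exact_mod_cast hE i j (Relation.EqvGen.rel _ _ (Or.inl h))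
    · exact_mod_cast hE i j (Relation.EqvGen.rel _ _ (Or.inr h))
  · refine skew_diag fun s => ?_
    have h1 := hb (s, true, 0)
    have h2 : E (s, false, 0) = -E (s, true, 0) := h1
    rw [h2]
    push_cast
    ring

/-- if the slopes are nondegenerate on the centre, then the central skew-adjoint maps are in the
motivic Lie algebra -/
theorem lie_of_nondegenerate (Pw : Powers A) (C : Cartan S) {Sl : Slopes A}
    (hN : Nondegenerate S Sl) (W : Module.End ℂ (H1 A.g)) (hW : Central S W) (hs : SkewMap W) :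
    W ∈ Lie S := by
  obtain ⟨v, hv, hvN⟩ : ∃ v : Fin A.g → ℂ, (∀ s, v s ≠ 0) ∧
      ∀ η : Fin A.g → ℤ, (∀ s, η s = -1 ∨ η s = 0 ∨ η s = 1) → η ≠ 0 → A.toV.NonNull η →
        ∀ a a' : ℂ, A.toV.P η a a' →
          a' = starRingEnd ℂ a * (sg η : ℂ) * ∏ s, v s ^ η s :=
    exists_vV Pw.toV
  have hch : ∀ η : Fin A.g → ℤ, (∀ s, η s = -1 ∨ η s = 0 ∨ η s = 1) → η ≠ 0 →
      ∀ a a' : ℂ, A.toV.P η a a' → a * a' ≠ 0 →
        a' = starRingEnd ℂ a * (sg η : ℂ) * ∏ s, v s ^ η s :=
    fun η hη h0 a a' hP ha => hvN η hη h0 ⟨a, a', hP, ha⟩ a a' hP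
  have hfix : ∀ n, ∀ z ∈ A.alg n, kap v z = z := fun n z hz => kap_alg Pw hv hch hz
  exact skew_mem C hv hch (fun X hX => GM_twist hv hfix hX) hN hW hs

/-- if the slopes are nondegenerate on the centre, then the central skew-adjoint maps kill the classes
of all algebraic cycles on `Y` -/
theorem kill_of_nondegenerate (Pw : Powers A) (C : Cartan S) {Sl : Slopes A}
    (hN : Nondegenerate S Sl) {n : ℕ} {x : Y.Z} {y : Pc0b458Z.Coh A.g 1} (hy : S.sp n x y)
    (W : Module.End ℂ (H1 A.g)) (hW : Central S W) (hs : SkewMap W) :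
    ∃ D, IsDer W D ∧ D y = 0 :=
  lie_of_nondegenerate Pw C hN W hW hs n x y hy

end

end Pc0b458E
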