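import Pool.Agent.Lib.Pc0b458E.Gl

/-!
# Classes on the powers of `A`, with real coefficients
-/

open Finset ComplexConjugate

namespace Pc0b458E

open Pc0b458V

/-- the classes of the algebraic cycles on the powers of `A` -/
structure PowV (A : CMAb) where
  cyc : (m : ℕ) → ℕ → Set (Coh A.g m)
  mul_mem : ∀ m i j, ∀ x ∈ cyc m i, ∀ y ∈ cyc m j, x * y ∈ cyc m (i + j)
  pull : ∀ m (v : Fin m → Fin A.g → ℂ), (∀ j, v j ∈ A.R) → ∀ i, ∀ x ∈ A.eff i, pb v x ∈ cyc m i
  int : (m : ℕ) → Coh A.g m →ₗ[ℂ] ℂ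
  int_cyc : ∀ m, ∀ x ∈ cyc m (m * A.g), ∃ r : ℚ, int m x = r
  int_prod : ∀ m (x : Fin m → Coh A.g 1),
    int m (lprod fun j => pb (Pi.single j 1) (x j)) = ∏ j, A.int (x j)

namespace PowV

variable {A : CMAb} (P : PowV A)

/-- the real span of the classes of cycles on `A^m` -/
noncomputable def Rm (m i : ℕ) : Submodule ℝ (Coh A.g m) := Submodule.span ℝ (P.cyc m i)

variable {P} {m : ℕ}

theorem Rm_mul {i j : ℕ} {z w : Coh A.g m} (hz : z ∈ P.Rm m i) (hw : w ∈ P.Rm m j) :
    z * w ∈ P.Rm m (i + j) := by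
  have : P.Rm m i * P.Rm m j ≤ P.Rm m (i + j) := by
    rw [Rm, Rm, Submodule.span_mul_span]
    apply Submodule.span_mono
    rintro _ ⟨x, hx, y, hy, rfl⟩
    exact P.mul_mem m i j x hx y hy
  exact this (Submodule.mul_mem_mul hz hw)

theorem Rm_smul {i : ℕ} (r : ℝ) {z : Coh A.g m} (hz : z ∈ P.Rm m i) : (r : ℂ) • z ∈ P.Rm m i :=
  (P.Rm m i).smul_mem r hz

theorem Rm_pull (v : Fin m → Fin A.g → ℂ) {i : ℕ} {z : Coh A.g 1} (hz : z ∈ A.R1 i) :
    pb v z ∈ P.Rm m i := by
  apply mem_of_dual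
  intro f hf
  have h1 : ∀ x ∈ A.eff i, f (pb v x) = 0 := by
    intro x hx
    have hc : IsClosed {v : Fin m → Fin A.g → ℂ | f (pb v x) = 0} :=
      isClosed_eq (pb_cont f x) continuous_const
    have hd : Dense {v : Fin m → Fin A.g → ℂ | ∀ j, v j ∈ A.R} := by
      have : {v : Fin m → Fin A.g → ℂ | ∀ j, v j ∈ A.R} =
          Set.pi Set.univ fun _ : Fin m => A.R := by
        ext v
        simp
      rw [this]
      exact dense_pi Set.univ fun _ _ => A.dense
    have hs : {v : Fin m → Fin A.g → ℂ | ∀ j, v j ∈ A.R} ⊆ {v | f (pb v x) = 0} :=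
      fun v hv => hf _ (Submodule.subset_span (P.pull m v hv i x hx))
    exact (hd.closure_eq ▸ closure_minimal hs hc) (Set.mem_univ v)
  have h2 : A.R1 i ≤ LinearMap.ker (f ∘ₗ (pb v).toLinearMap.restrictScalars ℝ) :=
    Submodule.span_le.2 fun x hx => h1 x hx
  exact h2 hz

theorem Rm_one : (1 : Coh A.g m) ∈ P.Rm m 0 := by
  have := Rm_pull (P := P) (m := m) 0 (i := 0) (z := 1) (Submodule.subset_span A.one_mem)
  rwa [map_one] at this

theorem Rm_lprod {n : ℕ} {k : Fin n → ℕ} {x : Fin n → Coh A.g m} (h : ∀ l, x l ∈ P.Rm m (k l)) :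
    lprod x ∈ P.Rm m (∑ l, k l) := by
  induction n with
  | zero => simpa [lprod_zero] using Rm_one
  | succ n ih =>
    rw [lprod_succ, Fin.sum_univ_succ]
    exact Rm_mul (h 0) (ih fun l => h l.succ)

theorem int_Rm {z : Coh A.g m} (hz : z ∈ P.Rm m (m * A.g)) : ∃ r : ℝ, P.int m z = r := by
  have h : P.Rm m (m * A.g) ≤
      (LinearMap.ker (Complex.imLm ∘ₗ (P.int m).restrictScalars ℝ)) := by
    refine Submodule.span_le.2 fun x hx => ?_
    obtain ⟨r, h⟩ := P.int_cyc m x hx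
    simp only [SetLike.mem_coe, LinearMap.mem_ker, LinearMap.comp_apply,
      LinearMap.restrictScalars_apply, h, Complex.imLm_coe]
    simp
  have h' := h hz
  simp only [LinearMap.mem_ker, LinearMap.comp_apply, LinearMap.restrictScalars_apply,
    Complex.imLm_coe] at h'
  exact ⟨(P.int m z).re, by apply Complex.ext <;> simp [h']⟩

/-- the products of the two parts are complex conjugate -/
theorem split {n : ℕ} {k : Fin n → ℕ} {X X' : Fin n → Coh A.g m}
    (h1 : ∀ l, X l + X' l ∈ P.Rm m (k l))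
    (h2 : ∀ l, Complex.I • X l - Complex.I • X' l ∈ P.Rm m (k l)) :
    ∃ B ∈ P.Rm m (∑ l, k l), ∃ C ∈ P.Rm m (∑ l, k l),
      lprod X = B - Complex.I • C ∧ lprod X' = B + Complex.I • C := by
  induction n with
  | zero =>
    refine ⟨1, by simpa using Rm_one, 0, zero_mem _, ?_, ?_⟩
    · rw [lprod_zero, smul_zero, sub_zero]
    · rw [lprod_zero, smul_zero, add_zero]
  | succ n ih =>
    obtain ⟨B, hB, C, hC, e1, e2⟩ := ih (fun l => h1 l.succ) fun l => h2 l.succ
    have hU := h1 0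
    have hV := h2 0
    have hI : ∀ z : Coh A.g m, Complex.I • Complex.I • z = -z := by
      intro z
      rw [smul_smul, Complex.I_mul_I, neg_one_smul]
    have hX : X 0 = ((1 / 2 : ℝ) : ℂ) • ((X 0 + X' 0) -
        Complex.I • (Complex.I • X 0 - Complex.I • X' 0)) := by
      rw [smul_sub Complex.I, hI, hI]
      push_cast
      module
    have hX' : X' 0 = ((1 / 2 : ℝ) : ℂ) • ((X 0 + X' 0) +
        Complex.I • (Complex.I • X 0 - Complex.I • X' 0)) := by
      rw [smul_sub Complex.I, hI, hI]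
      push_cast
      module
    generalize X 0 + X' 0 = U at hU hX hX'
    generalize Complex.I • X 0 - Complex.I • X' 0 = V at hV hX hX'
    rw [Fin.sum_univ_succ]
    refine ⟨((1 / 2 : ℝ) : ℂ) • (U * B - V * C),
      Rm_smul _ (sub_mem (Rm_mul hU hB) (Rm_mul hV hC)), ((1 / 2 : ℝ) : ℂ) • (V * B + U * C),
      Rm_smul _ (add_mem (Rm_mul hV hB) (Rm_mul hU hC)), ?_, ?_⟩
    · rw [lprod_succ, e1, hX]
      simp only [smul_mul_assoc, sub_mul, mul_sub, mul_smul_comm, smul_sub, smul_add, smul_smul]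
      have : (((1 / 2 : ℝ) : ℂ)) * Complex.I * Complex.I = -((1 / 2 : ℝ) : ℂ) := by
        rw [mul_assoc, Complex.I_mul_I]; ring
      simp only [this, mul_comm Complex.I]
      module
    · rw [lprod_succ, e2, hX']
      simp only [smul_mul_assoc, add_mul, mul_add, mul_smul_comm, smul_sub, smul_add, smul_smul]
      have : (((1 / 2 : ℝ) : ℂ)) * Complex.I * Complex.I = -((1 / 2 : ℝ) : ℂ) := by
        rw [mul_assoc, Complex.I_mul_I]; ring
      simp only [this, mul_comm Complex.I]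
      module

end PowV

end Pc0b458E
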