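import Pool.Agent.Lib.Pc0b458E.Code

/-!
# Central maps with values `1` and `-1` at the places

`fix_of_quad`: the central map `Z` of the theorem on the central involution fixes the class of a cycle
if the parities of its weights are spanned by vectors of weight at most four.
-/

universe u

open Finset

namespace Pc0b458E

open Pc0b458V Pc0b458L

section

variable {Pl : Type} [Fintype Pl]

/-- the product of the values of `z` at the support of `v` -/
noncomputable def chi (z : Pl → ℂ) (v : Pl → ZMod 2) : ℂ :=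
  ∏ p, if v p = 0 then 1 else z p

theorem chi_add {z : Pl → ℂ} (hz : ∀ p, z p * z p = 1) (v w : Pl → ZMod 2) :
    chi z (v + w) = chi z v * chi z w := by
  unfold chi
  rw [← Finset.prod_mul_distrib]
  apply Finset.prod_congr rfl
  intro p _
  rw [Pi.add_apply]
  rcases zmod2_cases (v p) with h | h <;> rcases zmod2_cases (w p) with h' | h'
  · simp [h, h']
  · simp [h, h']
  · simp [h, h']
  · have h2 : (1 : ZMod 2) + 1 = 0 := by decide
    rw [h, h', if_pos h2, if_neg one_ne_zero, hz]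

theorem chi_zero (z : Pl → ℂ) : chi z 0 = 1 := by
  unfold chi
  apply Finset.prod_eq_one
  intro p _
  simp

theorem chi_neg (z : Pl → ℂ) (v : Pl → ZMod 2) : chi z (-v) = chi z v := by
  unfold chi
  apply Finset.prod_congr rfl
  intro p _
  simp

theorem chi_closure {z : Pl → ℂ} (hz : ∀ p, z p * z p = 1) {W : Set (Pl → ZMod 2)}
    (h : ∀ v ∈ W, chi z v = 1) {v : Pl → ZMod 2} (hv : v ∈ AddSubgroup.closure W) :
    chi z v = 1 := by
  induction hv using AddSubgroup.closure_induction with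
  | mem v hv => exact h v hv
  | zero => exact chi_zero z
  | add v w _ _ hv hw => rw [chi_add hz, hv, hw, one_mul]
  | neg v _ hv => rw [chi_neg, hv]

theorem pow_par {a : ℂ} (h : a * a = 1) (m : ℕ) : a ^ m = if (m : ZMod 2) = 0 then 1 else a := by
  rcases Nat.even_or_odd' m with ⟨k, rfl | rfl⟩
  · have h1 : ((2 * k : ℕ) : ZMod 2) = 0 := by
      rw [Nat.cast_mul, Nat.cast_ofNat, show (2 : ZMod 2) = 0 by decide, zero_mul]
    rw [if_pos h1, pow_mul, sq, h, one_pow]
  · have h1 : ((2 * k + 1 : ℕ) : ZMod 2) ≠ 0 := by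
      rw [Nat.cast_add, Nat.cast_mul, Nat.cast_ofNat, show (2 : ZMod 2) = 0 by decide, zero_mul,
        zero_add, Nat.cast_one]
      exact one_ne_zero
    rw [if_neg h1, pow_succ, pow_mul, sq, h, one_pow, one_mul]

theorem prod_par {z : Pl → ℂ} (hz : ∀ p, z p * z p = 1) (m : Pl → ℕ) :
    ∏ p, z p ^ m p = chi z fun p => (m p : ZMod 2) := by
  unfold chi
  exact Finset.prod_congr rfl fun p _ => pow_par (hz p) (m p)

end

section

variable {Y : Pc0b458Z.NumAb.{u}} {A : Pc0b458Z.CMAb} {S : Pc0b458G.Specialisation Y A}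
  {Pl : Type} [Fintype Pl] [DecidableEq Pl] {Γ : Subgroup (Equiv.Perm Pl)}

/-- central maps which fix the class of the polarisation -/
theorem exists_sign (F : Places S Γ) {Z : Module.End ℂ (H1 A.g)} (hZ : Central S Z)
    (hp : ext Z (pol A.g) = pol A.g) : ∃ z : Pl → ℂ, (∀ p, z p * z p = 1) ∧
      Z = Matrix.toLin' (Matrix.diagonal fun i : Ix A.g => z (F.pl i.1)) := by
  obtain ⟨z, hz⟩ := F.central Z hZ
  rw [diag_eq_toLin] at hz
  have hsq : ∀ s, z (F.pl s) * z (F.pl s) = 1 := by
    intro s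
    obtain ⟨c, hc, hc1⟩ := pol_rep A.g
    rw [hz] at hp
    have h5 : c ((0 : Fin A.g → ℤ), ({s} : Finset (Fin A.g))) ≠ 0 := by
      rw [hc1 s]
      exact one_ne_zero
    have h4 : (∏ i ∈ letters (0 : Fin A.g → ℤ), z (F.pl i.1)) *
        ∏ t ∈ ({s} : Finset (Fin A.g)), z (F.pl t) * z (F.pl t) = 1 :=
      (ext_fix A.toV hc).1 hp (0 : Fin A.g → ℤ) ({s} : Finset (Fin A.g)) (mem_idx_single s) h5
    have hl : (letters (0 : Fin A.g → ℤ)) = ∅ := by
      rw [← Finset.card_eq_zero, card_letters (η := (0 : Fin A.g → ℤ))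
        (fun _ => Or.inr (Or.inl rfl))]
      simp [size]
    rw [hl, Finset.prod_empty, Finset.prod_singleton, one_mul] at h4
    exact h4
  classical
  refine ⟨fun p => if ∃ s, F.pl s = p then z p else 1, fun p => ?_, ?_⟩
  · by_cases h : ∃ s, F.pl s = p
    · obtain ⟨s, rfl⟩ := h
      simp only [if_pos (⟨s, rfl⟩ : ∃ t, F.pl t = F.pl s), hsq]
    · simp only [if_neg h, mul_one]
  · rw [hz]
    congr 2
    funext i
    simp only [if_pos (⟨i.1, rfl⟩ : ∃ t, F.pl t = F.pl i.1)]

/-- the classes which are fixed by such a map -/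
theorem fix_iff_chi (pl : Fin A.g → Pl) {z : Pl → ℂ} (hz : ∀ p, z p * z p = 1) {n : ℕ}
    {y : Coh A.g 1} {c : (Fin A.g → ℤ) × Finset (Fin A.g) → ℂ}
    (hc : y = ∑ p ∈ idx A.g (2 * n), c p • mo p.1 p.2) :
    ext (Matrix.toLin' (Matrix.diagonal fun i : Ix A.g => z (pl i.1))) y = y ↔
      ∀ v ∈ parP pl '' wset n c, chi z v = 1 := by
  refine (ext_fix A.toV hc).trans ?_
  have key : ∀ (η : Fin A.g → ℤ) (T : Finset (Fin A.g)),
      (∏ i ∈ letters η, z (pl i.1)) * ∏ s ∈ T, z (pl s) * z (pl s) =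
        chi z (parP pl (letters η)) := by
    intro η T
    rw [prod_mdeg, prod_par hz, parP_eq pl η T]
  constructor
  · rintro h _ ⟨_, ⟨η, T, hq, h0, rfl⟩, rfl⟩
    rw [← key η T]
    exact h η T hq h0
  · intro h η T hq h0
    refine (key η T).trans ?_
    exact h _ ⟨letters η, ⟨η, T, hq, h0, rfl⟩, rfl⟩

/-- the parities are zero outside the image of `pl` -/
theorem closure_range (pl : Fin A.g → Pl) {W : Set (Finset (Ix A.g))} {v : Pl → ZMod 2}
    (hv : v ∈ AddSubgroup.closure (parP pl '' W)) {p : Pl} (hp : v p ≠ 0) : ∃ s, pl s = p := by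
  by_contra hcon
  apply hp
  clear hp
  induction hv using AddSubgroup.closure_induction with
  | mem v hv =>
    obtain ⟨I, -, rfl⟩ := hv
    have h1 : I.filter (fun i => pl i.1 = p) = ∅ := by
      rw [Finset.filter_eq_empty_iff]
      intro i _ h
      exact hcon ⟨i.1, h⟩
    rw [parP, h1, Finset.card_empty, Nat.cast_zero]
  | zero => rfl
  | add v w _ _ hv hw => rw [Pi.add_apply, hv, hw, add_zero]
  | neg v _ hv => rw [Pi.neg_apply, hv, neg_zero]

/-- for a set of places of even size there is a product of generators, one for each place -/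
theorem exists_mono (pl : Fin A.g → Pl) {v : Pl → ZMod 2} (hv : ∀ p, v p ≠ 0 → ∃ s, pl s = p)
    (h0 : ∑ p, v p = 0) : ∃ (k : ℕ) (w : Coh A.g 1), (univ.filter fun p => v p ≠ 0).card = 2 * k ∧
      w ∈ gr A.g 1 (2 * k) ∧ ∀ z : Pl → ℂ,
        (ext (Matrix.toLin' (Matrix.diagonal fun i : Ix A.g => z (pl i.1))) w = w ↔
          chi z v = 1) := by
  classical
  have hex : ∀ p : {p // v p ≠ 0}, ∃ s, pl s = p.1 := fun p => hv p.1 p.2
  choose σ hσ using hex
  have hinj : Function.Injective σ := by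
    intro p q h
    apply Subtype.ext
    rw [← hσ p, ← hσ q, h]
  obtain ⟨D, hD⟩ : ∃ D : Finset (Fin A.g), D = univ.image σ := ⟨_, rfl⟩
  let η : Fin A.g → ℤ := fun s => if s ∈ D then 1 else 0
  have hη : ∀ s, η s = -1 ∨ η s = 0 ∨ η s = 1 := by
    intro s
    by_cases h : s ∈ D
    · exact Or.inr (Or.inr (if_pos h))
    · exact Or.inr (Or.inl (if_neg h))
  have hsup : (univ.filter fun p => v p ≠ 0).card = D.card := by
    rw [hD, Finset.card_image_of_injective _ hinj, Finset.card_univ, Fintype.card_subtype]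
  have hsize : size η = D.card := by
    rw [size, Finset.card_eq_sum_ones, ← Finset.sum_filter_add_sum_filter_not univ (· ∈ D)]
    have e1 : ∑ s ∈ univ.filter (fun s => ¬ s ∈ D), (η s).natAbs = 0 := by
      apply Finset.sum_eq_zero
      intro s hs
      have : η s = 0 := if_neg (Finset.mem_filter.1 hs).2
      rw [this]
      rfl
    have e2 : ∑ s ∈ univ.filter (fun s => s ∈ D), (η s).natAbs = ∑ s ∈ D, 1 := by
      rw [Finset.filter_mem_eq_inter, Finset.univ_inter]
      apply Finset.sum_congr rfl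
      intro s hs
      have : η s = 1 := if_pos hs
      rw [this]
      rfl
    rw [e1, e2, add_zero]
  obtain ⟨k, hk⟩ : ∃ k, D.card = 2 * k := by
    have e1 : ∑ p, v p = ((univ.filter fun p => v p ≠ 0).card : ZMod 2) := by
      rw [Finset.card_eq_sum_ones, Nat.cast_sum, Finset.sum_filter]
      apply Finset.sum_congr rfl
      intro p _
      rcases zmod2_cases (v p) with h | h
      · rw [h, if_neg (not_not.2 rfl)]
      · rw [h, if_pos one_ne_zero, Nat.cast_one]
    rw [e1, hsup, ZMod.natCast_eq_zero_iff_even] at h0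
    obtain ⟨k, hk⟩ := h0
    exact ⟨k, by omega⟩
  have hidx : (η, (∅ : Finset (Fin A.g))) ∈ idx A.g (2 * k) := by
    rw [mem_idx]
    refine ⟨hη, fun s hs => absurd hs (Finset.notMem_empty s), ?_⟩
    rw [hsize, hk, Finset.card_empty, mul_zero, add_zero]
  have hgr : mo η ∅ ∈ gr A.g 1 (2 * k) := by
    have h1 := mo_mem_gr η (∅ : Finset (Fin A.g))
    have h2 : ∑ s, lw η ∅ s = 2 * k := by
      rw [← hk, ← hsize, size]
      apply Finset.sum_congr rfl
      intro s _
      unfold lw
      rw [if_neg (Finset.notMem_empty s)]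
      rcases hη s with h | h | h <;> simp [h]
    rwa [h2] at h1
  refine ⟨k, mo η ∅, hsup.trans hk, hgr, fun z => ?_⟩
  obtain ⟨c, hc, hc1, hc2⟩ : ∃ c : (Fin A.g → ℤ) × Finset (Fin A.g) → ℂ,
      mo η ∅ = ∑ q ∈ idx A.g (2 * k), c q • mo q.1 q.2 ∧ c (η, ∅) = 1 ∧
        ∀ q, q ≠ (η, ∅) → c q = 0 := by
    refine ⟨fun q => if q = (η, (∅ : Finset (Fin A.g))) then (1 : ℂ) else 0, ?_, if_pos rfl,
      fun q hq => if_neg hq⟩
    beta_reduce
    rw [Finset.sum_eq_single (η, (∅ : Finset (Fin A.g)))]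
    · rw [if_pos rfl, one_smul]
    · intro q _ hq
      rw [if_neg hq, zero_smul]
    · intro h
      exact absurd hidx h
  have hfac : (∏ i ∈ letters η, z (pl i.1)) *
      ∏ s ∈ (∅ : Finset (Fin A.g)), z (pl s) * z (pl s) = chi z v := by
    rw [Finset.prod_empty, mul_one, prod_letters hη]
    have e1 : ∀ s : Fin A.g, (if η s = 1 then z (pl ((s, true, (0 : Fin 1)) : Ix A.g).1)
        else if η s = -1 then z (pl ((s, false, (0 : Fin 1)) : Ix A.g).1) else 1) =
        if s ∈ D then z (pl s) else 1 := by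
      intro s
      by_cases h : s ∈ D
      · have h1 : η s = 1 := if_pos h
        rw [if_pos h1, if_pos h]
      · have h1 : η s = 0 := if_neg h
        rw [h1, if_neg h]
        simp
    rw [Finset.prod_congr rfl fun s _ => e1 s, Finset.prod_ite_mem, Finset.univ_inter, hD,
      Finset.prod_image fun p _ q _ h => hinj h, chi]
    have e2 : ∏ p : {p // v p ≠ 0}, z (pl (σ p)) = ∏ p : {p // v p ≠ 0}, z p.1 :=
      Finset.prod_congr rfl fun p _ => by rw [hσ p]
    rw [e2, ← Finset.prod_subtype (univ.filter fun p => v p ≠ 0) (by simp) z, Finset.prod_filter]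
    apply Finset.prod_congr rfl
    intro p _
    by_cases h : v p = 0
    · rw [if_neg (not_not.2 h), if_pos h]
    · rw [if_pos h, if_neg h]
  have h1 := ext_fix A.toV hc (z := fun i : Ix A.g => z (pl i.1))
  refine h1.trans ⟨fun h => ?_, fun h η' T' hq h0 => ?_⟩
  · rw [← hfac]
    refine h η ∅ hidx ?_
    intro h2
    exact one_ne_zero (hc1.symm.trans h2)
  · have h2 : (η', T') = (η, (∅ : Finset (Fin A.g))) := by
      by_contra h3
      exact h0 (hc2 _ h3)
    obtain ⟨rfl, rfl⟩ := Prod.mk.inj h2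
    exact hfac.trans h

/-- `Z` fixes the classes of degree at most four which are fixed by all central maps that fix the
classes of all algebraic cycles on `Y` -/
def FixFour (S : Pc0b458G.Specialisation Y A) (Z : Module.End ℂ (H1 A.g)) : Prop :=
  ∀ k ≤ 4, ∀ w : Pc0b458Z.Coh A.g 1, Pc0b458Z.InDeg k w →
    (∀ Z' : Module.End ℂ (H1 A.g), Central S Z' →
      (∀ m x' y', S.sp m x' y' → ext Z' y' = y') → ext Z' w = w) → ext Z w = w

theorem FixFour.fix_pol {Z : Module.End ℂ (H1 A.g)} (h : FixFour S Z) : ext Z (pol A.g) = pol A.g := by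
  refine h 2 (by norm_num) (Pc0b458Z.pol A.g) ?_ fun Z' _ hZ' => hZ' 1 _ _ S.pol
  show (pol A.g : Coh A.g 1) ∈ gr A.g 1 2
  exact Submodule.sum_mem _ fun t _ => dd_mem_gr t

/-- the condition on the Galois group, with words of weight at most four -/
theorem fix_of_quad (F : Places S Γ) {n : ℕ} (hQ : QuadCode Γ n)
    {Z : Module.End ℂ (H1 A.g)} (hZ : Central S Z) (h4 : FixFour S Z) {x : Y.Z} {y : Coh A.g 1}
    (hy : S.sp n x y) : ext Z y = y := by
  have hgr : y ∈ gr A.g 1 (2 * n) := by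
    obtain ⟨a, ha, b, hb, hab⟩ := S.alg n x y hy
    rw [hab]
    exact Submodule.sub_mem _ (A.eff_deg n a ha) (A.eff_deg n b hb)
  obtain ⟨c, hc⟩ := rep hgr
  obtain ⟨z, hz, rfl⟩ := exists_sign F hZ h4.fix_pol
  refine (fix_iff_chi F.pl hz hc).2 fun v hv => ?_
  have hW := hQ (parP F.pl '' wset n c) (parP_stable F hy hc) (parP_even F.pl)
  refine chi_closure hz ?_ (hW hv)
  rintro u ⟨hu, hu4⟩
  have hsum : ∑ p, u p = 0 := closure_even F.pl hu
  obtain ⟨k, w, hk, hw, hw'⟩ := exists_mono F.pl (fun p hp => closure_range F.pl hu hp) hsum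
  refine (hw' z).1 (h4 (2 * k) (by omega) w hw ?_)
  intro Z' hZ' hfix
  obtain ⟨z', hz', rfl⟩ := exists_sign F hZ' (hfix 1 _ _ S.pol)
  refine (hw' z').2 (chi_closure hz' ?_ hu)
  exact (fix_iff_chi F.pl hz' hc).1 (hfix n x y hy)

end

end Pc0b458E
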