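import Pool.Agent.Lib.Pc0b458E.Fix
import Pool.Agent.Lib.Pc0b458E.Uf
import Pool.Agent.Lib.Pc0b458E.Twist
import Pool.Agent.Lib.Pc0b458E.Alg2
import Pool.Agent.Lib.Pc0b458E.Phase
import Pool.Agent.Lib.Pc0b458E.RealC
import Pool.Agent.Lib.Pc0b458L.ScaleR

/-!
# The weights of the classes of algebraic cycles on `Y` are good if the centre is real
-/

universe u

open Finset ComplexConjugate

namespace Pc0b458E

open Pc0b458V Pc0b458L

variable {Y : Pc0b458Z.NumAb.{u}} {A : Pc0b458Z.CMAb} {S : Pc0b458G.Specialisation Y A}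

/-- the weights of the classes of algebraic cycles on `Y` are good -/
theorem good_of_realCentre (Pw : Powers A) (C : Cartan S) (hR : RealCentre S) {n : ℕ} {x : Y.Z}
    {z : Coh A.g 1} (hz : S.sp n x z)
    {c : (Fin A.g → ℤ) × Finset (Fin A.g) → ℂ} (hc : z = ∑ p ∈ idx A.g (2 * n), c p • mo p.1 p.2)
    {η : Fin A.g → ℤ} {T : Finset (Fin A.g)} (hp : (η, T) ∈ idx A.g (2 * n)) (h0 : η ≠ 0)
    (hN : A.toV.NonNull η) (hcp : c (η, T) ≠ 0) : A.toV.Good η := by
  obtain ⟨v, hv, hvN⟩ : ∃ v : Fin A.g → ℂ, (∀ s, v s ≠ 0) ∧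
      ∀ η : Fin A.g → ℤ, (∀ s, η s = -1 ∨ η s = 0 ∨ η s = 1) → η ≠ 0 → A.toV.NonNull η →
        ∀ a a' : ℂ, A.toV.P η a a' → a' = conj a * (sg η : ℂ) * ∏ s, v s ^ η s :=
    exists_vV Pw.toV
  have hch : ∀ η : Fin A.g → ℤ, (∀ s, η s = -1 ∨ η s = 0 ∨ η s = 1) → η ≠ 0 →
      ∀ a a' : ℂ, A.toV.P η a a' → a * a' ≠ 0 → a' = conj a * (sg η : ℂ) * ∏ s, v s ^ η s :=
    fun η hη h0 a a' hP ha => hvN η hη h0 ⟨a, a', hP, ha⟩ a a' hP
  have hfix : ∀ n, ∀ z ∈ A.alg n, kap v z = z := fun n z hz => kap_alg Pw hv hch hz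
  obtain ⟨hη, hT, hsz⟩ := mem_idx.1 hp
  have tw : ∀ X ∈ GM S, Matrix.diagonal (omD v) * X.conjTranspose *
      Matrix.diagonal (fun i => (omD v i)⁻¹) ∈ GM S := fun X hX => GM_twist hv hfix hX
  have hcard : (letters η).card = 2 * (n - T.card) := by
    have h1 : size η + 2 * T.card = 2 * n := hsz
    rw [card_letters hη]
    omega
  have hres : ∏ i ∈ letters η, (omD v i / (‖omD v i‖ : ℂ)) = 1 := by
    refine real3_scaled (G := GM S) (om := omD v) (omD_ne hv) GM_lie tw (GM_cartan C hv tw) ?_ ?_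
      (conn_three hR) (letters η) hcard ?_
    · rintro ⟨s, b, l⟩ ⟨t, c', l'⟩ h
      have hl : l = 0 := Subsingleton.elim _ _
      have hl' : l' = 0 := Subsingleton.elim _ _
      subst hl
      subst hl'
      apply uf_of_same C hv hch
      intro d hd
      exact GM_same hv tw h (p := fun i : Ix A.g => d i.1 i.2.1) (diag_mem.2 hd)
    · rintro ⟨s, b, l⟩
      have hl : l = 0 := Subsingleton.elim _ _
      subst hl
      refine ⟨(s, !b, 0), by simp, ?_, ?_, conn_bar hR s b⟩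
      · intro f hf
        have h1 := GM_pair (S := S) (p := fun i => (f i : ℂ)) hf s
        have h2 : f (s, true, 0) + f (s, false, 0) = 0 := by exact_mod_cast h1
        cases b
        · rw [add_comm]
          exact h2
        · exact h2
      · cases b
        · simp [omD, hv s]
        · simp [omD, hv s]
    · intro f hf
      have h1 := GM_weight hz hc hp hcp (p := fun i => (f i : ℂ)) hf
      exact_mod_cast h1
  exact (good_iff (A := A.toV) hη hN (hvN η hη h0 hN)).2 ((phase_iff hv hη).1 hres)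

end Pc0b458E
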