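import Pool.Agent.Lib.Pc0b458E.Match

/-!
# Relations between the coefficients of algebraic classes
-/

open Finset ComplexConjugate

namespace Pc0b458E

open Pc0b458V

namespace PowV

variable {A : CMAb} {P : PowV A} {r : ℕ} {η : Fin r → Fin A.g → ℤ}
  {σ : Fin A.g → Equiv.Perm (Fin r)}

theorem Mc_mem (s : Fin A.g) (p q : Fin r) : Mc s p q ∈ P.Rm r 1 := by
  have h : dd s ∈ A.R1 1 := by
    have h1 := CMAb.dT_R1 (A := A) {s}
    rw [card_singleton] at h1
    have h2 : (dT {s} : Coh A.g 1) = dd s := by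
      rw [dT, mo]
      have : lt (0 : Fin A.g → ℤ) {s} = fun i => if i = s then dd s else 1 := by
        funext i
        rw [lt_zero]
        by_cases h : i = s
        · subst h; simp
        · simp [h]
      rw [this, lprod_ite]
    rwa [h2] at h1
  exact sub_mem (sub_mem (Rm_pull _ h) (Rm_pull _ h)) (Rm_pull _ h)

theorem Yc_mem : Yc η σ ∈ P.Rm r (∑ s, ∑ p, if η p s = -1 then 0 else 1) := by
  apply Rm_lprod
  intro s
  apply Rm_lprod
  intro p
  split_ifs
  · exact Rm_one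
  · exact Mc_mem _ _ _

theorem count {k : Fin r → ℕ} (hη : ∀ l s, η l s = -1 ∨ η l s = 0 ∨ η l s = 1)
    (hk : ∀ l, size (η l) = 2 * k l) (hsum : ∀ s, ∑ l, η l s = 0) :
    ∑ l, k l + ∑ s, ∑ p, (if η p s = -1 then 0 else 1) = r * A.g := by
  have h1 : ∀ l, (size (η l) : ℤ) = ∑ s, (η l s + 2 * (if η l s = -1 then 1 else 0)) := by
    intro l
    unfold size
    push_cast
    refine Finset.sum_congr rfl fun s _ => ?_
    rcases hη l s with h | h | h <;> rw [h] <;> decide
  have h2 : (∑ l, (2 * k l : ℤ)) = 2 * ∑ s, ∑ l, (if η l s = -1 then (1 : ℤ) else 0) := by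
    have h3 : ∀ l, (2 * k l : ℤ) = ∑ s, (η l s + 2 * (if η l s = -1 then 1 else 0)) := by
      intro l
      rw [← h1 l, hk l]
      push_cast
      rfl
    rw [Finset.sum_congr rfl fun l _ => h3 l, Finset.sum_comm, Finset.mul_sum]
    refine Finset.sum_congr rfl fun s _ => ?_
    rw [Finset.sum_add_distrib, hsum s, zero_add, Finset.mul_sum]
  have h4 : (∑ s, ∑ l, (if η l s = -1 then (1 : ℤ) else 0)) +
      ∑ s, ∑ p, (if η p s = -1 then (0 : ℤ) else 1) = (r : ℤ) * A.g := by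
    rw [← Finset.sum_add_distrib]
    have : ∀ s, ((∑ l, (if η l s = -1 then (1 : ℤ) else 0)) +
        ∑ p, (if η p s = -1 then (0 : ℤ) else 1)) = r := by
      intro s
      rw [← Finset.sum_add_distrib]
      have : ∀ p, (if η p s = -1 then (1 : ℤ) else 0) + (if η p s = -1 then (0 : ℤ) else 1) = 1 := by
        intro p
        split_ifs <;> rfl
      rw [Finset.sum_congr rfl fun p _ => this p]
      simp
    rw [Finset.sum_congr rfl fun s _ => this s]
    simp [mul_comm]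
  have h5 : (((∑ l, k l + ∑ s, ∑ p, (if η p s = -1 then 0 else 1) : ℕ)) : ℤ) = ((r * A.g : ℕ) : ℤ) := by
    push_cast
    rw [← h4]
    have : (∑ l, (k l : ℤ)) = ∑ s, ∑ l, (if η l s = -1 then (1 : ℤ) else 0) := by
      rw [← Finset.mul_sum] at h2
      linarith
    rw [this]
  exact_mod_cast h5

theorem int_top : ∃ t : ℝ, t ≠ 0 ∧ P.int r (Tp A.g r) = t := by
  obtain ⟨t, ht, h⟩ := A.top_pos
  have h' : A.int (dT univ) = t := h
  refine ⟨t ^ r, pow_ne_zero _ ht.ne', ?_⟩
  rw [Tp, P.int_prod, Finset.prod_const, h']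
  simp

/-- the relation -/
theorem rel (P : PowV A) (hη : ∀ l s, η l s = -1 ∨ η l s = 0 ∨ η l s = 1) (hη0 : ∀ l, η l ≠ 0)
    {a a' : Fin r → ℂ} (hP : ∀ l, A.P (η l) (a l) (a' l)) (hsum : ∀ s, ∑ l, η l s = 0) :
    (∏ l, (sg (η l) : ℂ)) * ∏ l, a' l = conj (∏ l, a l) := by
  choose k hk hmem using hP
  choose σ hs h0 using fun s => exists_flip (fun l => η l s) (fun l => hη l s) (hsum s)
  obtain ⟨c, hc, hXY⟩ := Xp_Yc (η := η) (σ := σ) hη hs h0
  -- the two parts
  have h1 : ∀ l, a l • pb (Pi.single l 1) (mo (η l) ∅) +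
      a' l • pb (Pi.single l 1) (mo (-η l) ∅) ∈ P.Rm r (k l) := by
    intro l
    rw [← map_smul, ← map_smul, ← map_add]
    exact Rm_pull _ (hmem l)
  have h2 : ∀ l, Complex.I • (a l • pb (Pi.single l 1) (mo (η l) ∅)) -
      Complex.I • (a' l • pb (Pi.single l 1) (mo (-η l) ∅)) ∈ P.Rm r (k l) := by
    intro l
    obtain ⟨k', hk', h⟩ := CMAb.P_act (hη l) (hη0 l) ⟨k l, hk l, hmem l⟩ Complex.I
    have hkk : k' = k l := by
      have := hk l
      omega
    subst hkk
    rw [smul_smul, smul_smul, ← map_smul, ← map_smul, ← map_sub]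
    have e : (Complex.I * a l) • mo (η l) ∅ - (Complex.I * a' l) • (mo (-η l) ∅ : Coh A.g 1) =
        (Complex.I * a l) • mo (η l) ∅ + (conj Complex.I * a' l) • mo (-η l) ∅ := by
      rw [Complex.conj_I, neg_mul, neg_smul, sub_eq_add_neg]
    rw [e]
    exact Rm_pull _ h
  obtain ⟨B, hB, C, hC, e1, e2⟩ := split (P := P) h1 h2
  have hcount := count hη hk hsum
  have hY := Yc_mem (P := P) (η := η) (σ := σ)
  have hBY := Rm_mul hB hY
  have hCY := Rm_mul hC hY
  rw [hcount] at hBY hCY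
  obtain ⟨β, hβ⟩ := int_Rm hBY
  obtain ⟨γ, hγ⟩ := int_Rm hCY
  obtain ⟨t, ht, htop⟩ := int_top (P := P) (r := r)
  have f1 : P.int r ((lprod fun l => a l • pb (Pi.single l 1) (mo (η l) ∅)) * Yc η σ) =
      (∏ l, a l) * (c * t) := by
    rw [lprod_smul, smul_mul_assoc, map_smul, smul_eq_mul]
    have : (lprod fun l => pb (Pi.single l 1) (mo (η l) ∅)) * Yc η σ = (c : ℂ) • Tp A.g r := hXY
    rw [this, map_smul, htop, smul_eq_mul]
  have f2 : P.int r ((lprod fun l => a' l • pb (Pi.single l 1) (mo (-η l) ∅)) * Yc η σ) *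
      (∏ l, (sg (η l) : ℂ)) = (∏ l, a' l) * (c * t) := by
    rw [lprod_smul, smul_mul_assoc, map_smul, smul_eq_mul]
    have h3 : (lprod fun l => pb (Pi.single l 1) (mo (-η l) ∅)) = Xp fun l => -η l := rfl
    have h4 := congrArg (tau A.g r) hXY
    rw [map_mul, tau_Yc, map_smul, tau_Tp, tau_Xp η hη, smul_mul_assoc] at h4
    have h5 := congrArg (P.int r) h4
    rw [map_smul, map_smul, htop, smul_eq_mul, smul_eq_mul] at h5
    rw [h3, mul_assoc, mul_comm (P.int r _), h5]
  rw [e1, sub_mul, smul_mul_assoc, map_sub, map_smul, hβ, hγ, smul_eq_mul] at f1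
  rw [e2, add_mul, smul_mul_assoc, map_add, map_smul, hβ, hγ, smul_eq_mul] at f2
  have hsg : (∏ l, (sg (η l) : ℂ)) * (∏ l, (sg (η l) : ℂ)) = 1 := by
    rw [← Finset.prod_mul_distrib]
    refine Finset.prod_eq_one fun l _ => ?_
    exact_mod_cast congrArg (fun z : ℤ => (z : ℂ)) (sg_sq (hη l))
  have f3 := congrArg conj f1
  simp only [map_sub, map_mul, Complex.conj_I, Complex.conj_ofReal, neg_mul, sub_neg_eq_add] at f3
  have hct : ((c : ℂ) * t) ≠ 0 := mul_ne_zero (by exact_mod_cast hc) (by exact_mod_cast ht)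
  apply mul_right_cancel₀ hct
  rw [mul_assoc, ← f2, ← f3]
  linear_combination ((β : ℂ) + Complex.I * γ) * hsg

end PowV

end Pc0b458E
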