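import Pool.Agent.Lib.Pc0b458E.Sat
import Pool.Agent.Lib.Pc0b458L.Ratio

/-!
# Saturation: further forms
-/

universe u

open Finset ComplexConjugate

namespace Pc0b458E

open Pc0b458V Pc0b458L

variable {Y : Pc0b458Z.NumAb.{u}} {A : Pc0b458Z.CMAb} {S : Pc0b458G.Specialisation Y A}

/-- a diagonal unitary map which is trivial on `gensT S` normalises the motivic Lie algebra -/
theorem nrm_of_kill {t : Ix A.g → ℂ} (ht : ∀ i, ‖t i‖ = 1)
    (hk : ∀ x ∈ gensT S, ∏ i, t i ^ x i = 1) : Nrm (GM S) t := by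
  have h0 : ∀ i, t i ≠ 0 := by
    intro i h
    have := ht i
    rw [h, norm_zero] at this
    exact zero_ne_one this
  intro X hX
  have h1 := GM_conj h0 hk hX
  have h2 : Matrix.diagonal t * X * Matrix.diagonal (fun i => (t i)⁻¹) =
      Matrix.of fun i j => t i / t j * X i j := by
    ext i j
    rw [Matrix.mul_diagonal, Matrix.diagonal_mul, Matrix.of_apply, div_eq_mul_inv]
    ring
  rwa [h2] at h1

/-- a weight of size at most four in the group generated by the algebraic weights is good -/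
theorem good_of_sat (hS : Saturated A) {θ : Fin A.g → ℤ} (h1 : ∀ s, |θ s| ≤ 1) (h4 : size θ ≤ 4)
    (h0 : θ ≠ 0) (h : θ ∈ AddSubgroup.closure {θ | A.Algebraic θ}) : A.toV.Good θ := by
  have h2 : ∀ s, θ s = -1 ∨ θ s = 0 ∨ θ s = 1 := by
    intro s
    have := abs_le.mp (h1 s)
    omega
  have halg : A.Algebraic θ := hS _ h1 h
  exact CMAb.base (A := A.toV) h2 h0 h4
    (CMAb.nonNull_of_algebraic h0 ((Pc0b458Z.CMAb.algebraic_iff A).2 halg))

end Pc0b458E
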