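import Pool.Agent.Lib.Pc0b458G.Stmt

/-!
# Abelian varieties whose motivic Lie algebra has a scalar centre

The setting of `MP_c0b458_ag`. `Pc0b458Z.NumAb` and `Pc0b458Z.CMAb` are in
`Pool.Agent.Lib.Pc0b458V.Stmt`; `Pc0b458G.Specialisation` and `Pc0b458G.Product` are in
`Pool.Agent.Lib.Pc0b458G.Stmt`.

Let `Y` be an abelian variety over an algebraically closed field, and let `A` be a reduction of `Y`
over an algebraic closure of a finite field (or `A = Y`). `Lie S` is the Lie algebra of all linear
maps `T` of the first cohomology such that the derivation of the cohomology ring which extends `T`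
kills the classes of all algebraic cycles on `Y`. It is the Lie algebra of the group of the
automorphisms of the first cohomology which fix the classes of all algebraic cycles on `Y`.
-/

universe u

namespace Pc0b458E

open Pc0b458Z Pc0b458G

/-- The classes of algebraic cycles, with rational coefficients, on the powers of `A`, in a
cohomology for which homological and numerical equivalence agree on `A`. -/
structure Powers (A : CMAb) where
  /-- the classes of the algebraic cycles of codimension `i` on `A^m` -/
  cyc : (m : ℕ) → ℕ → Set (Coh A.g m)
  mul_mem : ∀ m i j, ∀ x ∈ cyc m i, ∀ y ∈ cyc m j, x * y ∈ cyc m (i + j)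
  /-- pull-back under the homomorphism `A^m → A` with coefficients `v` -/
  pull : ∀ m (v : Fin m → Fin A.g → ℂ), (∀ j, v j ∈ A.R) → ∀ i, ∀ x ∈ A.alg i, pb v x ∈ cyc m i
  /-- the trace map; on classes of codimension `m g` it is the degree -/
  int : (m : ℕ) → Coh A.g m → ℂ
  int_linear : ∀ m (c : ℂ) (x y : Coh A.g m), int m (c • x + y) = c * int m x + int m y
  int_cyc : ∀ m, ∀ x ∈ cyc m (m * A.g), ∃ r : ℚ, int m x = r
  /-- the degree of an exterior product -/
  int_prod : ∀ m (x : Fin m → Coh A.g 1),
    int m (List.ofFn fun j => pb (Pi.single j 1) (x j)).prod = ∏ j, A.int (x j)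
  /-- a class which is numerically trivial is zero -/
  num : ∀ i, ∀ x ∈ A.alg i, (∀ j, i + j = A.g → ∀ y ∈ A.alg j, A.int (x * y) = 0) → x = 0

/-- the first cohomology of `A` -/
abbrev H1 (g : ℕ) : Type := Fin g × Bool × Fin 1 → ℂ

/-- `D` is the derivation of the cohomology ring of `A` which extends `T` -/
def IsDer {g : ℕ} (T : Module.End ℂ (H1 g)) (D : Module.End ℂ (Coh g 1)) : Prop :=
  (∀ v, D (iota g 1 v) = iota g 1 (T v)) ∧ ∀ x y, D (x * y) = D x * y + x * D y

/-- the linear map of the first cohomology with eigenvectors `gen s b 0` and eigenvalues `d s b` -/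
def diag {g : ℕ} (d : Fin g → Bool → ℂ) : Module.End ℂ (H1 g) :=
  LinearMap.pi fun i => d i.1 i.2.1 • LinearMap.proj i

section

variable {Y : NumAb.{u}} {A : CMAb} (S : Specialisation Y A)

/-- The motivic Lie algebra of `Y`: the linear maps of the first cohomology which kill the classes
of all algebraic cycles on `Y`. -/
def Lie : Set (Module.End ℂ (H1 A.g)) :=
  {T | ∀ n x y, S.sp n x y → ∃ D, IsDer T D ∧ D y = 0}

/-- The centre of the algebra of the linear maps which commute with the motivic Lie algebra of `Y`
consists of the scalars. If `Y` is the square of an abelian variety `X` and the centre of the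
endomorphism algebra `End(X) ⊗ ℚ` is `ℚ`, then this follows from the theorems of Faltings, Zarhin
and Mori, since the divisors on `Y` generate the endomorphism algebra of `Y`. -/
def ScalarCentre : Prop :=
  ∀ Z : Module.End ℂ (H1 A.g), (∀ T ∈ Lie S, Z * T = T * Z) →
    (∀ Z' : Module.End ℂ (H1 A.g), (∀ T ∈ Lie S, Z' * T = T * Z') → Z * Z' = Z' * Z) →
    ∃ c : ℂ, Z = c • 1

/-- all diagonal elements of the motivic Lie algebra of `Y` have the same eigenvalue on `gen s b 0`
and on `gen t c 0` -/
def Same (s : Fin A.g) (b : Bool) (t : Fin A.g) (c : Bool) : Prop :=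
  ∀ d : Fin A.g → Bool → ℂ, diag d ∈ Lie S → d s b = d t c

/-- By Tate's theorem for the endomorphisms of `A` there is a CM algebra which contains a maximal
torus of the group of the automorphisms of the first cohomology which fix the classes of all
algebraic cycles on `Y`. (A power of the Frobenius of `A` is in this group, up to a scalar, and its
centraliser in this group is the group of the elements of `(End(A) ⊗ ℚ)ˣ` which fix these
classes.) -/
structure Cartan : Prop where
  /-- an element of the motivic Lie algebra which commutes with its diagonal elements is diagonal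
  (for `Y = X × X` this Lie algebra is reductive, by the theorems of Faltings, Zarhin and Mori) -/
  centraliser : ∀ T ∈ Lie S, (∀ d, diag d ∈ Lie S → diag d * T = T * diag d) → ∃ d, T = diag d
  /-- if the eigenvalues on `gen s b 0` and on `gen t c 0` are the same then a power of the Frobenius
  fixes `gen s b 0 * gen t (!c) 0`, up to a Tate twist, and by Tate's theorem for divisors it is a
  linear combination of classes of divisors on `A` -/
  divisor : ∀ s b t c, s ≠ t → Same S s b t c →
    gen s b 0 * gen t (!c) 0 ∈ Submodule.span ℂ (A.alg 1)
  /-- the space on which all eigenvalues are zero does not have dimension two (if `Y` is the square of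
  an abelian variety, its dimension is a multiple of four) -/
  zero : ∀ s, Same S s true s false → ∃ t c, t ≠ s ∧ Same S s true t c

end

end Pc0b458E
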