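import Pool.Agent.Lib.Pc0b458E.Stmt

/-!
# Classes fixed by the centre

The setting of `MP_c0b458_ag`, continued from `Pool.Agent.Lib.Pc0b458E.Stmt`. Let `Y` be an abelian
variety over an algebraically closed field. The centre of the algebra `End(Y) ⊗ ℚ` acts on the first
cohomology, and if the divisors on `Y` generate this algebra, for example if `Y` is the square of an
abelian variety, then the `Central` linear maps are the linear combinations of the elements of this
centre, by the theorems of Faltings, Zarhin and Mori.
-/

universe u

namespace Pc0b458E

open Pc0b458Z Pc0b458G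

/-- the endomorphism of the cohomology ring of `A` which extends the linear map `Z` of the first
cohomology -/
noncomputable def ext {g : ℕ} (Z : Module.End ℂ (H1 g)) : Coh g 1 →ₐ[ℂ] Coh g 1 :=
  ExteriorAlgebra.map Z

section

variable {Y : NumAb.{u}} {A : CMAb} (S : Specialisation Y A)

/-- `Z` is in the centre of the algebra of the linear maps which commute with the motivic Lie algebra
of `Y` -/
def Central (Z : Module.End ℂ (H1 A.g)) : Prop :=
  (∀ T ∈ Lie S, Z * T = T * Z) ∧
    ∀ Z' : Module.End ℂ (H1 A.g), (∀ T ∈ Lie S, Z' * T = T * Z') → Z * Z' = Z' * Z

/-- The class `y` is fixed by all central linear maps which fix the classes of all algebraic cycles of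
codimension at most two on `Y`, for example the class of the polarisation. -/
def Fixed (y : Coh A.g 1) : Prop :=
  ∀ Z : Module.End ℂ (H1 A.g), Central S Z →
    (∀ m ≤ 2, ∀ x' y', S.sp m x' y' → ext Z y' = y') → ext Z y = y

end

end Pc0b458E
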