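import Pool.Agent.Lib.Pc0b458E.StmtG

/-!
# Abelian varieties whose endomorphism algebra has a totally real centre of degree at most three

The setting of `MP_c0b458_ag`, continued from `Pool.Agent.Lib.Pc0b458E.Stmt` and
`Pool.Agent.Lib.Pc0b458E.StmtG`, where `Lie S` and `Central S` are defined.
-/

universe u

namespace Pc0b458E

open Pc0b458Z Pc0b458G

/-- the symplectic form on the first cohomology which is given by the polarisation: the generators
`gen s true 0` and `gen s false 0` are dual to each other, up to the sign -/
def form {g : ℕ} (x y : H1 g) : ℂ :=
  ∑ s, (x (s, true, 0) * y (s, false, 0) - x (s, false, 0) * y (s, true, 0))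

section

variable {Y : NumAb.{u}} {A : CMAb} (S : Specialisation Y A)

/-- The central linear maps are linear combinations of three maps, and they are self-adjoint for the
form given by the polarisation. (For `Y = X × X` the central linear maps are the linear combinations,
with complex coefficients, of the elements of the centre `F` of the algebra `End(X) ⊗ ℚ`, where `X`
is considered over an algebraic closure of the base field, and the adjoint is the Rosati involution.
Hence this holds if and only if `F` is totally real, or a product of totally real fields, and
`[F : ℚ] ≤ 3`.) -/
def RealCentre : Prop :=
  (∃ B : Fin 3 → Module.End ℂ (H1 A.g),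
    ∀ Z : Module.End ℂ (H1 A.g), Central S Z → Z ∈ Submodule.span ℂ (Set.range B)) ∧
  ∀ Z : Module.End ℂ (H1 A.g), Central S Z → ∀ x y, form (Z x) y = form x (Z y)

end

end Pc0b458E
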