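import Pool.Agent.Lib.Pc0b458E.StmtP
import Pool.Agent.Lib.Pc0b458E.StmtR

/-!
# The real places of the centre of the endomorphism algebra

The setting of `MP_c0b458_ag`, continued from `Pool.Agent.Lib.Pc0b458E.StmtG` and
`Pool.Agent.Lib.Pc0b458E.StmtP`. Let `F` be the centre of the algebra `End(Y) ⊗ ℚ`, a product of
totally real fields and of CM fields. The real places are the homomorphisms from `F` to `ℝ`, that
is, the embeddings of the totally real factors, and the Galois group permutes them.
-/

universe u

namespace Pc0b458E

open Pc0b458Z Pc0b458G

/-- the linear map `W` of the first cohomology is skew for the form given by the polarisation -/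
def SkewMap {g : ℕ} (W : Module.End ℂ (H1 g)) : Prop :=
  ∀ x y, form (W x) y = -form x (W y)

/-- the real places of the centre of the endomorphism algebra, and the group `Γ` of permutations of
the real places given by the Galois group -/
structure RealPlaces {Y : NumAb.{u}} {A : CMAb} (S : Specialisation Y A) {Pl : Type} [Fintype Pl]
    (Γ : Subgroup (Equiv.Perm Pl)) where
  /-- the centre acts on `gen s true 0` and on `gen s false 0` through the real place `p`, if
  `pl s = some p`, and through two complex conjugate embeddings, if `pl s = none` -/
  pl : Fin A.g → Option Pl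
  real : ∀ Z : Module.End ℂ (H1 A.g), Central S Z →
    ∃ (d : Fin A.g → Bool → ℂ) (z : Pl → ℂ), Z = diag d ∧ ∀ s b p, pl s = some p → d s b = z p
  complex : ∀ s, pl s = none →
    ∃ d : Fin A.g → Bool → ℂ, Central S (diag d) ∧ d s true ≠ d s false
  /-- the class of a cycle is the sum of its components `c m` of multidegree `m`, where only the real
  places are considered, and since the class is rational the Galois group permutes the set `M` of the
  multidegrees which occur -/
  galois : ∀ n x y, S.sp n x y → ∃ (M : Finset (Pl → ℕ)) (c : (Pl → ℕ) → Coh A.g 1),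
    y = ∑ m ∈ M, c m ∧ ∀ m ∈ M, c m ≠ 0 ∧ InDeg (2 * n) (c m) ∧
      (∀ z : Pl → ℂ, ext (diag fun s _ => (pl s).elim 1 z) (c m) = (∏ p, z p ^ m p) • c m) ∧
      ∀ γ ∈ Γ, (fun p => m (γ p)) ∈ M

end Pc0b458E
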