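import Pool.Agent.Lib.Pc0b458E.StmtM

/-!
# Slopes which are nondegenerate on the centre

The setting of `MP_c0b458_ag`, continued from `Pool.Agent.Lib.Pc0b458E.StmtM`, where `SkewMap` is
defined. Let `F` be the centre of the algebra `End(Y) ⊗ ℚ`, a product of totally real fields and of
CM fields. The central linear maps which are skew-adjoint are the linear combinations of the elements
of `F` which the Rosati involution maps to their opposites.
-/

universe u

namespace Pc0b458E

open Pc0b458Z Pc0b458G

/-- The slopes of an abelian variety `A` over an algebraic closure of a finite field of
characteristic `p`. For an embedding `e` of the field of the algebraic numbers in an algebraic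
closure of `ℚ_p`, `sl e s b` is the slope of the part of the crystalline cohomology on which the CM
algebra of `A` acts in the same way as on `gen s b 0`, that is, the valuation of the corresponding
eigenvalue of the Frobenius of `A`, divided by the valuation of the number of elements of the finite
field. -/
structure Slopes (A : CMAb) where
  /-- the embeddings -/
  E : Type
  /-- the slopes -/
  sl : E → Fin A.g → Bool → ℝ
  /-- the class of an algebraic cycle of codimension `n` is in the part of slope `n` -/
  alg : ∀ e n, ∀ y ∈ A.alg n,
    ∃ D, IsDer (diag fun s b => (sl e s b : ℂ)) D ∧ D y = (n : ℂ) • y

/-- The slopes are nondegenerate on the centre. For an embedding `τ` of `F` in `ℂ` let `a e τ` be the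
sum of the slopes, for the embedding `e`, on the part of the first cohomology on which `F` acts
through `τ`. The condition is: if `z` is a function on the embeddings `τ`, with value `-z τ` at the
complex conjugate of `τ`, and if `∑ τ, z τ * a e τ = 0` for all `e`, then `z = 0`. If `F` is an
imaginary quadratic field in which `p` splits, and if the two eigenspaces of `F` in the Lie algebra
of `Y` have different dimensions, then this holds. -/
def Nondegenerate {Y : NumAb.{u}} {A : CMAb} (S : Specialisation Y A) (Sl : Slopes A) : Prop :=
  ∀ Z : Module.End ℂ (H1 A.g), Central S Z → SkewMap Z →
    (∀ e, LinearMap.trace ℂ (H1 A.g) (Z * diag fun s b => (Sl.sl e s b : ℂ)) = 0) → Z = 0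

end Pc0b458E
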