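import Pool.Agent.Lib.Pc0b458E.StmtG

/-!
# Abelian varieties whose endomorphism algebra has a totally real centre

The setting of `MP_c0b458_ag`, continued from `Pool.Agent.Lib.Pc0b458E.Stmt` and
`Pool.Agent.Lib.Pc0b458E.StmtG`, where `Lie S` and `Central S` are defined. Let the centre `F` of the
algebra `End(Y) ⊗ ℚ` be a totally real field, or a product of totally real fields. The places are the
homomorphisms from `F` to `ℂ`, and the Galois group permutes them.
-/

universe u

namespace Pc0b458E

open Pc0b458Z Pc0b458G

/-- The class `y` has the multidegree `m`: the linear map of the first cohomology which multiplies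
`gen s b 0` by `z (pl s)` multiplies `y` by the product of the `z p ^ m p`, for all `z`. -/
def MultiDeg {g : ℕ} {Pl : Type} [Fintype Pl] (pl : Fin g → Pl) (m : Pl → ℕ) (y : Coh g 1) : Prop :=
  ∀ z : Pl → ℂ, ext (diag fun s _ => z (pl s)) y = (∏ p, z p ^ m p) • y

/-- The centre is totally real, with the set of places `Pl` and the group `Γ` of permutations of the
places given by the Galois group. -/
structure Places {Y : NumAb.{u}} {A : CMAb} (S : Specialisation Y A) {Pl : Type} [Fintype Pl]
    (Γ : Subgroup (Equiv.Perm Pl)) where
  /-- the centre acts on `gen s true 0` and on `gen s false 0` through the place `pl s` -/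
  pl : Fin A.g → Pl
  central : ∀ Z : Module.End ℂ (H1 A.g), Central S Z → ∃ z : Pl → ℂ, Z = diag fun s _ => z (pl s)
  /-- the class of a cycle is the sum of its components `c m` of multidegree `m`, and since the class
  is rational the Galois group permutes the set `M` of the multidegrees which occur -/
  galois : ∀ n x y, S.sp n x y → ∃ (M : Finset (Pl → ℕ)) (c : (Pl → ℕ) → Coh A.g 1),
    y = ∑ m ∈ M, c m ∧ ∀ m ∈ M, c m ≠ 0 ∧ InDeg (2 * n) (c m) ∧ MultiDeg pl m (c m) ∧
      ∀ γ ∈ Γ, (fun p => m (γ p)) ∈ M

/-- The condition on the Galois group. Let `W` be a set of functions on the set of places, with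
values in the field with two elements, which is stable under the Galois group. If all functions in `W`
have sum zero, and are not zero at no more than `2 n` places, then they are sums of functions in the
span of `W` which are not zero at no more than four places. -/
def QuadCode {Pl : Type} [Fintype Pl] (Γ : Subgroup (Equiv.Perm Pl)) (n : ℕ) : Prop :=
  ∀ W : Set (Pl → ZMod 2), (∀ γ ∈ Γ, ∀ v ∈ W, (fun p => v (γ p)) ∈ W) →
    (∀ v ∈ W, ∑ p, v p = 0 ∧ (Finset.univ.filter fun p => v p ≠ 0).card ≤ 2 * n) →
      W ⊆ AddSubgroup.closure
        {v | v ∈ AddSubgroup.closure W ∧ (Finset.univ.filter fun p => v p ≠ 0).card ≤ 4}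

end Pc0b458E
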