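import Pool.Agent.Lib.Pc0b458E.StmtG

/-!
# The algebraic weights are saturated

The setting of `MP_c0b458_ag`, continued from `Pool.Agent.Lib.Pc0b458E.StmtG`. Let `A` be an abelian
variety over an algebraic closure of a finite field, and take a cohomology for which homological and
numerical equivalence agree on all powers of `A`.
-/

namespace Pc0b458E

open Pc0b458Z

/-- A weight which is an integral linear combination of algebraic weights is algebraic. (By Jannsen's
theorem and Tannaka duality, a class of even degree on `A` is a linear combination of classes of
algebraic cycles if and only if the motivic group of `A` acts on it through a power of the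
multiplier. This group is contained in the torus of the CM algebra, so it acts on `mon η` through
the character `∏ χ s ^ η s`, times a power of the multiplier `μ`; the weight `η` is algebraic if and
only if the sum of the `η s` is even and `∏ χ s ^ η s = μ ^ (∑ η s / 2)` on this group.) -/
def Saturated (A : CMAb) : Prop :=
  ∀ η : Fin A.g → ℤ, (∀ s, |η s| ≤ 1) → η ∈ AddSubgroup.closure {θ | A.Algebraic θ} →
    A.Algebraic η

end Pc0b458E
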